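import Mathlib

namespace Pool.V11275.Toric

open Polynomial

/-- All complex roots real and all real roots simple, with positive leading coefficient. -/
structure RR (f : ℝ[X]) : Prop where
  splits : f.Splits
  lead : 0 < f.leadingCoeff
  simple : ∀ y, f.eval y = 0 → f.derivative.eval y ≠ 0

lemma RR.ne_zero {f : ℝ[X]} (h : RR f) : f ≠ 0 := by
  intro h0
  have := h.lead
  rw [h0] at this
  simp at this

lemma RR.nodup {f : ℝ[X]} (h : RR f) : f.roots.Nodup := by
  rw [Multiset.nodup_iff_count_le_one]
  intro a
  rw [count_roots]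
  by_contra hc
  push Not at hc
  have h1 := (one_lt_rootMultiplicity_iff_isRoot h.ne_zero).1 hc
  exact h.simple a h1.1 h1.2

lemma RR.eq_nodal {f : ℝ[X]} (h : RR f) :
    f = C f.leadingCoeff * Lagrange.nodal f.roots.toFinset id := by
  conv_lhs => rw [h.splits.eq_prod_roots]
  congr 1
  rw [Lagrange.nodal, Finset.prod, Multiset.toFinset_val, h.nodup.dedup]
  simp

lemma RR.card {f : ℝ[X]} (h : RR f) : f.roots.toFinset.card = f.natDegree := by
  rw [Multiset.toFinset_card_of_nodup h.nodup, h.splits.natDegree_eq_card_roots]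

/-- The Hermite-Biehler type lemma. -/
theorem interlace {f F : ℝ[X]} (hf : RR f) (hF : 0 < F.leadingCoeff)
    (hdeg : F.natDegree ≤ f.natDegree + 1) (hcoef : 0 ≤ F.coeff (f.natDegree + 1))
    (hneg : ∀ y, f.eval y = 0 → F.eval y * f.derivative.eval y < 0) :
    RR F ∧ ∀ y, F.eval y = 0 → 0 < f.eval y * F.derivative.eval y := by
  classical
  have hF0 : F ≠ 0 := by
    intro h0; rw [h0] at hF; simp at hF
  set s := f.roots.toFinset with hs
  set a := f.leadingCoeff with ha
  have ha0 : 0 < a := hf.lead
  have hfn : f = C a * Lagrange.nodal s id := hf.eq_nodal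
  have hcard : s.card = f.natDegree := hf.card
  set N := Lagrange.nodal s (id : ℝ → ℝ) with hN
  have hNm : N.Monic := Lagrange.nodal_monic
  have hNd : N.natDegree = f.natDegree := by rw [hN, Lagrange.natDegree_nodal, hcard]
  have hmem : ∀ i, i ∈ s ↔ f.eval i = 0 := by
    intro i
    rw [hs, Multiset.mem_toFinset, mem_roots hf.ne_zero, IsRoot.def]
  -- quotient and remainder
  set Q := F /ₘ N with hQ
  set Rm := F %ₘ N with hRm
  have hFQ : F = N * Q + Rm := by
    rw [hQ, hRm, add_comm]; exact (modByMonic_add_div F N).symm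
  have hQdeg : Q.natDegree ≤ 1 := by
    rw [hQ, natDegree_divByMonic F hNm, hNd]; omega
  have hRdeg : Rm.degree < (s.card : WithBot ℕ) := by
    rw [hcard, ← hNd]
    have := degree_modByMonic_lt F hNm
    rwa [degree_eq_natDegree hNm.ne_zero] at this
  set α := Q.coeff 1 with hα
  set β := Q.coeff 0 with hβ
  have hQe : Q = C α * X + C β := by
    rw [hα, hβ]
    exact eq_X_add_C_of_natDegree_le_one hQdeg
  have hRd' : Rm.natDegree < f.natDegree + 1 := by
    by_cases h : Rm = 0
    · rw [h]; simp
    · rw [degree_eq_natDegree h, hcard] at hRdeg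
      have : Rm.natDegree < f.natDegree := by exact_mod_cast hRdeg
      omega
  have hα0 : 0 ≤ α := by
    have h1 : F.coeff (f.natDegree + 1) = α := by
      conv_lhs => rw [hFQ, hQe]
      rw [coeff_add, mul_add, coeff_add, coeff_eq_zero_of_natDegree_lt hRd']
      have h2 : (N * (C α * X)).coeff (f.natDegree + 1) = α := by
        rw [show N * (C α * X) = (C α * N) * X by ring, coeff_mul_X, coeff_C_mul, ← hNd,
          hNm.coeff_natDegree, mul_one]
      have h3 : (N * C β).coeff (f.natDegree + 1) = 0 := by
        rw [coeff_mul_C, coeff_eq_zero_of_natDegree_lt (by rw [hNd]; omega), zero_mul]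
      rw [h2, h3]; ring
    rw [← h1]; exact hcoef
  -- the weights
  have hfd : ∀ i ∈ s, f.derivative.eval i = a * N.derivative.eval i := by
    intro i _
    rw [hfn, derivative_C_mul, eval_mul, eval_C]
  have hRi : ∀ i ∈ s, Rm.eval i = F.eval i := by
    intro i hi
    conv_rhs => rw [hFQ]
    rw [eval_add, eval_mul]
    have : N.eval i = 0 := by
      have := Lagrange.eval_nodal_at_node (v := (id : ℝ → ℝ)) hi
      simpa [hN] using this
    rw [this]; ring
  set w : ℝ → ℝ := fun i => Lagrange.nodalWeight s (id : ℝ → ℝ) i with hw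
  have hwd : ∀ i ∈ s, w i = (N.derivative.eval i)⁻¹ := by
    intro i hi
    have := Lagrange.nodalWeight_eq_eval_derivative_nodal (v := (id : ℝ → ℝ)) hi
    simpa [hw, hN] using this
  set c : ℝ → ℝ := fun i => w i * F.eval i with hc
  have hcneg : ∀ i ∈ s, c i < 0 := by
    intro i hi
    have h1 := hneg i ((hmem i).1 hi)
    rw [hfd i hi] at h1
    have h2 : N.derivative.eval i ≠ 0 := by
      intro h0; rw [h0] at h1; simp at h1
    simp only [hc]
    rw [hwd i hi]
    have h3 : (N.derivative.eval i)⁻¹ * F.eval i =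
        (F.eval i * (a * N.derivative.eval i)) / (a * N.derivative.eval i ^ 2) := by
      field_simp
    rw [h3]
    exact div_neg_of_neg_of_pos h1 (by positivity)
  -- real formula
  have hinj : Set.InjOn (id : ℝ → ℝ) (s : Set ℝ) := fun _ _ _ _ h => h
  have hReq : Rm = Lagrange.interpolate s (id : ℝ → ℝ) (fun i => F.eval i) :=
    Lagrange.eq_interpolate_of_eval_eq _ hinj hRdeg (fun i hi => hRi i hi)
  have hreal : ∀ y, y ∉ s →
      F.eval y = N.eval y * (α * y + β + ∑ i ∈ s, c i * (y - i)⁻¹) := by
    intro y hy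
    conv_lhs => rw [hFQ]
    rw [eval_add, eval_mul, hQe, hReq,
      Lagrange.eval_interpolate_not_at_node _ (fun i hi h => hy (by rw [h]; exact hi))]
    simp only [eval_add, eval_mul, eval_C, eval_X, id]
    rw [← mul_add]
    congr 2
    apply Finset.sum_congr rfl
    intro i _
    simp only [hc, hw]
    ring
  -- complex formula
  have hcomplex : ∀ z : ℂ, z.im ≠ 0 →
      aeval z F = aeval z N * ((α : ℂ) * z + β + ∑ i ∈ s, (c i : ℂ) * (z - i)⁻¹) := by
    intro z hz
    have hz' : ∀ i ∈ s, z ≠ (i : ℂ) := by
      rintro i _ rfl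
      simp at hz
    have key : aeval z Rm = aeval z N * ∑ i ∈ s, (c i : ℂ) * (z - i)⁻¹ := by
      rw [hReq, Lagrange.interpolate_eq_nodalWeight_mul_nodal_div_X_sub_C, map_sum, Finset.mul_sum]
      apply Finset.sum_congr rfl
      intro i hi
      have h1 : N = (X - C i) * (N / (X - C i)) := by
        have hd : (X - C i) ∣ N := by
          have := Lagrange.X_sub_C_dvd_nodal (id : ℝ → ℝ) hi
          simpa [hN] using this
        rw [EuclideanDomain.mul_div_cancel' (X_sub_C_ne_zero i) hd]
      have h2 : aeval z N = (z - i) * aeval z (N / (X - C i)) := by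
        conv_lhs => rw [h1]
        rw [map_mul, map_sub, aeval_X, aeval_C]
        rfl
      have h3 : z - (i : ℂ) ≠ 0 := sub_ne_zero.2 (hz' i hi)
      rw [h2]
      simp only [map_mul, aeval_C, id]
      simp only [hc, hw, Complex.coe_algebraMap, Complex.ofReal_mul]
      field_simp
      rw [← hN]
      ring
    conv_lhs => rw [hFQ]
    rw [map_add, map_mul, key, hQe]
    simp only [map_add, map_mul, aeval_C, aeval_X, Complex.coe_algebraMap]
    ring
  have hNz : ∀ z : ℂ, z.im ≠ 0 → aeval z N ≠ 0 := by
    intro z hz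
    rw [hN, Lagrange.nodal, map_prod, Finset.prod_ne_zero_iff]
    intro i _
    rw [map_sub, aeval_X, aeval_C]
    intro h
    rw [sub_eq_zero] at h
    rw [h] at hz
    simp at hz
  -- degenerate case
  have hdegen : s = ∅ → α = 0 → ∃ b : ℝ, b ≠ 0 ∧ F = C b := by
    intro h1 h2
    have : N = 1 := by rw [hN, h1, Lagrange.nodal_empty]
    have hR0 : Rm = 0 := by
      rw [h1] at hRdeg
      simpa using hRdeg
    refine ⟨β, ?_, ?_⟩
    · intro h3
      rw [hFQ, hQe, h2, h3, hR0] at hF0
      simp at hF0
    · rw [hFQ, hQe, this, h2, hR0]; simp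
  -- no nonreal roots
  have hnonreal : ∀ z : ℂ, aeval z F = 0 → z.im = 0 := by
    intro z hz
    by_contra him
    have h1 := hcomplex z him
    rw [hz] at h1
    have h2 : (α : ℂ) * z + β + ∑ i ∈ s, (c i : ℂ) * (z - i)⁻¹ = 0 := by
      rcases mul_eq_zero.1 h1.symm with h | h
      · exact absurd h (hNz z him)
      · exact h
    have h3 := congrArg Complex.im h2
    have h4 : ∀ i : ℝ, ((c i : ℂ) * (z - i)⁻¹).im = z.im * (-(c i) / Complex.normSq (z - i)) := by
      intro i
      rw [Complex.im_ofReal_mul, Complex.inv_im]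
      simp only [Complex.sub_im, Complex.ofReal_im, sub_zero]
      ring
    simp only [Complex.add_im, Complex.im_sum, h4, Complex.im_ofReal_mul, Complex.ofReal_im,
      Complex.zero_im, add_zero] at h3
    rw [← Finset.mul_sum] at h3
    have h5 : z.im * (α + ∑ i ∈ s, (-(c i) / Complex.normSq (z - i))) = 0 := by
      rw [← h3]; ring
    have h6 : α + ∑ i ∈ s, (-(c i) / Complex.normSq (z - i)) = 0 := by
      rcases mul_eq_zero.1 h5 with h | h
      · exact absurd h him
      · exact h
    have hpos : ∀ i ∈ s, 0 < -(c i) / Complex.normSq (z - i) := by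
      intro i hi
      apply div_pos (by linarith [hcneg i hi])
      rw [Complex.normSq_pos, sub_ne_zero]
      rintro rfl
      simp at him
    have hsum : 0 ≤ ∑ i ∈ s, (-(c i) / Complex.normSq (z - i)) :=
      Finset.sum_nonneg (fun i hi => (hpos i hi).le)
    have hα' : α = 0 := by linarith
    have hs' : s = ∅ := by
      by_contra hne
      have := Finset.sum_pos hpos (Finset.nonempty_iff_ne_empty.2 hne)
      linarith
    obtain ⟨b, hb, hFb⟩ := hdegen hs' hα'
    rw [hFb] at hz
    simp at hz
    exact hb hz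
  -- derivative at a real root
  have hder : ∀ y, F.eval y = 0 → 0 < f.eval y * F.derivative.eval y := by
    intro y hy
    have hys : y ∉ s := by
      intro h
      have := hneg y ((hmem y).1 h)
      rw [hy] at this
      simp at this
    have hN0 : N.eval y ≠ 0 := by
      intro h0
      apply hys
      rw [hmem, hfn, eval_mul, h0, mul_zero]
    set φ : ℝ → ℝ := fun t => α * t + β + ∑ i ∈ s, c i * (t - i)⁻¹ with hφ
    have hφ0 : φ y = 0 := by
      have := hreal y hys
      rw [hy] at this
      rcases mul_eq_zero.1 this.symm with h | h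
      · exact absurd h hN0
      · exact h
    have hne : ∀ i ∈ s, y - i ≠ 0 := by
      intro i hi h
      apply hys
      rw [sub_eq_zero] at h
      rw [h]; exact hi
    have hφd : HasDerivAt φ (α + ∑ i ∈ s, c i * (-1 / (y - i) ^ 2)) y := by
      have h1 : HasDerivAt (fun t : ℝ => α * t + β) α y := by
        simpa using ((hasDerivAt_id y).const_mul α).add_const β
      have h2 : HasDerivAt (fun t : ℝ => ∑ i ∈ s, c i * (t - i)⁻¹)
          (∑ i ∈ s, c i * (-1 / (y - i) ^ 2)) y := by
        apply HasDerivAt.fun_sum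
        intro i hi
        exact (((hasDerivAt_id y).sub_const i).inv (hne i hi)).const_mul (c i)
      exact h1.add h2
    have hprod := (N.hasDerivAt y).mul hφd
    have hFd := F.hasDerivAt y
    have heq : (fun t => F.eval t) =ᶠ[nhds y] fun t => N.eval t * φ t := by
      have hopen : ((s : Set ℝ)ᶜ) ∈ nhds y :=
        (s.finite_toSet.isClosed.isOpen_compl).mem_nhds (by simpa using hys)
      filter_upwards [hopen] with t ht
      exact hreal t (by simpa using ht)
    have hFd2 := hprod.congr_of_eventuallyEq heq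
    have huniq := hFd.unique hFd2
    rw [hφ0, mul_zero, zero_add] at huniq
    have hpos : ∀ i ∈ s, 0 < c i * (-1 / (y - i) ^ 2) := by
      intro i hi
      apply mul_pos_of_neg_of_neg (hcneg i hi)
      apply div_neg_of_neg_of_pos (by norm_num)
      have := hne i hi
      positivity
    have hDpos : 0 < α + ∑ i ∈ s, c i * (-1 / (y - i) ^ 2) := by
      by_cases hs' : s = ∅
      · rcases hα0.lt_or_eq with h | h
        · rw [hs']; simpa using h
        · obtain ⟨b, hb, hFb⟩ := hdegen hs' h.symm
          rw [hFb] at hy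
          simp at hy
          exact absurd hy hb
      · have := Finset.sum_pos hpos (Finset.nonempty_iff_ne_empty.2 hs')
        linarith
    have hfe : f.eval y = a * N.eval y := by
      conv_lhs => rw [hfn]
      rw [eval_mul, eval_C]
    rw [huniq, hfe]
    have : a * N.eval y * (N.eval y * (α + ∑ i ∈ s, c i * (-1 / (y - i) ^ 2))) =
        a * (N.eval y) ^ 2 * (α + ∑ i ∈ s, c i * (-1 / (y - i) ^ 2)) := by ring
    rw [this]
    positivity
  refine ⟨⟨?_, hF, ?_⟩, hder⟩
  · apply Splits.of_splits_map_of_injective (i := algebraMap ℝ ℂ) (algebraMap ℝ ℂ).injective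
      (IsAlgClosed.splits _)
    intro z hz
    have hFm : F.map (algebraMap ℝ ℂ) ≠ 0 := by
      rw [Ne, Polynomial.map_eq_zero]; exact hF0
    rw [mem_roots hFm, IsRoot.def, eval_map_algebraMap] at hz
    have := hnonreal z hz
    refine ⟨z.re, ?_⟩
    apply Complex.ext <;> simp [this]
  · intro y hy h0
    have := hder y hy
    rw [h0, mul_zero] at this
    exact lt_irrefl _ this

end Pool.V11275.Toric
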