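import Mathlib
import Pool.Agent.V11275.Toric1

namespace Pool.V11275.Toric

open Polynomial

/-- The auxiliary polynomials `S(m,r)` in the variable `y = x - 1`. -/
noncomputable def S : ℕ → ℕ → ℝ[X]
  | 0, 0 => 1
  | 0, 1 => 2
  | 0, (r + 2) => C ((4 * (r : ℝ) + 10) / ((r : ℝ) + 4)) * S 0 (r + 1) +
      C ((4 * ((r : ℝ) + 1)) / ((r : ℝ) + 4)) * (X * S 0 r)
  | (m + 1), r => S m (r + 1) + X * S m r
termination_by m r => (m, r)

lemma S_zero_zero : S 0 0 = 1 := by rw [S]
lemma S_zero_one : S 0 1 = 2 := by rw [S]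
lemma S_zero_add_two (r : ℕ) : S 0 (r + 2) =
    C ((4 * (r : ℝ) + 10) / ((r : ℝ) + 4)) * S 0 (r + 1) +
      C ((4 * ((r : ℝ) + 1)) / ((r : ℝ) + 4)) * (X * S 0 r) := by
  rw [S]
lemma S_succ (m r : ℕ) : S (m + 1) r = S m (r + 1) + X * S m r := by rw [S]

/-- coefficients are nonnegative, constant coefficient positive, degree bound, top coefficient -/
structure Pos (f : ℝ[X]) (d : ℕ) : Prop where
  nonneg : ∀ k, 0 ≤ f.coeff k
  zero : 0 < f.coeff 0
  deg : f.natDegree ≤ d
  top : 0 < f.coeff d

lemma S_pos_zero : ∀ r : ℕ, Pos (S 0 r) (r / 2) := by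
  intro r
  induction r using Nat.strong_induction_on with
  | _ r ih =>
    match r with
    | 0 =>
      rw [S_zero_zero]
      refine ⟨?_, by simp, by simp, by simp⟩
      intro k
      rw [coeff_one]; split_ifs <;> norm_num
    | 1 =>
      rw [S_zero_one]
      have h2 : (2 : ℝ[X]) = C 2 := rfl
      rw [h2]
      refine ⟨?_, by simp, by simp, by simp⟩
      intro k
      rw [coeff_C]; split_ifs <;> norm_num
    | r + 2 =>
      have h1 := ih (r + 1) (by omega)
      have h0 := ih r (by omega)
      have e : (r + 2) / 2 = r / 2 + 1 := by omega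
      rw [S_zero_add_two, e]
      have p1 : (0 : ℝ) < (4 * r + 10) / (r + 4) := by positivity
      have p2 : (0 : ℝ) < (4 * (r + 1)) / (r + 4) := by positivity
      have hX : ∀ k, 0 ≤ (X * S 0 r).coeff k := by
        intro k
        cases k with
        | zero => simp
        | succ k => rw [coeff_X_mul]; exact h0.nonneg k
      refine ⟨?_, ?_, ?_, ?_⟩
      · intro k
        rw [coeff_add, coeff_C_mul, coeff_C_mul]
        have := h1.nonneg k
        have := hX k
        positivity
      · rw [coeff_add, coeff_C_mul, coeff_C_mul]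
        have := h1.zero
        have := hX 0
        positivity
      · refine (natDegree_add_le _ _).trans (max_le ?_ ?_)
        · refine (natDegree_C_mul_le _ _).trans (h1.deg.trans (by omega))
        · refine (natDegree_C_mul_le _ _).trans ?_
          refine (natDegree_mul_le).trans ?_
          rw [natDegree_X]
          have := h0.deg
          omega
      · rw [coeff_add, coeff_C_mul, coeff_C_mul, coeff_X_mul]
        have := h1.nonneg (r / 2 + 1)
        have := h0.top
        positivity

lemma S_pos : ∀ m r : ℕ, Pos (S m r) (m + r / 2) := by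
  intro m
  induction m with
  | zero => intro r; rw [zero_add]; exact S_pos_zero r
  | succ m ih =>
    intro r
    have h1 := ih (r + 1)
    have h0 := ih r
    rw [S_succ]
    have hX : ∀ k, 0 ≤ (X * S m r).coeff k := by
      intro k
      cases k with
      | zero => simp
      | succ k => rw [coeff_X_mul]; exact h0.nonneg k
    refine ⟨?_, ?_, ?_, ?_⟩
    · intro k
      rw [coeff_add]
      have := h1.nonneg k
      have := hX k
      positivity
    · rw [coeff_add]
      have := h1.zero
      have := hX 0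
      positivity
    · refine (natDegree_add_le _ _).trans (max_le ?_ ?_)
      · refine h1.deg.trans (by omega)
      · refine (natDegree_mul_le).trans ?_
        rw [natDegree_X]
        have := h0.deg
        omega
    · rw [show m + 1 + r / 2 = (m + r / 2) + 1 by ring, coeff_add, coeff_X_mul]
      have := h1.nonneg (m + r / 2 + 1)
      have := h0.top
      positivity

lemma Pos.natDegree {f : ℝ[X]} {d : ℕ} (h : Pos f d) : f.natDegree = d :=
  le_antisymm h.deg (le_natDegree_of_ne_zero h.top.ne')

lemma Pos.lead {f : ℝ[X]} {d : ℕ} (h : Pos f d) : 0 < f.leadingCoeff := by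
  rw [leadingCoeff, h.natDegree]; exact h.top

lemma Pos.root_neg {f : ℝ[X]} {d : ℕ} (h : Pos f d) {y : ℝ} (hy : f.eval y = 0) : y < 0 := by
  by_contra hc
  push Not at hc
  rw [eval_eq_sum_range] at hy
  have h0 : 0 < ∑ i ∈ Finset.range (f.natDegree + 1), f.coeff i * y ^ i := by
    apply Finset.sum_pos'
    · intro i _
      exact mul_nonneg (h.nonneg i) (pow_nonneg hc i)
    · exact ⟨0, by simp, by simpa using h.zero⟩
  linarith

/-- The contiguous relation, evaluated at a real number. -/
lemma rel_eval (y : ℝ) : ∀ m r : ℕ,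
    ((m : ℝ) + r + 4) * (S m (r + 2)).eval y =
      ((4 + y) * m + 4 * r + 10) * (S m (r + 1)).eval y + 4 * (r + 1) * y * (S m r).eval y
        - m * y ^ 2 * (S (m - 1) (r + 1)).eval y := by
  intro m
  induction m with
  | zero =>
    intro r
    have h4 : (r : ℝ) + 4 ≠ 0 := by positivity
    rw [S_zero_add_two]
    simp only [eval_add, eval_mul, eval_C, eval_X, Nat.cast_zero]
    field_simp
    ring
  | succ m ih =>
    intro r
    have e1 := ih (r + 1)
    have e0 := ih r
    have hs : ∀ r, (S (m + 1) r).eval y = (S m (r + 1)).eval y + y * (S m r).eval y := by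
      intro r; rw [S_succ]; simp
    rw [hs, hs, hs, Nat.add_sub_cancel]
    rcases Nat.eq_zero_or_pos m with rfl | hm
    · push_cast at e0 e1 ⊢
      linear_combination e1 + y * e0
    · obtain ⟨l, rfl⟩ : ∃ l, m = l + 1 := ⟨m - 1, by omega⟩
      rw [Nat.add_sub_cancel] at e0 e1
      have hs' : ∀ r, (S (l + 1) r).eval y = (S l (r + 1)).eval y + y * (S l r).eval y := by
        intro r; rw [S_succ]; simp
      have h1 := hs' (r + 1)
      push_cast at e0 e1 ⊢
      linear_combination e1 + y * e0 + (l + 1) * y ^ 2 * h1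

lemma rel_eval_zero (y : ℝ) : ∀ m : ℕ,
    ((m : ℝ) + 3) * (S m 1).eval y =
      ((4 + y) * m + 6) * (S m 0).eval y - m * y ^ 2 * (S (m - 1) 0).eval y := by
  intro m
  induction m with
  | zero =>
    rw [S_zero_one, S_zero_zero]
    have h2 : (2 : ℝ[X]) = C 2 := rfl
    rw [h2]
    simp only [eval_C, eval_one, Nat.cast_zero]
    ring
  | succ m ih =>
    have e1 := rel_eval y m 0
    have hs : ∀ r, (S (m + 1) r).eval y = (S m (r + 1)).eval y + y * (S m r).eval y := by
      intro r; rw [S_succ]; simp
    rw [hs, hs, Nat.add_sub_cancel]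
    rcases Nat.eq_zero_or_pos m with rfl | hm
    · push_cast at ih e1 ⊢
      linear_combination e1 + y * ih
    · obtain ⟨l, rfl⟩ : ∃ l, m = l + 1 := ⟨m - 1, by omega⟩
      rw [Nat.add_sub_cancel] at ih e1
      have hs' : ∀ r, (S (l + 1) r).eval y = (S l (r + 1)).eval y + y * (S l r).eval y := by
        intro r; rw [S_succ]; simp
      have h1 := hs' 0
      push_cast at ih e1 ⊢
      linear_combination e1 + y * ih + (l + 1) * y ^ 2 * h1

/-- `f` interlaces `F`. -/
def Int' (f F : ℝ[X]) : Prop := ∀ y, F.eval y = 0 → 0 < f.eval y * F.derivative.eval y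

def Neg' (f F : ℝ[X]) : Prop := ∀ y, f.eval y = 0 → F.eval y * f.derivative.eval y < 0

lemma interlace' {f F : ℝ[X]} {d D : ℕ} (hf : RR f) (hfp : Pos f d) (hFp : Pos F D)
    (hD : D ≤ d + 1) (hneg : Neg' f F) : RR F ∧ Int' f F := by
  apply interlace hf hFp.lead
  · rw [hFp.natDegree, hfp.natDegree]; exact hD
  · exact hFp.nonneg _
  · exact hneg

/-- the sign of `S m (r+1)` at the roots of `S m r` -/
lemma neg_of_int {m r : ℕ} (h1 : 1 ≤ r → Int' (S m (r - 1)) (S m r))
    (h2 : 1 ≤ m → Int' (S (m - 1) r) (S m r)) : Neg' (S m r) (S m (r + 1)) := by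
  intro y hy
  have hy0 : y < 0 := (S_pos m r).root_neg hy
  set D := (S m r).derivative.eval y with hD
  have hm : 0 ≤ (m : ℝ) * ((S (m - 1) r).eval y * D) := by
    rcases Nat.eq_zero_or_pos m with rfl | hm
    · simp
    · have := h2 hm y hy
      positivity
  rcases Nat.eq_zero_or_pos r with rfl | hr
  · have e := rel_eval_zero y m
    rw [hy] at e
    rw [zero_add]
    rcases Nat.eq_zero_or_pos m with rfl | hm'
    · rw [S_zero_zero] at hy; simp at hy
    · have h := h2 hm' y hy
      have h3 : (0 : ℝ) < m := by exact_mod_cast hm'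
      have h4 : (S m 1).eval y * D * (m + 3) = -(m * y ^ 2 * ((S (m - 1) 0).eval y * D)) := by
        linear_combination D * e
      have h5 : 0 < m * y ^ 2 * ((S (m - 1) 0).eval y * D) := by
        have : 0 < y ^ 2 := (by nlinarith)
        positivity
      by_contra hc
      push Not at hc
      have : 0 ≤ (S m 1).eval y * D * (m + 3) := by positivity
      linarith
  · obtain ⟨s, rfl⟩ : ∃ s, r = s + 1 := ⟨r - 1, by omega⟩
    have e := rel_eval y m s
    rw [hy] at e
    have h := h1 hr y hy
    rw [Nat.add_sub_cancel] at h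
    have h4 : (S m (s + 1 + 1)).eval y * D * (m + s + 4) =
        4 * (s + 1) * y * ((S m s).eval y * D) -
          y ^ 2 * (m * ((S (m - 1) (s + 1)).eval y * D)) := by
      linear_combination D * e
    have h5 : 4 * (s + 1) * y * ((S m s).eval y * D) < 0 := by
      have : 0 < 4 * ((s : ℝ) + 1) * ((S m s).eval y * D) := by positivity
      nlinarith
    have h6 : 0 ≤ y ^ 2 * (m * ((S (m - 1) (s + 1)).eval y * D)) := by positivity
    by_contra hc
    push Not at hc
    have : 0 ≤ (S m (s + 1 + 1)).eval y * D * (m + s + 4) := by positivity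
    linarith

lemma main_S : ∀ m r : ℕ, RR (S m r) ∧ (1 ≤ r → Int' (S m (r - 1)) (S m r)) ∧
    (1 ≤ m → Int' (S (m - 1) r) (S m r)) := by
  intro m
  induction m with
  | zero =>
    intro r
    induction r with
    | zero =>
      refine ⟨⟨?_, ?_, ?_⟩, by intro h; omega, by intro h; omega⟩
      · rw [S_zero_zero]; exact Splits.one
      · rw [S_zero_zero]; simp
      · intro y hy; rw [S_zero_zero] at hy; simp at hy
    | succ r ih =>
      have hn := neg_of_int ih.2.1 ih.2.2
      obtain ⟨h1, h2⟩ := interlace' ih.1 (S_pos 0 r) (S_pos 0 (r + 1)) (by omega) hn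
      exact ⟨h1, fun _ => h2, by intro h; omega⟩
  | succ m ihm =>
    -- the relation between `S m r` and `S (m+1) r`
    have hB : ∀ r, RR (S (m + 1) r) ∧ Int' (S m r) (S (m + 1) r) := by
      intro r
      have h := ihm r
      have hn := neg_of_int h.2.1 h.2.2
      apply interlace' h.1 (S_pos m r) (S_pos (m + 1) r) (by omega)
      intro y hy
      have := hn y hy
      rw [S_succ, eval_add, eval_mul, hy, mul_zero, add_zero]
      exact this
    intro r
    induction r with
    | zero =>
      exact ⟨(hB 0).1, by intro h; omega, fun _ => (hB 0).2⟩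
    | succ r ih =>
      have hn := neg_of_int ih.2.1 ih.2.2
      obtain ⟨h1, h2⟩ := interlace' ih.1 (S_pos (m + 1) r) (S_pos (m + 1) (r + 1)) (by omega) hn
      exact ⟨h1, fun _ => h2, fun _ => (hB (r + 1)).2⟩

/-! ### The explicit polynomials -/

/-- `A m r` is the polynomial `g_{2m+r, m}` in the variable `y = x - 1`. -/
noncomputable def A (m r : ℕ) : ℝ[X] :=
  ∑ k ∈ Finset.range (2 * m + r + 1),
    C ((catalan (m + r - k) : ℝ) * ((2 * m + r - k).choose k : ℝ)) * X ^ k

lemma A_coeff (m r k : ℕ) :
    (A m r).coeff k = (catalan (m + r - k) : ℝ) * ((2 * m + r - k).choose k : ℝ) := by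
  unfold A
  rw [finsetSum_coeff]
  simp only [coeff_C_mul, coeff_X_pow]
  rw [Finset.sum_eq_single k]
  · simp
  · intro b _ hb
    rw [if_neg (fun h => hb h.symm), mul_zero]
  · intro hk
    rw [Finset.mem_range, not_lt] at hk
    have : (2 * m + r - k).choose k = 0 := by
      apply Nat.choose_eq_zero_of_lt
      omega
    rw [this]; simp

lemma A_succ (m r : ℕ) : A (m + 1) r = A m (r + 1) + X * A m r := by
  ext k
  cases k with
  | zero =>
    rw [coeff_add, mul_coeff_zero, coeff_X_zero, zero_mul, add_zero, A_coeff, A_coeff]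
    simp only [Nat.sub_zero, Nat.choose_zero_right]
    rw [show m + 1 + r = m + (r + 1) by ring]
  | succ k =>
    rw [coeff_add, coeff_X_mul, A_coeff, A_coeff, A_coeff]
    rw [show m + 1 + r - (k + 1) = m + r - k by omega,
      show m + (r + 1) - (k + 1) = m + r - k by omega,
      show 2 * m + (r + 1) - (k + 1) = 2 * m + r - k by omega]
    rw [← mul_add]
    congr 1
    by_cases hk : k ≤ 2 * m + r
    · rw [show 2 * (m + 1) + r - (k + 1) = (2 * m + r - k) + 1 by omega, Nat.choose_succ_succ]
      push_cast; ring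
    · rw [Nat.choose_eq_zero_of_lt (by omega : 2 * (m + 1) + r - (k + 1) < k + 1),
        Nat.choose_eq_zero_of_lt (by omega : 2 * m + r - k < k + 1),
        Nat.choose_eq_zero_of_lt (by omega : 2 * m + r - k < k)]
      simp

lemma catalan_rec (n : ℕ) : ((n : ℝ) + 2) * catalan (n + 1) = 2 * (2 * n + 1) * catalan n := by
  have h1 := succ_mul_catalan_eq_centralBinom (n + 1)
  have h2 := succ_mul_catalan_eq_centralBinom n
  have h3 := Nat.succ_mul_centralBinom_succ n
  rw [← h1, ← h2] at h3
  have h4 : ((n : ℝ) + 1) * (((n : ℝ) + 2) * catalan (n + 1)) =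
      ((n : ℝ) + 1) * (2 * (2 * n + 1) * catalan n) := by
    have : (((n + 1) * ((n + 1 + 1) * catalan (n + 1)) : ℕ) : ℝ) =
      ((2 * (2 * n + 1) * ((n + 1) * catalan n) : ℕ) : ℝ) := by rw [h3]
    push_cast at this
    linear_combination this
  have h5 : (n : ℝ) + 1 ≠ 0 := by positivity
  exact mul_left_cancel₀ h5 h4

lemma A_one_rec (r : ℕ) :
    C ((r : ℝ) + 4) * A 1 (r + 2) = C (4 * (r : ℝ) + 10) * A 1 (r + 1)
      + C (4 * ((r : ℝ) + 1)) * (X * A 1 r) := by
  ext k
  cases k with
  | zero =>
    rw [coeff_add, coeff_C_mul, coeff_C_mul, coeff_C_mul, mul_coeff_zero X, coeff_X_zero, zero_mul,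
      mul_zero, add_zero, A_coeff, A_coeff]
    simp only [Nat.sub_zero, Nat.choose_zero_right, Nat.cast_one, mul_one]
    have := catalan_rec (r + 2)
    rw [show 1 + (r + 2) = (r + 2) + 1 by ring, show 1 + (r + 1) = r + 2 by ring]
    push_cast at this
    linear_combination this
  | succ k =>
    rw [coeff_add, coeff_C_mul, coeff_C_mul, coeff_C_mul, coeff_X_mul, A_coeff, A_coeff, A_coeff]
    by_cases hk : k ≤ r + 1
    · obtain ⟨N, hN⟩ : ∃ N, r + 1 = N + k := ⟨r + 1 - k, by omega⟩
      rw [show 1 + (r + 2) - (k + 1) = N + 1 by omega,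
        show 2 * 1 + (r + 2) - (k + 1) = (N + 1) + 1 by omega,
        show 1 + (r + 1) - (k + 1) = N by omega,
        show 2 * 1 + (r + 1) - (k + 1) = N + 1 by omega,
        show 1 + r - k = N by omega,
        show 2 * 1 + r - k = N + 1 by omega, Nat.choose_succ_succ (N + 1) k]
      have hr : (r : ℝ) = N + k - 1 := by
        have : ((r + 1 : ℕ) : ℝ) = ((N + k : ℕ) : ℝ) := by rw [hN]
        push_cast at this
        linarith
      have hc := catalan_rec N
      have hb : ((k : ℝ) + 1) * ((N + 1).choose (k + 1) : ℝ) =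
          ((N : ℝ) + 1 - k) * ((N + 1).choose k : ℝ) := by
        by_cases hkN : k ≤ N + 1
        · have h := Nat.choose_succ_right_eq (N + 1) k
          have h' : (((N + 1).choose (k + 1) * (k + 1) : ℕ) : ℝ) =
              (((N + 1).choose k * (N + 1 - k) : ℕ) : ℝ) := by rw [h]
          rw [Nat.cast_mul, Nat.cast_mul, Nat.cast_sub hkN] at h'
          push_cast at h'
          linear_combination h'
        · rw [Nat.choose_eq_zero_of_lt (by omega : N + 1 < k + 1),
            Nat.choose_eq_zero_of_lt (by omega : N + 1 < k)]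
          simp
      have hN2 : (N : ℝ) + 2 ≠ 0 := by positivity
      apply mul_left_cancel₀ hN2
      rw [hr]
      push_cast
      linear_combination
        ((N : ℝ) + k + 3) * (((N + 1).choose k : ℝ) + ((N + 1).choose (k + 1) : ℝ)) * hc
          - 6 * (catalan N : ℝ) * hb
    · rw [Nat.choose_eq_zero_of_lt (by omega : 2 * 1 + (r + 2) - (k + 1) < k + 1),
        Nat.choose_eq_zero_of_lt (by omega : 2 * 1 + (r + 1) - (k + 1) < k + 1),
        Nat.choose_eq_zero_of_lt (by omega : 2 * 1 + r - k < k)]
      simp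

lemma A_one : ∀ r : ℕ, A 1 r = (1 + X) * S 0 r := by
  intro r
  induction r using Nat.strong_induction_on with
  | _ r ih =>
    match r with
    | 0 =>
      rw [S_zero_zero]
      ext k
      rw [A_coeff]
      match k with
      | 0 => simp [catalan_one]
      | 1 => simp [catalan_zero, coeff_one, coeff_X]
      | k + 2 =>
        rw [Nat.choose_eq_zero_of_lt (by omega)]
        simp [coeff_one, coeff_X]
    | 1 =>
      rw [S_zero_one]
      have h2 : (2 : ℝ[X]) = C 2 := rfl
      ext k
      rw [A_coeff, h2, coeff_mul_C]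
      match k with
      | 0 => simp [catalan_two]
      | 1 => simp [catalan_one, coeff_one, coeff_X]
      | k + 2 =>
        rw [Nat.choose_eq_zero_of_lt (by omega)]
        simp [coeff_one, coeff_X]
    | r + 2 =>
      have h1 := ih (r + 1) (by omega)
      have h0 := ih r (by omega)
      have h := A_one_rec r
      rw [h1, h0] at h
      have h4 : (r : ℝ) + 4 ≠ 0 := by positivity
      have hC : (C ((r : ℝ) + 4) : ℝ[X]) ≠ 0 := by
        rw [Ne, C_eq_zero]; exact h4
      apply mul_left_cancel₀ hC
      rw [h, S_zero_add_two]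
      have e1 : (C ((r : ℝ) + 4) : ℝ[X]) * C ((4 * (r : ℝ) + 10) / ((r : ℝ) + 4)) =
          C (4 * (r : ℝ) + 10) := by
        rw [← C_mul]; congr 1; field_simp
      have e2 : (C ((r : ℝ) + 4) : ℝ[X]) * C ((4 * ((r : ℝ) + 1)) / ((r : ℝ) + 4)) =
          C (4 * ((r : ℝ) + 1)) := by
        rw [← C_mul]; congr 1; field_simp
      rw [← e1, ← e2]
      ring

lemma A_eq (m : ℕ) : ∀ r, A (m + 1) r = (1 + X) * S m r := by
  induction m with
  | zero => exact A_one
  | succ m ih =>
    intro r
    rw [A_succ, ih, ih, S_succ]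
    ring

end Pool.V11275.Toric
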