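import Mathlib
import Pool.Agent.V11275.Toric2

namespace Pool.V11275.Toric

open Polynomial Finset

lemma cast_descFactorial' (N : ℕ) : ∀ n : ℕ,
    (N.descFactorial n : ℝ) = ∏ l ∈ range n, ((N : ℝ) - l) := by
  intro n
  induction n with
  | zero => simp
  | succ n ih =>
    rw [Finset.prod_range_succ, ← ih, Nat.descFactorial_succ]
    by_cases h : n ≤ N
    · rw [Nat.cast_mul, Nat.cast_sub h]; ring
    · rw [Nat.descFactorial_eq_zero_iff_lt.2 (by omega)]; simp

/-- Discrete orthogonality of the Legendre coefficients. -/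
lemma legendre_orth (n i : ℕ) (hi : 1 ≤ i) (h2 : 2 * i ≤ n) :
    ∑ j ∈ range (n + 1), (-1 : ℝ) ^ j * (n.choose j : ℝ) * ((2 * (n - j)).choose n : ℝ) /
      (2 * ((n : ℝ) - j - i) + 1) = 0 := by
  classical
  set p : ℝ[X] := ∏ l ∈ (range n).erase (2 * i - 1), (C 2 * X - C (l : ℝ)) with hp
  have hdeg : p.natDegree < n := by
    have h1 : p.natDegree ≤ ∑ l ∈ (range n).erase (2 * i - 1), (C 2 * X - C (l : ℝ)).natDegree :=
      natDegree_prod_le _ _
    have h3 : ∑ l ∈ (range n).erase (2 * i - 1), (C 2 * X - C (l : ℝ) : ℝ[X]).natDegree ≤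
        ∑ l ∈ (range n).erase (2 * i - 1), 1 := by
      apply Finset.sum_le_sum
      intro l _
      rw [sub_eq_add_neg, ← C_neg]
      exact natDegree_linear_le
    rw [Finset.sum_const, smul_eq_mul, mul_one, Finset.card_erase_of_mem
      (by rw [mem_range]; omega), card_range] at h3
    omega
  have hval : ∀ m : ℕ, p.eval (m : ℝ) * (2 * ((m : ℝ) - i) + 1) =
      (n.factorial : ℝ) * ((2 * m).choose n : ℝ) := by
    intro m
    have h1 : ((2 * m).descFactorial n : ℝ) = ∏ l ∈ range n, (2 * (m : ℝ) - l) := by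
      rw [cast_descFactorial']
      push_cast
      rfl
    rw [Nat.descFactorial_eq_factorial_mul_choose] at h1
    push_cast at h1
    rw [h1, ← Finset.mul_prod_erase (range n) _ (by rw [mem_range]; omega : 2 * i - 1 ∈ range n),
      hp, eval_prod]
    have e : (2 * (m : ℝ) - ((2 * i - 1 : ℕ) : ℝ)) = 2 * ((m : ℝ) - i) + 1 := by
      rw [Nat.cast_sub (by omega)]
      push_cast; ring
    rw [e, mul_comm]
    congr 1
    apply Finset.prod_congr rfl
    intro l _
    simp
  have hzero := congrFun (Polynomial.fwdDiff_iter_eq_zero_of_degree_lt (R := ℝ) hdeg) 0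
  rw [fwdDiff_iter_eq_sum_shift] at hzero
  rw [← Finset.sum_range_reflect] at hzero
  simp only [Pi.zero_apply, zero_add] at hzero
  have hn : (n.factorial : ℝ) ≠ 0 := by positivity
  have key : ∀ j ∈ range (n + 1),
      (-1 : ℝ) ^ j * (n.choose j : ℝ) * ((2 * (n - j)).choose n : ℝ) /
      (2 * ((n : ℝ) - j - i) + 1) =
      (1 / (n.factorial : ℝ)) * (((-1 : ℤ) ^ (n - (n + 1 - 1 - j)) * n.choose (n + 1 - 1 - j)) •
        p.eval ((n + 1 - 1 - j) • (1 : ℝ))) := by
    intro j hj
    rw [mem_range] at hj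
    have hjn : j ≤ n := by omega
    rw [show n + 1 - 1 - j = n - j by omega, show n - (n - j) = j by omega,
      Nat.choose_symm hjn, nsmul_eq_mul, mul_one]
    have hv := hval (n - j)
    rw [Nat.cast_sub hjn] at hv ⊢
    have hD : (2 * ((n : ℝ) - j - i) + 1) ≠ 0 := by
      intro h
      have : ((2 * ((n : ℤ) - j - i) + 1 : ℤ) : ℝ) = 0 := by push_cast; exact h
      have h' : (2 * ((n : ℤ) - j - i) + 1 : ℤ) = 0 := by exact_mod_cast this
      omega
    rw [div_eq_iff hD, zsmul_eq_mul]
    push_cast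
    have hv' : p.eval ((n : ℝ) - j) * (2 * ((n : ℝ) - j - i) + 1) / (n.factorial : ℝ) =
        ((2 * (n - j)).choose n : ℝ) := by
      rw [hv]; field_simp
    rw [← hv']
    ring
  rw [Finset.sum_congr rfl key, ← Finset.mul_sum, hzero, mul_zero]

/-- signed coefficients of `A 0 n` -/
noncomputable def b (n j : ℕ) : ℝ := (-1) ^ j * (A 0 n).coeff j

lemma b_eq_zero {n j : ℕ} (h : n < 2 * j) : b n j = 0 := by
  unfold b
  rw [A_coeff, Nat.choose_eq_zero_of_lt (by omega)]
  simp

lemma b_mul {n j : ℕ} (hj : j ≤ n) : ((n : ℝ) - j + 1) * b n j =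
    (-1 : ℝ) ^ j * (n.choose j : ℝ) * ((2 * (n - j)).choose n : ℝ) := by
  unfold b
  rw [A_coeff, show 0 + n - j = n - j by omega]
  have h1 := succ_mul_catalan_eq_centralBinom (n - j)
  have h2 : (n - j).centralBinom * (n - j).choose j = n.choose j * (2 * (n - j)).choose n := by
    rw [Nat.centralBinom_eq_two_mul_choose]
    obtain ⟨m, rfl⟩ : ∃ m, n = m + j := ⟨n - j, by omega⟩
    rw [Nat.add_sub_cancel]
    by_cases hjm : j ≤ m
    · rw [Nat.choose_mul hjm]
      rw [mul_comm ((m + j).choose j), Nat.choose_mul (by omega : j ≤ m + j)]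
      congr 1
      rw [Nat.add_sub_cancel]
      rw [← Nat.choose_symm (by omega : m - j ≤ 2 * m - j)]
      congr 1
      omega
    · rw [Nat.choose_eq_zero_of_lt (by omega : m < j),
        Nat.choose_eq_zero_of_lt (by omega : 2 * m < m + j)]
      simp
  have h3 : (((n - j + 1) * catalan (n - j) * (n - j).choose j : ℕ) : ℝ) =
      ((n.choose j * (2 * (n - j)).choose n : ℕ) : ℝ) := by
    rw [h1, h2]
  push_cast at h3
  rw [Nat.cast_sub hj] at h3
  linear_combination (-1 : ℝ) ^ j * h3

lemma A_zero_eval : ∀ n : ℕ, (A 0 n).eval (-1) = 1 := by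
  intro n
  induction n with
  | zero => simp [A]
  | succ n ih =>
    have h1 := A_succ 0 n
    have h2 := A_eq 0 n
    rw [zero_add] at h1 h2
    have h3 := congrArg (fun q => q.eval (-1 : ℝ)) (h1.symm.trans h2)
    simp only [eval_add, eval_mul, eval_X, eval_one, ih] at h3
    linarith

lemma A_natDegree_le (n : ℕ) : (A 0 n).natDegree ≤ n / 2 := by
  rw [natDegree_le_iff_coeff_eq_zero]
  intro N hN
  rw [A_coeff, Nat.choose_eq_zero_of_lt (by omega)]
  simp

lemma sum_b (n : ℕ) : ∑ j ∈ range (n / 2 + 1), b n j = 1 := by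
  have h := A_zero_eval n
  rw [eval_eq_sum_range' (Nat.lt_succ_of_le (A_natDegree_le n))] at h
  rw [← h]
  apply Finset.sum_congr rfl
  intro j _
  unfold b; ring

lemma b_orth (n i : ℕ) (hi : 1 ≤ i) (h2 : 2 * i ≤ n) :
    ∑ j ∈ range (n / 2 + 1), b n j / (2 * ((n : ℝ) - j - i) + 1) = -1 / (2 * (i : ℝ) + 1) := by
  have h0 := legendre_orth n i hi h2
  have h1 : ∑ j ∈ range (n / 2 + 1), (((n : ℝ) - j + 1) * b n j) / (2 * ((n : ℝ) - j - i) + 1) = 0 := by
    rw [← h0]
    have hsub : range (n / 2 + 1) ⊆ range (n + 1) := by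
      intro x hx; rw [mem_range] at hx ⊢; omega
    rw [← Finset.sum_subset hsub]
    · apply Finset.sum_congr rfl
      intro j hj
      rw [mem_range] at hj
      rw [b_mul (by omega)]
    · intro j hj hj'
      rw [mem_range] at hj hj'
      rw [Nat.choose_eq_zero_of_lt (by omega : 2 * (n - j) < n)]
      simp
  have h3 : ∀ j ∈ range (n / 2 + 1),
      (((n : ℝ) - j + 1) * b n j) / (2 * ((n : ℝ) - j - i) + 1) =
        b n j / 2 + ((2 * (i : ℝ) + 1) / 2) * (b n j / (2 * ((n : ℝ) - j - i) + 1)) := by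
    intro j hj
    rw [mem_range] at hj
    have hD : 0 < (2 * ((n : ℝ) - j - i) + 1) := by
      have : (j : ℝ) + i ≤ n := by
        have : j + i ≤ n := by omega
        exact_mod_cast this
      linarith
    field_simp
    ring
  rw [Finset.sum_congr rfl h3, Finset.sum_add_distrib, ← Finset.sum_div, sum_b, ← Finset.mul_sum]
    at h1
  have h4 : (2 * (i : ℝ) + 1) ≠ 0 := by positivity
  field_simp at h1 ⊢
  linarith

/-- `A 0 n` with the variable negated. -/
noncomputable def P (n : ℕ) : ℝ[X] := (A 0 n).comp (-X)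

lemma P_eval (n : ℕ) (c : ℝ) : (P n).eval c = ∑ j ∈ range (n / 2 + 1), b n j * c ^ j := by
  unfold P
  rw [eval_comp, eval_neg, eval_X, eval_eq_sum_range' (Nat.lt_succ_of_le (A_natDegree_le n))]
  apply Finset.sum_congr rfl
  intro j _
  unfold b
  rw [neg_pow]; ring

lemma P_eval_one (n : ℕ) : (P n).eval 1 = 1 := by
  rw [P_eval]; simpa using sum_b n

lemma A_top (n : ℕ) : 0 < (A 0 n).coeff (n / 2) := by
  rw [A_coeff]
  have h1 : 0 < catalan (0 + n - n / 2) := by
    by_contra h
    have h0 : catalan (0 + n - n / 2) = 0 := by omega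
    have := succ_mul_catalan_eq_centralBinom (0 + n - n / 2)
    rw [h0, mul_zero] at this
    exact (Nat.centralBinom_pos _).ne this
  have h2 : 0 < (2 * 0 + n - n / 2).choose (n / 2) := Nat.choose_pos (by omega)
  exact mul_pos (by exact_mod_cast h1) (by exact_mod_cast h2)

lemma A_natDegree (n : ℕ) : (A 0 n).natDegree = n / 2 :=
  le_antisymm (A_natDegree_le n) (le_natDegree_of_ne_zero (A_top n).ne')

lemma P_natDegree (n : ℕ) : (P n).natDegree = n / 2 := by
  unfold P
  rw [natDegree_comp, natDegree_neg, natDegree_X, mul_one, A_natDegree]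

/-- The vanishing of the functional. -/
lemma functional (n : ℕ) (q : ℝ[X]) (hq0 : q.coeff 0 = 0) (hq : q.natDegree ≤ n / 2) :
    ∫ t in (0 : ℝ)..1, (∑ i ∈ range (n / 2 + 1), q.coeff i *
      (∑ j ∈ range (n / 2 + 1), b n j * t ^ (2 * (n - j - i)) + t ^ (2 * i))) = 0 := by
  rw [intervalIntegral.integral_finsetSum]
  · apply Finset.sum_eq_zero
    intro i hi
    rw [mem_range] at hi
    rw [intervalIntegral.integral_const_mul]
    rcases Nat.eq_zero_or_pos i with rfl | hi0
    · rw [hq0, zero_mul]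
    · rw [intervalIntegral.integral_add, intervalIntegral.integral_finsetSum]
      · have h1 : ∀ j ∈ range (n / 2 + 1),
            ∫ t in (0 : ℝ)..1, b n j * t ^ (2 * (n - j - i)) =
              b n j / (2 * ((n : ℝ) - j - i) + 1) := by
          intro j hj
          rw [mem_range] at hj
          rw [intervalIntegral.integral_const_mul, integral_pow]
          rw [Nat.cast_mul, Nat.cast_sub (by omega), Nat.cast_sub (by omega)]
          simp
          ring
        rw [Finset.sum_congr rfl h1, b_orth n i hi0 (by omega), integral_pow]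
        push_cast
        simp
        right
        ring
      · intro j _
        exact (Continuous.intervalIntegrable (by fun_prop) _ _)
      · exact (Continuous.intervalIntegrable (by fun_prop) _ _)
      · exact (Continuous.intervalIntegrable (by fun_prop) _ _)
  · intro i _
    exact (Continuous.intervalIntegrable (by fun_prop) _ _)

/-- `P n` has all its roots real. -/
theorem P_splits (n : ℕ) : (P n).Splits := by
  classical
  set d := n / 2 with hd
  have hP0 : P n ≠ 0 := by
    intro h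
    have := P_eval_one n
    rw [h] at this
    simp at this
  set R := (P n).roots.filter (fun r => 1 < r) with hR
  set k := R.card with hk
  -- enough to show that `k ≥ d`
  by_cases hkd : d ≤ k
  · rw [splits_iff_card_roots]
    apply le_antisymm (card_roots' _)
    rw [P_natDegree]
    exact hkd.trans (Multiset.card_le_card (Multiset.filter_le _ _))
  exfalso
  push Not at hkd
  set Q : ℝ[X] := (R.map (fun r => X - C r)).prod with hQ
  have hQP : Q ∣ P n := by
    have h1 : Q ∣ ((P n).roots.map (fun r => X - C r)).prod :=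
      Multiset.prod_dvd_prod_of_le (Multiset.map_le_map (Multiset.filter_le _ _))
    exact h1.trans (prod_multiset_X_sub_C_dvd _)
  obtain ⟨M, hM⟩ := hQP
  have hQM : Q * M ≠ 0 := by rw [← hM]; exact hP0
  have hM0 : M ≠ 0 := right_ne_zero_of_mul hQM
  have hQroots : Q.roots = R := roots_multiset_prod_X_sub_C R
  have hMroots : ∀ c, 1 < c → M.eval c ≠ 0 := by
    intro c hc h
    have h1 : (P n).roots = R + M.roots := by
      rw [hM, roots_mul hQM, hQroots]
    have h2 : R = R + M.roots.filter (fun r => 1 < r) := by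
      have := congrArg (Multiset.filter (fun r => 1 < r)) h1
      rw [Multiset.filter_add] at this
      rw [← hR] at this
      have h3 : R.filter (fun r => 1 < r) = R := by
        rw [Multiset.filter_eq_self]
        intro a ha
        rw [hR, Multiset.mem_filter] at ha
        exact ha.2
      rw [h3] at this
      exact this
    have h4 : M.roots.filter (fun r => 1 < r) = 0 := by
      have := h2.symm
      simpa using this
    have h5 : c ∈ M.roots.filter (fun r => 1 < r) := by
      rw [Multiset.mem_filter, mem_roots hM0]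
      exact ⟨h, hc⟩
    rw [h4] at h5
    simp at h5
  have hQsign : ∀ c, c ≤ 1 → 0 < (-1 : ℝ) ^ k * Q.eval c := by
    intro c hc
    have h1 : Q.eval c = (R.map (fun r => c - r)).prod := by
      rw [hQ, eval_multiset_prod, Multiset.map_map]
      simp
    rw [h1]
    have h2 : ∀ (T : Multiset ℝ), (∀ r ∈ T, 1 < r) →
        0 < (-1 : ℝ) ^ T.card * (T.map (fun r => c - r)).prod := by
      intro T
      induction T using Multiset.induction_on with
      | empty => intro _; simp
      | cons a T ih =>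
        intro hT
        rw [Multiset.card_cons, Multiset.map_cons, Multiset.prod_cons, pow_succ]
        have h3 := ih (fun r hr => hT r (Multiset.mem_cons_of_mem hr))
        have h4 : 0 < a - c := by
          have := hT a (Multiset.mem_cons_self a T)
          linarith
        have : (-1 : ℝ) ^ T.card * -1 * ((c - a) * (T.map (fun r => c - r)).prod) =
            (a - c) * ((-1 : ℝ) ^ T.card * (T.map (fun r => c - r)).prod) := by ring
        rw [this]
        positivity
    apply h2
    intro r hr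
    rw [hR, Multiset.mem_filter] at hr
    exact hr.2
  have hM1 : 0 < (-1 : ℝ) ^ k * M.eval 1 := by
    have h1 := P_eval_one n
    rw [hM, eval_mul] at h1
    have h2 := hQsign 1 le_rfl
    have h3 : ((-1 : ℝ) ^ k * Q.eval 1) * ((-1 : ℝ) ^ k * M.eval 1) = 1 := by
      have : ((-1 : ℝ) ^ k) * ((-1 : ℝ) ^ k) = 1 := by
        rw [← mul_pow]; simp
      calc _ = (((-1 : ℝ) ^ k) * ((-1 : ℝ) ^ k)) * (Q.eval 1 * M.eval 1) := by ring
        _ = 1 := by rw [this, h1]; ring
    by_contra hc
    push Not at hc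
    have := mul_nonpos_of_nonneg_of_nonpos h2.le hc
    rw [h3] at this
    linarith
  have hMc : ∀ c, 1 ≤ c → 0 < (-1 : ℝ) ^ k * M.eval c := by
    intro c hc
    by_contra hneg
    push Not at hneg
    have hcont : ContinuousOn (fun x => (-1 : ℝ) ^ k * M.eval x) (Set.Icc 1 c) := by fun_prop
    have := intermediate_value_Icc' hc hcont
    obtain ⟨x, hx, hx0⟩ := this ⟨hneg, hM1.le⟩
    have hx0' : M.eval x = 0 := by
      have h1 : (-1 : ℝ) ^ k ≠ 0 := pow_ne_zero _ (by norm_num)
      simpa [h1] using hx0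
    rcases hx.1.lt_or_eq with h | h
    · exact hMroots x h hx0'
    · rw [← h] at hx0'
      rw [hx0'] at hM1
      simp at hM1
  -- the test polynomial
  set q : ℝ[X] := X * Q with hq
  have hQdeg : Q.natDegree = k := by
    rw [hQ, natDegree_multiset_prod_X_sub_C_eq_card]
  have hqdeg : q.natDegree ≤ d := by
    rw [hq]
    refine natDegree_mul_le.trans ?_
    rw [natDegree_X, hQdeg]
    omega
  have hq0 : q.coeff 0 = 0 := by rw [hq]; simp
  have hI := functional n q hq0 hqdeg
  set h : ℝ → ℝ := fun t => ∑ i ∈ range (n / 2 + 1), q.coeff i *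
      (∑ j ∈ range (n / 2 + 1), b n j * t ^ (2 * (n - j - i)) + t ^ (2 * i)) with hh
  have hval : ∀ t, 0 < t → h t = t ^ (2 * n) * ((P n).eval (t⁻¹ ^ 2) * q.eval (t⁻¹ ^ 2))
      + q.eval (t ^ 2) := by
    intro t ht
    rw [eval_eq_sum_range' (Nat.lt_succ_of_le hqdeg), eval_eq_sum_range' (Nat.lt_succ_of_le hqdeg),
      P_eval, Finset.sum_mul_sum]
    simp only [hh, mul_add, Finset.sum_add_distrib]
    congr 1
    · rw [Finset.sum_comm, Finset.mul_sum]
      apply Finset.sum_congr rfl
      intro i hi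
      rw [Finset.mul_sum, Finset.mul_sum]
      apply Finset.sum_congr rfl
      intro j hj
      rw [mem_range] at hi hj
      have hpow : t ^ (2 * n) = t ^ (2 * (n - j - i)) * (t ^ 2) ^ j * (t ^ 2) ^ i := by
        rw [← pow_mul, ← pow_mul, ← pow_add, ← pow_add]
        congr 1
        omega
      have ht2 : t ^ 2 ≠ 0 := by positivity
      have e : ∀ l : ℕ, (t ^ 2) ^ l * (t⁻¹ ^ 2) ^ l = 1 := by
        intro l
        rw [← mul_pow, ← mul_pow, mul_inv_cancel₀ ht.ne', one_pow, one_pow]
      have e1 := e i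
      have e2 := e j
      rw [hpow]
      calc q.coeff i * (b n j * t ^ (2 * (n - j - i)))
          = q.coeff i * b n j * t ^ (2 * (n - j - i)) * 1 * 1 := by ring
        _ = q.coeff i * b n j * t ^ (2 * (n - j - i)) * ((t ^ 2) ^ j * (t⁻¹ ^ 2) ^ j) *
            ((t ^ 2) ^ i * (t⁻¹ ^ 2) ^ i) := by rw [e1, e2]
        _ = _ := by ring
    · apply Finset.sum_congr rfl
      intro i _
      rw [← pow_mul]
  have hpos : ∀ t ∈ Set.Ioo (0 : ℝ) 1, 0 < (-1 : ℝ) ^ k * h t := by
    intro t ht
    rw [hval t ht.1]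
    have hc1 : 1 ≤ t⁻¹ ^ 2 := by
      have : 1 ≤ t⁻¹ := (one_le_inv₀ ht.1).2 ht.2.le
      nlinarith
    have h1 := hMc _ hc1
    have h2 := hQsign (t ^ 2) (by nlinarith [ht.1, ht.2])
    rw [hM, eval_mul, hq, eval_mul, eval_mul, eval_X, eval_X]
    have ht2 : 0 < t ^ 2 := by have := ht.1; positivity
    have e : (-1 : ℝ) ^ k * (t ^ (2 * n) * (Q.eval (t⁻¹ ^ 2) * M.eval (t⁻¹ ^ 2) *
        (t⁻¹ ^ 2 * Q.eval (t⁻¹ ^ 2))) + t ^ 2 * Q.eval (t ^ 2)) =
        t ^ (2 * n) * (t⁻¹ ^ 2) * (Q.eval (t⁻¹ ^ 2)) ^ 2 * ((-1 : ℝ) ^ k * M.eval (t⁻¹ ^ 2)) +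
        t ^ 2 * ((-1 : ℝ) ^ k * Q.eval (t ^ 2)) := by ring
    rw [e]
    have h3 : 0 ≤ t ^ (2 * n) * (t⁻¹ ^ 2) * (Q.eval (t⁻¹ ^ 2)) ^ 2 *
        ((-1 : ℝ) ^ k * M.eval (t⁻¹ ^ 2)) := by
      have := ht.1
      positivity
    have h4 : 0 < t ^ 2 * ((-1 : ℝ) ^ k * Q.eval (t ^ 2)) := by positivity
    linarith
  have hcont : Continuous h := by
    simp only [hh]; fun_prop
  have hint : 0 < ∫ t in (0 : ℝ)..1, (-1 : ℝ) ^ k * h t :=
    intervalIntegral.intervalIntegral_pos_of_pos_on
      ((continuous_const.mul hcont).intervalIntegrable _ _) hpos one_pos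
  rw [intervalIntegral.integral_const_mul, hI, mul_zero] at hint
  exact lt_irrefl _ hint

end Pool.V11275.Toric
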