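import Mathlib

/-!
# Doubly even weights of Boolean functions of low degree

A Boolean function on the subsets of an `m`-set whose Moebius coefficients vanish above level `d`
has weight divisible by `4` if `2 d < m` and `d + 2 ≤ m`.
-/

namespace Pool.Agent.V11275.DE

open Finset

variable {ι : Type} [DecidableEq ι]

/-- Moebius inversion modulo two -/
lemma mobius2 (X : Finset ι) : ∀ F : Finset ι → ZMod 2,
    ∑ T ∈ X.powerset, ∑ S ∈ T.powerset, F S = F X := by
  induction X using Finset.induction_on with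
  | empty => intro F; simp
  | insert a X ha ih =>
    intro F
    rw [sum_powerset_insert ha, ← sum_add_distrib, ← ih (fun S => F (insert a S))]
    apply sum_congr rfl
    intro T hT
    have haT : a ∉ T := fun h => ha (mem_powerset.mp hT h)
    rw [sum_powerset_insert haT, ← add_assoc]
    have h2 : ∀ t : ZMod 2, t + t = 0 := by decide
    rw [h2, zero_add]

lemma odd_mod4 (k : ℕ) : (4 : ℤ) ∣ ((k % 2 : ℕ) : ℤ) - ((k : ℤ) - 2 * (k.choose 2 : ℤ)) := by
  have h1 : 2 * (k.choose 2 : ℤ) = (k : ℤ) * (k - 1) := by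
    rcases Nat.eq_zero_or_pos k with h | h
    · subst h; simp
    · have h2 := Nat.choose_two_right k
      have h3 : 2 * (k.choose 2) = k * (k - 1) := by
        rw [h2]
        exact Nat.mul_div_cancel' (Nat.even_mul_pred_self k).two_dvd
      have h4 : ((2 * k.choose 2 : ℕ) : ℤ) = ((k * (k - 1) : ℕ) : ℤ) := by rw [h3]
      push_cast [Nat.cast_sub h] at h4
      exact h4
  rw [h1]
  obtain ⟨t, ht | ht⟩ := Nat.even_or_odd' k
  · have : k % 2 = 0 := by omega
    rw [this, ht]
    exact ⟨(t : ℤ) * (t - 1), by push_cast; ring⟩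
  · have : k % 2 = 1 := by omega
    rw [this, ht]
    exact ⟨(t : ℤ) * t, by push_cast; ring⟩

/-- **Doubly even weights.** -/
theorem four_dvd {M : Finset ι} {d : ℕ} (h1 : 2 * d + 1 ≤ M.card) (h2 : d + 2 ≤ M.card)
    (f : Finset ι → ℕ) (hf : ∀ T, T ⊆ M → f T < 2)
    (hd : ∀ T, T ⊆ M → d < T.card → Even (∑ S ∈ T.powerset, f S)) :
    4 ∣ ∑ T ∈ M.powerset, f T := by
  classical
  set 𝒯 : Finset (Finset ι) := M.powerset.filter (fun T => ¬ Even (∑ S ∈ T.powerset, f S)) with h𝒯
  have hT1 : ∀ T ∈ 𝒯, T ⊆ M ∧ T.card ≤ d := by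
    intro T hT
    rw [h𝒯, mem_filter, mem_powerset] at hT
    refine ⟨hT.1, ?_⟩
    by_contra hc
    exact hT.2 (hd T hT.1 (by omega))
  have hcz : ∀ T, T ⊆ M → ((∑ S ∈ T.powerset, f S : ℕ) : ZMod 2) = if T ∈ 𝒯 then 1 else 0 := by
    intro T hT
    by_cases hT' : T ∈ 𝒯
    · rw [if_pos hT']
      rw [h𝒯, mem_filter] at hT'
      exact (ZMod.natCast_eq_one_iff_odd).mpr (Nat.not_even_iff_odd.mp hT'.2)
    · rw [if_neg hT']
      have : Even (∑ S ∈ T.powerset, f S) := by
        by_contra hc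
        exact hT' (by rw [h𝒯, mem_filter, mem_powerset]; exact ⟨hT, hc⟩)
      exact (ZMod.natCast_eq_zero_iff_even).mpr this
  -- the number of members of 𝒯 below X
  have hk : ∀ X, X ⊆ M → f X = (𝒯.filter (fun T => T ⊆ X)).card % 2 := by
    intro X hX
    have e1 := mobius2 X (fun S => (f S : ZMod 2))
    have e2 : ∑ T ∈ X.powerset, ∑ S ∈ T.powerset, (f S : ZMod 2) =
        (((𝒯.filter (fun T => T ⊆ X)).card : ℕ) : ZMod 2) := by
      have e3 : ∀ T ∈ X.powerset, ∑ S ∈ T.powerset, (f S : ZMod 2) =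
          if T ∈ 𝒯 then 1 else 0 := by
        intro T hT
        rw [← hcz T ((mem_powerset.mp hT).trans hX)]
        push_cast
        rfl
      rw [sum_congr rfl e3, ← sum_filter, sum_const, nsmul_eq_mul, mul_one]
      congr 2
      ext T
      simp only [mem_filter, mem_powerset]
      tauto
    rw [e2] at e1
    have e4 := (ZMod.natCast_eq_natCast_iff' _ _ _).mp e1
    have := hf X hX
    omega
  have hIcc : ∀ U, U ⊆ M → (M.powerset.filter (fun X => U ⊆ X)).card = 2 ^ (M.card - U.card) := by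
    intro U hU
    rw [← card_Icc_finset hU]
    congr 1
    ext X
    simp only [mem_filter, mem_powerset, mem_Icc]
    tauto
  -- the first sum
  have s1 : 4 ∣ ∑ X ∈ M.powerset, (𝒯.filter (fun T => T ⊆ X)).card := by
    have e1 : ∑ X ∈ M.powerset, (𝒯.filter (fun T => T ⊆ X)).card =
        ∑ T ∈ 𝒯, (M.powerset.filter (fun X => T ⊆ X)).card := by
      simp only [card_filter]
      exact sum_comm
    rw [e1]
    apply dvd_sum
    intro T hT
    obtain ⟨hTM, hTd⟩ := hT1 T hT
    rw [hIcc T hTM]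
    exact (pow_dvd_pow 2 (show 2 ≤ M.card - T.card by omega))
  -- the second sum
  have s2 : 2 ∣ ∑ X ∈ M.powerset, ((𝒯.filter (fun T => T ⊆ X)).card).choose 2 := by
    have e0 : ∀ X ∈ M.powerset, ((𝒯.filter (fun T => T ⊆ X)).card).choose 2 =
        ∑ P ∈ 𝒯.powersetCard 2, if (∀ T ∈ P, T ⊆ X) then 1 else 0 := by
      intro X _
      rw [← card_powersetCard, ← card_filter]
      congr 1
      ext P
      simp only [mem_filter, mem_powersetCard]
      constructor
      · rintro ⟨h3, h4⟩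
        exact ⟨⟨fun T hT => (mem_filter.mp (h3 hT)).1, h4⟩, fun T hT => (mem_filter.mp (h3 hT)).2⟩
      · rintro ⟨⟨h3, h4⟩, h5⟩
        exact ⟨fun T hT => mem_filter.mpr ⟨h3 hT, h5 T hT⟩, h4⟩
    rw [sum_congr rfl e0, sum_comm]
    apply dvd_sum
    intro P hP
    rw [mem_powersetCard] at hP
    obtain ⟨T, T', hne, rfl⟩ := card_eq_two.mp hP.2
    have hT := hT1 T (hP.1 (by simp))
    have hT' := hT1 T' (hP.1 (by simp))
    rw [← card_filter]
    have e1 : M.powerset.filter (fun X => ∀ S ∈ ({T, T'} : Finset (Finset ι)), S ⊆ X) =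
        M.powerset.filter (fun X => T ∪ T' ⊆ X) := by
      apply filter_congr
      intro X _
      simp [union_subset_iff]
    rw [e1, hIcc _ (union_subset hT.1 hT'.1)]
    have hc : (T ∪ T').card ≤ T.card + T'.card := card_union_le _ _
    exact dvd_pow_self 2 (by omega)
  have key : (4 : ℤ) ∣ ((∑ X ∈ M.powerset, f X : ℕ) : ℤ) := by
    have e1 : (4 : ℤ) ∣ ∑ X ∈ M.powerset, ((f X : ℤ) -
        (((𝒯.filter (fun T => T ⊆ X)).card : ℤ) -
          2 * (((𝒯.filter (fun T => T ⊆ X)).card).choose 2 : ℤ))) := by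
      apply dvd_sum
      intro X hX
      have := odd_mod4 (𝒯.filter (fun T => T ⊆ X)).card
      rw [← hk X (mem_powerset.mp hX)] at this
      exact this
    rw [sum_sub_distrib, sum_sub_distrib, ← mul_sum] at e1
    obtain ⟨u, hu⟩ := s1
    obtain ⟨w, hw⟩ := s2
    have hu' : ∑ X ∈ M.powerset, ((𝒯.filter (fun T => T ⊆ X)).card : ℤ) = 4 * u := by
      exact_mod_cast hu
    have hw' : ∑ X ∈ M.powerset, (((𝒯.filter (fun T => T ⊆ X)).card).choose 2 : ℤ) = 2 * w := by
      exact_mod_cast hw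
    rw [hu', hw'] at e1
    push_cast
    omega
  exact_mod_cast key

end Pool.Agent.V11275.DE
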