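import Pool.Agent.V11275.FaberA
import Pool.Agent.Y949.J.Ram

set_option autoImplicit false

open PowerSeries UpperHalfPlane EisensteinSeries ModularForm MatrixGroups Filter Topology

namespace Pool.Agent.V11275.FaberC

open Pool.Agent.V11275 Pool.Agent.W97.MT Pool.Agent.V11275.FaberA
open Pool.Agent.Results.MP_e05153_nt.NoZero (rD rD_eq u u_cc u_zero u_inv_mul
  r4_zero r6_zero r6_cc jinv disc_ne repC_sum)

/-! ### existence of the Miller basis -/

/-- the first coefficients -/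
noncomputable def coefMap (ℓ : ℕ) : ModularForm 𝒮ℒ ((12 * ℓ : ℕ) : ℤ) →ₗ[ℂ] (Fin (ℓ + 1) → ℂ) where
  toFun f := fun i => (qExpansion 1 f).coeff i
  map_add' f g := by
    funext i
    have := ModularForm.qExpansion_add one_pos one_mem_strictPeriods_SL f g
    simp only [Pi.add_apply]
    rw [← map_add, ← this]
    rfl
  map_smul' c f := by
    funext i
    have := ModularForm.qExpansion_smul one_pos one_mem_strictPeriods_SL c f
    simp only [Pi.smul_apply, RingHom.id_apply]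
    rw [← map_smul, ← this]
    rfl

theorem coefMap_injective (ℓ : ℕ) : Function.Injective (coefMap ℓ) := by
  rw [← LinearMap.ker_eq_bot, LinearMap.ker_eq_bot']
  intro f hf
  apply sturm_bound_levelOne_nat
  have h1 : ((ℓ + 1 : ℕ) : ℕ∞) ≤ (qExpansion 1 f).order := by
    apply PowerSeries.nat_le_order
    intro i hi
    exact congrFun hf ⟨i, hi⟩
  have h2 : 12 * ℓ / 12 = ℓ := by omega
  rw [h2]
  refine lt_of_lt_of_le ?_ h1
  exact_mod_cast Nat.lt_succ_self ℓ

theorem exists_miller (ℓ m : ℕ) : ∃ f : ModularForm 𝒮ℒ ((12 * ℓ : ℕ) : ℤ),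
    ∀ i ≤ ℓ, (qExpansion 1 f).coeff i = if i = m then 1 else 0 := by
  have hrank := dimension_level_one (12 * ℓ) (by exact ⟨6 * ℓ, by ring⟩)
  have h1 : ¬ (12 * ℓ ≡ 2 [MOD 12]) := by
    unfold Nat.ModEq
    omega
  rw [if_neg h1] at hrank
  have h2 : 12 * ℓ / 12 = ℓ := by omega
  have hfin : Module.finrank ℂ (ModularForm 𝒮ℒ ((12 * ℓ : ℕ) : ℤ)) = ℓ + 1 := by
    apply Module.finrank_eq_of_rank_eq
    rw [hrank]
    have h3 : ((12 * ℓ / 12 : ℕ) : Cardinal) = ℓ := by rw [h2]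
    push_cast at h3 ⊢
    rw [h3]
  have hsurj := (LinearMap.injective_iff_surjective_of_finrank_eq_finrank (f := coefMap ℓ) (by
    rw [hfin, Module.finrank_fin_fun])).mp (coefMap_injective ℓ)
  obtain ⟨f, hf⟩ := hsurj (fun i => if (i : ℕ) = m then 1 else 0)
  refine ⟨f, fun i hi => ?_⟩
  exact congrFun hf ⟨i, by omega⟩

/-! ### the Faber polynomial -/

theorem exists_pow : ∀ (n : ℕ) (k : ℤ), k = 4 * n → ∃ g : ModularForm 𝒮ℒ k, ∀ τ, g τ = E₄ τ ^ n := by
  intro n
  induction n with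
  | zero =>
    intro k hk
    have : k = 0 := by simpa using hk
    subst this
    exact ⟨1, fun τ => by simp⟩
  | succ n ih =>
    intro k hk
    obtain ⟨g, hg⟩ := ih (4 * n) rfl
    have h1 : k = 4 * n + 4 := by rw [hk]; push_cast; ring
    subst h1
    refine ⟨g.mul E₄, fun τ => ?_⟩
    rw [ModularForm.coe_mul, Pi.mul_apply, hg, pow_succ]

theorem exists_poly : ∀ (ℓ : ℕ) (k : ℤ), k = 12 * ℓ → ∀ f : ModularForm 𝒮ℒ k,
    ∃ F : Polynomial ℂ, F.natDegree ≤ ℓ ∧ ∀ τ, f τ = discriminant τ ^ ℓ * F.eval (jinv τ) := by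
  intro ℓ
  induction ℓ with
  | zero =>
    intro k hk f
    have : k = 0 := by simpa using hk
    subst this
    obtain ⟨c, hc⟩ := ModularFormClass.levelOne_weight_zero_const f
    refine ⟨Polynomial.C c, by simp, fun τ => ?_⟩
    rw [hc]
    simp
  | succ ℓ ih =>
    intro k hk f
    obtain ⟨g, hg⟩ := exists_pow (3 * (ℓ + 1)) k (by rw [hk]; push_cast; ring)
    set c : ℂ := (qExpansion 1 f).coeff 0 with hc
    have hf0 := Pool.Agent.Y949.J.tendsto_modularForm f
    have hg0 : Tendsto (g : ℍ → ℂ) atImInfty (𝓝 1) := by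
      have h1 := (Pool.Agent.Y949.J.tendsto_E4).pow (3 * (ℓ + 1))
      rw [one_pow] at h1
      exact h1.congr (fun τ => (hg τ).symm)
    set f' : ModularForm 𝒮ℒ k := f - c • g with hf'
    have hf'τ : ∀ τ, f' τ = f τ - c * g τ := fun τ => rfl
    have h0 : (qExpansion 1 f').coeff 0 = 0 := by
      have h1 := Pool.Agent.Y949.J.tendsto_modularForm f'
      have h2 : Tendsto (f' : ℍ → ℂ) atImInfty (𝓝 (c - c * 1)) :=
        (hf0.sub (hg0.const_mul c)).congr (fun τ => (hf'τ τ).symm)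
      have h3 := tendsto_nhds_unique h1 h2
      rw [h3]; ring
    set h := CuspForm.discriminantEquiv (toCuspForm f' h0) with hh
    have hhτ : ∀ τ, discriminant τ * h τ = f' τ := fun τ =>
      discriminant_mul_discriminantEquiv_apply (toCuspForm f' h0) τ
    obtain ⟨F, hF1, hF2⟩ := ih (k - 12) (by rw [hk]; push_cast; ring) h
    refine ⟨F + Polynomial.C c * Polynomial.X ^ (ℓ + 1), ?_, fun τ => ?_⟩
    · refine (Polynomial.natDegree_add_le _ _).trans (max_le (by omega) ?_)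
      exact Polynomial.natDegree_C_mul_X_pow_le _ _
    · have h4 : f τ = c * g τ + f' τ := by rw [hf'τ]; ring
      rw [h4, ← hhτ, hF2, hg]
      simp only [Polynomial.eval_add, Polynomial.eval_mul, Polynomial.eval_C, Polynomial.eval_pow, Polynomial.eval_X]
      have hd := disc_ne τ
      have h5 : E₄ τ ^ (3 * (ℓ + 1)) = discriminant τ ^ (ℓ + 1) * jinv τ ^ (ℓ + 1) := by
        rw [← mul_pow, jinv, mul_div_cancel₀ _ hd, ← pow_mul]
      rw [h5]
      ring

/-- expansion of `Δ^ℓ F(j)` -/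
theorem disc_eval (ℓ D : ℕ) (hD : D ≤ ℓ) (F : Polynomial ℂ) (hF : F.natDegree ≤ D) (τ : ℍ) :
    discriminant τ ^ ℓ * F.eval (jinv τ) =
      ∑ n ∈ Finset.range (D + 1), F.coeff n * (E₄ τ ^ (3 * n) * discriminant τ ^ (ℓ - n)) := by
  rw [Polynomial.eval_eq_sum_range' (Nat.lt_succ_of_le hF), Finset.mul_sum]
  refine Finset.sum_congr rfl ?_
  intro n hn
  have hn' : n ≤ ℓ := by have := Finset.mem_range.mp hn; omega
  have hd := disc_ne τ
  have h1 : discriminant τ ^ ℓ = discriminant τ ^ (ℓ - n) * discriminant τ ^ n := by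
    rw [← pow_add]; congr 1; omega
  rw [h1, jinv, div_pow, ← pow_mul]
  field_simp

theorem series_eq {k : ℤ} (ℓ D : ℕ) (f : ModularForm 𝒮ℒ k) (a : ℕ → ℂ)
    (hF : ∀ τ : ℍ, f τ = ∑ n ∈ Finset.range (D + 1),
      a n * (E₄ τ ^ (3 * n) * discriminant τ ^ (ℓ - n))) :
    qExpansion 1 f = ∑ n ∈ Finset.range (D + 1),
      C (a n) * ((ofR r4) ^ (3 * n) * (ofR rD) ^ (ℓ - n)) := by
  have hD : RepC (fun q => (1728⁻¹ : ℂ) * (cuspFunction 1 E₄ q ^ 3 - cuspFunction 1 E₆ q ^ 2)) (ofR rD) := by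
    have h1 : ofR rD = C (1728⁻¹ : ℂ) * (qExpansion 1 E₄ ^ 3 - qExpansion 1 E₆ ^ 2) := by
      unfold rD
      rw [map_mul, map_sub, map_pow, map_pow, ofR_C, ofR_r4, ofR_r6]
      push_cast; rfl
    rw [h1]
    exact (RepC.C _).mul (((repC_modularForm E₄).pow 3).sub ((repC_modularForm E₆).pow 2))
  rw [ofR_r4]
  refine repC_unique' (repC_modularForm f)
    (repC_sum _ _ _ (fun n => (RepC.C (a n)).mul
        (((repC_modularForm E₄).pow (3 * n)).mul (hD.pow (ℓ - n))))) ?_
  intro q h0 h1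
  obtain ⟨τ, rfl⟩ := exists_tau h0 h1
  rw [cusp_eq, hF τ]
  refine Finset.sum_congr rfl fun n _ => ?_
  rw [cusp_eq, cusp_eq]
  have h2 : (1728⁻¹ : ℂ) * (E₄ τ ^ 3 - E₆ τ ^ 2) = discriminant τ := by
    rw [discriminant_eq_E₄_cube_sub_E₆_sq τ]; ring
  rw [h2]

theorem miller_monic {k : ℤ} (ℓ m : ℕ) (hm : m ≤ ℓ) (f : ModularForm 𝒮ℒ k)
    (hf : ∀ i ≤ ℓ, (qExpansion 1 f).coeff i = if i = m then 1 else 0)
    (F : Polynomial ℂ) (hF : F.natDegree ≤ ℓ)
    (hfF : ∀ τ, f τ = discriminant τ ^ ℓ * F.eval (jinv τ)) : F.Monic ∧ F.natDegree = ℓ - m := by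
  have hF0 : F ≠ 0 := by
    intro h0
    have h1 : (f : ℍ → ℂ) = 0 := by
      funext τ
      rw [hfF τ, h0]; simp
    have h2 := hf m hm
    rw [if_pos rfl] at h2
    have h3 : f = 0 := DFunLike.ext _ _ (fun τ => congrFun h1 τ)
    rw [h3] at h2
    have h4 : qExpansion 1 (0 : ModularForm 𝒮ℒ k) = 0 :=
      (ModularForm.qExpansion_eq_zero_iff one_pos one_mem_strictPeriods_SL _).mpr rfl
    rw [h4, map_zero] at h2
    exact zero_ne_one h2
  set d := F.natDegree with hd
  have hser := series_eq ℓ d f (fun n => F.coeff n) (fun τ => by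
    rw [hfF τ]; exact disc_eval ℓ d hF F le_rfl τ)
  have hco : (qExpansion 1 f).coeff (ℓ - d) = F.coeff d := by
    rw [hser, map_sum, Finset.sum_eq_single d]
    · have h1 : ofR rD = X * ofR u := by
        rw [rD_eq, map_mul]
        congr 1
        unfold ofR; exact PowerSeries.map_X _
      rw [coeff_C_mul, h1, mul_pow, mul_left_comm]
      have h2 := coeff_X_pow_mul (ofR r4 ^ (3 * d) * ofR u ^ (ℓ - d)) (ℓ - d) 0
      rw [zero_add] at h2
      rw [h2, coeff_zero_eq_constantCoeff_apply, map_mul, map_pow, map_pow]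
      have h3 : constantCoeff (ofR r4) = 1 := by
        rw [← coeff_zero_eq_constantCoeff_apply, coeff_ofR, r4_zero]; simp
      have h4 : constantCoeff (ofR u) = 1 := by
        rw [← coeff_zero_eq_constantCoeff_apply, coeff_ofR, u_zero]; simp
      rw [h3, h4]; simp
    · intro n hn hne
      have hnd : n < d := by have := Finset.mem_range.mp hn; omega
      have h1 : ofR rD = X * ofR u := by
        rw [rD_eq, map_mul]
        congr 1
        unfold ofR; exact PowerSeries.map_X _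
      rw [coeff_C_mul, h1, mul_pow, mul_left_comm, coeff_X_pow_mul', if_neg (by omega), mul_zero]
    · intro h; simp at h
  have hlead : F.coeff d ≠ 0 := by
    rw [hd]; exact Polynomial.leadingCoeff_ne_zero.mpr hF0
  have h1 := hf (ℓ - d) (Nat.sub_le _ _)
  rw [hco] at h1
  by_cases h2 : ℓ - d = m
  · rw [if_pos h2] at h1
    refine ⟨h1, by omega⟩
  · rw [if_neg h2] at h1
    exact absurd h1 hlead

end Pool.Agent.V11275.FaberC
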