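import Pool.Agent.V11275.FaberA
import Pool.Agent.Y949.J.Ram2

set_option autoImplicit false

open UpperHalfPlane hiding I
open Real Complex Filter Topology Derivative EisensteinSeries ModularForm MatrixGroups Function
open scoped Manifold MatrixGroups ModularForm

namespace Pool.Agent.V11275.FaberD

open Pool.Agent.V11275 Pool.Agent.W97.MT

/-! ### a real ordinary differential equation -/

theorem ode_aux (g h w : ℝ → ℝ) (a b ε : ℝ) (hε : ε = 1 ∨ ε = -1)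
    (hg : ∀ θ ∈ Set.Icc a b, HasDerivAt g (w θ / 3 * g θ + 2 * π / 3 * h θ) θ)
    (hh : ∀ θ ∈ Set.Icc a b, HasDerivAt h (w θ / 2 * h θ + π * g θ ^ 2) θ)
    (h0 : h a = 0) (hk : ∀ θ ∈ Set.Icc a b, 0 < ε * (g θ ^ 3 - h θ ^ 2)) :
    (∀ θ ∈ Set.Icc a b, 0 ≤ h θ) ∧
    (∀ θ ∈ Set.Icc a b, HasDerivAt (fun θ => g θ ^ 3 / (g θ ^ 3 - h θ ^ 2))
      (2 * π * g θ ^ 2 * h θ / (g θ ^ 3 - h θ ^ 2)) θ) := by
  have hk' : ∀ θ ∈ Set.Icc a b, HasDerivAt (fun θ => g θ ^ 3 - h θ ^ 2) (w θ * (g θ ^ 3 - h θ ^ 2)) θ := by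
    intro θ hθ
    have h1 := ((hg θ hθ).pow 3).sub ((hh θ hθ).pow 2)
    refine h1.congr_deriv ?_
    push_cast
    ring
  have hkne : ∀ θ ∈ Set.Icc a b, g θ ^ 3 - h θ ^ 2 ≠ 0 := by
    intro θ hθ h0
    have := hk θ hθ
    rw [h0, mul_zero] at this
    exact lt_irrefl _ this
  constructor
  · intro θ hθ
    -- `M = h / √(ε k)` is monotone
    set M : ℝ → ℝ := fun θ => h θ / √(ε * (g θ ^ 3 - h θ ^ 2)) with hM
    have hMd : ∀ θ ∈ Set.Icc a b, HasDerivAt M (π * g θ ^ 2 / √(ε * (g θ ^ 3 - h θ ^ 2))) θ := by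
      intro θ hθ
      have hpos := hk θ hθ
      have h1 : HasDerivAt (fun θ => √(ε * (g θ ^ 3 - h θ ^ 2)))
          (ε * (w θ * (g θ ^ 3 - h θ ^ 2)) / (2 * √(ε * (g θ ^ 3 - h θ ^ 2)))) θ :=
        ((hk' θ hθ).const_mul ε).sqrt hpos.ne'
      have hs : √(ε * (g θ ^ 3 - h θ ^ 2)) ≠ 0 := (Real.sqrt_pos.mpr hpos).ne'
      refine ((hh θ hθ).div h1 hs).congr_deriv ?_
      set s := √(ε * (g θ ^ 3 - h θ ^ 2)) with hsdef
      have hss : s * s = ε * (g θ ^ 3 - h θ ^ 2) := Real.mul_self_sqrt hpos.le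
      have h2 : ε * (w θ * (g θ ^ 3 - h θ ^ 2)) = w θ * (s * s) := by rw [hss]; ring
      rw [h2]
      field_simp
      ring
    have hmono : MonotoneOn M (Set.Icc a b) := by
      apply monotoneOn_of_deriv_nonneg (convex_Icc a b)
      · intro x hx; exact (hMd x hx).continuousAt.continuousWithinAt
      · intro x hx; rw [interior_Icc] at hx
        exact (hMd x (Set.Ioo_subset_Icc_self hx)).differentiableAt.differentiableWithinAt
      · intro x hx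
        rw [interior_Icc] at hx
        rw [(hMd x (Set.Ioo_subset_Icc_self hx)).deriv]
        positivity
    have hab : a ≤ b := hθ.1.trans hθ.2
    have h3 := hmono (Set.left_mem_Icc.mpr hab) hθ hθ.1
    simp only [hM, h0, zero_div] at h3
    have hs : 0 < √(ε * (g θ ^ 3 - h θ ^ 2)) := Real.sqrt_pos.mpr (hk θ hθ)
    by_contra hneg
    push Not at hneg
    have := div_neg_of_neg_of_pos hneg hs
    linarith
  · intro θ hθ
    refine (((hg θ hθ).pow 3).div (hk' θ hθ) (hkne θ hθ)).congr_deriv ?_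
    have := hkne θ hθ
    simp only [Pi.pow_apply]
    push_cast
    field_simp
    ring

theorem ode (g h w : ℝ → ℝ) (a b : ℝ) (hab : a < b)
    (hg : ∀ θ ∈ Set.Icc a b, HasDerivAt g (w θ / 3 * g θ + 2 * π / 3 * h θ) θ)
    (hh : ∀ θ ∈ Set.Icc a b, HasDerivAt h (w θ / 2 * h θ + π * g θ ^ 2) θ)
    (h0 : h a = 0) (h1 : g b = 0) (hk : ∀ θ ∈ Set.Icc a b, g θ ^ 3 - h θ ^ 2 ≠ 0) :
    ∀ θ ∈ Set.Icc a b, 0 ≤ g θ ^ 3 / (g θ ^ 3 - h θ ^ 2) ∧ g θ ^ 3 / (g θ ^ 3 - h θ ^ 2) ≤ 1 := by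
  have ha : a ∈ Set.Icc a b := Set.left_mem_Icc.mpr hab.le
  have hb : b ∈ Set.Icc a b := Set.right_mem_Icc.mpr hab.le
  have hcont : ContinuousOn (fun θ => g θ ^ 3 - h θ ^ 2) (Set.Icc a b) := fun θ hθ =>
    (((hg θ hθ).continuousAt.pow 3).sub ((hh θ hθ).continuousAt.pow 2)).continuousWithinAt
  have hJa : g a ^ 3 / (g a ^ 3 - h a ^ 2) = 1 := by
    have := hk a ha
    rw [h0] at this ⊢
    have h2 : g a ^ 3 ≠ 0 := by simpa using this
    rw [zero_pow two_ne_zero, sub_zero]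
    exact div_self h2
  have hJb : g b ^ 3 / (g b ^ 3 - h b ^ 2) = 0 := by rw [h1]; simp
  obtain ⟨ε, hε, hpos⟩ : ∃ ε : ℝ, (ε = 1 ∨ ε = -1) ∧ ∀ θ ∈ Set.Icc a b, 0 < ε * (g θ ^ 3 - h θ ^ 2) := by
    have hpre : IsPreconnected (Set.Icc a b) := isPreconnected_Icc
    rcases lt_or_gt_of_ne (hk a ha) with hs | hs
    · refine ⟨-1, Or.inr rfl, fun θ hθ => ?_⟩
      by_contra hcon
      push Not at hcon
      have h2 : 0 ≤ g θ ^ 3 - h θ ^ 2 := by linarith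
      obtain ⟨x, hx, hx0⟩ := hpre.intermediate_value ha hθ hcont ⟨hs.le, h2⟩
      exact hk x hx hx0
    · refine ⟨1, Or.inl rfl, fun θ hθ => ?_⟩
      by_contra hcon
      push Not at hcon
      have h2 : g θ ^ 3 - h θ ^ 2 ≤ 0 := by linarith
      obtain ⟨x, hx, hx0⟩ := hpre.intermediate_value hθ ha hcont ⟨h2, hs.le⟩
      exact hk x hx hx0
  obtain ⟨hhn, hJ⟩ := ode_aux g h w a b ε hε hg hh h0 hpos
  set J : ℝ → ℝ := fun θ => g θ ^ 3 / (g θ ^ 3 - h θ ^ 2) with hJdef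
  have hJc : ContinuousOn J (Set.Icc a b) := fun x hx => (hJ x hx).continuousAt.continuousWithinAt
  have hJd : DifferentiableOn ℝ J (interior (Set.Icc a b)) := by
    intro x hx; rw [interior_Icc] at hx
    exact (hJ x (Set.Ioo_subset_Icc_self hx)).differentiableAt.differentiableWithinAt
  rcases hε with rfl | rfl
  · exfalso
    have hmono : MonotoneOn J (Set.Icc a b) := by
      apply monotoneOn_of_deriv_nonneg (convex_Icc a b) hJc hJd
      intro x hx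
      rw [interior_Icc] at hx
      have hx' := Set.Ioo_subset_Icc_self hx
      rw [(hJ x hx').deriv]
      have h2 := hpos x hx'
      rw [one_mul] at h2
      have h3 := hhn x hx'
      positivity
    have h2 := hmono ha hb hab.le
    simp only [hJdef] at h2
    rw [hJa, hJb] at h2
    linarith
  · have hanti : AntitoneOn J (Set.Icc a b) := by
      apply antitoneOn_of_deriv_nonpos (convex_Icc a b) hJc hJd
      intro x hx
      rw [interior_Icc] at hx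
      have hx' := Set.Ioo_subset_Icc_self hx
      rw [(hJ x hx').deriv]
      have h2 := hpos x hx'
      have h3 := hhn x hx'
      apply div_nonpos_of_nonneg_of_nonpos
      · positivity
      · linarith
    intro θ hθ
    have h2 := hanti ha hθ hθ.1
    have h3 := hanti hθ hb hθ.2
    simp only [hJdef] at h2 h3
    rw [hJa] at h2
    rw [hJb] at h3
    exact ⟨h3, h2⟩

/-! ### complex conjugation -/

/-- conjugation on a disc function with real coefficients -/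
theorem repC_conj {h : ℂ → ℂ} {φ : PowerSeries ℝ} (hf : RepC h (ofR φ)) (q : ℂ) (hq : ‖q‖ < 1) :
    h (starRingEnd ℂ q) = starRingEnd ℂ (h q) := by
  have h1 := hf q hq
  have h2 := hf (starRingEnd ℂ q) (by simpa using hq)
  have h3 := h1.map (starRingEnd ℂ) Complex.continuous_conj
  refine h2.unique ?_
  refine h3.congr_fun ?_ |> id
  intro n
  simp only [Function.comp_apply]
  rw [coeff_ofR, map_mul, map_pow, Complex.conj_ofReal]

theorem q_conj (τ τ' : ℍ) (h : (τ' : ℂ) = -(starRingEnd ℂ (τ : ℂ))) :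
    Periodic.qParam 1 (τ' : ℂ) = starRingEnd ℂ (Periodic.qParam 1 (τ : ℂ)) := by
  rw [qp, qp, h, ← Complex.exp_conj]
  congr 1
  simp only [map_mul, Complex.conj_ofReal, Complex.conj_I, map_ofNat]
  ring

theorem S_smul_arc (τ : ℍ) (hτ : ‖(τ : ℂ)‖ = 1) : ((ModularGroup.S • τ : ℍ) : ℂ) = -(starRingEnd ℂ (τ : ℂ)) := by
  rw [UpperHalfPlane.modular_S_smul]
  change (-(τ : ℂ))⁻¹ = _
  have h1 : (τ : ℂ) * starRingEnd ℂ (τ : ℂ) = 1 := by
    rw [Complex.mul_conj, Complex.normSq_eq_norm_sq, hτ]; simp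
  have h2 : (τ : ℂ) ≠ 0 := τ.ne_zero
  rw [inv_neg]
  congr 1
  field_simp
  exact h1.symm

theorem conj_arc {k : ℤ} (f : ModularForm 𝒮ℒ k) (φ : PowerSeries ℝ) (hφ : ofR φ = qExpansion 1 f)
    (τ : ℍ) (hτ : ‖(τ : ℂ)‖ = 1) : starRingEnd ℂ (f τ) = (τ : ℂ) ^ k * f τ := by
  have h1 : RepC (cuspFunction 1 f) (ofR φ) := by rw [hφ]; exact repC_modularForm f
  have h2 := repC_conj h1 (Periodic.qParam 1 (τ : ℂ)) (Periodic.norm_qParam_lt_one one_pos τ.im_pos)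
  rw [← q_conj τ (ModularGroup.S • τ) (S_smul_arc τ hτ), cusp_eq, cusp_eq] at h2
  rw [← h2]
  have h3 := SlashInvariantForm.slash_action_eqn'' (Γ := 𝒮ℒ) f
    (γ := Matrix.SpecialLinearGroup.mapGL ℝ ModularGroup.S) (by exact ⟨ModularGroup.S, rfl⟩) τ
  have h5 : denom (Matrix.SpecialLinearGroup.mapGL ℝ ModularGroup.S) τ =
      ((ModularGroup.S 1 0 : ℤ) : ℂ) * τ + ((ModularGroup.S 1 1 : ℤ) : ℂ) := by simp [denom]
  have h4 : denom (Matrix.SpecialLinearGroup.mapGL ℝ ModularGroup.S) τ = (τ : ℂ) := by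
    rw [h5]; simp [ModularGroup.S]
  rw [h4] at h3
  exact h3

theorem slashS {k : ℤ} (f : ModularForm 𝒮ℒ k) (τ : ℍ) : f (ModularGroup.S • τ) = (τ : ℂ) ^ k * f τ := by
  have h3 := SlashInvariantForm.slash_action_eqn'' (Γ := 𝒮ℒ) f
    (γ := Matrix.SpecialLinearGroup.mapGL ℝ ModularGroup.S) (by exact ⟨ModularGroup.S, rfl⟩) τ
  have h5 : denom (Matrix.SpecialLinearGroup.mapGL ℝ ModularGroup.S) τ =
      ((ModularGroup.S 1 0 : ℤ) : ℂ) * τ + ((ModularGroup.S 1 1 : ℤ) : ℂ) := by simp [denom]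
  have h4 : denom (Matrix.SpecialLinearGroup.mapGL ℝ ModularGroup.S) τ = (τ : ℂ) := by
    rw [h5]; simp [ModularGroup.S]
  rw [h4] at h3
  exact h3

theorem per {k : ℤ} (f : ModularForm 𝒮ℒ k) (τ τ' : ℍ) (h : (τ' : ℂ) = τ + 1) : f τ' = f τ := by
  rw [← cusp_eq f τ, ← cusp_eq f τ', qp, qp, h, mul_add, mul_one, Complex.exp_add, Complex.exp_two_pi_mul_I, mul_one]

theorem hasDerivAt_of {F : ℍ → ℂ} (hF : MDiff F) (τ : ℍ) : HasDerivAt (F ∘ ofComplex) (2 * π * I * D F τ) (τ : ℂ) := by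
  have h1 := (UpperHalfPlane.mdifferentiableAt_iff.mp (hF τ)).hasDerivAt
  refine h1.congr_deriv ?_
  rw [normalizedDerivOfComplex, ← mul_assoc, mul_inv_cancel₀ Complex.two_pi_I_ne_zero, one_mul]

/-- the point `e^{iθ}` -/
noncomputable def pt (θ : ℝ) (h : 0 < Real.sin θ) : ℍ := ⟨cexp (θ * I), by rwa [Complex.exp_ofReal_mul_I_im]⟩

theorem pt_coe (θ : ℝ) (h : 0 < Real.sin θ) : ((pt θ h : ℍ) : ℂ) = cexp (θ * I) := rfl

theorem pt_norm (θ : ℝ) (h : 0 < Real.sin θ) : ‖((pt θ h : ℍ) : ℂ)‖ = 1 := by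
  rw [pt_coe]; exact Complex.norm_exp_ofReal_mul_I θ

/-- complex version of the function on the arc -/
noncomputable def ec (F : ℍ → ℂ) (n : ℕ) (z : ℂ) : ℂ := cexp (z * I) ^ n * (F ∘ ofComplex) (cexp (z * I))

theorem ec_deriv {F : ℍ → ℂ} (hF : MDiff F) (n : ℕ) (θ : ℝ) (h : 0 < Real.sin θ) :
    HasDerivAt (ec F n) (n * I * (cexp (θ * I) ^ n * F (pt θ h)) -
      2 * π * cexp (θ * I) ^ (n + 1) * D F (pt θ h)) (θ : ℂ) := by
  have h1 : HasDerivAt (fun z : ℂ => cexp (z * I)) (cexp (θ * I) * (1 * I)) (θ : ℂ) :=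
    ((hasDerivAt_id (θ : ℂ)).mul_const I).cexp
  have h2 : HasDerivAt (F ∘ ofComplex) (2 * π * I * D F (pt θ h)) (cexp (θ * I)) := by
    have := hasDerivAt_of hF (pt θ h)
    rwa [pt_coe] at this
  have h3 := (h1.pow n).mul (h2.comp (θ : ℂ) h1)
  have h4 : (F ∘ ofComplex) (cexp (θ * I)) = F (pt θ h) := by
    rw [Function.comp_apply, ← pt_coe θ h, ofComplex_apply]
  refine h3.congr_deriv ?_
  simp only [Function.comp_apply] at h4 ⊢
  rw [h4]
  rcases n with _ | n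
  · simp
    linear_combination (2 * π * D F (pt θ h) * cexp (θ * I)) * I_mul_I
  · simp only [Nat.add_sub_cancel, Pi.pow_apply]
    push_cast
    linear_combination (2 * π * D F (pt θ h) * cexp (θ * I) ^ (n + 2)) * I_mul_I

theorem ec_pt (F : ℍ → ℂ) (n : ℕ) (θ : ℝ) (h : 0 < Real.sin θ) : ec F n θ = cexp (θ * I) ^ n * F (pt θ h) := by
  rw [ec, Function.comp_apply, ← pt_coe θ h, ofComplex_apply]

theorem ec_real {k : ℤ} (f : ModularForm 𝒮ℒ k) (φ : PowerSeries ℝ) (hφ : ofR φ = qExpansion 1 f) (n : ℕ)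
    (hk : k = 2 * n) (θ : ℝ) (h : 0 < Real.sin θ) : (((ec f n θ).re : ℝ) : ℂ) = ec f n θ := by
  rw [← Complex.conj_eq_iff_re, ec_pt f n θ h, map_mul, map_pow, conj_arc f φ hφ _ (pt_norm θ h), pt_coe]
  have h1 : starRingEnd ℂ (cexp (θ * I)) * cexp (θ * I) = 1 := by
    rw [mul_comm, Complex.mul_conj, Complex.normSq_eq_norm_sq, Complex.norm_exp_ofReal_mul_I]; simp
  have h2 : cexp (θ * I) ^ k = cexp (θ * I) ^ n * cexp (θ * I) ^ n := by
    rw [hk, two_mul, zpow_add₀ (Complex.exp_ne_zero _)]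
    norm_cast
  rw [h2]
  have h3 : (starRingEnd ℂ (cexp (θ * I))) ^ n * cexp (θ * I) ^ n = 1 := by
    rw [← mul_pow, h1, one_pow]
  linear_combination (cexp (θ * I) ^ n * f (pt θ h)) * h3

open Pool.Agent.Results.MP_e05153_nt.NoZero (jinv disc_ne)

theorem sin_pos_of_mem {θ : ℝ} (hθ : θ ∈ Set.Icc (π / 2) (2 * π / 3)) : 0 < Real.sin θ := by
  apply Real.sin_pos_of_pos_of_lt_pi
  · have := Real.pi_pos; linarith [hθ.1]
  · have := Real.pi_pos; linarith [hθ.2]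

theorem j_arc (τ : ℍ) (θ : ℝ) (hθ : θ ∈ Set.Icc (π / 2) (2 * π / 3)) (hτ : (τ : ℂ) = cexp (θ * I)) :
    ∃ x : ℝ, 0 ≤ x ∧ x ≤ 1728 ∧ jinv τ = x := by
  set g : ℝ → ℝ := fun θ => (ec E₄ 2 θ).re with hgdef
  set h : ℝ → ℝ := fun θ => (ec E₆ 3 θ).re with hhdef
  set w : ℝ → ℝ := fun θ => (6 * I - 2 * π * cexp (θ * I) * (E2 ∘ ofComplex) (cexp (θ * I))).re with hw
  have gc : ∀ θ : ℝ, 0 < Real.sin θ → ((g θ : ℝ) : ℂ) = ec E₄ 2 θ := fun θ hs =>
    ec_real E₄ r4 ofR_r4 2 (by norm_num) θ hs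
  have hc : ∀ θ : ℝ, 0 < Real.sin θ → ((h θ : ℝ) : ℂ) = ec E₆ 3 θ := fun θ hs =>
    ec_real E₆ r6 ofR_r6 3 (by norm_num) θ hs
  have hE2 : ∀ (θ : ℝ) (hs : 0 < Real.sin θ), (E2 ∘ ofComplex) (cexp (θ * I)) = E2 (pt θ hs) := by
    intro θ hs
    rw [Function.comp_apply, ← pt_coe θ hs, ofComplex_apply]
  have hg : ∀ θ ∈ Set.Icc (π / 2) (2 * π / 3), HasDerivAt g (w θ / 3 * g θ + 2 * π / 3 * h θ) θ := by
    intro θ hθ
    have hs := sin_pos_of_mem hθ
    have h1 := (ec_deriv (ModularFormClass.holo E₄) 2 θ hs).real_of_complex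
    refine h1.congr_deriv ?_
    rw [Pool.Agent.Y949.J.ram4]
    have h2 : (((2 : ℕ) : ℂ) * I * (cexp (θ * I) ^ 2 * E₄ (pt θ hs)) -
      2 * π * cexp (θ * I) ^ (2 + 1) * (3⁻¹ * (E2 (pt θ hs) * E₄ (pt θ hs) - E₆ (pt θ hs)))) =
      (6 * I - 2 * π * cexp (θ * I) * (E2 ∘ ofComplex) (cexp (θ * I))) * ((g θ / 3 : ℝ) : ℂ) + ((2 * π / 3 * h θ : ℝ) : ℂ) := by
      rw [hE2 θ hs]
      push_cast
      rw [gc θ hs, hc θ hs, ec_pt _ _ θ hs, ec_pt _ _ θ hs]
      ring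
    rw [h2, Complex.add_re, Complex.re_mul_ofReal, Complex.ofReal_re]
    ring
  have hh : ∀ θ ∈ Set.Icc (π / 2) (2 * π / 3), HasDerivAt h (w θ / 2 * h θ + π * g θ ^ 2) θ := by
    intro θ hθ
    have hs := sin_pos_of_mem hθ
    have h1 := (ec_deriv (ModularFormClass.holo E₆) 3 θ hs).real_of_complex
    refine h1.congr_deriv ?_
    rw [Pool.Agent.Y949.J.ram6]
    have h2 : (((3 : ℕ) : ℂ) * I * (cexp (θ * I) ^ 3 * E₆ (pt θ hs)) -
      2 * π * cexp (θ * I) ^ (3 + 1) * (2⁻¹ * (E2 (pt θ hs) * E₆ (pt θ hs) - E₄ (pt θ hs) ^ 2))) =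
      (6 * I - 2 * π * cexp (θ * I) * (E2 ∘ ofComplex) (cexp (θ * I))) * ((h θ / 2 : ℝ) : ℂ) + ((π * g θ ^ 2 : ℝ) : ℂ) := by
      rw [hE2 θ hs]
      push_cast
      rw [gc θ hs, hc θ hs, ec_pt _ _ θ hs, ec_pt _ _ θ hs]
      ring
    rw [h2, Complex.add_re, Complex.re_mul_ofReal, Complex.ofReal_re]
    ring
  have hpi := Real.pi_pos
  have hexp2 : cexp ((π / 2 : ℝ) * I) = I := by
    push_cast
    exact Complex.exp_pi_div_two_mul_I
  -- `E₆ (i) = 0`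
  have h0 : h (π / 2) = 0 := by
    have hs : 0 < Real.sin (π / 2) := by rw [Real.sin_pi_div_two]; exact one_pos
    have e1 := slashS E₆ (pt (π / 2) hs)
    have e2 : ModularGroup.S • (pt (π / 2) hs) = pt (π / 2) hs := by
      apply UpperHalfPlane.ext
      rw [S_smul_arc _ (pt_norm _ hs), pt_coe, hexp2]
      simp
    rw [e2, pt_coe, hexp2] at e1
    have e3 : (I : ℂ) ^ (6 : ℤ) = -1 := by
      have : (I : ℂ) ^ (6 : ℤ) = I ^ 6 := by norm_cast
      rw [this, show (6 : ℕ) = 2 * 3 by norm_num, pow_mul, I_sq]; norm_num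
    rw [e3] at e1
    have e4 : E₆ (pt (π / 2) hs) = 0 := by
      have : (2 : ℂ) * E₆ (pt (π / 2) hs) = 0 := by linear_combination e1
      simpa using this
    simp only [hhdef]
    rw [ec_pt _ _ _ hs, e4, mul_zero, Complex.zero_re]
  -- `E₄ (ρ) = 0`
  have h1 : g (2 * π / 3) = 0 := by
    have hmem : (2 * π / 3) ∈ Set.Icc (π / 2) (2 * π / 3) := ⟨by linarith, le_rfl⟩
    have hs := sin_pos_of_mem hmem
    have e1 := slashS E₄ (pt (2 * π / 3) hs)
    set r : ℂ := cexp ((2 * π / 3 : ℝ) * I) with hr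
    have hcos : Real.cos (2 * π / 3) = -1 / 2 := by
      have : 2 * π / 3 = π - π / 3 := by ring
      rw [this, Real.cos_pi_sub, Real.cos_pi_div_three]; norm_num
    have hr3 : r ^ 3 = 1 := by
      rw [hr, ← Complex.exp_nat_mul]
      have : ((3 : ℕ) : ℂ) * (((2 * π / 3 : ℝ) : ℂ) * I) = 2 * π * I := by push_cast; ring
      rw [this, Complex.exp_two_pi_mul_I]
    have hre : r.re = -1 / 2 := by rw [hr, Complex.exp_ofReal_mul_I_re, hcos]
    have hrne : r ≠ 1 := by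
      intro h
      rw [h] at hre
      norm_num at hre
    have e2 : E₄ (ModularGroup.S • (pt (2 * π / 3) hs)) = E₄ (pt (2 * π / 3) hs) := by
      apply per
      rw [S_smul_arc _ (pt_norm _ hs), pt_coe, ← hr]
      apply Complex.ext
      · simp only [Complex.neg_re, Complex.conj_re, Complex.add_re, Complex.one_re]
        rw [hre]; norm_num
      · simp
    rw [e2, pt_coe, ← hr] at e1
    have e3 : r ^ (4 : ℤ) = r := by
      have : r ^ (4 : ℤ) = r ^ 4 := by norm_cast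
      rw [this, pow_succ, hr3, one_mul]
    rw [e3] at e1
    have e4 : E₄ (pt (2 * π / 3) hs) = 0 := by
      have : (r - 1) * E₄ (pt (2 * π / 3) hs) = 0 := by linear_combination -e1
      exact (mul_eq_zero.mp this).resolve_left (sub_ne_zero.mpr hrne)
    simp only [hgdef]
    rw [ec_pt _ _ _ hs, e4, mul_zero, Complex.zero_re]
  have hrel : ∀ θ : ℝ, ∀ hs : 0 < Real.sin θ, ((g θ ^ 3 - h θ ^ 2 : ℝ) : ℂ) =
      cexp (θ * I) ^ 6 * (1728 * discriminant (pt θ hs)) := by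
    intro θ hs
    push_cast
    rw [gc θ hs, hc θ hs, ec_pt _ _ θ hs, ec_pt _ _ θ hs, discriminant_eq_E₄_cube_sub_E₆_sq]
    ring
  have hk : ∀ θ ∈ Set.Icc (π / 2) (2 * π / 3), g θ ^ 3 - h θ ^ 2 ≠ 0 := by
    intro θ hθ h2
    have hs := sin_pos_of_mem hθ
    have h3 := hrel θ hs
    rw [h2, Complex.ofReal_zero] at h3
    have h4 : cexp (θ * I) ^ 6 * (1728 * discriminant (pt θ hs)) ≠ 0 :=
      mul_ne_zero (pow_ne_zero _ (Complex.exp_ne_zero _)) (mul_ne_zero (by norm_num) (disc_ne _))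
    exact h4 h3.symm
  have hfin := ode g h w (π / 2) (2 * π / 3) (by linarith) hg hh h0 h1 hk θ hθ
  refine ⟨1728 * (g θ ^ 3 / (g θ ^ 3 - h θ ^ 2)), by linarith [hfin.1], by linarith [hfin.2], ?_⟩
  have hs := sin_pos_of_mem hθ
  have hτ' : τ = pt θ hs := UpperHalfPlane.ext hτ
  rw [hτ', jinv]
  have h3 := hrel θ hs
  have hd := disc_ne (pt θ hs)
  have he : cexp (θ * I) ≠ 0 := Complex.exp_ne_zero _
  have h5 : ((g θ ^ 3 : ℝ) : ℂ) = cexp (θ * I) ^ 6 * E₄ (pt θ hs) ^ 3 := by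
    push_cast
    rw [gc θ hs, ec_pt _ _ θ hs]
    ring
  rw [Complex.ofReal_mul, Complex.ofReal_div, h3, h5]
  push_cast
  field_simp

end Pool.Agent.V11275.FaberD
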