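import Pool.Agent.W97.MT.Rep
import Pool.Agent.Y949.J.Ram

set_option autoImplicit false

open UpperHalfPlane hiding I
open Complex Filter Topology EisensteinSeries ModularForm MatrixGroups Function
open scoped Manifold MatrixGroups ModularForm

namespace Pool.Agent.V11275.Jac

open Pool.Agent.W97.MT

/-! ### the second symmetric difference of an exponential sum -/

theorem sym_bound (w : ℂ) : ‖cexp w + cexp (-w) - 2‖ ≤ 2 * (‖w‖ ^ 2 * Real.exp ‖w‖) := by
  have h1 := norm_exp_sub_sum_le_norm_mul_exp w 2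
  have h2 := norm_exp_sub_sum_le_norm_mul_exp (-w) 2
  simp only [Finset.sum_range_succ, Finset.sum_range_zero, Nat.factorial, pow_zero, pow_one, zero_add,
    norm_neg] at h1 h2
  have h3 : cexp w + cexp (-w) - 2 = (cexp w - (1 / ((1 : ℕ) : ℂ) + w / ((0 + 1) * 1 : ℕ))) +
    (cexp (-w) - (1 / ((1 : ℕ) : ℂ) + -w / ((0 + 1) * 1 : ℕ))) := by
    push_cast; ring
  rw [h3]
  refine (norm_add_le _ _).trans ?_
  linarith

theorem sym_bound3 (w : ℂ) : ‖cexp w + cexp (-w) - 2 - w ^ 2‖ ≤ 2 * (‖w‖ ^ 3 * Real.exp ‖w‖) := by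
  have h1 := norm_exp_sub_sum_le_norm_mul_exp w 3
  have h2 := norm_exp_sub_sum_le_norm_mul_exp (-w) 3
  simp only [Finset.sum_range_succ, Finset.sum_range_zero, Nat.factorial, pow_zero, pow_one, zero_add,
    norm_neg] at h1 h2
  have h3 : cexp w + cexp (-w) - 2 - w ^ 2 =
    (cexp w - (1 / ((1 : ℕ) : ℂ) + w / ((0 + 1) * 1 : ℕ) + w ^ 2 / ((1 + 1) * ((0 + 1) * 1) : ℕ))) +
    (cexp (-w) - (1 / ((1 : ℕ) : ℂ) + -w / ((0 + 1) * 1 : ℕ) + (-w) ^ 2 / ((1 + 1) * ((0 + 1) * 1) : ℕ))) := by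
    push_cast; ring
  rw [h3]
  refine (norm_add_le _ _).trans ?_
  linarith

theorem sym_diff {ι : Type*} (c : ι → ℂ) (x : ι → ℝ) (F : ℂ → ℂ)
    (hF : ∀ s : ℂ, HasSum (fun i => c i * cexp (2 * Real.pi * I * (x i * s))) (F s)) :
    Summable (fun i => c i * (x i : ℂ) ^ 2) ∧
    Tendsto (fun s : ℂ => (F s + F (-s) - 2 * F 0) / s ^ 2) (𝓝[≠] 0)
      (𝓝 ((2 * Real.pi * I) ^ 2 * ∑' i, c i * (x i : ℂ) ^ 2)) := by
  set μ : ι → ℂ := fun i => 2 * Real.pi * I * x i with hμ
  have hμn : ∀ i, ‖μ i‖ = 2 * Real.pi * |x i| := by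
    intro i
    simp [hμ, abs_of_pos Real.pi_pos]
  have hF' : ∀ s : ℂ, HasSum (fun i => c i * cexp (μ i * s)) (F s) := by
    intro s
    refine (hF s).congr_fun ?_ |> id
    intro i
    simp only [hμ]
    congr 2
    ring
  -- summable bound
  have hb : Summable (fun i => ‖c i‖ * (‖μ i‖ ^ 2 * Real.exp ‖μ i‖)) := by
    have h1 := (hF' (2 * I)).summable.norm
    have h2 := (hF' (-(2 * I))).summable.norm
    have h3 := ((h1.add h2).mul_left 2)
    refine Summable.of_nonneg_of_le (fun i => by positivity) (fun i => ?_) h3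
    simp only [norm_mul, Complex.norm_exp]
    have h4 : (μ i * (2 * I)).re = -(4 * Real.pi * x i) := by
      have : μ i * (2 * I) = ((-(4 * Real.pi * x i) : ℝ) : ℂ) := by
        simp only [hμ]
        push_cast
        linear_combination (4 * Real.pi * x i : ℂ) * I_mul_I
      rw [this, ofReal_re]
    have h5 : (μ i * (-(2 * I))).re = 4 * Real.pi * x i := by
      rw [mul_neg, neg_re, h4, neg_neg]
    rw [h4, h5]
    have h6 : ‖μ i‖ ^ 2 * Real.exp ‖μ i‖ ≤ 2 * (Real.exp (-(4 * Real.pi * x i)) + Real.exp (4 * Real.pi * x i)) := by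
      have h7 : ‖μ i‖ ^ 2 ≤ 2 * Real.exp ‖μ i‖ := by
        have := Real.quadratic_le_exp_of_nonneg (norm_nonneg (μ i))
        nlinarith [norm_nonneg (μ i)]
      have h8 : Real.exp ‖μ i‖ * Real.exp ‖μ i‖ ≤ Real.exp (-(4 * Real.pi * x i)) + Real.exp (4 * Real.pi * x i) := by
        rw [← Real.exp_add, hμn]
        rcases le_total 0 (x i) with h | h
        · rw [abs_of_nonneg h]
          have : 2 * Real.pi * x i + 2 * Real.pi * x i = 4 * Real.pi * x i := by ring
          rw [this]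
          linarith [Real.exp_pos (-(4 * Real.pi * x i))]
        · rw [abs_of_nonpos h]
          have : 2 * Real.pi * -x i + 2 * Real.pi * -x i = -(4 * Real.pi * x i) := by ring
          rw [this]
          linarith [Real.exp_pos (4 * Real.pi * x i)]
      have h9 := Real.exp_pos ‖μ i‖
      nlinarith
    have h10 := mul_le_mul_of_nonneg_left h6 (norm_nonneg (c i))
    calc _ ≤ _ := h10
      _ = _ := by ring
  have hsum : Summable (fun i => c i * (μ i) ^ 2) := by
    refine Summable.of_norm_bounded hb (fun i => ?_)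
    rw [norm_mul, norm_pow]
    refine mul_le_mul_of_nonneg_left ?_ (norm_nonneg _)
    exact le_mul_of_one_le_right (by positivity) (Real.one_le_exp (norm_nonneg _))
  have hpi : (2 * Real.pi * I : ℂ) ≠ 0 := Complex.two_pi_I_ne_zero
  have hsum' : Summable (fun i => c i * (x i : ℂ) ^ 2) := by
    have h1 := hsum.mul_left ((2 * Real.pi * I : ℂ) ^ 2)⁻¹
    refine h1.congr (fun i => ?_)
    simp only [hμ]
    field_simp
  refine ⟨hsum', ?_⟩
  have key : Tendsto (fun s : ℂ => ∑' i, c i * ((cexp (μ i * s) + cexp (-(μ i * s)) - 2) / s ^ 2)) (𝓝[≠] 0)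
      (𝓝 (∑' i, c i * (μ i) ^ 2)) := by
    refine tendsto_tsum_of_dominated_convergence (bound := fun i => 2 * (‖c i‖ * (‖μ i‖ ^ 2 * Real.exp ‖μ i‖)))
      (hb.mul_left 2) ?_ ?_
    · intro i
      refine Tendsto.const_mul _ ?_
      rw [tendsto_iff_norm_sub_tendsto_zero]
      have h1 : Tendsto (fun s : ℂ => 2 * (‖μ i‖ ^ 3 * ‖s‖ * Real.exp ‖μ i * s‖)) (𝓝[≠] 0) (𝓝 0) := by
        have h2 : Continuous (fun s : ℂ => 2 * (‖μ i‖ ^ 3 * ‖s‖ * Real.exp ‖μ i * s‖)) := by fun_prop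
        have h3 := h2.tendsto 0
        simp only [norm_zero, mul_zero, zero_mul] at h3
        exact h3.mono_left nhdsWithin_le_nhds
      refine squeeze_zero_norm' ?_ h1
      filter_upwards [self_mem_nhdsWithin] with s hs
      have hs0 : s ≠ 0 := hs
      rw [norm_norm]
      have h4 : (cexp (μ i * s) + cexp (-(μ i * s)) - 2) / s ^ 2 - μ i ^ 2 =
        (cexp (μ i * s) + cexp (-(μ i * s)) - 2 - (μ i * s) ^ 2) / s ^ 2 := by
        field_simp
      rw [h4, norm_div, norm_pow]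
      have h5 := sym_bound3 (μ i * s)
      have h6 : 0 < ‖s‖ := norm_pos_iff.mpr hs0
      rw [div_le_iff₀ (by positivity)]
      refine h5.trans (le_of_eq ?_)
      rw [norm_mul]
      ring
    · have h1 : ∀ᶠ s : ℂ in 𝓝[≠] 0, ‖s‖ < 1 := by
        have h2 : ∀ᶠ s : ℂ in 𝓝 0, ‖s‖ < 1 := by
          have := Metric.ball_mem_nhds (0 : ℂ) one_pos
          filter_upwards [this] with s hs
          simpa using hs
        exact h2.filter_mono nhdsWithin_le_nhds
      filter_upwards [self_mem_nhdsWithin, h1] with s hs hs1 i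
      have hs0 : s ≠ 0 := hs
      have h6 : 0 < ‖s‖ := norm_pos_iff.mpr hs0
      rw [norm_mul, norm_div, norm_pow]
      have h5 := sym_bound (μ i * s)
      have h7 : ‖cexp (μ i * s) + cexp (-(μ i * s)) - 2‖ / ‖s‖ ^ 2 ≤ 2 * (‖μ i‖ ^ 2 * Real.exp ‖μ i‖) := by
        rw [div_le_iff₀ (by positivity)]
        refine h5.trans ?_
        rw [norm_mul]
        have h8 : Real.exp (‖μ i‖ * ‖s‖) ≤ Real.exp ‖μ i‖ := by
          apply Real.exp_le_exp.mpr
          exact mul_le_of_le_one_right (norm_nonneg _) hs1.le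
        have h9 : (0:ℝ) ≤ 2 * (‖μ i‖ ^ 2 * ‖s‖ ^ 2) := by positivity
        calc 2 * ((‖μ i‖ * ‖s‖) ^ 2 * Real.exp (‖μ i‖ * ‖s‖)) = 2 * (‖μ i‖ ^ 2 * ‖s‖ ^ 2) * Real.exp (‖μ i‖ * ‖s‖) := by ring
          _ ≤ 2 * (‖μ i‖ ^ 2 * ‖s‖ ^ 2) * Real.exp ‖μ i‖ := mul_le_mul_of_nonneg_left h8 h9
          _ = _ := by ring
      calc ‖c i‖ * (‖cexp (μ i * s) + cexp (-(μ i * s)) - 2‖ / ‖s‖ ^ 2) ≤ ‖c i‖ * (2 * (‖μ i‖ ^ 2 * Real.exp ‖μ i‖)) :=
            mul_le_mul_of_nonneg_left h7 (norm_nonneg _)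
        _ = _ := by ring
  have h1 : (∑' i, c i * (μ i) ^ 2) = (2 * Real.pi * I) ^ 2 * ∑' i, c i * (x i : ℂ) ^ 2 := by
    rw [← tsum_mul_left]
    congr 1
    funext i
    simp only [hμ]
    ring
  rw [← h1]
  refine key.congr' ?_
  filter_upwards [self_mem_nhdsWithin] with s hs
  have hs0 : s ≠ 0 := hs
  have h2 := (((hF' s).add (hF' (-s))).sub ((hF' 0).mul_left 2)).div_const (s ^ 2)
  rw [← h2.tsum_eq]
  congr 1
  funext i
  rw [mul_zero, Complex.exp_zero, mul_neg]
  ring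

/-! ### `q`-series on the upper half plane -/

theorem repC_of_hasSum {F : ℍ → ℂ} {c : ℕ → ℂ}
    (h : ∀ τ : ℍ, HasSum (fun n : ℕ => c n * cexp (2 * Real.pi * I * (n * (τ : ℂ)))) (F τ)) :
    ∃ g : ℂ → ℂ, RepC g (PowerSeries.mk c) ∧ ∀ τ : ℍ, F τ = g (cexp (2 * Real.pi * I * (τ : ℂ))) := by
  refine ⟨fun q => ∑' n, c n * q ^ n, ?_, ?_⟩
  · intro q hq
    simp only [PowerSeries.coeff_mk]
    apply Summable.hasSum
    by_cases hq0 : q = 0
    · apply summable_of_ne_finset_zero (s := {0})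
      intro n hn
      have : n ≠ 0 := by simpa using hn
      rw [hq0, zero_pow this, mul_zero]
    · have him := Function.Periodic.im_invQParam_pos_of_norm_lt_one one_pos hq hq0
      have h1 := (h ⟨_, him⟩).summable
      have h2 : cexp (2 * Real.pi * I * (Function.Periodic.invQParam 1 q)) = q := by
        have := Function.Periodic.qParam_right_inv (h := 1) one_ne_zero hq0
        simpa [Function.Periodic.qParam] using this
      refine h1.congr (fun n => ?_)
      have h3 : (2 * Real.pi * I * (n * (Function.Periodic.invQParam 1 q)) : ℂ) = n * (2 * Real.pi * I * (Function.Periodic.invQParam 1 q)) := by ring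
      change c n * cexp (2 * Real.pi * I * (n * (Function.Periodic.invQParam 1 q))) = c n * q ^ n
      rw [h3, Complex.exp_nat_mul, h2]
  · intro τ
    rw [← (h τ).tsum_eq]
    congr 1
    funext n
    rw [← Complex.exp_nat_mul]
    congr 2
    ring

theorem mdiff_of_hasSum {F : ℍ → ℂ} {c : ℕ → ℂ}
    (h : ∀ τ : ℍ, HasSum (fun n : ℕ => c n * cexp (2 * Real.pi * I * (n * (τ : ℂ)))) (F τ)) :
    MDiff F := by
  obtain ⟨g, hg, hF⟩ := repC_of_hasSum h
  rw [UpperHalfPlane.mdifferentiable_iff]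
  have h1 : DifferentiableOn ℂ (fun w : ℂ => g (cexp (2 * Real.pi * I * w))) {z | 0 < z.im} := by
    have h2 := hg.differentiableOn
    refine h2.comp (f := fun w : ℂ => cexp (2 * Real.pi * I * w)) (s := {z | 0 < z.im}) ?_ ?_
    · fun_prop
    · intro w hw
      have hw' : 0 < w.im := hw
      have h3 := Function.Periodic.norm_qParam_lt_one (h := 1) one_pos hw'
      simpa [Function.Periodic.qParam] using h3
  refine h1.congr ?_
  intro w hw
  have hw' : 0 < w.im := hw
  rw [Function.comp_apply, ofComplex_apply_of_im_pos hw', hF]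

theorem tendsto_q : Tendsto (fun τ : ℍ => cexp (2 * Real.pi * I * (τ : ℂ))) atImInfty (𝓝 0) := by
  have h := UpperHalfPlane.qParam_tendsto_atImInfty (h := 1) one_pos
  simpa [Function.Periodic.qParam] using h

theorem tendsto_shift {F : ℍ → ℂ} {c : ℕ → ℂ} {N : ℕ}
    (h : ∀ τ : ℍ, HasSum (fun n : ℕ => c n * cexp (2 * Real.pi * I * (n * (τ : ℂ)))) (F τ))
    (hN : ∀ n < N, c n = 0) :
    Tendsto (fun τ : ℍ => F τ * cexp (-(2 * Real.pi * I * (N * (τ : ℂ))))) atImInfty (𝓝 (c N)) := by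
  have h1 : ∀ τ : ℍ, HasSum (fun n : ℕ => c (n + N) * cexp (2 * Real.pi * I * (n * (τ : ℂ))))
      (F τ * cexp (-(2 * Real.pi * I * (N * (τ : ℂ))))) := by
    intro τ
    have h2 := (hasSum_nat_add_iff' N).mpr (h τ)
    have h3 : ∑ i ∈ Finset.range N, c i * cexp (2 * Real.pi * I * (i * (τ : ℂ))) = 0 := by
      apply Finset.sum_eq_zero
      intro i hi
      rw [hN i (Finset.mem_range.mp hi), zero_mul]
    rw [h3, sub_zero] at h2
    have h4 := h2.mul_right (cexp (-(2 * Real.pi * I * (N * (τ : ℂ)))))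
    refine h4.congr_fun ?_ |> id
    intro n
    rw [mul_assoc (c (n + N)), ← Complex.exp_add]
    congr 2
    push_cast
    ring
  obtain ⟨g, hg, hF⟩ := repC_of_hasSum h1
  have h5 : g 0 = c N := by
    have h6 := hg 0 (by simp)
    have h7 := hasSum_single (f := fun n : ℕ => (PowerSeries.coeff n (PowerSeries.mk fun n => c (n + N))) * (0 : ℂ) ^ n) 0 (by
      intro n hn
      simp [hn])
    have h8 := h6.unique h7
    simpa using h8
  have h9 : Tendsto (fun τ : ℍ => g (cexp (2 * Real.pi * I * (τ : ℂ)))) atImInfty (𝓝 (g 0)) :=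
    (hg.analyticAt_zero.continuousAt.tendsto).comp tendsto_q
  rw [h5] at h9
  exact h9.congr (fun τ => (hF τ).symm)

/-- A slash invariant function of weight `2` that has a limit at `i∞` vanishes. -/
theorem eq_zero_of_wt_two {G : ℍ → ℂ} (hG : MDiff G)
    (hs : ∀ γ : SL(2, ℤ), G ∣[(2 : ℤ)] γ = G) {c : ℂ} (h0 : Tendsto G atImInfty (𝓝 c)) : G = 0 := by
  let f : ModularForm 𝒮ℒ 2 :=
    { toFun := G
      slash_action_eq' := fun _ ⟨γ, hγ⟩ ↦ hγ ▸ hs γ
      holo' := hG
      bdd_at_cusps' := by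
        intro c hc
        rw [Subgroup.IsArithmetic.isCusp_iff_isCusp_SL2Z] at hc
        rw [OnePoint.isBoundedAt_iff_forall_SL2Z hc]
        intro γ _
        rw [hs γ]
        exact h0.isBigO_one ℝ }
  have h1 : f = 0 := rank_zero_iff_forall_zero.mp levelOne_weight_two_rank_zero f
  have h2 : (f : ℍ → ℂ) = 0 := by rw [h1]; rfl
  exact h2

end Pool.Agent.V11275.Jac
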