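import Mathlib

namespace Pool.V11275.Braid

variable {A : Type*}

/-- An elementary braid step at position `i` for words indexed by `ℤ`. -/
def Step (R : A → A → Prop) (f g : ℤ → A) (i : ℤ) : Prop :=
  R (f i) (f (i + 1)) ∧ f (i + 2) = f i ∧ g i = f (i + 1) ∧ g (i + 1) = f i ∧
    g (i + 2) = f (i + 1) ∧ ∀ k, k ≠ i → k ≠ i + 1 → k ≠ i + 2 → g k = f k

def Good (R : A → A → Prop) (f : ℤ → A) : Prop :=
  ∀ i, R (f i) (f (i + 1)) → f (i + 2) = f i → f (i + 3) ≠ f (i + 1)

structure Fam (R : A → A → Prop) where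
  C : Finset ℤ
  e : ℤ → Bool → A
  r : ℤ → Bool
  l : ℤ → Bool
  base : ℤ → A
  h1 : ∀ c ∈ C, R (e c true) (e c false)
  h2 : ∀ c ∈ C, c + 1 ∉ C
  h3 : ∀ c ∈ C, c + 2 ∈ C → e c (r c) = e (c + 2) (l (c + 2))

variable {R : A → A → Prop}

namespace Fam

variable (P : Fam R)

def word (ε : ℤ → Bool) (j : ℤ) : A :=
  if j - 1 ∈ P.C then P.e (j - 1) (ε (j - 1))
  else if j - 2 ∈ P.C ∧ (j ∉ P.C ∨ ε (j - 2) = P.r (j - 2)) then P.e (j - 2) (!ε (j - 2))
  else if j ∈ P.C then P.e j (!ε j)
  else P.base j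

def Valid (ε : ℤ → Bool) : Prop :=
  ∀ c ∈ P.C, c + 2 ∈ P.C → ¬ (ε c = P.r c ∧ ε (c + 2) = P.l (c + 2))

lemma h2' {c : ℤ} (hc : c ∈ P.C) : c - 1 ∉ P.C := by
  intro h
  have := P.h2 _ h
  rw [sub_add_cancel] at this
  exact this hc

lemma word_center (ε : ℤ → Bool) {c : ℤ} (hc : c ∈ P.C) : P.word ε (c + 1) = P.e c (ε c) := by
  unfold word
  rw [if_pos (by simpa using hc)]
  simp

/-- The left end of a center `c` with the left neighbour not blocking. -/
lemma word_left (ε : ℤ → Bool) {c : ℤ} (hc : c ∈ P.C)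
    (h : c - 2 ∈ P.C → ε (c - 2) ≠ P.r (c - 2)) : P.word ε c = P.e c (!ε c) := by
  unfold word
  rw [if_neg (P.h2' hc), if_neg, if_pos hc]
  rintro ⟨h1, h2 | h2⟩
  · exact h2 hc
  · exact h h1 h2

lemma word_left' (ε : ℤ → Bool) {c : ℤ} (hc : c ∈ P.C)
    (h : c - 2 ∈ P.C) (h' : ε (c - 2) = P.r (c - 2)) :
    P.word ε c = P.e (c - 2) (!ε (c - 2)) := by
  unfold word
  rw [if_neg (P.h2' hc), if_pos ⟨h, Or.inr h'⟩]

lemma word_right (ε : ℤ → Bool) {c : ℤ} (hc : c ∈ P.C)
    (h : c + 2 ∈ P.C → ε c ≠ P.r c → ε (c + 2) ≠ P.l (c + 2)) :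
    P.word ε (c + 2) = P.e c (!ε c) := by
  unfold word
  rw [if_neg (by rw [show c + 2 - 1 = c + 1 by ring]; exact P.h2 c hc)]
  rw [show c + 2 - 2 = c by ring]
  by_cases hc2 : c + 2 ∈ P.C
  · by_cases hr : ε c = P.r c
    · rw [if_pos ⟨hc, Or.inr hr⟩]
    · rw [if_neg (by rintro ⟨_, h2 | h2⟩; exacts [h2 hc2, hr h2]), if_pos hc2]
      have h1 := h hc2 hr
      have h3 := P.h3 c hc hc2
      have e1 : (!ε (c + 2)) = P.l (c + 2) := by
        revert h1; cases ε (c + 2) <;> cases P.l (c + 2) <;> simp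
      have e2 : (!ε c) = P.r c := by
        revert hr; cases ε c <;> cases P.r c <;> simp
      rw [e1, e2, h3]
  · rw [if_pos ⟨hc, Or.inl hc2⟩]

lemma word_right' (ε : ℤ → Bool) {c : ℤ} (hc : c ∈ P.C)
    (h : c + 2 ∈ P.C) (h' : ε c ≠ P.r c) :
    P.word ε (c + 2) = P.e (c + 2) (!ε (c + 2)) := by
  unfold word
  rw [if_neg (by rw [show c + 2 - 1 = c + 1 by ring]; exact P.h2 c hc)]
  rw [show c + 2 - 2 = c by ring]
  rw [if_neg (by rintro ⟨_, h2 | h2⟩; exacts [h2 h, h' h2]), if_pos h]

lemma word_congr {ε δ : ℤ → Bool} {k : ℤ} (h0 : k ∈ P.C → ε k = δ k)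
    (h1 : k - 1 ∈ P.C → ε (k - 1) = δ (k - 1)) (h2 : k - 2 ∈ P.C → ε (k - 2) = δ (k - 2)) :
    P.word ε k = P.word δ k := by
  unfold word
  by_cases a1 : k - 1 ∈ P.C
  · rw [if_pos a1, if_pos a1, h1 a1]
  · rw [if_neg a1, if_neg a1]
    by_cases a2 : k - 2 ∈ P.C
    · rw [h2 a2]
      by_cases a3 : k ∈ P.C
      · rw [h0 a3]
      · simp [a2, a3]
    · simp only [a2, false_and, if_false]
      by_cases a3 : k ∈ P.C
      · rw [if_pos a3, if_pos a3, h0 a3]
      · rw [if_neg a3, if_neg a3]

lemma word_ext {ε δ : ℤ → Bool} (h : ∀ c ∈ P.C, ε c = δ c) : P.word ε = P.word δ := by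
  funext k
  exact P.word_congr (h k) (h (k - 1)) (h (k - 2))

variable (hsymm : ∀ a b, R a b → R b a)

include hsymm in
lemma R_pair {c : ℤ} (hc : c ∈ P.C) (b : Bool) : R (P.e c (!b)) (P.e c b) := by
  cases b
  · exact P.h1 c hc
  · exact hsymm _ _ (P.h1 c hc)

/-- Flipping one center when both the source and target are valid is an elementary step. -/
lemma flip_left {ε : ℤ → Bool} {c : ℤ} (hc : c ∈ P.C) (hv : P.Valid ε)
    (hv' : P.Valid (Function.update ε c (!ε c))) (h : c - 2 ∈ P.C) :
    ε (c - 2) ≠ P.r (c - 2) := by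
  intro h'
  have a1 := hv (c - 2) h (by simpa using hc)
  have a2 := hv' (c - 2) h (by simpa using hc)
  rw [sub_add_cancel] at a1 a2
  rw [Function.update_of_ne (by omega), Function.update_self] at a2
  revert a1 a2
  rw [h']
  cases ε c <;> cases P.l c <;> simp

lemma flip_right {ε : ℤ → Bool} {c : ℤ} (hc : c ∈ P.C) (hv : P.Valid ε)
    (hv' : P.Valid (Function.update ε c (!ε c))) (h : c + 2 ∈ P.C) :
    ε (c + 2) ≠ P.l (c + 2) := by
  intro h'
  have a1 := hv c hc h
  have a2 := hv' c hc h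
  rw [Function.update_self, Function.update_of_ne (by omega)] at a2
  revert a1 a2
  rw [h']
  cases ε c <;> cases P.r c <;> simp

include hsymm in
lemma step_flip {ε : ℤ → Bool} {c : ℤ} (hc : c ∈ P.C) (hv : P.Valid ε)
    (hv' : P.Valid (Function.update ε c (!ε c))) :
    Step R (P.word ε) (P.word (Function.update ε c (!ε c))) c := by
  have L : c - 2 ∈ P.C → ε (c - 2) ≠ P.r (c - 2) := P.flip_left hc hv hv'
  have Rr : c + 2 ∈ P.C → ε (c + 2) ≠ P.l (c + 2) := P.flip_right hc hv hv'
  have w1 : P.word ε c = P.e c (!ε c) := P.word_left ε hc L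
  have w2 : P.word ε (c + 1) = P.e c (ε c) := P.word_center ε hc
  have w3 : P.word ε (c + 2) = P.e c (!ε c) := P.word_right ε hc (fun h _ => Rr h)
  set δ := Function.update ε c (!ε c) with hδ
  have hδc : δ c = !ε c := by simp [hδ]
  have hδl : δ (c - 2) = ε (c - 2) := by rw [hδ, Function.update_of_ne (by omega)]
  have hδr : δ (c + 2) = ε (c + 2) := by rw [hδ, Function.update_of_ne (by omega)]
  have v1 : P.word δ c = P.e c (!δ c) := P.word_left δ hc (by rw [hδl]; exact L)
  have v2 : P.word δ (c + 1) = P.e c (δ c) := P.word_center δ hc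
  have v3 : P.word δ (c + 2) = P.e c (!δ c) :=
    P.word_right δ hc (fun h _ => by rw [hδr]; exact Rr h)
  rw [hδc] at v1 v2 v3
  rw [Bool.not_not] at v1 v3
  refine ⟨?_, ?_, ?_, ?_, ?_, ?_⟩
  · rw [w1, w2]; exact P.R_pair hsymm hc _
  · rw [w3, w1]
  · rw [v1, w2]
  · rw [v2, w1]
  · rw [v3, w2]
  · intro k h0 h1 h2
    apply P.word_congr
    · intro _; rw [hδ, Function.update_of_ne h0]
    · intro _; rw [hδ, Function.update_of_ne (by omega)]
    · intro _; rw [hδ, Function.update_of_ne (by omega)]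

/-- Among the differing centers, one can be flipped. -/
lemma exists_flippable {ε δ : ℤ → Bool} (hε : P.Valid ε) (hδ : P.Valid δ)
    (hne : ∃ c ∈ P.C, ε c ≠ δ c) :
    ∃ c ∈ P.C, ε c ≠ δ c ∧ P.Valid (Function.update ε c (!ε c)) := by
  classical
  set D := P.C.filter (fun c => ε c ≠ δ c) with hD
  have hDne : D.Nonempty := by
    obtain ⟨c, hc, hc'⟩ := hne
    exact ⟨c, by simp [hD, hc, hc']⟩
  -- not blocked right
  set E := D.filter (fun i => ¬ (i + 2 ∈ P.C ∧ ε (i + 2) = P.l (i + 2) ∧ (!ε i) = P.r i)) with hE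
  have hEne : E.Nonempty := by
    refine ⟨D.max' hDne, ?_⟩
    have hm := D.max'_mem hDne
    set m := D.max' hDne with hm'
    rw [hE, Finset.mem_filter]
    refine ⟨hm, ?_⟩
    rintro ⟨a1, a2, a3⟩
    rw [hD, Finset.mem_filter] at hm
    have a4 : δ m = P.r m := by
      rw [← a3]
      have := hm.2
      revert this; cases ε m <;> cases δ m <;> simp
    have a5 := hδ m hm.1 a1
    have a6 : m + 2 ∈ D := by
      rw [hD, Finset.mem_filter]
      refine ⟨a1, ?_⟩
      intro h
      exact a5 ⟨a4, by rw [← h]; exact a2⟩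
    have := D.le_max' _ a6
    omega
  refine ⟨E.min' hEne, ?_⟩
  have hm := E.min'_mem hEne
  have hmin : ∀ j ∈ E, E.min' hEne ≤ j := fun j hj => E.min'_le j hj
  set m := E.min' hEne with hm'
  rw [hE, Finset.mem_filter, hD, Finset.mem_filter] at hm
  obtain ⟨⟨m1, m2⟩, m3⟩ := hm
  refine ⟨m1, m2, ?_⟩
  intro c hc hc2
  by_cases hcm : c = m
  · subst hcm
    rw [Function.update_self, Function.update_of_ne (by omega)]
    rintro ⟨b1, b2⟩
    exact m3 ⟨hc2, b2, b1⟩
  · by_cases hcm2 : c + 2 = m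
    · rw [Function.update_of_ne hcm, hcm2, Function.update_self]
      rintro ⟨b1, b2⟩
      have b3 : δ m = P.l m := by
        rw [← b2]
        revert m2; cases ε m <;> cases δ m <;> simp
      have b4 := hδ c hc hc2
      rw [hcm2] at b4
      have b5 : c ∈ E := by
        rw [hE, Finset.mem_filter, hD, Finset.mem_filter]
        refine ⟨⟨hc, ?_⟩, ?_⟩
        · intro h
          exact b4 ⟨by rw [← h]; exact b1, b3⟩
        · rintro ⟨_, _, b6⟩
          rw [← b1] at b6
          revert b6; cases ε c <;> simp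
      have := hmin c b5
      omega
    · rw [Function.update_of_ne hcm, Function.update_of_ne hcm2]
      exact hε c hc hc2

end Fam

/-- Paths of a given length. -/
inductive PathLen (R : A → A → Prop) : (ℤ → A) → (ℤ → A) → ℕ → Prop
  | refl (f : ℤ → A) : PathLen R f f 0
  | step {f g h : ℤ → A} {i : ℤ} {n : ℕ} : Step R f g i → PathLen R g h n → PathLen R f h (n + 1)

namespace Fam

variable (P : Fam R) (hsymm : ∀ a b, R a b → R b a)

include hsymm in
lemma path_valid : ∀ (n : ℕ) {ε δ : ℤ → Bool}, P.Valid ε → P.Valid δ →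
    (P.C.filter (fun c => ε c ≠ δ c)).card = n → PathLen R (P.word ε) (P.word δ) n := by
  classical
  intro n
  induction n with
  | zero =>
    intro ε δ hε hδ h
    rw [Finset.card_eq_zero] at h
    have : P.word ε = P.word δ := by
      apply P.word_ext
      intro c hc
      by_contra hne
      have : c ∈ P.C.filter (fun c => ε c ≠ δ c) := by simp [hc, hne]
      rw [h] at this
      simp at this
    rw [this]
    exact PathLen.refl _
  | succ n ih =>
    intro ε δ hε hδ h
    have hne : ∃ c ∈ P.C, ε c ≠ δ c := by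
      have : (P.C.filter (fun c => ε c ≠ δ c)).Nonempty := by
        rw [← Finset.card_pos]; omega
      obtain ⟨c, hc⟩ := this
      rw [Finset.mem_filter] at hc
      exact ⟨c, hc.1, hc.2⟩
    obtain ⟨c, hc, hcne, hv⟩ := P.exists_flippable hε hδ hne
    refine PathLen.step (P.step_flip hsymm hc hε hv) (ih hv hδ ?_)
    have : (P.C.filter (fun c => ε c ≠ δ c)) =
        insert c (P.C.filter (fun k => (Function.update ε c (!ε c)) k ≠ δ k)) := by
      ext k
      simp only [Finset.mem_filter, Finset.mem_insert]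
      by_cases hk : k = c
      · subst hk
        simp [hc, hcne]
      · rw [Function.update_of_ne hk]
        simp [hk]
    rw [this, Finset.card_insert_of_notMem] at h
    · omega
    · simp only [Finset.mem_filter, Function.update_self, not_and, not_not]
      intro _
      revert hcne; cases ε c <;> cases δ c <;> simp

/-- An assignment together with its complement, both valid. -/
lemma exists_antipodal : ∃ ε : ℤ → Bool, P.Valid ε ∧ P.Valid (fun c => !ε c) := by
  classical
  have key : ∀ S : Finset ℤ, ∃ ε : ℤ → Bool, ∀ c ∈ S, c + 2 ∈ S →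
      (ε c = P.r c ↔ ε (c + 2) ≠ P.l (c + 2)) := by
    intro S
    induction S using Finset.induction_on_max with
    | empty => exact ⟨fun _ => true, by simp⟩
    | insert a S ha ih =>
      obtain ⟨ε, hε⟩ := ih
      refine ⟨Function.update ε a (if ε (a - 2) = P.r (a - 2) then !P.l a else P.l a), ?_⟩
      intro c hc hc2
      rw [Finset.mem_insert] at hc hc2
      have hca : c ≠ a := by
        rintro rfl
        rcases hc2 with h | h
        · omega
        · have := ha _ h
          omega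
      have hc' : c ∈ S := by
        rcases hc with h | h
        · exact absurd h hca
        · exact h
      rw [Function.update_of_ne hca]
      rcases hc2 with h | h
      · have hca2 : c = a - 2 := by omega
        subst hca2
        rw [sub_add_cancel, Function.update_self]
        by_cases h3 : ε (a - 2) = P.r (a - 2)
        · simp [h3]
        · simp [h3]
      · have := ha _ h
        rw [Function.update_of_ne (by omega)]
        exact hε c hc' h
  obtain ⟨ε, hε⟩ := key P.C
  refine ⟨ε, ?_, ?_⟩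
  · rintro c hc hc2 ⟨h1, h2⟩
    exact (hε c hc hc2).1 h1 h2
  · rintro c hc hc2 ⟨h1, h2⟩
    have h := hε c hc hc2
    simp only at h1 h2
    have : ε c ≠ P.r c := by
      intro h'
      rw [← h'] at h1
      revert h1; cases ε c <;> simp
    have h3 : ε (c + 2) = P.l (c + 2) := by
      by_contra h4
      exact this (h.2 h4)
    rw [← h3] at h2
    revert h2; cases ε (c + 2) <;> simp

/-- A valid assignment for which flipping the center `c` stays valid. -/
lemma exists_free {c : ℤ} (hc : c ∈ P.C) :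
    ∃ ε : ℤ → Bool, P.Valid ε ∧ P.Valid (Function.update ε c (!ε c)) := by
  refine ⟨fun k => if k < c then !P.r k else !P.l k, ?_, ?_⟩
  · rintro k hk hk2 ⟨h1, h2⟩
    simp only at h1 h2
    by_cases hkc : k < c
    · rw [if_pos hkc] at h1
      revert h1; cases P.r k <;> simp
    · rw [if_neg (by omega)] at h2
      revert h2; cases P.l (k + 2) <;> simp
  · rintro k hk hk2 ⟨h1, h2⟩
    by_cases hkc : k < c
    · rw [Function.update_of_ne (by omega), if_pos hkc] at h1
      revert h1; cases P.r k <;> simp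
    · rw [Function.update_of_ne (by omega), if_neg (by omega)] at h2
      revert h2; cases P.l (k + 2) <;> simp

end Fam

end Pool.V11275.Braid
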