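import Mathlib
import Pool.Agent.V11275.Braid1

namespace Pool.V11275.Braid

variable {A : Type*} {R : A → A → Prop}

namespace Fam

variable (P : Fam R)

def adjR (ε : ℤ → Bool) (c : ℤ) : ℤ → Bool := fun k => if k ≤ c then ε k else !P.l k

def adjL (ε : ℤ → Bool) (c : ℤ) : ℤ → Bool := fun k => if c ≤ k then ε k else !P.r k

lemma adjR_valid {ε : ℤ → Bool} (hε : P.Valid ε) (c : ℤ) : P.Valid (P.adjR ε c) := by
  rintro k hk hk2 ⟨h1, h2⟩
  unfold adjR at h1 h2
  by_cases hkc : k + 2 ≤ c
  · rw [if_pos (by omega)] at h1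
    rw [if_pos hkc] at h2
    exact hε k hk hk2 ⟨h1, h2⟩
  · rw [if_neg hkc] at h2
    revert h2; cases P.l (k + 2) <;> simp

lemma adjL_valid {ε : ℤ → Bool} (hε : P.Valid ε) (c : ℤ) : P.Valid (P.adjL ε c) := by
  rintro k hk hk2 ⟨h1, h2⟩
  unfold adjL at h1 h2
  by_cases hkc : c ≤ k
  · rw [if_pos (by omega)] at h1
    rw [if_pos (by omega)] at h2
    exact hε k hk hk2 ⟨h1, h2⟩
  · rw [if_neg hkc] at h1
    revert h1; cases P.r k <;> simp

lemma adjR_le {ε : ℤ → Bool} {c k : ℤ} (h : k ≤ c) : ε k = P.adjR ε c k := by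
  unfold adjR; rw [if_pos h]

lemma adjL_ge {ε : ℤ → Bool} {c k : ℤ} (h : c ≤ k) : ε k = P.adjL ε c k := by
  unfold adjL; rw [if_pos h]

lemma no_next (hsymm : ∀ a b, R a b → R b a) (hirr : ∀ a, ¬ R a a)
    (hgood : ∀ δ, P.Valid δ → Good R (P.word δ)) {ε : ℤ → Bool} (hε : P.Valid ε)
    {c : ℤ} (hc : c ∈ P.C) (hR : R (P.word ε (c - 1)) (P.word ε c))
    (h2 : P.word ε (c + 1) = P.word ε (c - 1)) : False := by
  by_cases hb : c - 2 ∈ P.C ∧ ε (c - 2) = P.r (c - 2)
  · obtain ⟨b1, b2⟩ := hb
    have w1 : P.word ε (c - 2 + 1) = P.e (c - 2) (ε (c - 2)) := P.word_center ε b1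
    have w2 : P.word ε (c + 1) = P.e c (ε c) := P.word_center ε hc
    have h3 := P.h3 (c - 2) b1 (by simpa using hc)
    rw [sub_add_cancel] at h3
    rw [show c - 2 + 1 = c - 1 by ring] at w1
    rw [w2, w1, b2, h3] at h2
    have hv := hε (c - 2) b1 (by simpa using hc)
    rw [sub_add_cancel] at hv
    have h4 : ε c ≠ P.l c := fun h => hv ⟨b2, h⟩
    have h5 : P.l c = !ε c := by
      revert h4; cases ε c <;> cases P.l c <;> simp
    have h6 := P.R_pair hsymm hc (ε c)
    rw [← h5, ← h2] at h6
    exact hirr _ h6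
  · have w1 : P.word ε c = P.e c (!ε c) := by
      apply P.word_left ε hc
      intro h h'
      exact hb ⟨h, h'⟩
    have hδ := P.adjR_valid hε c
    have g := hgood _ hδ (c - 1)
    have v0 : P.word (P.adjR ε c) (c - 1) = P.word ε (c - 1) := by
      symm
      apply P.word_congr <;> intro _ <;> exact P.adjR_le (by omega)
    have v1 : P.word (P.adjR ε c) c = P.word ε c := by
      symm
      apply P.word_congr <;> intro _ <;> exact P.adjR_le (by omega)
    have v2 : P.word (P.adjR ε c) (c + 1) = P.word ε (c + 1) := by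
      symm
      apply P.word_congr
      · intro h; exact absurd h (P.h2 c hc)
      · intro _; exact P.adjR_le (by omega)
      · intro _; exact P.adjR_le (by omega)
    have v3 : P.word (P.adjR ε c) (c + 2) = P.e c (!(P.adjR ε c c)) := by
      apply P.word_right _ hc
      intro _ _
      unfold adjR
      rw [if_neg (by omega)]
      cases P.l (c + 2) <;> simp
    rw [← P.adjR_le (le_refl c), ← w1] at v3
    rw [sub_add_cancel, show c - 1 + 2 = c + 1 by ring, show c - 1 + 3 = c + 2 by ring,
      v0, v1, v2, v3] at g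
    exact g hR h2 rfl

lemma no_prev (hsymm : ∀ a b, R a b → R b a) (hirr : ∀ a, ¬ R a a)
    (hgood : ∀ δ, P.Valid δ → Good R (P.word δ)) {ε : ℤ → Bool} (hε : P.Valid ε)
    {c : ℤ} (hc : c ∈ P.C) (hR : R (P.word ε (c + 1)) (P.word ε (c + 2)))
    (h2 : P.word ε (c + 3) = P.word ε (c + 1)) : False := by
  by_cases hb : c + 2 ∈ P.C ∧ ε c ≠ P.r c ∧ ε (c + 2) = P.l (c + 2)
  · obtain ⟨b1, b2, b3⟩ := hb
    have w1 : P.word ε (c + 2 + 1) = P.e (c + 2) (ε (c + 2)) := P.word_center ε b1
    have w2 : P.word ε (c + 1) = P.e c (ε c) := P.word_center ε hc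
    have h3 := P.h3 c hc b1
    rw [show c + 2 + 1 = c + 3 by ring] at w1
    rw [w2, w1, b3, ← h3] at h2
    have h5 : P.r c = !ε c := by
      revert b2; cases ε c <;> cases P.r c <;> simp
    have h6 := P.R_pair hsymm hc (ε c)
    rw [← h5, h2] at h6
    exact hirr _ h6
  · have w1 : P.word ε (c + 2) = P.e c (!ε c) := by
      apply P.word_right ε hc
      intro h h' h''
      exact hb ⟨h, h', h''⟩
    have hδ := P.adjL_valid hε c
    have g := hgood _ hδ c
    have v1 : P.word (P.adjL ε c) (c + 1) = P.word ε (c + 1) := by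
      symm
      apply P.word_congr
      · intro _; exact P.adjL_ge (by omega)
      · intro _; exact P.adjL_ge (by omega)
      · intro h; exact absurd h (by rw [show c + 1 - 2 = c - 1 by ring]; exact P.h2' hc)
    have v2 : P.word (P.adjL ε c) (c + 2) = P.word ε (c + 2) := by
      symm
      apply P.word_congr <;> intro _ <;> exact P.adjL_ge (by omega)
    have v3 : P.word (P.adjL ε c) (c + 3) = P.word ε (c + 3) := by
      symm
      apply P.word_congr <;> intro _ <;> exact P.adjL_ge (by omega)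
    have v0 : P.word (P.adjL ε c) c = P.e c (!(P.adjL ε c c)) := by
      apply P.word_left _ hc
      intro _
      unfold adjL
      rw [if_neg (by omega)]
      cases P.r (c - 2) <;> simp
    rw [← P.adjL_ge (le_refl c), ← w1] at v0
    rw [v0, v1, v2, v3] at g
    exact g (hsymm _ _ hR) rfl h2

/-- A shadow outside the current family of centers can be added to the family. -/
lemma extend (hsymm : ∀ a b, R a b → R b a) (hirr : ∀ a, ¬ R a a)
    (hgood : ∀ δ, P.Valid δ → Good R (P.word δ)) {ε : ℤ → Bool} (hε : P.Valid ε)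
    {j : ℤ} (hj : j ∉ P.C) (hR : R (P.word ε j) (P.word ε (j + 1)))
    (h2 : P.word ε (j + 2) = P.word ε j) :
    ∃ P' : Fam R, P'.C = insert j P.C ∧ ∃ ε', P'.Valid ε' ∧ P'.word ε' = P.word ε := by
  have hjr : j + 1 ∉ P.C := by
    intro h
    refine P.no_next hsymm hirr hgood hε h ?_ ?_
    · rw [add_sub_cancel_right]; exact hR
    · rw [add_sub_cancel_right, show j + 1 + 1 = j + 2 by ring]; exact h2
  have hjl : j - 1 ∉ P.C := by
    intro h
    refine P.no_prev hsymm hirr hgood hε h ?_ ?_
    · rw [sub_add_cancel, show j - 1 + 2 = j + 1 by ring]; exact hR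
    · rw [sub_add_cancel, show j - 1 + 3 = j + 2 by ring]; exact h2
  set s := P.word ε j with hs
  set t := P.word ε (j + 1) with ht
  let e' : ℤ → Bool → A := Function.update P.e j (fun b => if b then s else t)
  let r' : ℤ → Bool := Function.update (Function.update P.r j true) (j - 2) (!ε (j - 2))
  let l' : ℤ → Bool := Function.update (Function.update P.l j true) (j + 2) (!ε (j + 2))
  let ε' : ℤ → Bool := Function.update ε j false
  have e'_j : e' j = fun b => if b then s else t := by simp [e']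
  have e'_ne : ∀ k, k ≠ j → e' k = P.e k := fun k hk => by simp [e', Function.update_of_ne hk]
  have r'_j : r' j = true := by
    simp only [r']; rw [Function.update_of_ne (by omega), Function.update_self]
  have r'_j2 : r' (j - 2) = !ε (j - 2) := by simp [r']
  have r'_ne : ∀ k, k ≠ j → k ≠ j - 2 → r' k = P.r k := fun k hk hk2 => by
    simp only [r']; rw [Function.update_of_ne hk2, Function.update_of_ne hk]
  have l'_j : l' j = true := by
    simp only [l']; rw [Function.update_of_ne (by omega), Function.update_self]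
  have l'_j2 : l' (j + 2) = !ε (j + 2) := by simp [l']
  have l'_ne : ∀ k, k ≠ j → k ≠ j + 2 → l' k = P.l k := fun k hk hk2 => by
    simp only [l']; rw [Function.update_of_ne hk2, Function.update_of_ne hk]
  have ε'_j : ε' j = false := by simp [ε']
  have ε'_ne : ∀ k, k ≠ j → ε' k = ε k := fun k hk => by simp [ε', Function.update_of_ne hk]
  -- values of the old word near j
  have wr : j + 2 ∈ P.C → P.e (j + 2) (!ε (j + 2)) = s := by
    intro h
    rw [← h2]
    symm
    apply P.word_left ε h
    intro h'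
    rw [add_sub_cancel_right] at h'
    exact absurd h' hj
  have wl : j - 2 ∈ P.C → P.e (j - 2) (!ε (j - 2)) = s := by
    intro h
    rw [hs]
    symm
    have := P.word_right ε h (by
      intro h'
      rw [sub_add_cancel] at h'
      exact absurd h' hj)
    rwa [sub_add_cancel] at this
  refine ⟨⟨insert j P.C, e', r', l', P.base, ?_, ?_, ?_⟩, rfl, ε', ?_, ?_⟩
  · intro c hc
    rw [Finset.mem_insert] at hc
    by_cases hcj : c = j
    · subst hcj
      rw [e'_j]
      simpa using hR
    · rw [e'_ne c hcj]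
      exact P.h1 c (hc.resolve_left hcj)
  · intro c hc
    rw [Finset.mem_insert] at hc ⊢
    rintro (h | h)
    · rcases hc with h' | h'
      · omega
      · apply hjl
        rw [← h, add_sub_cancel_right]; exact h'
    · rcases hc with h' | h'
      · subst h'; exact hjr h
      · exact P.h2 c h' h
  · intro c hc hc2
    rw [Finset.mem_insert] at hc hc2
    by_cases hcj : c = j
    · subst hcj
      have hc2' : c + 2 ∈ P.C := hc2.resolve_left (by omega)
      rw [e'_j, r'_j, e'_ne _ (by omega), l'_j2, wr hc2']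
      simp
    · have hc' := hc.resolve_left hcj
      by_cases hcj2 : c + 2 = j
      · have hcj3 : c = j - 2 := by omega
        subst hcj3
        rw [sub_add_cancel, e'_j, l'_j, e'_ne _ (by omega), r'_j2, wl hc']
        simp
      · have hc2' := hc2.resolve_left hcj2
        have hcj3 : c ≠ j - 2 := by omega
        have hcj4 : c + 2 ≠ j + 2 := by omega
        rw [e'_ne _ hcj, e'_ne _ hcj2, r'_ne _ hcj hcj3, l'_ne _ hcj2 hcj4]
        exact P.h3 c hc' hc2'
  · intro c hc hc2
    simp only at hc hc2 ⊢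
    rw [Finset.mem_insert] at hc hc2
    by_cases hcj : c = j
    · subst hcj
      rw [ε'_j, r'_j]
      simp
    · have hc' := hc.resolve_left hcj
      by_cases hcj2 : c + 2 = j
      · rw [hcj2, ε'_j, l'_j]
        simp
      · have hc2' := hc2.resolve_left hcj2
        have hcj3 : c ≠ j - 2 := by omega
        have hcj4 : c + 2 ≠ j + 2 := by omega
        rw [ε'_ne _ hcj, ε'_ne _ hcj2, r'_ne _ hcj hcj3, l'_ne _ hcj2 hcj4]
        exact hε c hc' hc2'
  · funext k
    by_cases hk1 : k = j + 1
    · subst hk1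
      rw [← ht]
      unfold word
      simp only
      rw [add_sub_cancel_right, if_pos (Finset.mem_insert_self _ _), e'_j, ε'_j]
      simp only [Bool.false_eq_true, if_false]
    by_cases hk2 : k = j + 2
    · subst hk2
      rw [h2]
      unfold word
      simp only
      rw [show j + 2 - 1 = j + 1 by ring, show j + 2 - 2 = j by ring,
        if_neg (by rw [Finset.mem_insert]; rintro (h | h); exacts [by omega, hjr h])]
      rw [ε'_j, r'_j, e'_j]
      by_cases hj2 : j + 2 ∈ P.C
      · rw [if_neg (by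
          rintro ⟨_, h | h⟩
          · exact h (Finset.mem_insert_of_mem hj2)
          · simp at h)]
        rw [if_pos (Finset.mem_insert_of_mem hj2), e'_ne _ (by omega), ε'_ne _ (by omega)]
        exact wr hj2
      · rw [if_pos ⟨Finset.mem_insert_self _ _, Or.inl (by
          rw [Finset.mem_insert]; rintro (h | h); exacts [by omega, hj2 h])⟩]
        simp
    by_cases hk3 : k = j
    · subst hk3
      rw [← hs]
      unfold word
      simp only
      rw [if_neg (by rw [Finset.mem_insert]; rintro (h | h); exacts [by omega, hjl h])]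
      rw [if_neg, if_pos (Finset.mem_insert_self _ _), e'_j, ε'_j]
      · simp
      · rintro ⟨_, h | h⟩
        · exact h (Finset.mem_insert_self _ _)
        · rw [ε'_ne _ (by omega), r'_j2] at h
          revert h; cases ε (k - 2) <;> simp
    unfold word
    simp only
    have m0 : k ∈ insert j P.C ↔ k ∈ P.C := by
      rw [Finset.mem_insert]; exact ⟨fun h => h.resolve_left hk3, Or.inr⟩
    have m1 : k - 1 ∈ insert j P.C ↔ k - 1 ∈ P.C := by
      rw [Finset.mem_insert]; exact ⟨fun h => h.resolve_left (by omega), Or.inr⟩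
    have m2 : k - 2 ∈ insert j P.C ↔ k - 2 ∈ P.C := by
      rw [Finset.mem_insert]; exact ⟨fun h => h.resolve_left (by omega), Or.inr⟩
    simp only [m0, m1, m2]
    rw [e'_ne k hk3, e'_ne (k - 1) (by omega), e'_ne (k - 2) (by omega), ε'_ne k hk3,
      ε'_ne (k - 1) (by omega), ε'_ne (k - 2) (by omega), r'_ne (k - 2) (by omega) (by omega)]

/-- In a triangle-free relation a shadow at an existing center is a free flip. -/
lemma flip_valid (hsymm : ∀ a b, R a b → R b a)
    (htri : ∀ a b c, R a b → R b c → R a c → False) {ε : ℤ → Bool} (hε : P.Valid ε)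
    {j : ℤ} (hj : j ∈ P.C) (hR : R (P.word ε j) (P.word ε (j + 1)))
    (h2 : P.word ε (j + 2) = P.word ε j) : P.Valid (Function.update ε j (!ε j)) := by
  intro c hc hc2
  have w1 : P.word ε (j + 1) = P.e j (ε j) := P.word_center ε hj
  have pr : R (P.e j (!ε j)) (P.e j (ε j)) := P.R_pair hsymm hj _
  by_cases hcj : c = j
  · -- blocked right
    subst hcj
    rw [Function.update_self, Function.update_of_ne (by omega)]
    rintro ⟨b1, b2⟩
    have b3 : ε c ≠ P.r c := by
      rw [← b1]; cases ε c <;> simp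
    have w2 : P.word ε (c + 2) = P.e (c + 2) (!ε (c + 2)) := P.word_right' ε hj hc2 b3
    have h3 := P.h3 c hc hc2
    rw [← b1, ← b2] at h3
    rw [← h2, w1, w2] at hR
    have q : R (P.e (c + 2) (!ε (c + 2))) (P.e (c + 2) (ε (c + 2))) := P.R_pair hsymm hc2 _
    rw [← h3] at q
    exact htri _ _ _ hR (hsymm _ _ pr) q
  · by_cases hcj2 : c + 2 = j
    · -- blocked left
      rw [Function.update_of_ne hcj, hcj2, Function.update_self]
      rintro ⟨b1, b2⟩
      have hcj3 : c = j - 2 := by omega
      subst hcj3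
      have w2 : P.word ε j = P.e (j - 2) (!ε (j - 2)) := P.word_left' ε hj hc b1
      have h3 := P.h3 (j - 2) hc hc2
      rw [sub_add_cancel, ← b1, ← b2] at h3
      rw [w1, w2] at hR
      have q : R (P.e (j - 2) (!ε (j - 2))) (P.e (j - 2) (ε (j - 2))) := P.R_pair hsymm hc _
      rw [h3] at q
      exact htri _ _ _ hR (hsymm _ _ pr) q
    · rw [Function.update_of_ne hcj, Function.update_of_ne hcj2]
      exact hε c hc hc2

end Fam

lemma Step.unique {f g g' : ℤ → A} {i : ℤ} (h : Step R f g i) (h' : Step R f g' i) : g = g' := by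
  obtain ⟨_, _, a1, a2, a3, a4⟩ := h
  obtain ⟨_, _, b1, b2, b3, b4⟩ := h'
  funext k
  by_cases h0 : k = i
  · subst h0; rw [a1, b1]
  by_cases h1 : k = i + 1
  · subst h1; rw [a2, b2]
  by_cases h2 : k = i + 2
  · subst h2; rw [a3, b3]
  rw [a4 k h0 h1 h2, b4 k h0 h1 h2]

lemma Step.symm (hsymm : ∀ a b, R a b → R b a) {f g : ℤ → A} {i : ℤ} (h : Step R f g i) :
    Step R g f i := by
  obtain ⟨a0, a1, a2, a3, a4, a5⟩ := h
  refine ⟨?_, ?_, ?_, ?_, ?_, ?_⟩
  · rw [a2, a3]; exact hsymm _ _ a0
  · rw [a4, a2]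
  · rw [a3]
  · rw [a2]
  · rw [a3, a1]
  · intro k h0 h1 h2
    exact (a5 k h0 h1 h2).symm

/-- The main abstract statement. -/
theorem main (hsymm : ∀ a b, R a b → R b a) (hirr : ∀ a, ¬ R a a)
    (htri : ∀ a b c, R a b → R b c → R a c → False)
    (K : Set (ℤ → A)) (f0 : ℤ → A) (hf0 : f0 ∈ K)
    (hcl : ∀ f ∈ K, ∀ g i, Step R f g i → g ∈ K)
    (hreach : ∀ f ∈ K, ∃ n, PathLen R f0 f n)
    (hgood : ∀ f ∈ K, Good R f)
    (N : Finset ℤ) (hN : ∀ f ∈ K, ∀ i, R (f i) (f (i + 1)) → i ∈ N) :
    ∃ C : Finset ℤ,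
      (∀ i, i ∈ C ↔ ∃ f ∈ K, R (f i) (f (i + 1)) ∧ f (i + 2) = f i) ∧
      (∀ f ∈ K, ∀ g ∈ K, ∃ n, n ≤ C.card ∧ PathLen R f g n) ∧
      (∃ f ∈ K, ∃ g ∈ K, ∀ n, PathLen R f g n → C.card ≤ n) := by
  classical
  have hclP : ∀ f g n, PathLen R f g n → f ∈ K → g ∈ K := by
    intro f g n h
    induction h with
    | refl f => exact id
    | step hs _ ih => exact fun hf => ih (hcl _ hf _ _ hs)
  -- families inside K
  let InK : Fam R → Prop := fun P => ∃ ε, P.Valid ε ∧ P.word ε ∈ K
  have allK : ∀ P : Fam R, InK P → ∀ δ, P.Valid δ → P.word δ ∈ K := by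
    rintro P ⟨ε, hε, hK⟩ δ hδ
    exact hclP _ _ _ (P.path_valid hsymm _ hε hδ rfl) hK
  have shadowOf : ∀ P : Fam R, InK P → ∀ c ∈ P.C,
      ∃ f ∈ K, R (f c) (f (c + 1)) ∧ f (c + 2) = f c := by
    intro P hP c hc
    obtain ⟨ε, h1, h2⟩ := P.exists_free hc
    have := P.step_flip hsymm hc h1 h2
    exact ⟨_, allK P hP ε h1, this.1, this.2.1⟩
  have bound : ∀ P : Fam R, InK P → P.C ⊆ N := by
    intro P hP c hc
    obtain ⟨f, hf, h1, _⟩ := shadowOf P hP c hc
    exact hN f hf c h1
  -- initial family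
  let P0 : Fam R := ⟨∅, fun _ _ => f0 0, fun _ => true, fun _ => true, f0, by simp, by simp,
    by simp⟩
  have hP0 : InK P0 := by
    refine ⟨fun _ => true, ?_, ?_⟩
    · intro c hc; simp [P0] at hc
    · have : P0.word (fun _ => true) = f0 := by
        funext k; simp [Fam.word, P0]
      rw [this]; exact hf0
  -- maximal family
  have hmax : ∃ P : Fam R, InK P ∧ ∀ P' : Fam R, InK P' → P'.C.card ≤ P.C.card := by
    let T : Set ℕ := {n | ∃ P : Fam R, InK P ∧ P.C.card = n}
    have hT : T.Nonempty := ⟨_, P0, hP0, rfl⟩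
    have hTb : BddAbove T := by
      refine ⟨N.card, ?_⟩
      rintro n ⟨P, hP, rfl⟩
      exact Finset.card_le_card (bound P hP)
    obtain ⟨P, hP, hPc⟩ := Nat.sSup_mem hT hTb
    refine ⟨P, hP, ?_⟩
    intro P' hP'
    rw [hPc]
    exact le_csSup hTb ⟨P', hP', rfl⟩
  obtain ⟨P, hP, hPmax⟩ := hmax
  have goodP : ∀ δ, P.Valid δ → Good R (P.word δ) := fun δ hδ => hgood _ (allK P hP δ hδ)
  have memC : ∀ ε, P.Valid ε → ∀ j, R (P.word ε j) (P.word ε (j + 1)) →
      P.word ε (j + 2) = P.word ε j → j ∈ P.C := by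
    intro ε hε j h1 h2
    by_contra hj
    obtain ⟨P', hC', ε', hε', hw⟩ := P.extend hsymm hirr goodP hε hj h1 h2
    have : InK P' := ⟨ε', hε', by rw [hw]; exact allK P hP ε hε⟩
    have := hPmax P' this
    rw [hC', Finset.card_insert_of_notMem hj] at this
    omega
  -- closure: any step from a valid word leads to a valid word
  have closure : ∀ ε, P.Valid ε → ∀ g j, Step R (P.word ε) g j →
      j ∈ P.C ∧ P.Valid (Function.update ε j (!ε j)) ∧
        g = P.word (Function.update ε j (!ε j)) := by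
    intro ε hε g j hst
    have hj := memC ε hε j hst.1 hst.2.1
    have hv := P.flip_valid hsymm htri hε hj hst.1 hst.2.1
    exact ⟨hj, hv, hst.unique (P.step_flip hsymm hj hε hv)⟩
  have closureP : ∀ f g n, PathLen R f g n → (∃ ε, P.Valid ε ∧ P.word ε = f) →
      ∃ ε, P.Valid ε ∧ P.word ε = g := by
    intro f g n h
    induction h with
    | refl f => exact id
    | step hs _ ih =>
      rintro ⟨ε, hε, rfl⟩
      obtain ⟨_, h1, h2⟩ := closure ε hε _ _ hs
      exact ih ⟨_, h1, h2.symm⟩
  have pathSymm : ∀ f g n, PathLen R f g n → ∃ m, PathLen R g f m := by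
    have app : ∀ f g n, PathLen R f g n → ∀ h m, PathLen R g h m → ∃ m', PathLen R f h m' := by
      intro f g n h1
      induction h1 with
      | refl f => exact fun h m hm => ⟨m, hm⟩
      | step hs _ ih =>
        intro h m hm
        obtain ⟨m', hm'⟩ := ih h m hm
        exact ⟨m' + 1, PathLen.step hs hm'⟩
    intro f g n h1
    induction h1 with
    | refl f => exact ⟨0, PathLen.refl f⟩
    | @step f g h i n hs _ ih =>
      obtain ⟨m, hm⟩ := ih
      exact app _ _ _ hm _ _ (PathLen.step (hs.symm hsymm) (PathLen.refl f))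
  have app : ∀ f g n, PathLen R f g n → ∀ h m, PathLen R g h m → ∃ m', PathLen R f h m' := by
    intro f g n h1
    induction h1 with
    | refl f => exact fun h m hm => ⟨m, hm⟩
    | step hs _ ih =>
      intro h m hm
      obtain ⟨m', hm'⟩ := ih h m hm
      exact ⟨m' + 1, PathLen.step hs hm'⟩
  have Keq : ∀ f ∈ K, ∃ ε, P.Valid ε ∧ P.word ε = f := by
    intro f hf
    obtain ⟨ε1, hε1, hK1⟩ := hP
    obtain ⟨n1, hn1⟩ := hreach _ hK1
    obtain ⟨m1, hm1⟩ := pathSymm _ _ _ hn1
    obtain ⟨n, hn⟩ := hreach f hf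
    obtain ⟨m, hm⟩ := app _ _ _ hm1 _ _ hn
    exact closureP _ _ _ hm ⟨ε1, hε1, rfl⟩
  refine ⟨P.C, ?_, ?_, ?_⟩
  · intro i
    constructor
    · intro hi
      exact shadowOf P hP i hi
    · rintro ⟨f, hf, h1, h2⟩
      obtain ⟨ε, hε, rfl⟩ := Keq f hf
      exact memC ε hε i h1 h2
  · intro f hf g hg
    obtain ⟨ε, hε, rfl⟩ := Keq f hf
    obtain ⟨δ, hδ, rfl⟩ := Keq g hg
    exact ⟨_, Finset.card_filter_le _ _, P.path_valid hsymm _ hε hδ rfl⟩
  · obtain ⟨ε, h1, h2⟩ := P.exists_antipodal
    refine ⟨_, allK P hP _ h1, _, allK P hP _ h2, ?_⟩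
    -- lower bound through the number of differing centers
    have key : ∀ f g n, PathLen R f g n → ∀ ε δ, P.Valid ε → P.Valid δ → P.word ε = f →
        P.word δ = g → (P.C.filter (fun c => P.e c (ε c) ≠ P.e c (δ c))).card ≤ n := by
      intro f g n h
      induction h with
      | refl f =>
        intro ε δ hε hδ h1 h2
        rw [Nat.le_zero, Finset.card_eq_zero, Finset.filter_eq_empty_iff]
        intro c hc
        rw [not_not, ← P.word_center ε hc, ← P.word_center δ hc, h1, h2]
      | @step f g h i n hs _ ih =>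
        intro ε δ hε hδ h1 h2
        subst h1
        obtain ⟨hi, c1, c2⟩ := closure ε hε _ _ hs
        have := ih (Function.update ε i (!ε i)) δ c1 hδ c2.symm h2
        have sub : P.C.filter (fun c => P.e c (ε c) ≠ P.e c (δ c)) ⊆
            insert i (P.C.filter
              (fun c => P.e c (Function.update ε i (!ε i) c) ≠ P.e c (δ c))) := by
          intro k hk
          rw [Finset.mem_insert]
          by_cases hki : k = i
          · exact Or.inl hki
          · right
            rw [Finset.mem_filter] at hk ⊢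
            rw [Function.update_of_ne hki]
            exact hk
        calc _ ≤ _ := Finset.card_le_card sub
          _ ≤ _ := Finset.card_insert_le _ _
          _ ≤ n + 1 := by omega
    intro n hn
    have := key _ _ n hn ε _ h1 h2 rfl rfl
    rwa [Finset.filter_true_of_mem] at this
    intro c hc h
    have := P.R_pair hsymm hc (ε c)
    rw [← h] at this
    exact hirr _ this

end Pool.V11275.Braid
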