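import Pool.Agent.Results.MP_e05153_nt.NoZero

set_option autoImplicit false

open PowerSeries UpperHalfPlane EisensteinSeries ModularForm MatrixGroups

namespace Pool.Agent.V11275.FaberA

open Pool.Agent.V11275 Pool.Agent.W97.MT
open Pool.Agent.Results.MP_e05153_nt.NoZero (th_mul th_pow th_inv extract rD rD_eq u u_cc u_zero u_inv_mul th_u th_u_inv
  r4_zero r6_zero r6_cc jinv disc_ne repC_sum)

lemma r4_cc : constantCoeff r4 = 1 := by rw [← coeff_zero_eq_constantCoeff_apply, r4_zero]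

lemma r4_inv_mul : r4 * r4⁻¹ = 1 := PowerSeries.mul_inv_cancel _ (by rw [r4_cc]; norm_num)

/-- `1 / (q j)` -/
noncomputable def V : PowerSeries ℝ := u * r4⁻¹ ^ 3

/-- `q j` -/
noncomputable def W : PowerSeries ℝ := u⁻¹ * r4 ^ 3

lemma V_mul_W : V * W = 1 := by
  unfold V W
  have h1 := u_inv_mul
  have h2 := r4_inv_mul
  calc u * r4⁻¹ ^ 3 * (u⁻¹ * r4 ^ 3) = (u * u⁻¹) * (r4 * r4⁻¹) ^ 3 := by ring
    _ = 1 := by rw [h1, h2]; ring

lemma log_V : 1 + th V * W = r6 * r4⁻¹ := by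
  have h1 := u_inv_mul
  have h2 := r4_inv_mul
  have h3 : th (r4⁻¹ ^ 3) = ((3 : ℕ) : PowerSeries ℝ) * r4⁻¹ ^ 2 * th r4⁻¹ := th_pow _ 2
  have h4 : th r4⁻¹ = -(r4⁻¹ ^ 2 * th r4) := th_inv _ (by rw [r4_cc]; norm_num)
  have h5 : th V = (r2 - 1) * u * r4⁻¹ ^ 3 - u * r4⁻¹ ^ 4 * (r2 * r4 - r6) := by
    unfold V
    rw [th_mul, th_u, h3, h4, th_r4]
    have h6 : (C (3⁻¹ : ℝ) : PowerSeries ℝ) * 3 = 1 := by
      have : (3 : PowerSeries ℝ) = C (3 : ℝ) := (map_ofNat (C : ℝ →+* PowerSeries ℝ) 3).symm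
      rw [this, ← map_mul]
      norm_num
    push_cast
    linear_combination (-(u * r4⁻¹ ^ 4 * (r2 * r4 - r6))) * h6
  rw [h5]
  unfold W
  have e1 : ((r2 - 1) * u * r4⁻¹ ^ 3 - u * r4⁻¹ ^ 4 * (r2 * r4 - r6)) * (u⁻¹ * r4 ^ 3) =
    (u * u⁻¹) * ((r2 - 1) * (r4 * r4⁻¹) ^ 3 - (r4 * r4⁻¹) ^ 3 * ((r4 * r4⁻¹) * r2 - r6 * r4⁻¹)) := by ring
  rw [e1, h1, h2]
  ring

/-- the coefficients of the Faber polynomial -/
theorem coeff_formula (k ℓ m : ℕ) (hm : m ≤ ℓ) (f : ModularForm 𝒮ℒ k)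
    (hf : ∀ i ≤ ℓ, (qExpansion 1 f).coeff i = if i = m then 1 else 0)
    (a : ℕ → ℂ)
    (hF : ∀ τ : ℍ, f τ = ∑ n ∈ Finset.range (ℓ - m + 1),
      a n * (E₄ τ ^ (3 * n) * discriminant τ ^ (ℓ - n))) :
    a 0 = ((coeff (ℓ - m) (u⁻¹ ^ ℓ * (r6 * r4⁻¹)) : ℝ) : ℂ) := by
  have hD : RepC (fun q => (1728⁻¹ : ℂ) * (cuspFunction 1 E₄ q ^ 3 - cuspFunction 1 E₆ q ^ 2)) (ofR rD) := by
    have h1 : ofR rD = C (1728⁻¹ : ℂ) * (qExpansion 1 E₄ ^ 3 - qExpansion 1 E₆ ^ 2) := by
      unfold rD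
      rw [map_mul, map_sub, map_pow, map_pow, ofR_C, ofR_r4, ofR_r6]
      push_cast; rfl
    rw [h1]
    exact (RepC.C _).mul (((repC_modularForm E₄).pow 3).sub ((repC_modularForm E₆).pow 2))
  have hser : qExpansion 1 f = ∑ n ∈ Finset.range (ℓ - m + 1),
      C (a n) * ((ofR r4) ^ (3 * n) * (ofR rD) ^ (ℓ - n)) := by
    rw [ofR_r4]
    refine repC_unique' (repC_modularForm f)
      (repC_sum _ _ _ (fun n => (RepC.C (a n)).mul
          (((repC_modularForm E₄).pow (3 * n)).mul (hD.pow (ℓ - n))))) ?_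
    intro q h0 h1
    obtain ⟨τ, rfl⟩ := exists_tau h0 h1
    rw [cusp_eq, hF τ]
    refine Finset.sum_congr rfl fun n _ => ?_
    rw [cusp_eq, cusp_eq]
    have h2 : (1728⁻¹ : ℂ) * (E₄ τ ^ 3 - E₆ τ ^ 2) = discriminant τ := by
      rw [discriminant_eq_E₄_cube_sub_E₆_sq τ]; ring
    rw [h2]
  -- low order coefficients of `f`
  obtain ⟨h, hh⟩ : ∃ h : PowerSeries ℂ, qExpansion 1 f = X ^ m * (1 + X ^ (ℓ - m + 1) * h) := by
    have h1 : (X : PowerSeries ℂ) ^ (ℓ + 1) ∣ qExpansion 1 f - X ^ m := by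
      rw [X_pow_dvd_iff]
      intro i hi
      rw [map_sub, hf i (by omega), coeff_X_pow]
      split_ifs <;> simp
    obtain ⟨h, hh⟩ := h1
    refine ⟨h, ?_⟩
    have h2 : (X : PowerSeries ℂ) ^ (ℓ + 1) = X ^ m * X ^ (ℓ - m + 1) := by
      rw [← pow_add]; congr 1; omega
    rw [h2] at hh
    linear_combination hh
  -- cancel `X ^ m`
  set H : PowerSeries ℂ := ∑ n ∈ Finset.range (ℓ - m + 1), C (a n) * X ^ (ℓ - m - n) * (ofR W) ^ n
    with hH
  have hu : ofR u * ofR u⁻¹ = 1 := by rw [← map_mul, u_inv_mul, map_one]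
  have hu' : ∀ i : ℕ, (ofR u) ^ i * (ofR u⁻¹) ^ i = 1 := fun i => by
    rw [← mul_pow, hu, one_pow]
  have hsum : ∑ n ∈ Finset.range (ℓ - m + 1), C (a n) * ((ofR r4) ^ (3 * n) * (ofR rD) ^ (ℓ - n))
      = X ^ m * ((ofR u) ^ ℓ * H) := by
    rw [hH, Finset.mul_sum, Finset.mul_sum]
    refine Finset.sum_congr rfl ?_
    intro n hn
    have hn' : n ≤ ℓ - m := by have := Finset.mem_range.mp hn; omega
    have h1 : ofR rD = X * ofR u := by
      rw [rD_eq, map_mul]
      congr 1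
      unfold ofR; exact PowerSeries.map_X _
    have h2 : (X : PowerSeries ℂ) ^ (ℓ - n) = X ^ m * X ^ (ℓ - m - n) := by
      rw [← pow_add]; congr 1; omega
    have h3 : (ofR u) ^ ℓ = (ofR u) ^ (ℓ - n) * (ofR u) ^ n := by
      rw [← pow_add]; congr 1; omega
    rw [h1, mul_pow, h2, h3]
    unfold W
    rw [map_mul, mul_pow, map_pow, ← pow_mul]
    linear_combination (-(C (a n) * ofR r4 ^ (3 * n) * X ^ m * X ^ (ℓ - m - n) * ofR u ^ (ℓ - n))) * hu' n
  have hmain : ((ofR u) ^ ℓ * H) = 1 + X ^ (ℓ - m + 1) * h := by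
    have h1 : (X : PowerSeries ℂ) ^ m * ((ofR u) ^ ℓ * H)
        = X ^ m * (1 + X ^ (ℓ - m + 1) * h) := by
      rw [← hh, hser, hsum]
    exact mul_left_cancel₀ (pow_ne_zero _ X_ne_zero) h1
  -- extraction
  have hVW : ofR V * ofR W = 1 := by rw [← map_mul, V_mul_W, map_one]
  have hlog : 1 + th (ofR V) * ofR W = ofR (r6 * r4⁻¹) := by
    rw [← log_V, map_add, map_one, map_mul, ofR_th]
  have hext := extract (ℓ - m) a H hVW hH.symm 0 (Nat.zero_le _)
  rw [hlog, pow_zero, mul_one, Nat.sub_zero] at hext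
  have hfin : H * ofR (r6 * r4⁻¹)
      = ofR (u⁻¹ ^ ℓ * (r6 * r4⁻¹)) * (1 + X ^ (ℓ - m + 1) * h) := by
    rw [← hmain, map_mul (ofR) (u⁻¹ ^ ℓ), map_pow]
    linear_combination (-(H * ofR (r6 * r4⁻¹))) * hu' ℓ
  rw [hfin] at hext
  rw [hext, mul_add, mul_one, map_add, coeff_ofR]
  have h1 : coeff (ℓ - m) (ofR (u⁻¹ ^ ℓ * (r6 * r4⁻¹)) * (X ^ (ℓ - m + 1) * h)) = 0 := by
    have h2 : ofR (u⁻¹ ^ ℓ * (r6 * r4⁻¹)) * (X ^ (ℓ - m + 1) * h)
        = X ^ (ℓ - m + 1) * (ofR (u⁻¹ ^ ℓ * (r6 * r4⁻¹)) * h) := by ring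
    rw [h2, coeff_X_pow_mul', if_neg (by omega)]
  rw [h1, add_zero]

/-! ### computation of the coefficient -/

/-- `∑ s_i l_i` -/
def dotL : List ℤ → List ℤ → ℤ
  | a :: s, b :: l => a * b + dotL s l
  | _, _ => 0

/-- `l = [x_{n-1}, …, x_0]` -/
def Rp (x : ℕ → ℝ) : List ℤ → Prop
  | [] => True
  | a :: l => (a : ℝ) = x l.length ∧ Rp x l

/-- `s = [f_j, f_{j+1}, …]` -/
def Sp (f : ℕ → ℝ) : ℕ → List ℤ → Prop
  | _, [] => True
  | j, a :: s => (a : ℝ) = f j ∧ Sp f (j + 1) s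

theorem dotL_eq (f x : ℕ → ℝ) : ∀ (l s : List ℤ) (j : ℕ), Sp f j s → Rp x l → l.length ≤ s.length →
    (dotL s l : ℝ) = ∑ t ∈ Finset.range l.length, f (j + t) * x (l.length - 1 - t) := by
  intro l
  induction l with
  | nil => intro s j _ _ _; cases s <;> simp [dotL]
  | cons b l ih =>
    intro s j hs hl hlen
    cases s with
    | nil => simp at hlen
    | cons a s =>
      rw [dotL, List.length_cons, Finset.sum_range_succ']
      push_cast
      rw [ih s (j + 1) hs.2 hl.2 (by simpa using hlen), hs.1, hl.1]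
      rw [add_comm]
      congr 1
      apply Finset.sum_congr rfl
      intro t _
      congr 2
      · ring
      · omega

theorem Sp_map (f : ℕ → ℝ) (g : ℕ → ℤ) (hg : ∀ i, (g i : ℝ) = f i) (n : ℕ) : ∀ j : ℕ,
    Sp f j ((List.range n).map (fun i => g (j + i))) := by
  induction n with
  | zero => intro j; exact trivial
  | succ n ih =>
    intro j
    rw [List.range_succ_eq_map, List.map_cons, List.map_map]
    refine ⟨by rw [hg]; rfl, ?_⟩
    have h1 := ih (j + 1)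
    have h2 : (List.range n).map ((fun i => g (j + i)) ∘ Nat.succ) = (List.range n).map (fun i => g (j + 1 + i)) := by
      apply List.map_congr_left
      intro t _
      simp only [Function.comp_apply]
      congr 1
      omega
    rw [h2]
    exact h1

/-- check of the recursion `(n+1) p_{n+1} = ℓ ∑ s_{i+1} p_{n-i}` -/
def chkP (ℓ : ℤ) (s : List ℤ) : List ℤ → Bool
  | [] => true
  | [x] => x == 1
  | x :: y :: l => (((l.length + 1 : ℕ) : ℤ) * x == ℓ * dotL s (y :: l)) && chkP ℓ s (y :: l)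

/-- check of the recursion for `T`, where `E₄ T = E₆ P` -/
def chkT (s4 s6 : List ℤ) : List ℤ → List ℤ → Bool
  | [], _ => true
  | [x], _ => x == 1
  | x :: y :: l, z :: p => (x + dotL s4 (y :: l) == z + dotL s6 p) && ((l.length + 1) == p.length) && chkT s4 s6 (y :: l) p
  | _ :: _ :: _, [] => false

theorem coeff_succ_mul (f g : PowerSeries ℝ) (n : ℕ) : coeff (n + 1) (f * g) =
    coeff 0 f * coeff (n + 1) g + ∑ t ∈ Finset.range (n + 1), coeff (1 + t) f * coeff (n - t) g := by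
  rw [coeff_mul, Finset.Nat.sum_antidiagonal_eq_sum_range_succ_mk, Finset.sum_range_succ', add_comm]
  congr 1
  apply Finset.sum_congr rfl
  intro t ht
  have : t ≤ n := by have := Finset.mem_range.mp ht; omega
  congr 2
  · rw [add_comm]
  · congr 1; omega

theorem th_P (ℓ : ℕ) : th (u⁻¹ ^ (ℓ + 1)) = ((ℓ + 1 : ℕ) : PowerSeries ℝ) * (1 - r2) * u⁻¹ ^ (ℓ + 1) := by
  rw [th_pow, th_u_inv, pow_succ]
  ring

theorem chkP_spec (ℓ : ℕ) (s : List ℤ) (hs : Sp (fun i => - coeff i r2) 1 s) : ∀ l : List ℤ,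
    l.length ≤ s.length + 1 → chkP ((ℓ + 1 : ℕ) : ℤ) s l = true → Rp (fun i => coeff i (u⁻¹ ^ (ℓ + 1))) l := by
  intro l
  induction l with
  | nil => intro _ _; exact trivial
  | cons x l ih =>
    intro hlen h
    cases l with
    | nil =>
      simp only [chkP, beq_iff_eq] at h
      refine ⟨?_, trivial⟩
      rw [h]
      simp only [List.length_nil, Int.cast_one]
      rw [coeff_zero_eq_constantCoeff_apply, map_pow]
      rw [← coeff_zero_eq_constantCoeff_apply, Pool.Agent.Results.MP_e05153_nt.NoZero.u_inv_zero, one_pow]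
    | cons y l =>
      simp only [chkP, Bool.and_eq_true, beq_iff_eq] at h
      have h1 := ih (by simp at hlen ⊢; omega) h.2
      refine ⟨?_, h1⟩
      have h2 := congrArg (coeff (l.length + 1)) (th_P ℓ)
      rw [coeff_th, mul_assoc, ← map_natCast (C : ℝ →+* PowerSeries ℝ), coeff_C_mul, coeff_succ_mul] at h2
      have h3 : coeff 0 (1 - r2 : PowerSeries ℝ) = 0 := by
        rw [map_sub, r2, coeff_mk]; simp
      have h4 : ∀ t, coeff (1 + t) (1 - r2 : PowerSeries ℝ) = - coeff (1 + t) r2 := by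
        intro t
        rw [map_sub, coeff_one, if_neg (by omega), zero_sub]
      rw [h3, zero_mul, zero_add] at h2
      simp only [h4] at h2
      have h5 := dotL_eq (fun i => - coeff i r2) (fun i => coeff i (u⁻¹ ^ (ℓ + 1))) (y :: l) s 1 hs h1 (by simp at hlen ⊢; omega)
      simp only [List.length_cons, Nat.add_sub_cancel] at h5
      rw [← h5] at h2
      have h6 : (((l.length + 1 : ℕ) : ℤ) : ℝ) * (x : ℝ) = (((ℓ + 1 : ℕ) : ℤ) : ℝ) * (dotL s (y :: l) : ℝ) := by
        exact_mod_cast h.1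
      simp only [Int.cast_natCast] at h6
      rw [← h2] at h6
      have h7 : (((l.length + 1 : ℕ)) : ℝ) ≠ 0 := by positivity
      exact mul_left_cancel₀ h7 h6

theorem chkT_spec (A : PowerSeries ℝ) (hA : coeff 0 A = 1) (s4 s6 : List ℤ) (hs4 : Sp (fun i => coeff i r4) 1 s4)
    (hs6 : Sp (fun i => coeff i r6) 1 s6) : ∀ (l p : List ℤ),
    l.length ≤ s4.length + 1 → p.length ≤ s6.length + 1 → p.length = l.length → chkT s4 s6 l p = true → Rp (fun i => coeff i A) p →
    Rp (fun i => coeff i (A * (r6 * r4⁻¹))) l := by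
  intro l
  induction l with
  | nil => intro _ _ _ _ _ _; exact trivial
  | cons x l ih =>
    intro p hl hp hpl h hR
    have hT : r4 * (A * (r6 * r4⁻¹)) = r6 * A := by
      linear_combination (A * r6) * r4_inv_mul
    have h0 : coeff 0 (A * (r6 * r4⁻¹)) = 1 := by
      have h1 := congrArg (constantCoeff) hT
      have hA' : constantCoeff A = 1 := by rw [← coeff_zero_eq_constantCoeff_apply, hA]
      rw [map_mul, map_mul (constantCoeff) r6, r4_cc, r6_cc, hA', one_mul, one_mul] at h1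
      rw [coeff_zero_eq_constantCoeff_apply]
      exact h1
    cases l with
    | nil =>
      refine ⟨?_, trivial⟩
      simp only [chkT, beq_iff_eq] at h
      rw [h]
      simp only [List.length_nil, Int.cast_one]
      exact h0.symm
    | cons y l =>
      cases p with
      | nil => simp at hpl
      | cons z p =>
        simp only [chkT, Bool.and_eq_true, beq_iff_eq] at h
        obtain ⟨⟨h1, h2⟩, h3⟩ := h
        have hlen : p.length = (y :: l).length := by simp; omega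
        have h4 := ih p (by simp at hl ⊢; omega) (by simp at hp ⊢; omega) hlen h3 hR.2
        refine ⟨?_, h4⟩
        have h5 := congrArg (coeff (l.length + 1)) hT
        rw [coeff_succ_mul r4, coeff_succ_mul r6, r4_zero, r6_zero, one_mul, one_mul] at h5
        have h6 := dotL_eq (fun i => coeff i r4) (fun i => coeff i (A * (r6 * r4⁻¹))) (y :: l) s4 1 hs4 h4 (by simp at hl ⊢; omega)
        have h7 := dotL_eq (fun i => coeff i r6) (fun i => coeff i A) p s6 1 hs6 hR.2 (by simp at hp ⊢; omega)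
        rw [hlen] at h7
        simp only [List.length_cons, Nat.add_sub_cancel] at h6 h7
        rw [← h6, ← h7] at h5
        have h8 : (x : ℝ) + (dotL s4 (y :: l) : ℝ) = z + (dotL s6 p : ℝ) := by exact_mod_cast h1
        have h9 : (z : ℝ) = coeff (l.length + 1) A := by
          rw [hR.1, hlen]; rfl
        simp only [List.length_cons]
        rw [h9] at h8
        linarith

end Pool.Agent.V11275.FaberA
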