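import Mathlib

/-! # Graded reverse lexicographic order, reduced Gröbner bases, and kernels of monomial maps -/

set_option linter.unusedSectionVars false

namespace Pool.V11275.GB

open MvPolynomial

section order

variable {σ : Type*}

/-- The (strict) graded reverse lexicographic order on the monomials in the variables `σ`:
`a ≺ b` if `deg a < deg b`, or the degrees are equal and, for the smallest variable in which
the exponents differ, the exponent in `a` is larger than the exponent in `b`. -/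
def Grevlex [LinearOrder σ] (a b : σ →₀ ℕ) : Prop :=
  a.degree < b.degree ∨ (a.degree = b.degree ∧ ∃ x, (∀ y, y < x → a y = b y) ∧ b x < a x)

/-- `m` is the leading monomial of `f` for the graded reverse lexicographic order. -/
def IsLM [LinearOrder σ] {k : Type*} [CommSemiring k] (f : MvPolynomial σ k) (m : σ →₀ ℕ) :
    Prop :=
  m ∈ f.support ∧ ∀ m' ∈ f.support, m' ≠ m → Grevlex m' m

/-- `G` is a reduced Gröbner basis of the ideal `I` for the graded reverse lexicographic order. -/
structure IsReducedGB [LinearOrder σ] {k : Type*} [CommRing k] (I : Ideal (MvPolynomial σ k))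
    (G : Set (MvPolynomial σ k)) : Prop where
  /-- the elements of `G` lie in `I` -/
  mem : ∀ g ∈ G, g ∈ I
  /-- the elements of `G` are monic -/
  monic : ∀ g ∈ G, ∃ m, IsLM g m ∧ coeff m g = 1
  /-- the leading monomial of every nonzero element of `I` is divisible by the leading
  monomial of an element of `G` -/
  gb : ∀ f ∈ I, f ≠ 0 → ∃ g ∈ G, ∃ m m', IsLM g m ∧ IsLM f m' ∧ m ≤ m'
  /-- no monomial of an element of `G` is divisible by the leading monomial of another one -/
  reduced : ∀ g ∈ G, ∀ h ∈ G, h ≠ g → ∀ m, IsLM h m → ∀ m' ∈ g.support, ¬ m ≤ m'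

variable [LinearOrder σ] [Finite σ]

noncomputable def key (a : σ →₀ ℕ) : ℕ ×ₗ (Lex (σ → ℕᵒᵈ)) :=
  toLex (a.degree, toLex (fun x => OrderDual.toDual (a x)))

omit [Finite σ] in
theorem key_inj : Function.Injective (key : (σ →₀ ℕ) → _) := by
  intro a b h
  unfold key at h
  have h1 := (toLex.injective h)
  rw [Prod.mk.injEq] at h1
  have h2 := toLex.injective h1.2
  ext x
  have := congrFun h2 x
  exact OrderDual.toDual.injective this

noncomputable instance : LinearOrder (Lex (σ → ℕᵒᵈ)) := Pi.Lex.linearOrder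

theorem grevlex_iff (a b : σ →₀ ℕ) : Grevlex a b ↔ key a < key b := by
  unfold Grevlex key
  rw [Prod.Lex.toLex_lt_toLex]
  constructor
  · rintro (h | ⟨h, x, hx, hx2⟩)
    · left; exact h
    · right
      exact ⟨h, x, fun y hy => by simp [hx y hy], by simpa using hx2⟩
  · rintro (h | ⟨h, x, hx, hx2⟩)
    · left; exact h
    · right
      refine ⟨h, x, fun y hy => ?_, ?_⟩
      · have := hx y hy
        simpa using this
      · simpa using hx2

theorem gl_trans {a b c : σ →₀ ℕ} (h1 : Grevlex a b) (h2 : Grevlex b c) : Grevlex a c := by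
  rw [grevlex_iff] at *
  exact lt_trans h1 h2

theorem gl_asymm {a b : σ →₀ ℕ} (h1 : Grevlex a b) (h2 : Grevlex b a) : False := by
  rw [grevlex_iff] at *
  exact lt_asymm h1 h2

theorem gl_irrefl {a : σ →₀ ℕ} (h1 : Grevlex a a) : False := gl_asymm h1 h1

theorem gl_tri {a b : σ →₀ ℕ} (h : a ≠ b) : Grevlex a b ∨ Grevlex b a := by
  rw [grevlex_iff, grevlex_iff]
  exact lt_or_gt_of_ne (fun h' => h (key_inj h'))

omit [Finite σ] in
theorem gl_add {a b : σ →₀ ℕ} (c : σ →₀ ℕ) (h : Grevlex a b) : Grevlex (a + c) (b + c) := by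
  unfold Grevlex at *
  rw [map_add, map_add]
  rcases h with h | ⟨h, x, hx, hx2⟩
  · left; omega
  · right
    refine ⟨by omega, x, fun y hy => ?_, ?_⟩
    · rw [Finsupp.add_apply, Finsupp.add_apply, hx y hy]
    · rw [Finsupp.add_apply, Finsupp.add_apply]; omega

omit [Finite σ] in
theorem degree_lt_of_le {a b : σ →₀ ℕ} (h : a ≤ b) (hne : a ≠ b) : a.degree < b.degree := by
  obtain ⟨c, rfl⟩ := exists_add_of_le h
  rw [map_add]
  have hc : c ≠ 0 := by
    intro hc; apply hne; rw [hc, add_zero]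
  have : c.degree ≠ 0 := by
    intro h0
    exact hc ((Finsupp.degree_eq_zero_iff c).1 h0)
  omega

omit [Finite σ] in
theorem gl_of_le {a b : σ →₀ ℕ} (h : a ≤ b) (hne : a ≠ b) : Grevlex a b :=
  Or.inl (degree_lt_of_le h hne)

theorem exists_lm {k : Type*} [CommSemiring k] (f : MvPolynomial σ k) (hf : f ≠ 0) :
    ∃ m, IsLM f m := by
  have hs : f.support.Nonempty := by
    rw [Finset.nonempty_iff_ne_empty]
    intro h
    exact hf (MvPolynomial.support_eq_empty.1 h)
  obtain ⟨m, hm, hmax⟩ := Finset.exists_max_image f.support key hs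
  refine ⟨m, hm, fun m' hm' hne => ?_⟩
  rw [grevlex_iff]
  exact lt_of_le_of_ne (hmax m' hm') (fun h => hne (key_inj h))

theorem lm_unique {k : Type*} [CommSemiring k] {f : MvPolynomial σ k} {m m' : σ →₀ ℕ}
    (h : IsLM f m) (h' : IsLM f m') : m = m' := by
  by_contra hne
  exact gl_asymm (h.2 m' h'.1 (Ne.symm hne)) (h'.2 m h.1 hne)

end order

section toric

variable {σ τ : Type*} [LinearOrder σ] [Finite σ] {k : Type*} [Field k]
  (w : (σ →₀ ℕ) →+ (τ →₀ ℕ))

/-- standard monomials: minimal in their fibre -/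
def Std (a : σ →₀ ℕ) : Prop := ∀ b, w b = w a → b ≠ a → Grevlex a b

omit [Finite σ] in
theorem ker_pair {F : MvPolynomial σ k →ₐ[k] MvPolynomial τ k}
    (hF : ∀ u c, F (monomial u c) = monomial (w u) c)
    {f : MvPolynomial σ k} (hf : F f = 0) {m : σ →₀ ℕ} (hm : m ∈ f.support) :
    ∃ m' ∈ f.support, m' ≠ m ∧ w m' = w m := by
  classical
  by_contra hcon
  push Not at hcon
  have h1 : F f = ∑ v ∈ f.support, monomial (w v) (coeff v f) := by
    conv_lhs => rw [← MvPolynomial.support_sum_monomial_coeff f]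
    rw [map_sum]
    exact Finset.sum_congr rfl fun v _ => hF v _
  have h2 : coeff (w m) (F f) = coeff m f := by
    rw [h1, MvPolynomial.coeff_sum]
    rw [Finset.sum_eq_single m]
    · rw [coeff_monomial, if_pos rfl]
    · intro v hv hne
      rw [coeff_monomial, if_neg (hcon v hv hne)]
    · intro h; exact absurd hm h
  rw [hf, coeff_zero] at h2
  exact (MvPolynomial.mem_support_iff.1 hm) h2.symm

theorem std_of_le {a b : σ →₀ ℕ} (h : a ≤ b) (hb : Std w b) : Std w a := by
  intro a' ha' hne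
  obtain ⟨c, rfl⟩ := exists_add_of_le h
  rcases gl_tri hne with h1 | h1
  · exfalso
    have h2 := gl_add c h1
    have h3 := hb (a' + c) (by rw [map_add, map_add, ha']) (fun h => hne (add_right_cancel h))
    exact gl_asymm h2 h3
  · exact h1

theorem lm_not_std {F : MvPolynomial σ k →ₐ[k] MvPolynomial τ k}
    (hF : ∀ u c, F (monomial u c) = monomial (w u) c)
    {f : MvPolynomial σ k} (hf : F f = 0) {m : σ →₀ ℕ} (hm : IsLM f m) : ¬ Std w m := by
  intro hs
  obtain ⟨m', hm', hne, hw⟩ := ker_pair w hF hf hm.1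
  exact gl_asymm (hm.2 m' hm' hne) (hs m' hw hne)

variable (hdeg : ∀ a b, w a = w b → a.degree = b.degree)

include hdeg in
theorem exists_nf (a : σ →₀ ℕ) : ∃ b, w b = w a ∧ Std w b := by
  classical
  have hfin : {b : σ →₀ ℕ | w b = w a}.Finite := by
    apply (Finsupp.finite_of_degree_le (a.degree)).subset
    intro b hb
    exact (hdeg b a hb).le
  obtain ⟨b, hb, hmin⟩ := Set.exists_min_image _ key hfin ⟨a, rfl⟩
  refine ⟨b, hb, fun c hc hne => ?_⟩
  rw [grevlex_iff]
  refine lt_of_le_of_ne (hmin c ?_) (fun h => hne (key_inj h).symm)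
  show w c = w a
  rw [hc]; exact hb

/-- minimal nonstandard monomials -/
def MNS (u : σ →₀ ℕ) : Prop := ¬ Std w u ∧ ∀ u', u' ≤ u → u' ≠ u → Std w u'

include hdeg in
omit [Finite σ] in
theorem exists_mns {m : σ →₀ ℕ} (hm : ¬ Std w m) : ∃ u, u ≤ m ∧ MNS w u := by
  classical
  obtain ⟨u, ⟨hu1, hu2⟩, hmin⟩ := WellFounded.has_min
    (measure (fun a : σ →₀ ℕ => a.degree)).wf {u | u ≤ m ∧ ¬ Std w u} ⟨m, le_rfl, hm⟩
  refine ⟨u, hu1, hu2, fun u' hu' hne => ?_⟩
  by_contra hns
  exact hmin u' ⟨hu'.trans hu1, hns⟩ (degree_lt_of_le hu' hne)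

theorem binom_lm {u v : σ →₀ ℕ} (hu : ¬ Std w u) (hv : Std w v) (hw : w v = w u) :
    IsLM (monomial u (1 : k) - monomial v 1) u ∧
      coeff u (monomial u (1 : k) - monomial v 1) = 1 ∧
      ∀ m ∈ (monomial u (1 : k) - monomial v 1).support, m = u ∨ m = v := by
  classical
  have hne : v ≠ u := by
    rintro rfl; exact hu hv
  have h1 : coeff u (monomial u (1 : k) - monomial v 1) = 1 := by
    rw [coeff_sub, coeff_monomial, coeff_monomial, if_pos rfl, if_neg hne, sub_zero]
  have h2 : ∀ m ∈ (monomial u (1 : k) - monomial v 1).support, m = u ∨ m = v := by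
    intro m hm
    by_contra hcon
    push Not at hcon
    rw [mem_support_iff] at hm
    apply hm
    rw [coeff_sub, coeff_monomial, coeff_monomial, if_neg (Ne.symm hcon.1),
      if_neg (Ne.symm hcon.2), sub_zero]
  refine ⟨⟨?_, ?_⟩, h1, h2⟩
  · rw [mem_support_iff, h1]; exact one_ne_zero
  · intro m' hm' hne'
    rcases h2 m' hm' with rfl | rfl
    · exact absurd rfl hne'
    · exact hv u hw.symm (Ne.symm hne)

include hdeg in
theorem exists_gb {F : MvPolynomial σ k →ₐ[k] MvPolynomial τ k}
    (hF : ∀ u c, F (monomial u c) = monomial (w u) c) :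
    ∃ G : Set (MvPolynomial σ k), G.Finite ∧ IsReducedGB (RingHom.ker F) G := by
  classical
  choose nf hnf1 hnf2 using exists_nf w hdeg
  set G : Set (MvPolynomial σ k) :=
    (fun u => monomial u (1 : k) - monomial (nf u) 1) '' {u | MNS w u} with hG
  refine ⟨G, ?_, ?_⟩
  · apply Set.Finite.image
    have hanti : IsAntichain (· ≤ ·) {u : σ →₀ ℕ | MNS w u} := by
      intro u hu u' hu' hne hle
      exact hu.1 (hu'.2 u hle hne)
    exact hanti.finite_of_partiallyWellOrderedOn (Set.isPWO_of_wellQuasiOrderedLE _)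
  · refine ⟨?_, ?_, ?_, ?_⟩
    · rintro g ⟨u, hu, rfl⟩
      rw [RingHom.mem_ker]
      show F _ = 0
      rw [map_sub, hF, hF, hnf1, sub_self]
    · rintro g ⟨u, hu, rfl⟩
      obtain ⟨h1, h2, _⟩ := binom_lm (k := k) w hu.1 (hnf2 u) (hnf1 u)
      exact ⟨u, h1, h2⟩
    · intro f hf hf0
      obtain ⟨m', hm'⟩ := exists_lm f hf0
      have hns := lm_not_std w hF (by rw [RingHom.mem_ker] at hf; exact hf) hm'
      obtain ⟨u, hu1, hu2⟩ := exists_mns w hdeg hns
      exact ⟨_, ⟨u, hu2, rfl⟩, u, m', (binom_lm (k := k) w hu2.1 (hnf2 u) (hnf1 u)).1, hm', hu1⟩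
    · rintro g ⟨u, hu, rfl⟩ h ⟨u', hu', rfl⟩ hne m hm m' hm' hle
      have hmu : m = u' :=
        lm_unique hm (binom_lm (k := k) w hu'.1 (hnf2 u') (hnf1 u')).1
      subst hmu
      rcases (binom_lm (k := k) w hu.1 (hnf2 u) (hnf1 u)).2.2 m' hm' with rfl | rfl
      · by_cases h : m = m'
        · subst h; exact hne rfl
        · exact hu'.1 (hu.2 m hle h)
      · exact hu'.1 (std_of_le w hle (hnf2 u))

include hdeg in
/-- every reduced Gröbner basis contains `u - NF(u)` for `u` minimal nonstandard -/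
theorem mem_gb {F : MvPolynomial σ k →ₐ[k] MvPolynomial τ k}
    (hF : ∀ u c, F (monomial u c) = monomial (w u) c) {G : Set (MvPolynomial σ k)}
    (hG : IsReducedGB (RingHom.ker F) G) {u v : σ →₀ ℕ} (hu : MNS w u) (hv : Std w v)
    (hw : w v = w u) : monomial u (1 : k) - monomial v 1 ∈ G := by
  classical
  obtain ⟨hlm, hc, hsupp⟩ := binom_lm (k := k) w hu.1 hv hw
  have hmem : monomial u (1 : k) - monomial v 1 ∈ RingHom.ker F := by
    rw [RingHom.mem_ker]
    show F _ = 0
    rw [map_sub, hF, hF, hw, sub_self]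
  have hne0 : monomial u (1 : k) - monomial v 1 ≠ 0 := by
    intro h
    rw [h, coeff_zero] at hc
    exact zero_ne_one hc
  obtain ⟨h, hh, m, m', hm, hm', hle⟩ := hG.gb _ hmem hne0
  have hm'u : m' = u := lm_unique hm' hlm
  subst hm'u
  have hhk : F h = 0 := by
    have := hG.mem h hh
    rw [RingHom.mem_ker] at this
    exact this
  have hmns := lm_not_std w hF hhk hm
  have hmu : m = m' := by
    by_contra hne
    exact hmns (hu.2 m hle hne)
  subst hmu
  obtain ⟨m1, hm1, hm1c⟩ := hG.monic h hh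
  have : m1 = m := lm_unique hm1 hm
  subst this
  by_cases hf : h - (monomial m1 (1 : k) - monomial v 1) = 0
  · rw [sub_eq_zero] at hf
    rw [← hf]; exact hh
  · exfalso
    have hfm : h - (monomial m1 (1 : k) - monomial v 1) ∈ RingHom.ker F :=
      Ideal.sub_mem _ (hG.mem h hh) hmem
    obtain ⟨h', hh', m2, m3, hm2, hm3, hle2⟩ := hG.gb _ hfm hf
    have hfm0 : F (h - (monomial m1 (1 : k) - monomial v 1)) = 0 := by
      rw [RingHom.mem_ker] at hfm; exact hfm
    have hm3ns := lm_not_std w hF hfm0 hm3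
    have hm3v : m3 ≠ v := by
      rintro rfl; exact hm3ns hv
    have hm3u : m3 ≠ m1 := by
      rintro rfl
      have := mem_support_iff.1 hm3.1
      apply this
      rw [coeff_sub, hm1c, hc, sub_self]
    have hm3h : m3 ∈ h.support := by
      rw [mem_support_iff]
      intro h0
      apply mem_support_iff.1 hm3.1
      rw [coeff_sub, h0, coeff_sub, coeff_monomial, coeff_monomial, if_neg (Ne.symm hm3u),
        if_neg (Ne.symm hm3v)]
      simp
    by_cases hhh : h' = h
    · subst hhh
      have : m2 = m1 := lm_unique hm2 hm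
      subst this
      have h4 := hm.2 m3 hm3h hm3u
      rcases eq_or_ne m2 m3 with h5 | h5
      · exact hm3u h5.symm
      · exact gl_asymm (gl_of_le hle2 h5) h4
    · exact hG.reduced h hh h' hh' hhh m2 hm2 m3 hm3h hle2

include hdeg in
/-- every element of a reduced Gröbner basis is of the form `u - NF(u)` -/
theorem of_mem_gb {F : MvPolynomial σ k →ₐ[k] MvPolynomial τ k}
    (hF : ∀ u c, F (monomial u c) = monomial (w u) c) {G : Set (MvPolynomial σ k)}
    (hG : IsReducedGB (RingHom.ker F) G) {g : MvPolynomial σ k} (hg : g ∈ G) :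
    ∃ u v, MNS w u ∧ Std w v ∧ w v = w u ∧ g = monomial u (1 : k) - monomial v 1 := by
  classical
  obtain ⟨u, hu, huc⟩ := hG.monic g hg
  have hgk : F g = 0 := by
    have := hG.mem g hg
    rw [RingHom.mem_ker] at this
    exact this
  have hns := lm_not_std w hF hgk hu
  obtain ⟨v, hv1, hv2⟩ := exists_nf w hdeg u
  have hmns : MNS w u := by
    refine ⟨hns, fun u' hu' hne => ?_⟩
    by_contra hns'
    obtain ⟨v', hv'1, hv'2⟩ := exists_nf w hdeg u'
    obtain ⟨hlm, hc, _⟩ := binom_lm (k := k) w hns' hv'2 hv'1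
    have hmem : monomial u' (1 : k) - monomial v' 1 ∈ RingHom.ker F := by
      rw [RingHom.mem_ker]
      show F _ = 0
      rw [map_sub, hF, hF, hv'1, sub_self]
    have hne0 : monomial u' (1 : k) - monomial v' 1 ≠ 0 := by
      intro h
      rw [h, coeff_zero] at hc
      exact zero_ne_one hc
    obtain ⟨h, hh, m, m', hm, hm', hle⟩ := hG.gb _ hmem hne0
    have hm'u : m' = u' := lm_unique hm' hlm
    subst hm'u
    by_cases hhg : h = g
    · subst hhg
      have : m = u := lm_unique hm hu
      subst this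
      exact hne (le_antisymm hu' hle)
    · exact hG.reduced g hg h hh hhg m hm u hu.1 (hle.trans hu')
  refine ⟨u, v, hmns, hv2, hv1, ?_⟩
  have hmem2 := mem_gb w hdeg hF hG hmns hv2 hv1
  by_contra hne
  obtain ⟨hlm, _, _⟩ := binom_lm (k := k) w hmns.1 hv2 hv1
  exact hG.reduced g hg _ hmem2 (Ne.symm hne) u hlm u hu.1 le_rfl

end toric

end Pool.V11275.GB
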