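import Pool.Agent.V11275.GB1

/-! # The toric ideal of the symmetric 2-stochastic polytope -/

set_option linter.unusedSectionVars false

namespace Pool.V11275.GB

open MvPolynomial

/-- The lattice points of the polytope `S_n`: symmetric `n × n` matrices with nonnegative
integer entries all of whose row and column sums are `2`. -/
def Pt (n : ℕ) : Type :=
  {M : Matrix (Fin n) (Fin n) ℕ //
    M.IsSymm ∧ (∀ i, ∑ j, M i j = 2) ∧ ∀ j, ∑ i, M i j = 2}

/-- the number of entries equal to `2` -/
def twos {n : ℕ} (M : Pt n) : ℕ := ∑ i, ∑ j, if M.1 i j = 2 then 1 else 0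

/-- The algebra map `t_M ↦ x^M z`; the variable `x_{ij}` is `X (some (i, j))` and `z` is
`X none`. -/
noncomputable def toricMap (n : ℕ) (k : Type*) [Field k] :
    MvPolynomial (Pt n) k →ₐ[k] MvPolynomial (Option (Fin n × Fin n)) k :=
  aeval fun M => (∏ i, ∏ j, X (some (i, j)) ^ (M.1 i j)) * X none

/-- The toric ideal `I_{S_n}`. -/
noncomputable def toricIdeal (n : ℕ) (k : Type*) [Field k] : Ideal (MvPolynomial (Pt n) k) :=
  RingHom.ker (toricMap n k)

/-- The matrix of a monomial: the sum, with multiplicity, of the matrices indexing its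
variables. -/
def matrixOf {n : ℕ} (u : Pt n →₀ ℕ) : Matrix (Fin n) (Fin n) ℕ :=
  u.sum fun M c => c • M.1

noncomputable def expo {n : ℕ} (M : Pt n) : Option (Fin n × Fin n) →₀ ℕ :=
  (∑ i, ∑ j, Finsupp.single (some (i, j)) (M.1 i j)) + Finsupp.single none 1

theorem expo_none {n : ℕ} (M : Pt n) : expo M none = 1 := by
  unfold expo
  rw [Finsupp.add_apply, Finsupp.finsetSum_apply]
  simp [Finsupp.finsetSum_apply]

theorem expo_some {n : ℕ} (M : Pt n) (i j : Fin n) : expo M (some (i, j)) = M.1 i j := by
  classical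
  unfold expo
  rw [Finsupp.add_apply, Finsupp.finsetSum_apply]
  simp only [Finsupp.finsetSum_apply]
  rw [Finset.sum_eq_single i, Finset.sum_eq_single j]
  · simp
  · intro b _ hb
    rw [Finsupp.single_apply, if_neg]
    simp [hb]
  · simp
  · intro b _ hb
    apply Finset.sum_eq_zero
    intro c _
    rw [Finsupp.single_apply, if_neg]
    simp [hb]
  · simp

noncomputable def wt (n : ℕ) : (Pt n →₀ ℕ) →+ (Option (Fin n × Fin n) →₀ ℕ) :=
  (Finsupp.linearCombination ℕ (expo (n := n))).toAddMonoidHom

theorem wt_apply {n : ℕ} (u : Pt n →₀ ℕ) : wt n u = u.sum fun M c => c • expo M := by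
  show (Finsupp.linearCombination ℕ (expo (n := n))) u = _
  rw [Finsupp.linearCombination_apply]

theorem wt_none {n : ℕ} (u : Pt n →₀ ℕ) : wt n u none = u.degree := by
  rw [wt_apply, Finsupp.sum, Finsupp.finsetSum_apply, Finsupp.degree_apply]
  refine Finset.sum_congr rfl fun M _ => ?_
  rw [Finsupp.smul_apply, expo_none]; simp

theorem wt_some {n : ℕ} (u : Pt n →₀ ℕ) (i j : Fin n) :
    wt n u (some (i, j)) = matrixOf u i j := by
  rw [wt_apply, Finsupp.sum, Finsupp.finsetSum_apply, matrixOf, Finsupp.sum,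
    Matrix.sum_apply]
  refine Finset.sum_congr rfl fun M _ => ?_
  rw [Finsupp.smul_apply, expo_some, Matrix.smul_apply]

theorem wt_eq_iff {n : ℕ} (u v : Pt n →₀ ℕ) :
    wt n u = wt n v ↔ u.degree = v.degree ∧ matrixOf u = matrixOf v := by
  constructor
  · intro h
    refine ⟨by rw [← wt_none, ← wt_none, h], ?_⟩
    ext i j
    rw [← wt_some, ← wt_some, h]
  · rintro ⟨h1, h2⟩
    ext o
    rcases o with _ | ⟨i, j⟩
    · rw [wt_none, wt_none, h1]
    · rw [wt_some, wt_some, h2]

theorem toricMap_monomial {n : ℕ} {k : Type*} [Field k] (u : Pt n →₀ ℕ) (c : k) :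
    toricMap n k (monomial u c) = monomial (wt n u) c := by
  unfold toricMap
  rw [aeval_monomial, wt_apply, monomial_finsupp_sum_index]
  congr 1
  refine Finsupp.prod_congr fun M _ => ?_
  have h1 : ((∏ i, ∏ j, X (some (i, j)) ^ (M.1 i j)) * X none :
      MvPolynomial (Option (Fin n × Fin n)) k) = monomial (expo M) 1 := by
    unfold expo
    have h2 : ∀ i : Fin n, (∏ j, X (some (i, j)) ^ (M.1 i j) :
        MvPolynomial (Option (Fin n × Fin n)) k) =
        monomial (∑ j, Finsupp.single (some (i, j)) (M.1 i j)) 1 := by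
      intro i
      rw [monomial_sum_one]
      refine Finset.prod_congr rfl fun j _ => ?_
      rw [X_pow_eq_monomial]
    have h3 : (∏ i, ∏ j, X (some (i, j)) ^ (M.1 i j) :
        MvPolynomial (Option (Fin n × Fin n)) k) =
        monomial (∑ i, ∑ j, Finsupp.single (some (i, j)) (M.1 i j)) 1 := by
      rw [monomial_sum_one]
      exact Finset.prod_congr rfl fun i _ => h2 i
    rw [h3, X, monomial_mul, one_mul]
  rw [h1, monomial_pow, one_pow]

theorem entry_le {n : ℕ} (M : Pt n) (i j : Fin n) : M.1 i j ≤ 2 := by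
  have := M.2.2.1 i
  calc M.1 i j ≤ ∑ j, M.1 i j := Finset.single_le_sum (fun _ _ => Nat.zero_le _)
        (Finset.mem_univ j)
    _ = 2 := this

instance (n : ℕ) : Finite (Pt n) := by
  have : Function.Injective (fun M : Pt n => fun (i j : Fin n) =>
      (⟨M.1 i j, Nat.lt_succ_of_le (entry_le M i j)⟩ : Fin 3)) := by
    intro M N h
    apply Subtype.ext
    ext i j
    have := congrFun (congrFun h i) j
    exact Fin.mk.inj_iff.1 this
  exact Finite.of_injective _ this

theorem matrixOf_add {n : ℕ} (u v : Pt n →₀ ℕ) :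
    matrixOf (u + v) = matrixOf u + matrixOf v := by
  ext i j
  rw [Matrix.add_apply, ← wt_some, ← wt_some, ← wt_some, map_add, Finsupp.add_apply]

theorem matrixOf_single {n : ℕ} (M : Pt n) : matrixOf (Finsupp.single M 1) = M.1 := by
  unfold matrixOf
  rw [Finsupp.sum_single_index] <;> simp

theorem le_matrixOf {n : ℕ} {u : Pt n →₀ ℕ} {M : Pt n} (hM : u M ≠ 0) (i j : Fin n) :
    M.1 i j ≤ matrixOf u i j := by
  have h : u = (u - Finsupp.single M 1) + Finsupp.single M 1 := by
    rw [tsub_add_cancel_of_le]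
    rw [Finsupp.single_le_iff]
    omega
  rw [h, matrixOf_add, matrixOf_single, Matrix.add_apply]
  omega

theorem gl_of_min {σ : Type*} [LinearOrder σ] {v b : σ →₀ ℕ} (hd : v.degree = b.degree) (x : σ)
    (h1 : ∀ y, y < x → v y = 0) (h2 : ∀ y, y < x → b y = 0) (h3 : b x < v x) :
    Grevlex v b :=
  Or.inr ⟨hd, x, fun y hy => by rw [h1 y hy, h2 y hy], h3⟩

/-- the inductive step for standardness -/
theorem std_top {n : ℕ} [LinearOrder (Pt n)] (x : Pt n) (v : Pt n →₀ ℕ)
    (hv : Std (wt n) v)
    (hA : ∀ M : Pt n, (∀ i j, M.1 i j ≤ (x.1 + matrixOf v) i j) → M = x ∨ x < M) :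
    Std (wt n) (Finsupp.single x 1 + v) := by
  classical
  intro b hb hne
  have hb' := (wt_eq_iff _ _).1 hb
  rw [matrixOf_add, matrixOf_single] at hb'
  by_cases hbx : b x = 0
  · refine gl_of_min hb'.1.symm x ?_ ?_ ?_
    · intro y hy
      by_contra hy0
      have := hA y (fun i j => by
        have := le_matrixOf hy0 i j
        rwa [matrixOf_add, matrixOf_single] at this)
      rcases this with h | h
      · exact hy.ne h
      · exact lt_asymm hy h
    · intro y hy
      by_contra hy0
      have := hA y (fun i j => by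
        have := le_matrixOf hy0 i j
        rwa [hb'.2] at this)
      rcases this with h | h
      · exact hy.ne h
      · exact lt_asymm hy h
    · rw [hbx, Finsupp.add_apply, Finsupp.single_eq_same]
      omega
  · have h : b = Finsupp.single x 1 + (b - Finsupp.single x 1) := by
      rw [add_tsub_cancel_of_le]
      rw [Finsupp.single_le_iff]
      omega
    set b' := b - Finsupp.single x 1 with hb'def
    rw [h, map_add, map_add] at hb
    have h1 : wt n b' = wt n v := add_left_cancel hb
    have h2 : b' ≠ v := by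
      intro h2
      apply hne
      rw [h, h2]
    rw [h, add_comm, add_comm _ b']
    exact gl_add _ (hv b' h1 h2)

theorem std_zero {n : ℕ} [LinearOrder (Pt n)] : Std (wt n) 0 := by
  intro b hb hne
  exfalso
  apply hne
  have := (wt_eq_iff _ _).1 hb
  have h2 := this.1
  rw [map_zero] at h2
  exact (Finsupp.degree_eq_zero_iff b).1 h2

theorem std_single {n : ℕ} [LinearOrder (Pt n)] (x : Pt n) :
    Std (wt n) (Finsupp.single x 1) := by
  have h := std_top x 0 std_zero (fun M hM => by
    left
    have hm0 : matrixOf (0 : Pt n →₀ ℕ) = 0 := by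
      unfold matrixOf; rw [Finsupp.sum_zero_index]
    apply Subtype.ext
    ext i j
    have h1 : ∀ i j, M.1 i j ≤ x.1 i j := by
      intro i j
      have := hM i j
      rwa [hm0, add_zero] at this
    have h2 := M.2.2.1 i
    have h3 := x.2.2.1 i
    have h4 := (Finset.sum_eq_sum_iff_of_le (fun j _ => h1 i j)).1 (h2.trans h3.symm)
    exact h4 j (Finset.mem_univ j))
  rwa [add_zero] at h

theorem mns_of {n : ℕ} [LinearOrder (Pt n)] {x y z : Pt n} (hxy : x ≠ y) (hxz : x ≠ z)
    (hyz : y ≠ z) (h1 : Std (wt n) (Finsupp.single y 1 + Finsupp.single z 1))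
    (h2 : Std (wt n) (Finsupp.single x 1 + Finsupp.single z 1))
    (h3 : Std (wt n) (Finsupp.single x 1 + Finsupp.single y 1)) {v : Pt n →₀ ℕ}
    (hv : Std (wt n) v)
    (hw : wt n v = wt n (Finsupp.single x 1 + Finsupp.single y 1 + Finsupp.single z 1))
    (hne : v ≠ Finsupp.single x 1 + Finsupp.single y 1 + Finsupp.single z 1) :
    MNS (wt n) (Finsupp.single x 1 + Finsupp.single y 1 + Finsupp.single z 1) := by
  classical
  set u := Finsupp.single x 1 + Finsupp.single y 1 + Finsupp.single z 1 with hu
  refine ⟨fun hs => gl_asymm (hs v hw hne) (hv u hw.symm (Ne.symm hne)), ?_⟩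
  intro u' hle hne'
  have hex : ∃ M, u' M < u M := by
    by_contra hcon
    push Not at hcon
    exact hne' (le_antisymm hle hcon)
  obtain ⟨M, hM⟩ := hex
  have hMx : M = x ∨ M = y ∨ M = z := by
    by_contra hcon
    push Not at hcon
    have : u M = 0 := by
      rw [hu, Finsupp.add_apply, Finsupp.add_apply, Finsupp.single_eq_of_ne hcon.1,
        Finsupp.single_eq_of_ne hcon.2.1, Finsupp.single_eq_of_ne hcon.2.2, add_zero, add_zero]
    omega
  have hu' : ∀ N, u' N ≤ (Finsupp.single x 1 : Pt n →₀ ℕ) N +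
      (Finsupp.single y 1 : Pt n →₀ ℕ) N + (Finsupp.single z 1 : Pt n →₀ ℕ) N := fun N => hle N
  have huM : u M = (Finsupp.single x 1 : Pt n →₀ ℕ) M +
      (Finsupp.single y 1 : Pt n →₀ ℕ) M + (Finsupp.single z 1 : Pt n →₀ ℕ) M := rfl
  rcases hMx with rfl | rfl | rfl
  · refine std_of_le (wt n) (fun N => ?_) h1
    have := hu' N
    rw [Finsupp.add_apply]
    by_cases hN : N = M
    · subst hN
      rw [Finsupp.single_eq_same, Finsupp.single_eq_of_ne hxy, Finsupp.single_eq_of_ne hxz] at huM
      omega
    · rw [Finsupp.single_eq_of_ne hN] at this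
      omega
  · refine std_of_le (wt n) (fun N => ?_) h2
    have := hu' N
    rw [Finsupp.add_apply]
    by_cases hN : N = M
    · subst hN
      rw [Finsupp.single_eq_same, Finsupp.single_eq_of_ne hxy.symm,
        Finsupp.single_eq_of_ne hyz] at huM
      omega
    · rw [Finsupp.single_eq_of_ne hN] at this
      omega
  · refine std_of_le (wt n) (fun N => ?_) h3
    have := hu' N
    rw [Finsupp.add_apply]
    by_cases hN : N = M
    · subst hN
      rw [Finsupp.single_eq_same, Finsupp.single_eq_of_ne hxz.symm,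
        Finsupp.single_eq_of_ne hyz.symm] at huM
      omega
    · rw [Finsupp.single_eq_of_ne hN] at this
      omega

end Pool.V11275.GB
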