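import Pool.Agent.V11275.GB2

/-! # The degree three elements -/

set_option linter.unusedSectionVars false

namespace Pool.V11275.GB

open MvPolynomial

theorem sum3 {m : ℕ} (f : Fin (m + 3) → ℕ) :
    ∑ j, f j = f 0 + f 1 + f 2 + ∑ x : Fin m, f x.succ.succ.succ := by
  rw [Fin.sum_univ_succ, Fin.sum_univ_succ, Fin.sum_univ_succ]
  have h1 : (Fin.succ 0 : Fin (m + 3)) = 1 := rfl
  have h2 : (Fin.succ (Fin.succ 0) : Fin (m + 3)) = 2 := rfl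
  rw [h1, h2]
  ring

/-- entries of the matrices supported on the first three rows and columns, and the diagonal -/
def cN (a b c : ℕ) : ℕ → ℕ → ℕ
  | 0, 0 => 2 - a - b
  | 0, 1 => a
  | 1, 0 => a
  | 0, 2 => b
  | 2, 0 => b
  | 1, 1 => 2 - a - c
  | 1, 2 => c
  | 2, 1 => c
  | 2, 2 => 2 - b - c
  | i, j => if i = j then 2 else 0

theorem cN_symm (a b c i j : ℕ) : cN a b c i j = cN a b c j i := by
  rcases i with _ | _ | _ | i <;> rcases j with _ | _ | _ | j <;> simp [cN, eq_comm]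

variable {m : ℕ}

def mkMat (a b c : ℕ) : Matrix (Fin (m + 3)) (Fin (m + 3)) ℕ :=
  fun i j => cN a b c i.val j.val

theorem fin_cases3 (i : Fin (m + 3)) : i = 0 ∨ i = 1 ∨ i = 2 ∨ ∃ x : Fin m, i = x.succ.succ.succ := by
  refine Fin.cases ?_ (fun i => ?_) i
  · left; rfl
  · refine Fin.cases ?_ (fun i => ?_) i
    · right; left; rfl
    · refine Fin.cases ?_ (fun i => ?_) i
      · right; right; left; rfl
      · right; right; right; exact ⟨i, rfl⟩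

theorem hv0 : ((0 : Fin (m + 3)) : ℕ) = 0 := rfl
theorem hv1 : ((1 : Fin (m + 3)) : ℕ) = 1 := rfl
theorem hv2 : ((2 : Fin (m + 3)) : ℕ) = 2 := rfl
theorem hv3 (x : Fin m) : ((x.succ.succ.succ : Fin (m + 3)) : ℕ) = x + 3 := rfl

theorem mm00 (a b c : ℕ) : (mkMat a b c : Matrix (Fin (m + 3)) (Fin (m + 3)) ℕ) 0 0 = 2 - a - b := by
  unfold mkMat; rw [hv0]; rfl
theorem mm01 (a b c : ℕ) : (mkMat a b c : Matrix (Fin (m + 3)) (Fin (m + 3)) ℕ) 0 1 = a := by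
  unfold mkMat; rw [hv0, hv1]; rfl
theorem mm02 (a b c : ℕ) : (mkMat a b c : Matrix (Fin (m + 3)) (Fin (m + 3)) ℕ) 0 2 = b := by
  unfold mkMat; rw [hv0, hv2]; rfl
theorem mm10 (a b c : ℕ) : (mkMat a b c : Matrix (Fin (m + 3)) (Fin (m + 3)) ℕ) 1 0 = a := by
  unfold mkMat; rw [hv0, hv1]; rfl
theorem mm11 (a b c : ℕ) : (mkMat a b c : Matrix (Fin (m + 3)) (Fin (m + 3)) ℕ) 1 1 = 2 - a - c := by
  unfold mkMat; rw [hv1]; rfl
theorem mm12 (a b c : ℕ) : (mkMat a b c : Matrix (Fin (m + 3)) (Fin (m + 3)) ℕ) 1 2 = c := by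
  unfold mkMat; rw [hv1, hv2]; rfl
theorem mm20 (a b c : ℕ) : (mkMat a b c : Matrix (Fin (m + 3)) (Fin (m + 3)) ℕ) 2 0 = b := by
  unfold mkMat; rw [hv0, hv2]; rfl
theorem mm21 (a b c : ℕ) : (mkMat a b c : Matrix (Fin (m + 3)) (Fin (m + 3)) ℕ) 2 1 = c := by
  unfold mkMat; rw [hv1, hv2]; rfl
theorem mm22 (a b c : ℕ) : (mkMat a b c : Matrix (Fin (m + 3)) (Fin (m + 3)) ℕ) 2 2 = 2 - b - c := by
  unfold mkMat; rw [hv2]; rfl
theorem mm03 (a b c : ℕ) (x : Fin m) :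
    (mkMat a b c : Matrix (Fin (m + 3)) (Fin (m + 3)) ℕ) 0 x.succ.succ.succ = 0 := by
  unfold mkMat; rw [hv0, hv3]; simp [cN]
theorem mm13 (a b c : ℕ) (x : Fin m) :
    (mkMat a b c : Matrix (Fin (m + 3)) (Fin (m + 3)) ℕ) 1 x.succ.succ.succ = 0 := by
  unfold mkMat; rw [hv1, hv3]; simp [cN]
theorem mm23 (a b c : ℕ) (x : Fin m) :
    (mkMat a b c : Matrix (Fin (m + 3)) (Fin (m + 3)) ℕ) 2 x.succ.succ.succ = 0 := by
  unfold mkMat; rw [hv2, hv3]; simp [cN]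
theorem mm33 (a b c : ℕ) (x y : Fin m) :
    (mkMat a b c : Matrix (Fin (m + 3)) (Fin (m + 3)) ℕ) x.succ.succ.succ y.succ.succ.succ =
      if x = y then 2 else 0 := by
  unfold mkMat; rw [hv3, hv3]; simp [cN, Fin.ext_iff]
theorem mmsymm (a b c : ℕ) (i j : Fin (m + 3)) :
    (mkMat a b c : Matrix (Fin (m + 3)) (Fin (m + 3)) ℕ) i j = mkMat a b c j i :=
  cN_symm _ _ _ _ _

theorem mkMat_row (a b c : ℕ) (h1 : a + b ≤ 2) (h2 : a + c ≤ 2) (h3 : b + c ≤ 2)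
    (i : Fin (m + 3)) : ∑ j, mkMat a b c i j = 2 := by
  rw [sum3]
  rcases fin_cases3 i with rfl | rfl | rfl | ⟨x, rfl⟩
  · rw [Finset.sum_eq_zero (fun x _ => mm03 a b c x), mm00, mm01, mm02]
    omega
  · rw [Finset.sum_eq_zero (fun x _ => mm13 a b c x), mm10, mm11, mm12]
    omega
  · rw [Finset.sum_eq_zero (fun x _ => mm23 a b c x), mm20, mm21, mm22]
    omega
  · rw [mmsymm a b c _ 0, mmsymm a b c _ 1, mmsymm a b c _ 2, mm03, mm13, mm23,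
      Finset.sum_eq_single x (fun y _ hy => by rw [mm33, if_neg (Ne.symm hy)]) (by simp), mm33,
      if_pos rfl]

/-- the lattice point with core entries `a, b, c` -/
def mk (m : ℕ) (a b c : ℕ) (h : a + b ≤ 2 ∧ a + c ≤ 2 ∧ b + c ≤ 2) : Pt (m + 3) :=
  ⟨mkMat a b c, by
    refine ⟨?_, fun i => mkMat_row a b c h.1 h.2.1 h.2.2 i, fun j => ?_⟩
    · ext i j
      rw [Matrix.transpose_apply]
      exact cN_symm _ _ _ _ _
    · rw [← mkMat_row a b c h.1 h.2.1 h.2.2 j]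
      exact Finset.sum_congr rfl fun i _ => cN_symm _ _ _ _ _⟩

/-- supported on the core and the diagonal -/
def Core (M : Pt (m + 3)) : Prop :=
  (∀ x : Fin m, M.1 0 x.succ.succ.succ = 0 ∧ M.1 1 x.succ.succ.succ = 0 ∧
    M.1 2 x.succ.succ.succ = 0) ∧
  ∀ x y : Fin m, x ≠ y → M.1 x.succ.succ.succ y.succ.succ.succ = 0

theorem pt_symm (M : Pt (m + 3)) (i j) : M.1 i j = M.1 j i := by
  have := congrFun (congrFun M.2.1 j) i
  rwa [Matrix.transpose_apply] at this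

theorem core_diag {M : Pt (m + 3)} (h : Core M) (x : Fin m) :
    M.1 x.succ.succ.succ x.succ.succ.succ = 2 := by
  have h1 := M.2.2.1 x.succ.succ.succ
  rw [sum3, pt_symm M _ 0, pt_symm M _ 1, pt_symm M _ 2, (h.1 x).1, (h.1 x).2.1, (h.1 x).2.2,
    Finset.sum_eq_single x (fun y _ hy => h.2 x y (Ne.symm hy)) (by simp)] at h1
  omega

theorem core_rows {M : Pt (m + 3)} (h : Core M) :
    M.1 0 0 + M.1 0 1 + M.1 0 2 = 2 ∧ M.1 0 1 + M.1 1 1 + M.1 1 2 = 2 ∧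
      M.1 0 2 + M.1 1 2 + M.1 2 2 = 2 := by
  have h0 := M.2.2.1 0
  have h1 := M.2.2.1 1
  have h2 := M.2.2.1 2
  rw [sum3, Finset.sum_eq_zero (fun x _ => (h.1 x).1)] at h0
  rw [sum3, Finset.sum_eq_zero (fun x _ => (h.1 x).2.1), pt_symm M 1 0] at h1
  rw [sum3, Finset.sum_eq_zero (fun x _ => (h.1 x).2.2), pt_symm M 2 0, pt_symm M 2 1] at h2
  omega

theorem core_ext {M N : Pt (m + 3)} (hM : Core M) (hN : Core N) (h1 : M.1 0 1 = N.1 0 1)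
    (h2 : M.1 0 2 = N.1 0 2) (h3 : M.1 1 2 = N.1 1 2) : M = N := by
  have r1 := core_rows hM
  have r2 := core_rows hN
  have e00 : M.1 0 0 = N.1 0 0 := by omega
  have e11 : M.1 1 1 = N.1 1 1 := by omega
  have e22 : M.1 2 2 = N.1 2 2 := by omega
  apply Subtype.ext
  ext i j
  rcases fin_cases3 i with rfl | rfl | rfl | ⟨x, rfl⟩ <;>
  rcases fin_cases3 j with rfl | rfl | rfl | ⟨y, rfl⟩
  · exact e00
  · exact h1
  · exact h2
  · rw [(hM.1 y).1, (hN.1 y).1]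
  · rw [pt_symm M 1 0, pt_symm N 1 0]; exact h1
  · exact e11
  · exact h3
  · rw [(hM.1 y).2.1, (hN.1 y).2.1]
  · rw [pt_symm M 2 0, pt_symm N 2 0]; exact h2
  · rw [pt_symm M 2 1, pt_symm N 2 1]; exact h3
  · exact e22
  · rw [(hM.1 y).2.2, (hN.1 y).2.2]
  · rw [pt_symm M _ 0, pt_symm N _ 0, (hM.1 x).1, (hN.1 x).1]
  · rw [pt_symm M _ 1, pt_symm N _ 1, (hM.1 x).2.1, (hN.1 x).2.1]
  · rw [pt_symm M _ 2, pt_symm N _ 2, (hM.1 x).2.2, (hN.1 x).2.2]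
  · by_cases hxy : x = y
    · subst hxy; rw [core_diag hM, core_diag hN]
    · rw [hM.2 x y hxy, hN.2 x y hxy]

theorem mk_val (a b c : ℕ) (h : a + b ≤ 2 ∧ a + c ≤ 2 ∧ b + c ≤ 2) :
    (mk m a b c h).1 = mkMat a b c := rfl

theorem mk_core (a b c : ℕ) (h : a + b ≤ 2 ∧ a + c ≤ 2 ∧ b + c ≤ 2) : Core (mk m a b c h) := by
  refine ⟨fun x => ⟨?_, ?_, ?_⟩, fun x y hxy => ?_⟩
  · rw [mk_val]; exact mm03 _ _ _ _
  · rw [mk_val]; exact mm13 _ _ _ _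
  · rw [mk_val]; exact mm23 _ _ _ _
  · rw [mk_val, mm33, if_neg hxy]

theorem mk_vals (a b c : ℕ) (h : a + b ≤ 2 ∧ a + c ≤ 2 ∧ b + c ≤ 2) :
    (mk m a b c h).1 0 1 = a ∧ (mk m a b c h).1 0 2 = b ∧ (mk m a b c h).1 1 2 = c ∧
    (mk m a b c h).1 0 0 = 2 - a - b ∧ (mk m a b c h).1 1 1 = 2 - a - c ∧
    (mk m a b c h).1 2 2 = 2 - b - c := by
  rw [mk_val]
  exact ⟨mm01 _ _ _, mm02 _ _ _, mm12 _ _ _, mm00 _ _ _, mm11 _ _ _, mm22 _ _ _⟩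

/-- the number of twos of a core matrix -/
theorem core_twos {M : Pt (m + 3)} (h : Core M) :
    twos M = ((if M.1 0 0 = 2 then 1 else 0) + (if M.1 1 1 = 2 then 1 else 0) +
      (if M.1 2 2 = 2 then 1 else 0) + 2 * (if M.1 0 1 = 2 then 1 else 0) +
      2 * (if M.1 0 2 = 2 then 1 else 0) + 2 * (if M.1 1 2 = 2 then 1 else 0)) + m := by
  unfold twos
  rw [sum3]
  have hz : (0 : ℕ) ≠ 2 := by norm_num
  have t0 : (∑ x : Fin m, if M.1 0 x.succ.succ.succ = 2 then 1 else 0) = 0 :=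
    Finset.sum_eq_zero (fun x _ => by rw [(h.1 x).1, if_neg hz])
  have t1 : (∑ x : Fin m, if M.1 1 x.succ.succ.succ = 2 then 1 else 0) = 0 :=
    Finset.sum_eq_zero (fun x _ => by rw [(h.1 x).2.1, if_neg hz])
  have t2 : (∑ x : Fin m, if M.1 2 x.succ.succ.succ = 2 then 1 else 0) = 0 :=
    Finset.sum_eq_zero (fun x _ => by rw [(h.1 x).2.2, if_neg hz])
  have t3 : ∀ x : Fin m, (∑ j, if M.1 x.succ.succ.succ j = 2 then 1 else 0) = 1 := by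
    intro x
    rw [sum3, pt_symm M _ 0, pt_symm M _ 1, pt_symm M _ 2, (h.1 x).1, (h.1 x).2.1, (h.1 x).2.2,
      if_neg hz, Finset.sum_eq_single x
        (fun y _ hy => by rw [h.2 x y (Ne.symm hy), if_neg hz]) (by simp), core_diag h, if_pos rfl]
  rw [Finset.sum_congr rfl (fun x _ => t3 x), sum3, sum3, sum3, t0, t1, t2, pt_symm M 1 0,
    pt_symm M 2 0, pt_symm M 2 1]
  simp only [Finset.sum_const, Finset.card_univ, Fintype.card_fin, smul_eq_mul, mul_one]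
  ring

/-- the four matrices with the maximal number of twos in the core -/
def PI (m : ℕ) : Pt (m + 3) := mk m 0 0 0 (by omega)
def PD0 (m : ℕ) : Pt (m + 3) := mk m 0 0 2 (by omega)
def PD1 (m : ℕ) : Pt (m + 3) := mk m 0 2 0 (by omega)
def PD2 (m : ℕ) : Pt (m + 3) := mk m 2 0 0 (by omega)
def PP0 (m : ℕ) : Pt (m + 3) := mk m 0 0 1 (by omega)
def PQ0 (m : ℕ) : Pt (m + 3) := mk m 1 1 0 (by omega)
def PT (m : ℕ) : Pt (m + 3) := mk m 1 1 1 (by omega)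

/-- top = one of the four matrices with three twos in the core -/
theorem core_class {M : Pt (m + 3)} (h : Core M) :
    (twos M = m + 3 ∧ (M.1 0 1 = 0 ∧ M.1 0 2 = 0 ∧ M.1 1 2 = 0 ∨
      M.1 0 1 = 0 ∧ M.1 0 2 = 0 ∧ M.1 1 2 = 2 ∨ M.1 0 1 = 0 ∧ M.1 0 2 = 2 ∧ M.1 1 2 = 0 ∨
      M.1 0 1 = 2 ∧ M.1 0 2 = 0 ∧ M.1 1 2 = 0)) ∨
    (twos M ≤ m + 1 ∧ M.1 0 1 ≤ 1 ∧ M.1 0 2 ≤ 1 ∧ M.1 1 2 ≤ 1) := by
  have ht := core_twos h
  obtain ⟨r1, r2, r3⟩ := core_rows h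
  generalize M.1 0 0 = x at *
  generalize M.1 1 1 = y at *
  generalize M.1 2 2 = z at *
  generalize M.1 0 1 = a at *
  generalize M.1 0 2 = b at *
  generalize M.1 1 2 = c at *
  split_ifs at ht <;> omega

theorem twos_top {a b c : ℕ} (h : a + b ≤ 2 ∧ a + c ≤ 2 ∧ b + c ≤ 2)
    (h' : a = 0 ∧ b = 0 ∧ c = 0 ∨ a = 0 ∧ b = 0 ∧ c = 2 ∨ a = 0 ∧ b = 2 ∧ c = 0 ∨
      a = 2 ∧ b = 0 ∧ c = 0) : twos (mk m a b c h) = m + 3 := by
  rw [core_twos (mk_core a b c h)]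
  obtain ⟨e1, e2, e3, e4, e5, e6⟩ := mk_vals (m := m) a b c h
  rw [e1, e2, e3, e4, e5, e6]
  rcases h' with ⟨rfl, rfl, rfl⟩ | ⟨rfl, rfl, rfl⟩ | ⟨rfl, rfl, rfl⟩ | ⟨rfl, rfl, rfl⟩ <;>
    simp <;> omega

/-- a matrix bounded by a matrix with zero off-diagonal entries outside the core is core -/
theorem core_of_le {M : Pt (m + 3)} {A : Matrix (Fin (m + 3)) (Fin (m + 3)) ℕ}
    (h : ∀ i j, M.1 i j ≤ A i j)
    (h1 : ∀ x : Fin m, A 0 x.succ.succ.succ = 0 ∧ A 1 x.succ.succ.succ = 0 ∧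
      A 2 x.succ.succ.succ = 0)
    (h2 : ∀ x y : Fin m, x ≠ y → A x.succ.succ.succ y.succ.succ.succ = 0) : Core M := by
  refine ⟨fun x => ⟨?_, ?_, ?_⟩, fun x y hxy => ?_⟩
  · have := h 0 x.succ.succ.succ
    rw [(h1 x).1] at this; omega
  · have := h 1 x.succ.succ.succ
    rw [(h1 x).2.1] at this; omega
  · have := h 2 x.succ.succ.succ
    rw [(h1 x).2.2] at this; omega
  · have := h x.succ.succ.succ y.succ.succ.succ
    rw [h2 x y hxy] at this; omega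

theorem core_of_le2 {M N P : Pt (m + 3)} (hN : Core N) (hP : Core P)
    (h : ∀ i j, M.1 i j ≤ N.1 i j + P.1 i j) : Core M := by
  refine core_of_le (A := fun i j => N.1 i j + P.1 i j) h (fun x => ⟨?_, ?_, ?_⟩)
    (fun x y hxy => ?_)
  · show N.1 _ _ + P.1 _ _ = 0
    rw [(hN.1 x).1, (hP.1 x).1]
  · show N.1 _ _ + P.1 _ _ = 0
    rw [(hN.1 x).2.1, (hP.1 x).2.1]
  · show N.1 _ _ + P.1 _ _ = 0
    rw [(hN.1 x).2.2, (hP.1 x).2.2]
  · show N.1 _ _ + P.1 _ _ = 0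
    rw [hN.2 x y hxy, hP.2 x y hxy]

theorem core_of_le3 {M N P Q : Pt (m + 3)} (hN : Core N) (hP : Core P) (hQ : Core Q)
    (h : ∀ i j, M.1 i j ≤ N.1 i j + (P.1 i j + Q.1 i j)) : Core M := by
  refine core_of_le (A := fun i j => N.1 i j + (P.1 i j + Q.1 i j)) h (fun x => ⟨?_, ?_, ?_⟩)
    (fun x y hxy => ?_)
  · show N.1 _ _ + (P.1 _ _ + Q.1 _ _) = 0
    rw [(hN.1 x).1, (hP.1 x).1, (hQ.1 x).1]
  · show N.1 _ _ + (P.1 _ _ + Q.1 _ _) = 0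
    rw [(hN.1 x).2.1, (hP.1 x).2.1, (hQ.1 x).2.1]
  · show N.1 _ _ + (P.1 _ _ + Q.1 _ _) = 0
    rw [(hN.1 x).2.2, (hP.1 x).2.2, (hQ.1 x).2.2]
  · show N.1 _ _ + (P.1 _ _ + Q.1 _ _) = 0
    rw [hN.2 x y hxy, hP.2 x y hxy, hQ.2 x y hxy]

end Pool.V11275.GB
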