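import Pool.Agent.V11275.GB3

set_option linter.unusedSectionVars false

namespace Pool.V11275.GB

open MvPolynomial

variable {m : ℕ}

theorem le2 {n : ℕ} {M x y : Pt n}
    (h : ∀ i j, M.1 i j ≤ (x.1 + matrixOf (Finsupp.single y 1)) i j) :
    ∀ i j, M.1 i j ≤ x.1 i j + y.1 i j := by
  intro i j
  have := h i j
  rwa [matrixOf_single, Matrix.add_apply] at this

theorem le3 {n : ℕ} {M x y z : Pt n}
    (h : ∀ i j, M.1 i j ≤
      (x.1 + matrixOf (Finsupp.single y 1 + Finsupp.single z 1 : Pt n →₀ ℕ)) i j) :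
    ∀ i j, M.1 i j ≤ x.1 i j + (y.1 i j + z.1 i j) := by
  intro i j
  have := h i j
  rwa [matrixOf_add, matrixOf_single, matrixOf_single, Matrix.add_apply, Matrix.add_apply] at this

theorem eq_mk {M : Pt (m + 3)} (hM : Core M) {a b c : ℕ} (h : a + b ≤ 2 ∧ a + c ≤ 2 ∧ b + c ≤ 2)
    (h1 : M.1 0 1 = a) (h2 : M.1 0 2 = b) (h3 : M.1 1 2 = c) : M = mk m a b c h := by
  obtain ⟨e1, e2, e3, _⟩ := mk_vals (m := m) a b c h
  exact core_ext hM (mk_core a b c h) (h1.trans e1.symm) (h2.trans e2.symm) (h3.trans e3.symm)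

/-- an order compatible with the number of twos -/
def Compat {n : ℕ} (lo : LinearOrder (Pt n)) : Prop :=
  ∀ M N : Pt n, twos N < twos M → lo.lt M N

section
variable [lo : LinearOrder (Pt (m + 3))] (hlo : Compat lo)

include hlo

theorem std2 {a b c a' b' c' : ℕ} (h : a + b ≤ 2 ∧ a + c ≤ 2 ∧ b + c ≤ 2)
    (h' : a' + b' ≤ 2 ∧ a' + c' ≤ 2 ∧ b' + c' ≤ 2)
    (htop : a = 0 ∧ b = 0 ∧ c = 0 ∨ a = 0 ∧ b = 0 ∧ c = 2 ∨ a = 0 ∧ b = 2 ∧ c = 0 ∨
      a = 2 ∧ b = 0 ∧ c = 0)
    (hA : ∀ M : Pt (m + 3), Core M → twos M = m + 3 → M.1 0 1 ≤ a + a' → M.1 0 2 ≤ b + b' →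
      M.1 1 2 ≤ c + c' → M.1 0 0 ≤ (2 - a - b) + (2 - a' - b') →
      M.1 1 1 ≤ (2 - a - c) + (2 - a' - c') → M.1 2 2 ≤ (2 - b - c) + (2 - b' - c') →
      M = mk m a b c h ∨ mk m a b c h < M) :
    Std (wt (m + 3)) (Finsupp.single (mk m a b c h) 1 + Finsupp.single (mk m a' b' c' h') 1) := by
  refine std_top _ _ (std_single _) (fun M hM => ?_)
  have hM' := le2 hM
  have hc : Core M := core_of_le2 (mk_core a b c h) (mk_core a' b' c' h') hM'
  obtain ⟨e1, e2, e3, e4, e5, e6⟩ := mk_vals (m := m) a b c h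
  obtain ⟨f1, f2, f3, f4, f5, f6⟩ := mk_vals (m := m) a' b' c' h'
  rcases core_class hc with ⟨ht, _⟩ | ⟨ht, _⟩
  · refine hA M hc ht ?_ ?_ ?_ ?_ ?_ ?_
    · have := hM' 0 1; rwa [e1, f1] at this
    · have := hM' 0 2; rwa [e2, f2] at this
    · have := hM' 1 2; rwa [e3, f3] at this
    · have := hM' 0 0; rwa [e4, f4] at this
    · have := hM' 1 1; rwa [e5, f5] at this
    · have := hM' 2 2; rwa [e6, f6] at this
  · right
    apply hlo
    rw [twos_top h htop]
    omega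

theorem std_IT : Std (wt (m + 3)) (Finsupp.single (PI m) 1 + Finsupp.single (PT m) 1) := by
  refine std2 hlo _ _ (by omega) (fun M hc ht h1 h2 h3 h4 h5 h6 => ?_)
  left
  rcases core_class hc with ⟨_, h⟩ | ⟨h, _⟩
  · exact eq_mk hc _ (by omega) (by omega) (by omega)
  · omega

theorem std_IQ : Std (wt (m + 3)) (Finsupp.single (PI m) 1 + Finsupp.single (PQ0 m) 1) := by
  refine std2 hlo _ _ (by omega) (fun M hc ht h1 h2 h3 h4 h5 h6 => ?_)
  left
  rcases core_class hc with ⟨_, h⟩ | ⟨h, _⟩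
  · exact eq_mk hc _ (by omega) (by omega) (by omega)
  · omega

theorem std_D1P : Std (wt (m + 3)) (Finsupp.single (PD1 m) 1 + Finsupp.single (PP0 m) 1) := by
  refine std2 hlo _ _ (by omega) (fun M hc ht h1 h2 h3 h4 h5 h6 => ?_)
  left
  have hr := core_rows hc
  rcases core_class hc with ⟨_, h⟩ | ⟨h, _⟩
  · exact eq_mk hc _ (by omega) (by omega) (by omega)
  · omega

theorem std_D2P : Std (wt (m + 3)) (Finsupp.single (PD2 m) 1 + Finsupp.single (PP0 m) 1) := by
  refine std2 hlo _ _ (by omega) (fun M hc ht h1 h2 h3 h4 h5 h6 => ?_)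
  left
  have hr := core_rows hc
  rcases core_class hc with ⟨_, h⟩ | ⟨h, _⟩
  · exact eq_mk hc _ (by omega) (by omega) (by omega)
  · omega

theorem std_D1D2' (hlt : PD1 m < PD2 m) :
    Std (wt (m + 3)) (Finsupp.single (PD1 m) 1 + Finsupp.single (PD2 m) 1) := by
  refine std2 hlo _ _ (by omega) (fun M hc ht h1 h2 h3 h4 h5 h6 => ?_)
  have hr := core_rows hc
  rcases core_class hc with ⟨_, h⟩ | ⟨h, _⟩
  · by_cases ha : M.1 0 1 = 2
    · right
      have : M = PD2 m := eq_mk hc _ (by omega) (by omega) (by omega)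
      rw [this]; exact hlt
    · left
      exact eq_mk hc _ (by omega) (by omega) (by omega)
  · omega

theorem std_D2D1' (hlt : PD2 m < PD1 m) :
    Std (wt (m + 3)) (Finsupp.single (PD2 m) 1 + Finsupp.single (PD1 m) 1) := by
  refine std2 hlo _ _ (by omega) (fun M hc ht h1 h2 h3 h4 h5 h6 => ?_)
  have hr := core_rows hc
  rcases core_class hc with ⟨_, h⟩ | ⟨h, _⟩
  · by_cases ha : M.1 0 2 = 2
    · right
      have : M = PD1 m := eq_mk hc _ (by omega) (by omega) (by omega)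
      rw [this]; exact hlt
    · left
      exact eq_mk hc _ (by omega) (by omega) (by omega)
  · omega

end

theorem mk_ne {a b c a' b' c' : ℕ} {h : a + b ≤ 2 ∧ a + c ≤ 2 ∧ b + c ≤ 2}
    {h' : a' + b' ≤ 2 ∧ a' + c' ≤ 2 ∧ b' + c' ≤ 2} (hne : a ≠ a' ∨ b ≠ b' ∨ c ≠ c') :
    mk m a b c h ≠ mk m a' b' c' h' := by
  intro heq
  obtain ⟨e1, e2, e3, _⟩ := mk_vals (m := m) a b c h
  obtain ⟨f1, f2, f3, _⟩ := mk_vals (m := m) a' b' c' h'
  rw [heq] at e1 e2 e3
  omega

section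
variable [lo : LinearOrder (Pt (m + 3))] (hlo : Compat lo)

include hlo

theorem std_D1D2 :
    Std (wt (m + 3)) (Finsupp.single (PD1 m) 1 + Finsupp.single (PD2 m) 1) := by
  have hne : PD1 m ≠ PD2 m := mk_ne (by omega)
  rcases lt_or_gt_of_ne hne with h | h
  · exact std_D1D2' hlo h
  · have := std_D2D1' hlo h
    rwa [add_comm (Finsupp.single (PD2 m) 1)] at this

omit hlo in
theorem std_TQ :
    Std (wt (m + 3)) (Finsupp.single (PT m) 1 + Finsupp.single (PQ0 m) 1) := by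
  have key : ∀ M : Pt (m + 3), (∀ i j, M.1 i j ≤ (PT m).1 i j + (PQ0 m).1 i j) →
      M = PT m ∨ M = PQ0 m := by
    intro M hM
    have hc : Core M := core_of_le2 (mk_core _ _ _ _) (mk_core _ _ _ _) hM
    obtain ⟨e1, e2, e3, e4, e5, e6⟩ := mk_vals (m := m) 1 1 1 (by omega)
    obtain ⟨f1, f2, f3, f4, f5, f6⟩ := mk_vals (m := m) 1 1 0 (by omega)
    have g1 := hM 0 1
    have g2 := hM 0 2
    have g3 := hM 1 2
    have g4 := hM 0 0
    have g5 := hM 1 1
    have g6 := hM 2 2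
    unfold PT PQ0 at g1 g2 g3 g4 g5 g6
    rw [e1, f1] at g1
    rw [e2, f2] at g2
    rw [e3, f3] at g3
    rw [e4, f4] at g4
    rw [e5, f5] at g5
    rw [e6, f6] at g6
    have hr := core_rows hc
    by_cases hcc : M.1 1 2 = 1
    · left; exact eq_mk hc _ (by omega) (by omega) (by omega)
    · right; exact eq_mk hc _ (by omega) (by omega) (by omega)
  have hne : PT m ≠ PQ0 m := mk_ne (by omega)
  rcases lt_or_gt_of_ne hne with h | h
  · refine std_top _ _ (std_single _) (fun M hM => ?_)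
    rcases key M (le2 hM) with rfl | rfl
    · left; rfl
    · right; exact h
  · rw [add_comm (Finsupp.single (PT m) 1)]
    refine std_top _ _ (std_single _) (fun M hM => ?_)
    have := le2 hM
    rcases key M (fun i j => by have := this i j; omega) with rfl | rfl
    · right; exact h
    · left; rfl

theorem std3 {a b c a' b' c' a'' b'' c'' : ℕ} (h : a + b ≤ 2 ∧ a + c ≤ 2 ∧ b + c ≤ 2)
    (h' : a' + b' ≤ 2 ∧ a' + c' ≤ 2 ∧ b' + c' ≤ 2)
    (h'' : a'' + b'' ≤ 2 ∧ a'' + c'' ≤ 2 ∧ b'' + c'' ≤ 2)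
    (htop : a = 0 ∧ b = 0 ∧ c = 0 ∨ a = 0 ∧ b = 0 ∧ c = 2 ∨ a = 0 ∧ b = 2 ∧ c = 0 ∨
      a = 2 ∧ b = 0 ∧ c = 0)
    (hstd : Std (wt (m + 3))
      (Finsupp.single (mk m a' b' c' h') 1 + Finsupp.single (mk m a'' b'' c'' h'') 1))
    (hA : ∀ M : Pt (m + 3), Core M → twos M = m + 3 → M.1 0 1 ≤ a + (a' + a'') →
      M.1 0 2 ≤ b + (b' + b'') → M.1 1 2 ≤ c + (c' + c'') →
      M = mk m a b c h ∨ mk m a b c h < M) :
    Std (wt (m + 3)) (Finsupp.single (mk m a b c h) 1 + (Finsupp.single (mk m a' b' c' h') 1 +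
      Finsupp.single (mk m a'' b'' c'' h'') 1)) := by
  refine std_top _ _ hstd (fun M hM => ?_)
  have hM' := le3 hM
  have hc : Core M := core_of_le3 (mk_core a b c h) (mk_core a' b' c' h')
    (mk_core a'' b'' c'' h'') hM'
  obtain ⟨e1, e2, e3, _⟩ := mk_vals (m := m) a b c h
  obtain ⟨f1, f2, f3, _⟩ := mk_vals (m := m) a' b' c' h'
  obtain ⟨g1, g2, g3, _⟩ := mk_vals (m := m) a'' b'' c'' h''
  rcases core_class hc with ⟨ht, _⟩ | ⟨ht, _⟩
  · refine hA M hc ht ?_ ?_ ?_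
    · have := hM' 0 1; rwa [e1, f1, g1] at this
    · have := hM' 0 2; rwa [e2, f2, g2] at this
    · have := hM' 1 2; rwa [e3, f3, g3] at this
  · right
    apply hlo
    rw [twos_top h htop]
    omega

theorem std_ITQ (h1 : PI m < PD1 m) (h2 : PI m < PD2 m) : Std (wt (m + 3))
    (Finsupp.single (PI m) 1 + (Finsupp.single (PT m) 1 + Finsupp.single (PQ0 m) 1)) := by
  refine std3 hlo _ _ _ (by omega) std_TQ (fun M hc ht g1 g2 g3 => ?_)
  rcases core_class hc with ⟨_, h⟩ | ⟨h, _⟩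
  · rcases h with h | h | h | h
    · left; exact eq_mk hc _ (by omega) (by omega) (by omega)
    · omega
    · right
      have : M = PD1 m := eq_mk hc _ (by omega) (by omega) (by omega)
      rw [this]; exact h1
    · right
      have : M = PD2 m := eq_mk hc _ (by omega) (by omega) (by omega)
      rw [this]; exact h2
  · omega

theorem std_D1D2P (h1 : PD1 m < PI m) (h2 : PD1 m < PD2 m) : Std (wt (m + 3))
    (Finsupp.single (PD1 m) 1 + (Finsupp.single (PD2 m) 1 + Finsupp.single (PP0 m) 1)) := by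
  refine std3 hlo _ _ _ (by omega) (std_D2P hlo) (fun M hc ht g1 g2 g3 => ?_)
  rcases core_class hc with ⟨_, h⟩ | ⟨h, _⟩
  · rcases h with h | h | h | h
    · right
      have : M = PI m := eq_mk hc _ (by omega) (by omega) (by omega)
      rw [this]; exact h1
    · omega
    · left; exact eq_mk hc _ (by omega) (by omega) (by omega)
    · right
      have : M = PD2 m := eq_mk hc _ (by omega) (by omega) (by omega)
      rw [this]; exact h2
  · omega

theorem std_D2D1P (h1 : PD2 m < PI m) (h2 : PD2 m < PD1 m) : Std (wt (m + 3))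
    (Finsupp.single (PD2 m) 1 + (Finsupp.single (PD1 m) 1 + Finsupp.single (PP0 m) 1)) := by
  refine std3 hlo _ _ _ (by omega) (std_D1P hlo) (fun M hc ht g1 g2 g3 => ?_)
  rcases core_class hc with ⟨_, h⟩ | ⟨h, _⟩
  · rcases h with h | h | h | h
    · right
      have : M = PI m := eq_mk hc _ (by omega) (by omega) (by omega)
      rw [this]; exact h1
    · omega
    · right
      have : M = PD1 m := eq_mk hc _ (by omega) (by omega) (by omega)
      rw [this]; exact h2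
    · left; exact eq_mk hc _ (by omega) (by omega) (by omega)
  · omega

end

end Pool.V11275.GB
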