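import Pool.Agent.V11275.GB4

set_option linter.unusedSectionVars false

namespace Pool.V11275.GB

open MvPolynomial

variable {m : ℕ}

theorem lin3 {a b a' b' a'' b'' p q p' q' p'' q'' : ℕ} (h : a + b ≤ 2) (h' : a' + b' ≤ 2)
    (h'' : a'' + b'' ≤ 2) (g : p + q ≤ 2) (g' : p' + q' ≤ 2) (g'' : p'' + q'' ≤ 2)
    (e1 : a + a' + a'' = p + p' + p'') (e2 : b + b' + b'' = q + q' + q'') :
    2 - a - b + (2 - a' - b' + (2 - a'' - b'')) = 2 - p - q + (2 - p' - q' + (2 - p'' - q'')) := by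
  have k1 : (2 - a - b) + a + b = 2 := by omega
  have k2 : (2 - a' - b') + a' + b' = 2 := by omega
  have k3 : (2 - a'' - b'') + a'' + b'' = 2 := by omega
  have k4 : (2 - p - q) + p + q = 2 := by omega
  have k5 : (2 - p' - q') + p' + q' = 2 := by omega
  have k6 : (2 - p'' - q'') + p'' + q'' = 2 := by omega
  clear h h' h'' g g' g''
  generalize 2 - a - b = t1 at *
  generalize 2 - a' - b' = t2 at *
  generalize 2 - a'' - b'' = t3 at *
  generalize 2 - p - q = t4 at *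
  generalize 2 - p' - q' = t5 at *
  generalize 2 - p'' - q'' = t6 at *
  linarith

/-- sums of three core points with the same coordinate sums are equal -/
theorem sum_eq {a b c a' b' c' a'' b'' c'' p q r p' q' r' p'' q'' r'' : ℕ}
    (h : a + b ≤ 2 ∧ a + c ≤ 2 ∧ b + c ≤ 2)
    (h' : a' + b' ≤ 2 ∧ a' + c' ≤ 2 ∧ b' + c' ≤ 2)
    (h'' : a'' + b'' ≤ 2 ∧ a'' + c'' ≤ 2 ∧ b'' + c'' ≤ 2)
    (g : p + q ≤ 2 ∧ p + r ≤ 2 ∧ q + r ≤ 2)
    (g' : p' + q' ≤ 2 ∧ p' + r' ≤ 2 ∧ q' + r' ≤ 2)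
    (g'' : p'' + q'' ≤ 2 ∧ p'' + r'' ≤ 2 ∧ q'' + r'' ≤ 2)
    (e1 : a + a' + a'' = p + p' + p'') (e2 : b + b' + b'' = q + q' + q'')
    (e3 : c + c' + c'' = r + r' + r'') :
    (mk m a b c h).1 + ((mk m a' b' c' h').1 + (mk m a'' b'' c'' h'').1) =
      (mk m p q r g).1 + ((mk m p' q' r' g').1 + (mk m p'' q'' r'' g'').1) := by
  ext i j
  simp only [mk_val, Matrix.add_apply]
  rcases fin_cases3 i with rfl | rfl | rfl | ⟨x, rfl⟩ <;>
  rcases fin_cases3 j with rfl | rfl | rfl | ⟨y, rfl⟩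
  · simp only [mm00]; exact lin3 h.1 h'.1 h''.1 g.1 g'.1 g''.1 e1 e2
  · simp only [mm01]; rw [← add_assoc, ← add_assoc, e1]
  · simp only [mm02]; rw [← add_assoc, ← add_assoc, e2]
  · simp only [mm03]
  · simp only [mm10]; rw [← add_assoc, ← add_assoc, e1]
  · simp only [mm11]; exact lin3 h.2.1 h'.2.1 h''.2.1 g.2.1 g'.2.1 g''.2.1 e1 e3
  · simp only [mm12]; rw [← add_assoc, ← add_assoc, e3]
  · simp only [mm13]
  · simp only [mm20]; rw [← add_assoc, ← add_assoc, e2]
  · simp only [mm21]; rw [← add_assoc, ← add_assoc, e3]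
  · simp only [mm22]; exact lin3 h.2.2 h'.2.2 h''.2.2 g.2.2 g'.2.2 g''.2.2 e2 e3
  · simp only [mm23]
  · simp only [mmsymm _ _ _ _ 0, mm03]
  · simp only [mmsymm _ _ _ _ 1, mm13]
  · simp only [mmsymm _ _ _ _ 2, mm23]
  · simp only [mm33]

theorem matrix3 {n : ℕ} (x y z : Pt n) :
    matrixOf (Finsupp.single x 1 + Finsupp.single y 1 + Finsupp.single z 1 : Pt n →₀ ℕ) =
      x.1 + (y.1 + z.1) := by
  rw [matrixOf_add, matrixOf_add, matrixOf_single, matrixOf_single, matrixOf_single, add_assoc]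

theorem degree3 {n : ℕ} (x y z : Pt n) :
    (Finsupp.single x 1 + Finsupp.single y 1 + Finsupp.single z 1 : Pt n →₀ ℕ).degree = 3 := by
  rw [map_add, map_add, Finsupp.degree_single, Finsupp.degree_single, Finsupp.degree_single]

theorem exists_bad [lo : LinearOrder (Pt (m + 3))] (hlo : Compat lo) :
    ∃ u v : Pt (m + 3) →₀ ℕ, MNS (wt (m + 3)) u ∧ Std (wt (m + 3)) v ∧
      wt (m + 3) v = wt (m + 3) u ∧ u.degree = 3 ∧
      matrixOf u = (PD1 m).1 + ((PD2 m).1 + (PP0 m).1) := by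
  classical
  set U : Pt (m + 3) →₀ ℕ :=
    Finsupp.single (PI m) 1 + Finsupp.single (PT m) 1 + Finsupp.single (PQ0 m) 1 with hU
  set V : Pt (m + 3) →₀ ℕ :=
    Finsupp.single (PD1 m) 1 + Finsupp.single (PD2 m) 1 + Finsupp.single (PP0 m) 1 with hV
  have hmU : matrixOf U = (PD1 m).1 + ((PD2 m).1 + (PP0 m).1) := by
    rw [hU, matrix3]
    exact sum_eq _ _ _ _ _ _ (by norm_num) (by norm_num) (by norm_num)
  have hmV : matrixOf V = (PD1 m).1 + ((PD2 m).1 + (PP0 m).1) := by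
    rw [hV, matrix3]
  have hdU : U.degree = 3 := degree3 _ _ _
  have hdV : V.degree = 3 := degree3 _ _ _
  have hw : wt (m + 3) U = wt (m + 3) V :=
    (wt_eq_iff U V).2 ⟨hdU.trans hdV.symm, hmU.trans hmV.symm⟩
  have hUV : U ≠ V := by
    intro h
    have h1 : U (PI m) = 1 := by
      have a1 : PI m ≠ PT m := mk_ne (by omega)
      have a2 : PI m ≠ PQ0 m := mk_ne (by omega)
      rw [hU, Finsupp.add_apply, Finsupp.add_apply, Finsupp.single_eq_same,
        Finsupp.single_eq_of_ne a1, Finsupp.single_eq_of_ne a2, add_zero, add_zero]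
    have h2 : V (PI m) = 0 := by
      have a1 : PI m ≠ PD1 m := mk_ne (by omega)
      have a2 : PI m ≠ PD2 m := mk_ne (by omega)
      have a3 : PI m ≠ PP0 m := mk_ne (by omega)
      rw [hV, Finsupp.add_apply, Finsupp.add_apply, Finsupp.single_eq_of_ne a1,
        Finsupp.single_eq_of_ne a2, Finsupp.single_eq_of_ne a3, add_zero, add_zero]
    rw [h, h2] at h1
    exact zero_ne_one h1
  by_cases hI : PI m < PD1 m ∧ PI m < PD2 m
  · refine ⟨V, U, ?_, ?_, hw, hdV, hmV⟩
    · exact mns_of (mk_ne (by omega)) (mk_ne (by omega)) (mk_ne (by omega)) (std_D2P hlo)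
        (std_D1P hlo) (std_D1D2 hlo)
        (by have := std_ITQ hlo hI.1 hI.2; rwa [← add_assoc] at this) hw hUV
    · have := std_ITQ hlo hI.1 hI.2
      rwa [← add_assoc] at this
  · have hV' : Std (wt (m + 3)) V := by
      have n1 : PI m ≠ PD1 m := mk_ne (by omega)
      have n2 : PI m ≠ PD2 m := mk_ne (by omega)
      have n3 : PD1 m ≠ PD2 m := mk_ne (by omega)
      rcases lt_or_gt_of_ne n3 with h | h
      · have hlt : PD1 m < PI m := by
          by_contra hcon
          have h1 : PI m < PD1 m := lt_of_le_of_ne (not_lt.1 hcon) n1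
          exact hI ⟨h1, h1.trans h⟩
        have := std_D1D2P hlo hlt h
        rwa [← add_assoc] at this
      · have hlt : PD2 m < PI m := by
          by_contra hcon
          have h1 : PI m < PD2 m := lt_of_le_of_ne (not_lt.1 hcon) n2
          exact hI ⟨h1.trans h, h1⟩
        have := std_D2D1P hlo hlt h
        rwa [← add_assoc, add_comm (Finsupp.single (PD2 m) 1)] at this
    refine ⟨U, V, ?_, hV', hw.symm, hdU, hmU⟩
    exact mns_of (mk_ne (by omega)) (mk_ne (by omega)) (mk_ne (by omega)) std_TQ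
        (std_IQ hlo) (std_IT hlo) hV' hw.symm hUV.symm

/-- in every decomposition every summand has the entry `2` in each diagonal position outside
the core -/
theorem forced {A : Matrix (Fin (m + 3)) (Fin (m + 3)) ℕ}
    (hA : A = (PD1 m).1 + ((PD2 m).1 + (PP0 m).1)) {d : ℕ} (M : Fin d → Pt (m + 3))
    (hM : ∑ i, (M i).1 = A) (i : Fin d) (x : Fin m) :
    (M i).1 x.succ.succ.succ x.succ.succ.succ = 2 := by
  apply core_diag
  refine core_of_le3 (mk_core _ _ _ _) (mk_core _ _ _ _) (mk_core _ _ _ _) (N := PD1 m)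
    (P := PD2 m) (Q := PP0 m) (fun p q => ?_)
  have h1 : (∑ i, (M i).1) p q = A p q := by rw [hM]
  rw [Matrix.sum_apply] at h1
  have h2 : (M i).1 p q ≤ ∑ i, (M i).1 p q :=
    Finset.single_le_sum (f := fun i => (M i).1 p q) (fun _ _ => Nat.zero_le _)
      (Finset.mem_univ i)
  rw [h1, hA, Matrix.add_apply, Matrix.add_apply] at h2
  exact h2

end Pool.V11275.GB
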