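import Mathlib

set_option autoImplicit false

open Complex Filter Topology

namespace Pool.Agent.V11275.Jac

/-- If an absolutely convergent combination of (real-linear) characters vanishes identically, then
for each linear functional `θ` the total coefficient of the characters equal to `θ` vanishes. -/
theorem char_bound {ι V : Type*} [AddCommGroup V] [Module ℝ V] (ψ : ι → V →ₗ[ℝ] ℝ) (θ : V →ₗ[ℝ] ℝ)
    [DecidableEq ι] [DecidablePred fun i => ψ i = θ] (T : Finset ι) :
    ∀ c : ι → ℂ, Summable (fun i => ‖c i‖) →
    (∀ x, HasSum (fun i => c i * cexp (2 * Real.pi * I * (ψ i x : ℂ))) 0) →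
    ‖∑' i, if ψ i = θ then c i else 0‖ ≤ ∑' i, if ψ i = θ ∨ i ∈ T then 0 else ‖c i‖ := by
  induction T using Finset.induction_on with
  | empty =>
    intro c hc h0
    have hc' : Summable c := hc.of_norm
    have h1 := h0 0
    simp only [map_zero, ofReal_zero, mul_zero, Complex.exp_zero, mul_one] at h1
    have hs1 : Summable (fun i => if ψ i = θ then c i else 0) := by
      refine Summable.of_norm_bounded hc ?_
      intro i
      split_ifs <;> simp
    have hs2 : Summable (fun i => if ψ i = θ then 0 else c i) := by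
      refine Summable.of_norm_bounded hc ?_
      intro i
      split_ifs <;> simp
    have h2 : (∑' i, if ψ i = θ then c i else 0) + (∑' i, if ψ i = θ then 0 else c i) = 0 := by
      rw [← hs1.tsum_add hs2]
      refine Eq.trans ?_ h1.tsum_eq
      congr 1
      funext i
      split_ifs <;> simp
    have h3 : (∑' i, if ψ i = θ then c i else 0) = -(∑' i, if ψ i = θ then 0 else c i) := by
      linear_combination h2
    rw [h3, norm_neg]
    have hs3 : Summable (fun i => ‖if ψ i = θ then (0:ℂ) else c i‖) := hs2.norm
    refine (norm_tsum_le_tsum_norm hs3).trans (le_of_eq ?_)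
    congr 1
    funext i
    simp only [Finset.notMem_empty, or_false]
    split_ifs <;> simp
  | insert j T hj ih =>
    intro c hc h0
    by_cases hjθ : ψ j = θ
    · have h1 := ih c hc h0
      refine h1.trans (le_of_eq ?_)
      congr 1
      funext i
      by_cases h2 : ψ i = θ
      · simp [h2]
      · have h3 : i ≠ j := fun h => h2 (h ▸ hjθ)
        simp [h2, h3]
    · -- choose a shift
      obtain ⟨x, hx⟩ : ∃ x, (ψ j - θ) x = 1 / 2 := by
        have h1 : ψ j - θ ≠ 0 := sub_ne_zero.mpr hjθ
        obtain ⟨y, hy⟩ : ∃ y, (ψ j - θ) y ≠ 0 := by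
          by_contra hcon
          push Not at hcon
          exact h1 (LinearMap.ext hcon)
        refine ⟨((1 / 2) / (ψ j - θ) y) • y, ?_⟩
        rw [map_smul, smul_eq_mul]
        field_simp
      set c' : ι → ℂ := fun i => c i * ((1 + cexp (2 * Real.pi * I * ((ψ i x - θ x : ℝ) : ℂ))) / 2) with hc'
      have hn : ∀ i, ‖c' i‖ ≤ ‖c i‖ := by
        intro i
        rw [hc']
        simp only [norm_mul]
        refine mul_le_of_le_one_right (norm_nonneg _) ?_
        rw [norm_div]
        have h1 : ‖cexp (2 * Real.pi * I * ((ψ i x - θ x : ℝ) : ℂ))‖ = 1 := by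
          rw [show (2 * Real.pi * I * ((ψ i x - θ x : ℝ) : ℂ) : ℂ) = ((2 * Real.pi * (ψ i x - θ x) : ℝ) : ℂ) * I by
            push_cast; ring]
          exact norm_exp_ofReal_mul_I _
        have h2 : ‖(1 + cexp (2 * Real.pi * I * ((ψ i x - θ x : ℝ) : ℂ)))‖ ≤ 2 := by
          refine (norm_add_le _ _).trans ?_
          rw [h1]; norm_num
        have h3 : ‖(2 : ℂ)‖ = 2 := by norm_num
        rw [h3]
        linarith
      have hcs : Summable (fun i => ‖c' i‖) := Summable.of_nonneg_of_le (fun _ => norm_nonneg _) hn hc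
      have h0' : ∀ y, HasSum (fun i => c' i * cexp (2 * Real.pi * I * (ψ i y : ℂ))) 0 := by
        intro y
        have h1 := h0 y
        have h2 := (h0 (y + x)).mul_left (cexp (-(2 * Real.pi * I * (θ x : ℂ))))
        have h3 := (h1.add h2).mul_left (1 / 2 : ℂ)
        rw [mul_zero, add_zero, mul_zero] at h3
        refine h3.congr_fun ?_ |> id
        intro i
        rw [hc']
        simp only [map_add]
        have h4 : cexp (2 * Real.pi * I * ((ψ i x - θ x : ℝ) : ℂ)) * cexp (2 * Real.pi * I * (ψ i y : ℂ))
          = cexp (-(2 * Real.pi * I * (θ x : ℂ))) * cexp (2 * Real.pi * I * ((ψ i y + ψ i x : ℝ) : ℂ)) := by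
          rw [← Complex.exp_add, ← Complex.exp_add]
          congr 1
          push_cast
          ring
        linear_combination (c i / 2) * h4
      have h5 := ih c' hcs h0'
      have h6 : (∑' i, if ψ i = θ then c' i else 0) = ∑' i, if ψ i = θ then c i else 0 := by
        congr 1
        funext i
        by_cases h2 : ψ i = θ
        · simp [h2, hc']
        · simp [h2]
      rw [h6] at h5
      refine h5.trans ?_
      have hsum1 : Summable (fun i => if ψ i = θ ∨ i ∈ T then 0 else ‖c' i‖) := by
        refine Summable.of_nonneg_of_le (fun i => ?_) (fun i => ?_) hcs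
        · split_ifs <;> simp
        · split_ifs <;> simp
      have hsum2 : Summable (fun i => if ψ i = θ ∨ i ∈ insert j T then 0 else ‖c i‖) := by
        refine Summable.of_nonneg_of_le (fun i => ?_) (fun i => ?_) hc
        · split_ifs <;> simp
        · split_ifs <;> simp
      refine hsum1.tsum_le_tsum ?_ hsum2
      intro i
      by_cases h2 : ψ i = θ ∨ i ∈ T
      · have h3 : ψ i = θ ∨ i ∈ insert j T := h2.imp id (fun h => Finset.mem_insert_of_mem h)
        rw [if_pos h2, if_pos h3]
      · rw [if_neg h2]
        by_cases h4 : i = j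
        · have h3 : ψ i = θ ∨ i ∈ insert j T := Or.inr (h4 ▸ Finset.mem_insert_self _ _)
          rw [if_pos h3, h4]
          have h7 : c' j = 0 := by
            rw [hc']
            have h8 : (ψ j x - θ x : ℝ) = 1 / 2 := hx
            simp only [h8]
            have h9 : (2 * Real.pi * I * ((1 / 2 : ℝ) : ℂ) : ℂ) = Real.pi * I := by push_cast; ring
            rw [h9, Complex.exp_pi_mul_I]
            ring
          rw [h7, norm_zero]
        · have h3 : ¬ (ψ i = θ ∨ i ∈ insert j T) := by
            intro h
            rcases h with h | h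
            · exact h2 (Or.inl h)
            · rcases Finset.mem_insert.mp h with h | h
              · exact h4 h
              · exact h2 (Or.inr h)
          rw [if_neg h3]
          exact hn i

theorem char_unique {ι V : Type*} [AddCommGroup V] [Module ℝ V] (ψ : ι → V →ₗ[ℝ] ℝ) (θ : V →ₗ[ℝ] ℝ)
    [DecidablePred fun i => ψ i = θ] (c : ι → ℂ) (hc : Summable (fun i => ‖c i‖))
    (h0 : ∀ x, HasSum (fun i => c i * cexp (2 * Real.pi * I * (ψ i x : ℂ))) 0) :
    ∑' i, (if ψ i = θ then c i else 0) = 0 := by
  classical
  have h1 : Tendsto (fun s : Finset ι => ∑' a : {x // x ∉ s}, ‖c a‖) atTop (𝓝 0) :=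
    tendsto_tsum_compl_atTop_zero (fun i => ‖c i‖)
  have h2 : ∀ s : Finset ι, ‖∑' i, if ψ i = θ then c i else 0‖ ≤ ∑' a : {x // x ∉ s}, ‖c a‖ := by
    intro s
    refine (char_bound ψ θ s c hc h0).trans ?_
    have h3 : ∑' a : {x // x ∉ s}, ‖c a‖ = ∑' i, if i ∈ s then 0 else ‖c i‖ := by
      have := tsum_subtype (s := {x | x ∉ s}) (fun i => ‖c i‖)
      rw [show (∑' a : {x // x ∉ s}, ‖c a‖) = ∑' (x : ↑{x | x ∉ s}), ‖c ↑x‖ from rfl, this]
      congr 1
      funext i
      by_cases hi : i ∈ s <;> simp [Set.indicator, hi]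
    rw [h3]
    have hsum1 : Summable (fun i => if ψ i = θ ∨ i ∈ s then 0 else ‖c i‖) := by
      refine Summable.of_nonneg_of_le (fun i => ?_) (fun i => ?_) hc
      · split_ifs <;> simp
      · split_ifs <;> simp
    have hsum2 : Summable (fun i => if i ∈ s then 0 else ‖c i‖) := by
      refine Summable.of_nonneg_of_le (fun i => ?_) (fun i => ?_) hc
      · split_ifs <;> simp
      · split_ifs <;> simp
    refine hsum1.tsum_le_tsum ?_ hsum2
    intro i
    by_cases h4 : i ∈ s
    · simp [h4]
    · by_cases h5 : ψ i = θ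
      · simp [h4, h5]
      · simp [h4, h5]
  have h3 := ge_of_tendsto' h1 h2
  exact norm_le_zero_iff.mp h3

end Pool.Agent.V11275.Jac
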