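import Pool.Agent.V11275.QSeries
import Pool.Agent.V11275.JacB
import Pool.Agent.Y949.J.Ram2

set_option autoImplicit false

open UpperHalfPlane hiding I
open Complex Filter Topology Derivative EisensteinSeries ModularForm MatrixGroups Function
open scoped Manifold MatrixGroups ModularForm

namespace Pool.Agent.V11275.QM

open Pool.Agent.V11275 Pool.Agent.W97.MT

/-! ### modular forms as functions -/

/-- `F` is a modular form of weight `k` for `SL(2, ℤ)`. -/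
def IsMF (k : ℤ) (F : ℍ → ℂ) : Prop := ∃ f : ModularForm 𝒮ℒ k, (f : ℍ → ℂ) = F

theorem IsMF.coe {k : ℤ} (f : ModularForm 𝒮ℒ k) : IsMF k f := ⟨f, rfl⟩

theorem IsMF.mdiff {k : ℤ} {F : ℍ → ℂ} (h : IsMF k F) : MDiff F := by
  obtain ⟨f, rfl⟩ := h; exact ModularFormClass.holo f

theorem IsMF.slash {k : ℤ} {F : ℍ → ℂ} (h : IsMF k F) (γ : SL(2, ℤ)) : F ∣[k] γ = F := by
  obtain ⟨f, rfl⟩ := h; exact Pool.Agent.Y949.J.slash_modularForm f γ

theorem IsMF.tendsto {k : ℤ} {F : ℍ → ℂ} (h : IsMF k F) : ∃ c, Tendsto F atImInfty (𝓝 c) := by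
  obtain ⟨f, rfl⟩ := h; exact ⟨_, Pool.Agent.Y949.J.tendsto_modularForm f⟩

theorem IsMF.of_tendsto {k : ℤ} {G : ℍ → ℂ} (hG : MDiff G)
    (hs : ∀ γ : SL(2, ℤ), G ∣[k] γ = G) {c : ℂ} (h0 : Tendsto G atImInfty (𝓝 c)) : IsMF k G := by
  let f : ModularForm 𝒮ℒ k :=
    { toFun := G
      slash_action_eq' := fun _ ⟨γ, hγ⟩ ↦ hγ ▸ hs γ
      holo' := hG
      bdd_at_cusps' := by
        intro c hc
        rw [Subgroup.IsArithmetic.isCusp_iff_isCusp_SL2Z] at hc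
        rw [OnePoint.isBoundedAt_iff_forall_SL2Z hc]
        intro γ _
        rw [hs γ]
        exact h0.isBigO_one ℝ }
  exact ⟨f, rfl⟩

theorem IsMF.add {k : ℤ} {F G : ℍ → ℂ} (hF : IsMF k F) (hG : IsMF k G) : IsMF k (F + G) := by
  obtain ⟨f, rfl⟩ := hF
  obtain ⟨g, rfl⟩ := hG
  exact ⟨f + g, rfl⟩

theorem IsMF.sub {k : ℤ} {F G : ℍ → ℂ} (hF : IsMF k F) (hG : IsMF k G) : IsMF k (F - G) := by
  obtain ⟨f, rfl⟩ := hF
  obtain ⟨g, rfl⟩ := hG
  exact ⟨f - g, rfl⟩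

theorem IsMF.smul {k : ℤ} {F : ℍ → ℂ} (hF : IsMF k F) (c : ℂ) : IsMF k (c • F) := by
  obtain ⟨f, rfl⟩ := hF
  exact ⟨c • f, rfl⟩

theorem IsMF.mul {k l m : ℤ} {F G : ℍ → ℂ} (hF : IsMF k F) (hG : IsMF l G) (h : m = k + l) :
    IsMF m (F * G) := by
  subst h
  obtain ⟨f, rfl⟩ := hF
  obtain ⟨g, rfl⟩ := hG
  exact ⟨f.mul g, by rw [ModularForm.coe_mul]⟩

theorem IsMF.serre {k m : ℤ} {F : ℍ → ℂ} (hF : IsMF k F) (h : m = k + 2) :
    IsMF m (D F - ((k : ℂ) / 12) • (E2 * F)) := by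
  subst h
  obtain ⟨c, hc⟩ := hF.tendsto
  have e : D F - ((k : ℂ) / 12) • (E2 * F) = serreDerivative (k : ℂ) F := by
    funext z
    simp only [Pi.sub_apply, Pi.smul_apply, Pi.mul_apply, smul_eq_mul, serreDerivative_apply]
    ring
  refine IsMF.of_tendsto (c := 0 - ((k : ℂ) / 12) • (1 * c)) ?_ ?_ ?_
  · rw [e]; exact serreDerivative_mdifferentiable _ hF.mdiff
  · intro γ
    rw [e]; exact serreDerivative_slash_invariant hF.mdiff (hF.slash γ)
  · exact (Pool.Agent.Y949.J.tendsto_D hF.mdiff (Pool.Agent.Y949.J.isBounded_of_tendsto hc)).sub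
      ((Pool.Agent.Y949.J.tendsto_E2.mul hc).const_smul _)

/-! ### `q`-expansions -/

/-- `F` has the `q`-expansion `φ`. -/
def Q (F : ℍ → ℂ) (φ : PowerSeries ℂ) : Prop :=
  ∃ h : ℂ → ℂ, RepC h φ ∧ ∀ τ : ℍ, F τ = h (Periodic.qParam 1 (τ : ℂ))

variable {F G : ℍ → ℂ} {φ ψ : PowerSeries ℂ}

theorem Q.add (hF : Q F φ) (hG : Q G ψ) : Q (F + G) (φ + ψ) := by
  obtain ⟨h, h1, h2⟩ := hF
  obtain ⟨k, k1, k2⟩ := hG
  exact ⟨_, h1.add k1, fun τ => by rw [Pi.add_apply, h2, k2]⟩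

theorem Q.sub (hF : Q F φ) (hG : Q G ψ) : Q (F - G) (φ - ψ) := by
  obtain ⟨h, h1, h2⟩ := hF
  obtain ⟨k, k1, k2⟩ := hG
  exact ⟨_, h1.sub k1, fun τ => by rw [Pi.sub_apply, h2, k2]⟩

theorem Q.mul (hF : Q F φ) (hG : Q G ψ) : Q (F * G) (φ * ψ) := by
  obtain ⟨h, h1, h2⟩ := hF
  obtain ⟨k, k1, k2⟩ := hG
  exact ⟨_, h1.mul k1, fun τ => by rw [Pi.mul_apply, h2, k2]⟩

theorem Q.smul (hF : Q F φ) (c : ℂ) : Q (c • F) (PowerSeries.C c * φ) := by
  obtain ⟨h, h1, h2⟩ := hF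
  exact ⟨_, (RepC.C c).mul h1, fun τ => by rw [Pi.smul_apply, smul_eq_mul, h2]⟩

theorem Q.of_MF {k : ℤ} (hF : IsMF k F) : ∃ φ, Q F φ := by
  obtain ⟨f, rfl⟩ := hF
  exact ⟨_, _, repC_modularForm f, fun τ => (cusp_eq f τ).symm⟩

theorem Q.coe {k : ℤ} (f : ModularForm 𝒮ℒ k) : Q f (qExpansion 1 f) :=
  ⟨_, repC_modularForm f, fun τ => (cusp_eq f τ).symm⟩

theorem Q.E2' : Q E2 c2 := ⟨_, g2_rep, fun τ => (g2_eq τ).symm⟩

theorem Q.unique (hF : Q F φ) (hG : Q F ψ) : φ = ψ := by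
  obtain ⟨h, h1, h2⟩ := hF
  obtain ⟨k, k1, k2⟩ := hG
  refine repC_unique' h1 k1 ?_
  intro q h0 h1
  obtain ⟨τ, rfl⟩ := exists_tau h0 h1
  rw [← h2, ← k2]

theorem Q.zero_of (hF : Q F 0) : F = 0 := by
  obtain ⟨h, h1, h2⟩ := hF
  funext τ
  rw [h2 τ]
  have h3 := h1 _ (Periodic.norm_qParam_lt_one one_pos τ.im_pos)
  simp only [map_zero, zero_mul] at h3
  exact h3.unique hasSum_zero

theorem Q.of_zero : Q 0 0 := ⟨fun _ => 0, by simpa using RepC.C 0, fun _ => rfl⟩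

theorem Q.mdiff (hF : Q F φ) : MDiff F := by
  obtain ⟨h, h1, h2⟩ := hF
  apply Pool.Agent.V11275.Jac.mdiff_of_hasSum (c := fun n => PowerSeries.coeff n φ)
  intro τ
  have h3 := h1 _ (Periodic.norm_qParam_lt_one one_pos τ.im_pos)
  rw [← h2] at h3
  refine h3.congr_fun ?_ |> id
  intro n
  rw [qp, ← Complex.exp_nat_mul]
  congr 2
  ring

theorem Q.hasSum (hF : Q F φ) (τ : ℍ) :
    HasSum (fun n : ℕ => PowerSeries.coeff n φ * cexp (2 * Real.pi * I * (n * (τ : ℂ)))) (F τ) := by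
  obtain ⟨h, h1, h2⟩ := hF
  have h3 := h1 _ (Periodic.norm_qParam_lt_one one_pos τ.im_pos)
  rw [← h2] at h3
  refine h3.congr_fun ?_ |> id
  intro n
  rw [qp, ← Complex.exp_nat_mul]
  congr 2
  ring

theorem Q.of_hasSum {c : ℕ → ℂ}
    (h : ∀ τ : ℍ, HasSum (fun n : ℕ => c n * cexp (2 * Real.pi * I * (n * (τ : ℂ)))) (F τ)) :
    Q F (PowerSeries.mk c) := by
  obtain ⟨g, hg, hF⟩ := Pool.Agent.V11275.Jac.repC_of_hasSum h
  refine ⟨g, hg, fun τ => ?_⟩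
  rw [hF, qp]

theorem Q.D (hF : Q F φ) : Q (D F) (th φ) := by
  obtain ⟨h, h1, h2⟩ := hF
  refine ⟨_, h1.theta, fun τ => ?_⟩
  have hq1 : ‖Periodic.qParam 1 (τ : ℂ)‖ < 1 := Periodic.norm_qParam_lt_one one_pos τ.im_pos
  have hd : DifferentiableAt ℂ h (Periodic.qParam 1 τ) :=
    h1.differentiableOn.differentiableAt (Metric.isOpen_ball.mem_nhds (by simpa using hq1))
  have hq : HasDerivAt (fun w : ℂ => Periodic.qParam 1 w)
      (2 * Real.pi * I * Periodic.qParam 1 τ) (τ : ℂ) := by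
    have h1 : HasDerivAt (fun w : ℂ => cexp (2 * Real.pi * I * w / (1 : ℝ)))
        (cexp (2 * Real.pi * I * (τ : ℂ) / (1 : ℝ)) * (2 * Real.pi * I * 1 / (1 : ℝ))) (τ : ℂ) := by
      apply HasDerivAt.cexp
      exact (((hasDerivAt_id (τ : ℂ)).const_mul (2 * Real.pi * I)).div_const _)
    have h2 : (2 * Real.pi * I * Periodic.qParam 1 τ : ℂ) =
        cexp (2 * Real.pi * I * (τ : ℂ) / (1 : ℝ)) * (2 * Real.pi * I * 1 / (1 : ℝ)) := by
      rw [Periodic.qParam]; push_cast; ring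
    rw [h2]
    exact h1
  have h3 : (F ∘ ofComplex) =ᶠ[𝓝 (τ : ℂ)] h ∘ (fun w : ℂ => Periodic.qParam 1 w) := by
    filter_upwards [isOpen_upperHalfPlaneSet.mem_nhds τ.im_pos] with w hw
    have hw' : 0 < w.im := hw
    have := h2 ⟨w, hw'⟩
    simp only [Function.comp_apply, ofComplex_apply_of_im_pos hw']
    exact this
  unfold normalizedDerivOfComplex
  rw [h3.deriv_eq, (hd.hasDerivAt.comp (τ : ℂ) hq).deriv]
  have hpi : (Real.pi : ℂ) ≠ 0 := by exact_mod_cast Real.pi_ne_zero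
  field_simp

/-! ### quasimodular forms of depth at most one -/

/-- `F` is quasimodular of weight `k` and depth at most one. -/
def IsQ1 (k : ℤ) (F : ℍ → ℂ) : Prop := ∃ f g : ℍ → ℂ, IsMF k f ∧ IsMF (k - 2) g ∧ F = f + E2 * g

theorem IsQ1.add {k : ℤ} (hF : IsQ1 k F) (hG : IsQ1 k G) : IsQ1 k (F + G) := by
  obtain ⟨f, g, hf, hg, rfl⟩ := hF
  obtain ⟨f', g', hf', hg', rfl⟩ := hG
  exact ⟨f + f', g + g', hf.add hf', hg.add hg', by ring⟩

theorem IsQ1.sub {k : ℤ} (hF : IsQ1 k F) (hG : IsQ1 k G) : IsQ1 k (F - G) := by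
  obtain ⟨f, g, hf, hg, rfl⟩ := hF
  obtain ⟨f', g', hf', hg', rfl⟩ := hG
  exact ⟨f - f', g - g', hf.sub hf', hg.sub hg', by ring⟩

theorem IsQ1.smul {k : ℤ} (hF : IsQ1 k F) (c : ℂ) : IsQ1 k (c • F) := by
  obtain ⟨f, g, hf, hg, rfl⟩ := hF
  refine ⟨c • f, c • g, hf.smul c, hg.smul c, ?_⟩
  funext z
  simp only [Pi.smul_apply, Pi.add_apply, Pi.mul_apply, smul_eq_mul]
  ring

theorem IsQ1.mulE4 {k m : ℤ} (hF : IsQ1 k F) (h : m = k + 4) : IsQ1 m ((E₄ : ℍ → ℂ) * F) := by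
  obtain ⟨f, g, hf, hg, rfl⟩ := hF
  refine ⟨(E₄ : ℍ → ℂ) * f, (E₄ : ℍ → ℂ) * g, (IsMF.coe E₄).mul hf (by rw [h]; push_cast; ring),
    (IsMF.coe E₄).mul hg (by rw [h]; push_cast; ring), by ring⟩

theorem IsQ1.exists_Q {k : ℤ} (hF : IsQ1 k F) : ∃ φ, Q F φ := by
  obtain ⟨f, g, hf, hg, rfl⟩ := hF
  obtain ⟨φ, hφ⟩ := Q.of_MF hf
  obtain ⟨ψ, hψ⟩ := Q.of_MF hg
  exact ⟨_, hφ.add (Q.E2'.mul hψ)⟩

theorem IsQ1.ser {k m : ℤ} (hF : IsQ1 k F) (h : m = k + 2) :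
    IsQ1 m (D F - (((k : ℂ) - 1) / 12) • (E2 * F)) := by
  obtain ⟨f, g, hf, hg, rfl⟩ := hF
  have h1 := hf.serre (m := m) h
  have h2 := hg.serre (m := k) (by ring)
  refine ⟨(D f - ((k : ℂ) / 12) • (E2 * f)) - (12⁻¹ : ℂ) • ((E₄ : ℍ → ℂ) * g),
    (D g - (((k - 2 : ℤ) : ℂ) / 12) • (E2 * g)) + (12⁻¹ : ℂ) • f,
    h1.sub (((IsMF.coe E₄).mul hg (by rw [h]; push_cast; ring)).smul _), ?_, ?_⟩
  · have h3 : m - 2 = k := by rw [h]; ring
    rw [h3]
    exact h2.add (hf.smul _)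
  · rw [normalizedDerivOfComplex_add _ _ hf.mdiff (E2_mdifferentiable.mul hg.mdiff),
      normalizedDerivOfComplex_mul _ _ E2_mdifferentiable hg.mdiff]
    funext z
    simp only [Pi.add_apply, Pi.sub_apply, Pi.mul_apply, Pi.smul_apply, smul_eq_mul]
    rw [Pool.Agent.Y949.J.ram2]
    push_cast
    ring

/-! ### leading coefficients of power series -/

theorem coeff_lead (a b : PowerSeries ℂ) (p r : ℕ) (ha : ∀ i < p, PowerSeries.coeff i a = 0)
    (hb : ∀ i < r, PowerSeries.coeff i b = 0) :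
    (∀ i < p + r, PowerSeries.coeff i (a * b) = 0) ∧
    PowerSeries.coeff (p + r) (a * b) = PowerSeries.coeff p a * PowerSeries.coeff r b := by
  obtain ⟨a', rfl⟩ := (PowerSeries.X_pow_dvd_iff).mpr ha
  obtain ⟨b', rfl⟩ := (PowerSeries.X_pow_dvd_iff).mpr hb
  have h1 : (PowerSeries.X : PowerSeries ℂ) ^ p * a' * (PowerSeries.X ^ r * b') = PowerSeries.X ^ (p + r) * (a' * b') := by
    rw [pow_add]; ring
  rw [h1]
  constructor
  · intro i hi
    rw [PowerSeries.coeff_X_pow_mul', if_neg (by omega)]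
  · have e1 := PowerSeries.coeff_X_pow_mul (a' * b') (p + r) 0
    have e2 := PowerSeries.coeff_X_pow_mul a' p 0
    have e3 := PowerSeries.coeff_X_pow_mul b' r 0
    rw [zero_add] at e1 e2 e3
    rw [e1, e2, e3, PowerSeries.coeff_zero_eq_constantCoeff_apply, PowerSeries.coeff_zero_eq_constantCoeff_apply,
      PowerSeries.coeff_zero_eq_constantCoeff_apply, map_mul]

theorem exists_lead {a : PowerSeries ℂ} (ha : a ≠ 0) :
    ∃ p, (∀ i < p, PowerSeries.coeff i a = 0) ∧ PowerSeries.coeff p a ≠ 0 := by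
  classical
  have h : ∃ p, PowerSeries.coeff p a ≠ 0 := by
    by_contra hcon
    push Not at hcon
    exact ha (PowerSeries.ext (by simpa using hcon))
  refine ⟨Nat.find h, fun i hi => ?_, Nat.find_spec h⟩
  have := Nat.find_min h hi
  push Not at this
  exact this

/-- The Riccati type relation has no nonzero solution. -/
theorem riccati_zero (φ γ : PowerSeries ℂ) (h0 : PowerSeries.coeff 0 φ = 0)
    (h : γ * th φ - φ * th γ = PowerSeries.C (12⁻¹ : ℂ) * (φ * φ)) : φ = 0 := by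
  by_contra hφ
  obtain ⟨p, hp1, hp2⟩ := exists_lead hφ
  have hp0 : p ≠ 0 := by
    rintro rfl
    exact hp2 h0
  have hsq := coeff_lead φ φ p p hp1 hp1
  have hthφ : ∀ i < p, PowerSeries.coeff i (th φ) = 0 := fun i hi => by rw [coeff_th, hp1 i hi, mul_zero]
  by_cases hγ : γ = 0
  · subst hγ
    have h1 := congrArg (PowerSeries.coeff (p + p)) h
    have h2 : th (0 : PowerSeries ℂ) = 0 := by unfold th; simp
    rw [h2, zero_mul, mul_zero, sub_zero, map_zero, PowerSeries.coeff_C_mul, hsq.2] at h1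
    have := mul_self_ne_zero.mpr hp2
    have h3 : (12⁻¹ : ℂ) ≠ 0 := by norm_num
    exact (mul_ne_zero h3 this) h1.symm
  · obtain ⟨r, hr1, hr2⟩ := exists_lead hγ
    have hthγ : ∀ i < r, PowerSeries.coeff i (th γ) = 0 := fun i hi => by rw [coeff_th, hr1 i hi, mul_zero]
    have e1 := coeff_lead γ (th φ) r p hr1 hthφ
    have e2 := coeff_lead φ (th γ) p r hp1 hthγ
    have hL : PowerSeries.coeff (p + r) (γ * th φ - φ * th γ) =
        ((p : ℂ) - r) * (PowerSeries.coeff p φ * PowerSeries.coeff r γ) := by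
      rw [map_sub, e2.2, add_comm p r, e1.2, coeff_th, coeff_th]
      ring
    rcases lt_trichotomy r p with hlt | heq | hgt
    · have h1 := congrArg (PowerSeries.coeff (p + r)) h
      rw [hL, PowerSeries.coeff_C_mul, hsq.1 (p + r) (by omega), mul_zero] at h1
      have h2 : ((p : ℂ) - r) ≠ 0 := by
        rw [sub_ne_zero]
        exact_mod_cast hlt.ne'
      exact (mul_ne_zero h2 (mul_ne_zero hp2 hr2)) h1
    · subst heq
      have h1 := congrArg (PowerSeries.coeff (r + r)) h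
      rw [hL, PowerSeries.coeff_C_mul, hsq.2, sub_self, zero_mul] at h1
      have h3 : (12⁻¹ : ℂ) ≠ 0 := by norm_num
      exact (mul_ne_zero h3 (mul_self_ne_zero.mpr hp2)) h1.symm
    · have h1 := congrArg (PowerSeries.coeff (p + p)) h
      rw [PowerSeries.coeff_C_mul, hsq.2, map_sub, e1.1 _ (by omega), e2.1 _ (by omega), sub_zero] at h1
      have h3 : (12⁻¹ : ℂ) ≠ 0 := by norm_num
      exact (mul_ne_zero h3 (mul_self_ne_zero.mpr hp2)) h1.symm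

/-- A modular form with large vanishing order is zero. -/
theorem IsMF.eq_zero {k : ℤ} (hF : IsMF k F) (hQ : Q F φ) (m : ℕ) (hm : k < 12 * m) (hm1 : 1 ≤ m)
    (h : ∀ i < m, PowerSeries.coeff i φ = 0) : F = 0 := by
  obtain ⟨f, rfl⟩ := hF
  have h1 : φ = qExpansion 1 f := hQ.unique (Q.coe f)
  have h2 : f = 0 := by
    apply sturm_bound_levelOne
    have h3 : ((m : ℕ) : ℕ∞) ≤ (qExpansion 1 f).order := by
      apply PowerSeries.nat_le_order
      intro i hi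
      rw [← h1]; exact h i hi
    refine lt_of_lt_of_le ?_ h3
    have h4 : k.toNat / 12 < m := by omega
    exact_mod_cast h4
  rw [h2]; rfl

/-- **Multiplicity estimate** in depth one. -/
theorem IsQ1.eq_zero {k : ℤ} (hF : IsQ1 k F) (hQ : Q F φ) (m : ℕ) (hm : k < 6 * m) (hm1 : 1 ≤ m)
    (h : ∀ i < m, PowerSeries.coeff i φ = 0) : φ = 0 := by
  obtain ⟨f, g, hf, hg, hFe⟩ := hF
  obtain ⟨γ, hγ⟩ := Q.of_MF hg
  -- the modular form `H`
  have hf1 := hf.serre (m := k + 2) rfl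
  have hg1 := hg.serre (m := k) (by ring)
  have hH : IsMF (2 * k) (g * (D f - ((k : ℂ) / 12) • (E2 * f)) - f * (D g - (((k - 2 : ℤ) : ℂ) / 12) • (E2 * g))
      - (12⁻¹ : ℂ) • (f * f) - (12⁻¹ : ℂ) • ((E₄ : ℍ → ℂ) * (g * g))) := by
    refine (((hg.mul hf1 (by ring)).sub (hf.mul hg1 (by ring))).sub ((hf.mul hf (by ring)).smul _)).sub
      (((IsMF.coe E₄).mul (hg.mul hg rfl) (by push_cast; ring)).smul _)
  have hHe : (g * (D f - ((k : ℂ) / 12) • (E2 * f)) - f * (D g - (((k - 2 : ℤ) : ℂ) / 12) • (E2 * g))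
      - (12⁻¹ : ℂ) • (f * f) - (12⁻¹ : ℂ) • ((E₄ : ℍ → ℂ) * (g * g))) =
      g * D F - F * D g - (12⁻¹ : ℂ) • (F * F) := by
    rw [hFe, normalizedDerivOfComplex_add _ _ hf.mdiff (E2_mdifferentiable.mul hg.mdiff),
      normalizedDerivOfComplex_mul _ _ E2_mdifferentiable hg.mdiff]
    funext z
    simp only [Pi.add_apply, Pi.sub_apply, Pi.mul_apply, Pi.smul_apply, smul_eq_mul]
    rw [Pool.Agent.Y949.J.ram2]
    push_cast
    ring
  rw [hHe] at hH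
  have hHQ : Q (g * D F - F * D g - (12⁻¹ : ℂ) • (F * F)) (γ * th φ - φ * th γ - PowerSeries.C (12⁻¹ : ℂ) * (φ * φ)) :=
    ((hγ.mul hQ.D).sub (hQ.mul hγ.D)).sub ((hQ.mul hQ).smul _)
  have hz : ∀ i < m, PowerSeries.coeff i (γ * th φ - φ * th γ - PowerSeries.C (12⁻¹ : ℂ) * (φ * φ)) = 0 := by
    have hthφ : ∀ i < m, PowerSeries.coeff i (th φ) = 0 := fun i hi => by rw [coeff_th, h i hi, mul_zero]
    intro i hi
    have e1 := (coeff_lead γ (th φ) 0 m (by simp) hthφ).1 i (by omega)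
    have e2 := (coeff_lead φ (th γ) m 0 h (by simp)).1 i (by omega)
    have e3 := (coeff_lead φ φ m 0 h (by simp)).1 i (by omega)
    rw [map_sub, map_sub, PowerSeries.coeff_C_mul, e1, e2, e3]
    simp
  have hH0 := hH.eq_zero hHQ m (by omega) hm1 hz
  rw [hH0] at hHQ
  have h5 := hHQ.unique Q.of_zero
  refine riccati_zero φ γ (h 0 (by omega)) ?_
  exact sub_eq_zero.mp h5

/-- **Kaneko-Zagier equation** for the extremal form in weight `6 n`. -/
theorem kz {n : ℕ} {k : ℤ} (hk : k = 6 * n) (hF : IsQ1 k F) (hQ : Q F φ)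
    (h : ∀ i < n, PowerSeries.coeff i φ = 0) (τ : ℍ) :
    D (D F) τ = (k : ℂ) / 6 * E2 τ * D F τ - (k : ℂ) * (k - 1) / 144 * (E2 τ ^ 2 - E₄ τ) * F τ := by
  have hm := hQ.mdiff
  have h1 := hF.ser (m := k + 2) rfl
  have h2 := h1.ser (m := k + 4) (by ring)
  have h3 := hF.mulE4 (m := k + 4) rfl
  have hΘ := h2.sub (h3.smul (((k : ℂ) ^ 2 - 1) / 144))
  have e : D (D F - (((k : ℂ) - 1) / 12) • (E2 * F)) - ((((k + 2 : ℤ) : ℂ) - 1) / 12) • (E2 * (D F - (((k : ℂ) - 1) / 12) • (E2 * F))) -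
      (((k : ℂ) ^ 2 - 1) / 144) • ((E₄ : ℍ → ℂ) * F) =
      D (D F) - ((k : ℂ) / 6) • (E2 * D F) + ((k : ℂ) * (k - 1) / 12) • (D E2 * F) := by
    have hDF := normalizedDerivOfComplex_mdifferentiable hm
    rw [normalizedDerivOfComplex_sub _ _ hDF ((E2_mdifferentiable.mul hm).const_smul _),
      normalizedDerivOfComplex_smul _ _ (E2_mdifferentiable.mul hm), normalizedDerivOfComplex_mul _ _ E2_mdifferentiable hm]
    funext z
    simp only [Pi.add_apply, Pi.sub_apply, Pi.mul_apply, Pi.smul_apply, smul_eq_mul]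
    rw [Pool.Agent.Y949.J.ram2]
    push_cast
    ring
  rw [e] at hΘ
  have hΘQ : Q (D (D F) - ((k : ℂ) / 6) • (E2 * D F) + ((k : ℂ) * (k - 1) / 12) • (D E2 * F))
      (th (th φ) - PowerSeries.C ((k : ℂ) / 6) * (c2 * th φ) + PowerSeries.C ((k : ℂ) * (k - 1) / 12) * (th c2 * φ)) :=
    (hQ.D.D.sub ((Q.E2'.mul hQ.D).smul _)).add ((Q.E2'.D.mul hQ).smul _)
  have hth : ∀ i < n, PowerSeries.coeff i (th φ) = 0 := fun i hi => by rw [coeff_th, h i hi, mul_zero]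
  have hc20 : PowerSeries.coeff 0 c2 = 1 := by rw [c2, PowerSeries.coeff_mk]; simp
  have a1 := coeff_lead c2 (th φ) 0 n (by simp) hth
  have hthc2 : ∀ i < 1, PowerSeries.coeff i (th c2) = 0 := by
    intro i hi
    have : i = 0 := by omega
    subst this
    rw [coeff_th]; simp
  have a2 := coeff_lead (th c2) φ 1 n hthc2 h
  have hz : ∀ i < n + 1, PowerSeries.coeff i (th (th φ) - PowerSeries.C ((k : ℂ) / 6) * (c2 * th φ) +
      PowerSeries.C ((k : ℂ) * (k - 1) / 12) * (th c2 * φ)) = 0 := by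
    intro i hi
    rw [map_add, map_sub, PowerSeries.coeff_C_mul, PowerSeries.coeff_C_mul, a2.1 i (by omega), coeff_th]
    rcases Nat.lt_succ_iff_lt_or_eq.mp hi with hlt | rfl
    · rw [hth i hlt, a1.1 i (by omega)]
      ring
    · have a3 := a1.2
      rw [zero_add] at a3
      rw [a3, hc20, coeff_th, hk]
      push_cast
      ring
  have h4 := hΘ.eq_zero hΘQ (n + 1) (by rw [hk]; push_cast; omega) (by omega) hz
  rw [h4] at hΘQ
  have h5 := congrFun hΘQ.zero_of τ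
  simp only [Pi.add_apply, Pi.sub_apply, Pi.mul_apply, Pi.smul_apply, smul_eq_mul, Pi.zero_apply] at h5
  rw [Pool.Agent.Y949.J.ram2] at h5
  linear_combination h5

end Pool.Agent.V11275.QM
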