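import Pool.Agent.V11275.QM1

set_option autoImplicit false

open UpperHalfPlane hiding I
open Complex Filter Topology Derivative EisensteinSeries ModularForm MatrixGroups Function
open scoped Manifold MatrixGroups ModularForm

namespace Pool.Agent.V11275.QM

open Pool.Agent.V11275 Pool.Agent.W97.MT

/-! ### the imaginary axis -/

/-- the point `i u` -/
noncomputable def ipt (u : ℝ) (hu : 0 < u) : ℍ := ⟨u * I, by simpa using hu⟩

theorem ipt_coe (u : ℝ) (hu : 0 < u) : ((ipt u hu : ℍ) : ℂ) = u * I := rfl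

/-- real part of `F (i u)` -/
noncomputable def ax (F : ℍ → ℂ) (u : ℝ) : ℝ := ((F ∘ ofComplex) (u * I)).re

theorem ofComplex_ipt (u : ℝ) (hu : 0 < u) : ofComplex (u * I) = ipt u hu := by
  rw [← ipt_coe u hu, ofComplex_apply]

theorem ax_eq (F : ℍ → ℂ) (u : ℝ) (hu : 0 < u) : ax F u = (F (ipt u hu)).re := by
  rw [ax, Function.comp_apply, ofComplex_ipt u hu]

theorem hasDerivAt_of {F : ℍ → ℂ} (hF : MDiff F) (τ : ℍ) :
    HasDerivAt (F ∘ ofComplex) (2 * Real.pi * I * D F τ) (τ : ℂ) := by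
  have h1 := (UpperHalfPlane.mdifferentiableAt_iff.mp (hF τ)).hasDerivAt
  refine h1.congr_deriv ?_
  rw [normalizedDerivOfComplex, ← mul_assoc, mul_inv_cancel₀ Complex.two_pi_I_ne_zero, one_mul]

theorem ax_deriv {F : ℍ → ℂ} (hF : MDiff F) (u : ℝ) (hu : 0 < u) :
    HasDerivAt (ax F) (-(2 * Real.pi) * ax (D F) u) u := by
  have h1 := hasDerivAt_of hF (ipt u hu)
  rw [ipt_coe] at h1
  have h2 : HasDerivAt (fun z : ℂ => z * I) (1 * I) (u : ℂ) := (hasDerivAt_id (u : ℂ)).mul_const I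
  have h3 := (h1.comp (u : ℂ) h2).real_of_complex
  refine h3.congr_deriv ?_
  rw [ax_eq _ u hu]
  have h4 : 2 * (Real.pi : ℂ) * I * D F (ipt u hu) * (1 * I) = ((-(2 * Real.pi) : ℝ) : ℂ) * D F (ipt u hu) := by
    push_cast
    linear_combination (2 * (Real.pi : ℂ) * D F (ipt u hu)) * I_mul_I
  rw [h4, Complex.re_ofReal_mul]

variable {F G : ℍ → ℂ} {φ : PowerSeries ℂ} {ψ ψ' : PowerSeries ℝ}

theorem exp_axis (n : ℕ) (u : ℝ) : cexp (2 * Real.pi * I * (n * (u * I))) = ((Real.exp (-(2 * Real.pi * u)) ^ n : ℝ) : ℂ) := by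
  rw [← Real.exp_nat_mul, Complex.ofReal_exp]
  congr 1
  push_cast
  linear_combination (2 * (Real.pi : ℂ) * n * u) * I_mul_I

theorem ax_hasSumC (hQ : Q F (ofR ψ)) (u : ℝ) (hu : 0 < u) :
    HasSum (fun n : ℕ => (((PowerSeries.coeff n ψ) * Real.exp (-(2 * Real.pi * u)) ^ n : ℝ) : ℂ)) (F (ipt u hu)) := by
  refine (hQ.hasSum (ipt u hu)).congr_fun ?_ |> id
  intro n
  rw [ipt_coe, exp_axis, coeff_ofR]
  push_cast
  ring

theorem ax_hasSum (hQ : Q F (ofR ψ)) (u : ℝ) (hu : 0 < u) :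
    HasSum (fun n : ℕ => (PowerSeries.coeff n ψ) * Real.exp (-(2 * Real.pi * u)) ^ n) (ax F u) := by
  rw [ax_eq F u hu]
  have h1 := (ax_hasSumC hQ u hu).mapL Complex.reCLM
  simp only [Complex.reCLM_apply, Complex.ofReal_re] at h1
  exact h1

theorem ax_real (hQ : Q F (ofR ψ)) (u : ℝ) (hu : 0 < u) : ((ax F u : ℝ) : ℂ) = F (ipt u hu) := by
  have h1 := Complex.hasSum_ofReal.mpr (ax_hasSum hQ u hu)
  exact h1.unique (ax_hasSumC hQ u hu)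

theorem ax_mul (hQ : Q F (ofR ψ)) (G : ℍ → ℂ) (u : ℝ) (hu : 0 < u) : ax (F * G) u = ax F u * ax G u := by
  rw [ax_eq (F * G) u hu, Pi.mul_apply, ← ax_real hQ u hu, Complex.re_ofReal_mul, ← ax_eq G u hu]

theorem ax_add (F G : ℍ → ℂ) (u : ℝ) : ax (F + G) u = ax F u + ax G u := by
  simp [ax]

theorem ax_sub (F G : ℍ → ℂ) (u : ℝ) : ax (F - G) u = ax F u - ax G u := by
  simp [ax]

theorem ax_smul (c : ℝ) (F : ℍ → ℂ) (u : ℝ) : ax ((c : ℂ) • F) u = c * ax F u := by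
  simp [ax]

theorem QE4 : Q (E₄ : ℍ → ℂ) (ofR r4) := by rw [ofR_r4]; exact Q.coe E₄

theorem QE6 : Q (E₆ : ℍ → ℂ) (ofR r6) := by rw [ofR_r6]; exact Q.coe E₆

theorem QE2 : Q E2 (ofR r2) := by rw [ofR_r2]; exact Q.E2'

/-- `E₂ (i u)` -/
noncomputable def e (u : ℝ) : ℝ := ax E2 u
/-- `E₄ (i u)` -/
noncomputable def a (u : ℝ) : ℝ := ax (E₄ : ℍ → ℂ) u
/-- `E₆ (i u)` -/
noncomputable def b (u : ℝ) : ℝ := ax (E₆ : ℍ → ℂ) u
/-- `Δ (i u)` -/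
noncomputable def dl (u : ℝ) : ℝ := (a u ^ 3 - b u ^ 2) / 1728

theorem dl_eq (u : ℝ) (hu : 0 < u) : ((dl u : ℝ) : ℂ) = discriminant (ipt u hu) := by
  rw [dl, discriminant_eq_E₄_cube_sub_E₆_sq]
  push_cast
  rw [a, b, ax_real QE4 u hu, ax_real QE6 u hu]

theorem e_deriv (u : ℝ) (hu : 0 < u) : HasDerivAt e (Real.pi / 6 * (a u - e u ^ 2)) u := by
  have h1 := ax_deriv E2_mdifferentiable u hu
  refine h1.congr_deriv ?_
  have h2 : D E2 = ((12⁻¹ : ℝ) : ℂ) • (E2 * E2 - (E₄ : ℍ → ℂ)) := by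
    funext z
    rw [Pool.Agent.Y949.J.ram2]
    simp only [Pi.smul_apply, Pi.sub_apply, Pi.mul_apply, smul_eq_mul]
    push_cast
    ring
  rw [h2, ax_smul, ax_sub, ax_mul QE2 _ u hu]
  change _ = Real.pi / 6 * (ax (E₄ : ℍ → ℂ) u - ax E2 u ^ 2)
  ring

theorem a_deriv (u : ℝ) (hu : 0 < u) : HasDerivAt a (-(2 * Real.pi / 3) * (e u * a u - b u)) u := by
  have h1 := ax_deriv (ModularFormClass.holo E₄) u hu
  refine h1.congr_deriv ?_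
  have h2 : D (E₄ : ℍ → ℂ) = ((3⁻¹ : ℝ) : ℂ) • (E2 * (E₄ : ℍ → ℂ) - (E₆ : ℍ → ℂ)) := by
    funext z
    have := Pool.Agent.Y949.J.ram4 z
    simp only [Pi.smul_apply, Pi.sub_apply, Pi.mul_apply, smul_eq_mul]
    push_cast
    exact this
  rw [h2, ax_smul, ax_sub, ax_mul QE2 _ u hu]
  change _ = -(2 * Real.pi / 3) * (ax E2 u * ax (E₄ : ℍ → ℂ) u - ax (E₆ : ℍ → ℂ) u)
  ring

theorem b_deriv (u : ℝ) (hu : 0 < u) : HasDerivAt b (-Real.pi * (e u * b u - a u ^ 2)) u := by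
  have h1 := ax_deriv (ModularFormClass.holo E₆) u hu
  refine h1.congr_deriv ?_
  have h2 : D (E₆ : ℍ → ℂ) = ((2⁻¹ : ℝ) : ℂ) • (E2 * (E₆ : ℍ → ℂ) - (E₄ : ℍ → ℂ) * (E₄ : ℍ → ℂ)) := by
    funext z
    have := Pool.Agent.Y949.J.ram6 z
    simp only [Pi.smul_apply, Pi.sub_apply, Pi.mul_apply, smul_eq_mul]
    push_cast
    rw [← pow_two]
    exact this
  rw [h2, ax_smul, ax_sub, ax_mul QE2 _ u hu, ax_mul QE4 _ u hu]
  change _ = -Real.pi * (ax E2 u * ax (E₆ : ℍ → ℂ) u - ax (E₄ : ℍ → ℂ) u ^ 2)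
  ring

theorem dl_deriv (u : ℝ) (hu : 0 < u) : HasDerivAt dl (-(2 * Real.pi) * e u * dl u) u := by
  have h1 := (((a_deriv u hu).pow 3).sub ((b_deriv u hu).pow 2)).div_const 1728
  refine h1.congr_deriv ?_
  rw [dl]
  push_cast
  ring

/-! ### the inversion -/

theorem smul_coe (γ : SL(2, ℤ)) (τ : ℍ) : denom γ τ = (γ 1 0 : ℂ) * τ + γ 1 1 := by
  simp [denom]

theorem E2_transf (γ : SL(2, ℤ)) (τ : ℍ) : E2 (γ • τ) =
    ((γ 1 0 : ℂ) * τ + γ 1 1) ^ 2 * (E2 τ + 12 * ((γ 1 0 : ℂ) / ((γ 1 0 : ℂ) * τ + γ 1 1)) / (2 * Real.pi * I)) := by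
  have h1 := congrFun (E2_slash_action γ) τ
  rw [ModularForm.SL_slash_apply] at h1
  simp only [Pi.sub_apply, Pi.smul_apply, smul_eq_mul, D2, riemannZeta_two, smul_coe] at h1
  have hd : ((γ 1 0 : ℂ) * τ + γ 1 1) ≠ 0 := by
    rw [← smul_coe]; exact denom_ne_zero _ _
  have hpi : (Real.pi : ℂ) ≠ 0 := by exact_mod_cast Real.pi_ne_zero
  rw [zpow_neg] at h1
  have h2 : (((γ 1 0 : ℂ) * τ + γ 1 1) ^ (2 : ℤ)) = ((γ 1 0 : ℂ) * τ + γ 1 1) ^ 2 := by norm_cast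
  rw [h2] at h1
  have h3 : E2 (γ • τ) = ((γ 1 0 : ℂ) * τ + γ 1 1) ^ 2 * (E2 τ - 1 / (2 * ((Real.pi : ℂ) ^ 2 / 6)) * (2 * Real.pi * I * γ 1 0 / ((γ 1 0 : ℂ) * τ + γ 1 1))) := by
    rw [← h1]
    field_simp
  rw [h3]
  have hI2 : (1 : ℂ) / (2 * Real.pi * I) = -I / (2 * Real.pi) := by
    have h5 : (2 * Real.pi * I : ℂ) ≠ 0 := Complex.two_pi_I_ne_zero
    rw [div_eq_div_iff h5 (by simpa using hpi)]
    linear_combination (2 * Real.pi) * I_mul_I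
  have h6 : 12 * ((γ 1 0 : ℂ) / ((γ 1 0 : ℂ) * τ + γ 1 1)) / (2 * Real.pi * I) =
    12 * ((γ 1 0 : ℂ) / ((γ 1 0 : ℂ) * τ + γ 1 1)) * (-I / (2 * Real.pi)) := by
    rw [← hI2]; ring
  rw [h6]
  field_simp
  ring

theorem slashS {k : ℤ} (f : ModularForm 𝒮ℒ k) (τ : ℍ) : f (ModularGroup.S • τ) = (τ : ℂ) ^ k * f τ := by
  have h3 := SlashInvariantForm.slash_action_eqn'' (Γ := 𝒮ℒ) f
    (γ := Matrix.SpecialLinearGroup.mapGL ℝ ModularGroup.S) (by exact ⟨ModularGroup.S, rfl⟩) τ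
  have h5 : denom (Matrix.SpecialLinearGroup.mapGL ℝ ModularGroup.S) τ =
      ((ModularGroup.S 1 0 : ℤ) : ℂ) * τ + ((ModularGroup.S 1 1 : ℤ) : ℂ) := by simp [denom]
  have h4 : denom (Matrix.SpecialLinearGroup.mapGL ℝ ModularGroup.S) τ = (τ : ℂ) := by
    rw [h5]; simp [ModularGroup.S]
  rw [h4] at h3
  exact h3

theorem S_ipt (u : ℝ) (hu : 0 < u) : ModularGroup.S • (ipt u hu) = ipt (1 / u) (by positivity) := by
  apply UpperHalfPlane.ext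
  rw [UpperHalfPlane.modular_S_smul]
  change (-((ipt u hu : ℍ) : ℂ))⁻¹ = _
  rw [ipt_coe, ipt_coe]
  have : (u : ℂ) ≠ 0 := by exact_mod_cast hu.ne'
  have hI := I_ne_zero
  push_cast
  rw [inv_eq_iff_eq_inv]
  field_simp
  linear_combination -I_sq

theorem a_inv (u : ℝ) (hu : 0 < u) : a (1 / u) = u ^ 4 * a u := by
  have h1 := slashS E₄ (ipt u hu)
  rw [S_ipt u hu] at h1
  rw [a, a, ax_eq _ _ (by positivity : 0 < 1 / u), h1, ipt_coe]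
  have h2 : ((u : ℂ) * I) ^ (4 : ℤ) = ((u ^ 4 : ℝ) : ℂ) := by
    have : ((u : ℂ) * I) ^ (4 : ℤ) = ((u : ℂ) * I) ^ 4 := by norm_cast
    rw [this, mul_pow, I_pow_four]; push_cast; ring
  rw [h2, Complex.re_ofReal_mul, ax_eq _ u hu]

theorem b_inv (u : ℝ) (hu : 0 < u) : b (1 / u) = -(u ^ 6 * b u) := by
  have h1 := slashS E₆ (ipt u hu)
  rw [S_ipt u hu] at h1
  rw [b, b, ax_eq _ _ (by positivity : 0 < 1 / u), h1, ipt_coe]
  have h2 : ((u : ℂ) * I) ^ (6 : ℤ) = ((-u ^ 6 : ℝ) : ℂ) := by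
    have : ((u : ℂ) * I) ^ (6 : ℤ) = ((u : ℂ) * I) ^ 6 := by norm_cast
    rw [this, mul_pow, show (6 : ℕ) = 4 + 2 by norm_num, pow_add I, I_pow_four, I_sq]; push_cast; ring
  rw [h2, Complex.re_ofReal_mul, ax_eq _ u hu]
  ring

theorem e_inv (u : ℝ) (hu : 0 < u) : e (1 / u) = -(u ^ 2 * e u) + 6 * u / Real.pi := by
  have h1 := E2_transf ModularGroup.S (ipt u hu)
  rw [S_ipt u hu] at h1
  have hS0 : ((ModularGroup.S 1 0 : ℤ) : ℂ) = 1 := by simp [ModularGroup.S]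
  have hS1 : ((ModularGroup.S 1 1 : ℤ) : ℂ) = 0 := by simp [ModularGroup.S]
  rw [hS0, hS1, ipt_coe, one_mul, add_zero] at h1
  have hu' : (u : ℂ) ≠ 0 := by exact_mod_cast hu.ne'
  have hI := I_ne_zero
  have hpi : (Real.pi : ℂ) ≠ 0 := by exact_mod_cast Real.pi_ne_zero
  have h2 : ((u : ℂ) * I) ^ 2 * (E2 (ipt u hu) + 12 * (1 / ((u : ℂ) * I)) / (2 * Real.pi * I)) =
      ((-u ^ 2 : ℝ) : ℂ) * E2 (ipt u hu) + ((6 * u / Real.pi : ℝ) : ℂ) := by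
    push_cast
    rw [mul_pow, I_sq]
    field_simp
    rw [I_sq]
    ring
  rw [e, e, ax_eq _ _ (by positivity : 0 < 1 / u), h1, h2, Complex.add_re, Complex.re_ofReal_mul, Complex.ofReal_re,
    ax_eq _ u hu]
  ring

theorem dl_inv (u : ℝ) (hu : 0 < u) : dl (1 / u) = u ^ 12 * dl u := by
  rw [dl, dl, a_inv u hu, b_inv u hu]
  ring

end Pool.Agent.V11275.QM
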