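import Pool.Agent.V11275.QM2

set_option autoImplicit false

open UpperHalfPlane hiding I
open Complex Filter Topology Derivative EisensteinSeries ModularForm MatrixGroups Function
open scoped Manifold MatrixGroups ModularForm

namespace Pool.Agent.V11275.QM

open Pool.Agent.V11275 Pool.Agent.W97.MT

/-! ### series identities -/

section series

variable {R : Type*} [CommRing R]

theorem th_mul' (a b : PowerSeries R) : th (a * b) = th a * b + a * th b := by
  unfold th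
  rw [Derivation.leibniz]
  simp only [smul_eq_mul]
  ring

theorem th_add' (a b : PowerSeries R) : th (a + b) = th a + th b := by
  unfold th; rw [map_add]; ring

theorem th_sub' (a b : PowerSeries R) : th (a - b) = th a - th b := by
  unfold th; rw [map_sub]; ring

theorem th_ofNat' (n : ℕ) : th ((n : PowerSeries R)) = 0 := by
  unfold th
  rw [Derivation.map_natCast, mul_zero]

end series

theorem tr2 : (12 : PowerSeries ℝ) * th r2 = r2 ^ 2 - r4 := by
  apply ofR_injective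
  rw [map_mul, map_ofNat, map_sub, map_pow, ofR_th]
  have h1 : Q ((12 : ℂ) • D E2) (PowerSeries.C 12 * th (ofR r2)) := QE2.D.smul 12
  have h2 : Q ((12 : ℂ) • D E2) (ofR r2 * ofR r2 - ofR r4) := by
    have h3 := (QE2.mul QE2).sub QE4
    have h4 : (12 : ℂ) • D E2 = E2 * E2 - (E₄ : ℍ → ℂ) := by
      funext z
      simp only [Pi.smul_apply, Pi.sub_apply, Pi.mul_apply, smul_eq_mul]
      rw [Pool.Agent.Y949.J.ram2]
      ring
    rw [h4]; exact h3
  have h5 := h1.unique h2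
  rw [map_ofNat] at h5
  rw [h5]; ring

theorem tr4 : (3 : PowerSeries ℝ) * th r4 = r2 * r4 - r6 := by
  rw [th_r4, ← mul_assoc, ← map_ofNat (PowerSeries.C : ℝ →+* PowerSeries ℝ) 3, ← map_mul]
  norm_num

theorem tr6 : (2 : PowerSeries ℝ) * th r6 = r2 * r6 - r4 ^ 2 := by
  rw [th_r6, ← mul_assoc, ← map_ofNat (PowerSeries.C : ℝ →+* PowerSeries ℝ) 2, ← map_mul]
  norm_num

theorem ttr4 : (36 : PowerSeries ℝ) * th (th r4) = 5 * r2 ^ 2 * r4 - 10 * r2 * r6 + 5 * r4 ^ 2 := by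
  have h1 : th ((3 : PowerSeries ℝ) * th r4) = 3 * th (th r4) := by
    rw [th_mul']
    have := th_ofNat' (R := ℝ) 3
    rw [Nat.cast_ofNat] at this
    rw [this]; ring
  have h2 : 3 * th (th r4) = th r2 * r4 + r2 * th r4 - th r6 := by
    rw [← h1, tr4, th_sub', th_mul']
  linear_combination 12 * h2 + r4 * tr2 + 4 * r2 * tr4 - 6 * tr6

/-- the series of `5 E₄² - 7 E₂² E₄ + 2 E₂ E₆` -/
noncomputable def rV : PowerSeries ℝ := 5 * r4 ^ 2 - 7 * r2 ^ 2 * r4 + 2 * r2 * r6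

/-- the series of `E₄² - 2 E₂² E₄ + E₂ E₆` -/
noncomputable def rG : PowerSeries ℝ := r4 ^ 2 - 2 * r2 ^ 2 * r4 + r2 * r6

theorem rV_eq : (5 : PowerSeries ℝ) * rV = -252 * th (th r4) - 120 * th r6 := by
  unfold rV
  linear_combination 7 * ttr4 + 60 * tr6

theorem rG_eq : (5 : PowerSeries ℝ) * rG = -72 * th (th r4) - 30 * th r6 := by
  unfold rG
  linear_combination 2 * ttr4 + 15 * tr6

theorem coeff_r2 (n : ℕ) (hn : n ≠ 0) : PowerSeries.coeff n r2 = -24 * (ArithmeticFunction.sigma 1 n : ℝ) := by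
  rw [r2, PowerSeries.coeff_mk, if_neg hn]

theorem coeff_r4 (n : ℕ) (hn : n ≠ 0) : PowerSeries.coeff n r4 = 240 * (ArithmeticFunction.sigma 3 n : ℝ) := by
  rw [r4, PowerSeries.coeff_mk, if_neg hn]

theorem coeff_r6 (n : ℕ) (hn : n ≠ 0) : PowerSeries.coeff n r6 = -504 * (ArithmeticFunction.sigma 5 n : ℝ) := by
  rw [r6, PowerSeries.coeff_mk, if_neg hn]

theorem coeff_num_mul (c : ℕ) (φ : PowerSeries ℝ) (n : ℕ) :
    PowerSeries.coeff n ((c : PowerSeries ℝ) * φ) = c * PowerSeries.coeff n φ := by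
  rw [← map_natCast (PowerSeries.C : ℝ →+* PowerSeries ℝ), PowerSeries.coeff_C_mul]

theorem coeff_rV (n : ℕ) : PowerSeries.coeff n rV =
    12096 * n * ((ArithmeticFunction.sigma 5 n : ℝ) - n * (ArithmeticFunction.sigma 3 n : ℝ)) := by
  have h := congrArg (PowerSeries.coeff n) rV_eq
  have e1 := coeff_num_mul 5 rV n
  have e2 := coeff_num_mul 252 (th (th r4)) n
  have e3 := coeff_num_mul 120 (th r6) n
  rw [Nat.cast_ofNat] at e1 e2 e3
  rw [neg_mul, map_sub, map_neg, e1, e2, e3, coeff_th, coeff_th, coeff_th] at h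
  by_cases hn : n = 0
  · subst hn
    simp at h ⊢
    exact h
  · rw [coeff_r4 n hn, coeff_r6 n hn] at h
    push_cast at h
    linear_combination h / 5

theorem coeff_rG (n : ℕ) : PowerSeries.coeff n rG =
    432 * n * (7 * (ArithmeticFunction.sigma 5 n : ℝ) - 8 * n * (ArithmeticFunction.sigma 3 n : ℝ)) := by
  have h := congrArg (PowerSeries.coeff n) rG_eq
  have e1 := coeff_num_mul 5 rG n
  have e2 := coeff_num_mul 72 (th (th r4)) n
  have e3 := coeff_num_mul 30 (th r6) n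
  rw [Nat.cast_ofNat] at e1 e2 e3
  rw [neg_mul, map_sub, map_neg, e1, e2, e3, coeff_th, coeff_th, coeff_th] at h
  by_cases hn : n = 0
  · subst hn
    simp at h ⊢
    exact h
  · rw [coeff_r4 n hn, coeff_r6 n hn] at h
    push_cast at h
    linear_combination h / 5

/-! ### divisor sums -/

theorem sigma3_bound (n : ℕ) : 8 * ArithmeticFunction.sigma 3 n ≤ 8 * n ^ 3 + n ^ 4 := by
  rcases Nat.eq_zero_or_pos n with rfl | hn
  · simp
  rw [ArithmeticFunction.sigma_apply, ← Nat.insert_self_properDivisors hn.ne', Finset.sum_insert Nat.self_notMem_properDivisors, add_comm]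
  have h1 : 8 * ∑ d ∈ n.properDivisors, d ^ 3 ≤ n * n ^ 3 := by
    rw [Finset.mul_sum]
    calc ∑ d ∈ n.properDivisors, 8 * d ^ 3 ≤ ∑ _d ∈ n.properDivisors, n ^ 3 := by
          apply Finset.sum_le_sum
          intro d hd
          rw [Nat.mem_properDivisors] at hd
          obtain ⟨⟨k, hk⟩, hlt⟩ := hd
          have hk2 : 2 ≤ k := by
            by_contra hcon
            have : k = 0 ∨ k = 1 := by omega
            rcases this with rfl | rfl
            · omega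
            · omega
          have h2 : 2 * d ≤ n := by rw [hk, mul_comm]; exact Nat.mul_le_mul_left d hk2
          calc 8 * d ^ 3 = (2 * d) ^ 3 := by ring
            _ ≤ n ^ 3 := Nat.pow_le_pow_left h2 3
      _ = n.properDivisors.card * n ^ 3 := by rw [Finset.sum_const, smul_eq_mul]
      _ ≤ n * n ^ 3 := by
          apply Nat.mul_le_mul_right
          have : n.properDivisors ⊆ Finset.Ico 1 n := by
            intro d hd
            rw [Nat.mem_properDivisors] at hd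
            rw [Finset.mem_Ico]
            exact ⟨Nat.pos_of_dvd_of_pos hd.1 hn, hd.2⟩
          have h3 := Finset.card_le_card this
          rw [Nat.card_Ico] at h3
          omega
  calc 8 * (∑ d ∈ n.properDivisors, d ^ 3 + n ^ 3) = 8 * ∑ d ∈ n.properDivisors, d ^ 3 + 8 * n ^ 3 := by ring
    _ ≤ n * n ^ 3 + 8 * n ^ 3 := by omega
    _ = 8 * n ^ 3 + n ^ 4 := by ring

theorem sigma5_bound (n : ℕ) (hn : n ≠ 0) : n ^ 5 ≤ ArithmeticFunction.sigma 5 n := by
  rw [ArithmeticFunction.sigma_apply]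
  exact Finset.single_le_sum (f := fun d => d ^ 5) (fun _ _ => Nat.zero_le _) (Nat.mem_divisors_self n hn)

theorem sigma_ineq (n : ℕ) (hn : 2 ≤ n) : 8 * n * ArithmeticFunction.sigma 3 n ≤ 7 * ArithmeticFunction.sigma 5 n := by
  have h1 := sigma3_bound n
  have h2 := sigma5_bound n (by omega)
  calc 8 * n * ArithmeticFunction.sigma 3 n = n * (8 * ArithmeticFunction.sigma 3 n) := by ring
    _ ≤ n * (8 * n ^ 3 + n ^ 4) := Nat.mul_le_mul_left n h1
    _ = n ^ 4 * (8 + n) := by ring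
    _ ≤ n ^ 4 * (7 * n) := Nat.mul_le_mul_left _ (by omega)
    _ = 7 * n ^ 5 := by ring
    _ ≤ _ := Nat.mul_le_mul_left 7 h2

theorem sigma3_pow (n : ℕ) : ArithmeticFunction.sigma 3 (n + 1) ≤ 9 ^ n := by
  rcases n with _ | _ | n
  · decide
  · decide
  · have h1 := sigma3_bound (n + 3)
    have h2 : 8 * (n + 3) ^ 3 + (n + 3) ^ 4 ≤ 8 * 9 ^ (n + 2) := by
      induction n with
      | zero => norm_num
      | succ n ih =>
        have h3 : 8 * (n + 1 + 3) ^ 3 + (n + 1 + 3) ^ 4 ≤ 9 * (8 * (n + 3) ^ 3 + (n + 3) ^ 4) := by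
          ring_nf
          nlinarith [sq_nonneg (n : ℤ), Nat.zero_le n, Nat.zero_le (n ^ 2), Nat.zero_le (n ^ 3), Nat.zero_le (n ^ 4)]
        calc 8 * (n + 1 + 3) ^ 3 + (n + 1 + 3) ^ 4 ≤ 9 * (8 * (n + 3) ^ 3 + (n + 3) ^ 4) := h3
          _ ≤ 9 * (8 * 9 ^ (n + 2)) := Nat.mul_le_mul_left 9 (ih (sigma3_bound (n + 3)))
          _ = 8 * 9 ^ (n + 1 + 2) := by ring
    have h4 : 8 * ArithmeticFunction.sigma 3 (n + 3) ≤ 8 * 9 ^ (n + 2) := h1.trans h2
    show ArithmeticFunction.sigma 3 (n + 3) ≤ 9 ^ (n + 2)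
    exact Nat.le_of_mul_le_mul_left h4 (by norm_num)

/-! ### inequalities on the imaginary axis -/

/-- `q = exp (-2 π u)` -/
noncomputable def qq (u : ℝ) : ℝ := Real.exp (-(2 * Real.pi * u))

theorem qq_pos (u : ℝ) : 0 < qq u := Real.exp_pos _

theorem qq_lt_one (u : ℝ) (hu : 0 < u) : qq u < 1 := by
  rw [qq, Real.exp_lt_one_iff]
  have := Real.pi_pos
  nlinarith [mul_pos this hu]

theorem a_hasSum (u : ℝ) (hu : 0 < u) : HasSum (fun n : ℕ => PowerSeries.coeff n r4 * qq u ^ n) (a u) :=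
  ax_hasSum QE4 u hu

theorem r4_nonneg (n : ℕ) : 0 ≤ PowerSeries.coeff n r4 := by
  rw [r4, PowerSeries.coeff_mk]
  split_ifs <;> positivity

theorem a_ge_one (u : ℝ) (hu : 0 < u) : 1 ≤ a u := by
  have h1 := sum_le_hasSum {0} (fun i _ => mul_nonneg (r4_nonneg i) (pow_nonneg (qq_pos u).le i)) (a_hasSum u hu)
  have h2 : PowerSeries.coeff 0 r4 = 1 := by rw [r4, PowerSeries.coeff_mk]; simp
  simpa [h2] using h1

theorem a_pos (u : ℝ) (hu : 0 < u) : 0 < a u := lt_of_lt_of_le one_pos (a_ge_one u hu)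

theorem a_le (u : ℝ) (hu : 0 < u) (hq : 9 * qq u < 1) : a u ≤ 1 + 240 * qq u / (1 - 9 * qq u) := by
  have hq0 := qq_pos u
  have h1 : HasSum (fun n : ℕ => 240 * qq u * (9 * qq u) ^ n) (240 * qq u * (1 - 9 * qq u)⁻¹) :=
    (hasSum_geometric_of_lt_one (by positivity) hq).mul_left _
  have h2 := (hasSum_nat_add_iff' 1).mpr (a_hasSum u hu)
  have h3 : PowerSeries.coeff 0 r4 = 1 := by rw [r4, PowerSeries.coeff_mk]; simp
  simp only [Finset.sum_range_one, pow_zero, mul_one, h3] at h2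
  have h4 := hasSum_le (fun n => ?_) h2 h1
  · have h5 : a u - 1 ≤ 240 * qq u / (1 - 9 * qq u) := by
      rw [div_eq_mul_inv]; exact h4
    linarith
  · rw [coeff_r4 _ (Nat.succ_ne_zero n)]
    have h6 : (ArithmeticFunction.sigma 3 (n + 1) : ℝ) ≤ 9 ^ n := by exact_mod_cast sigma3_pow n
    calc 240 * (ArithmeticFunction.sigma 3 (n + 1) : ℝ) * qq u ^ (n + 1) ≤ 240 * 9 ^ n * qq u ^ (n + 1) := by
          gcongr
      _ = _ := by rw [mul_pow]; ring

theorem amee_pos (u : ℝ) (hu : 0 < u) : 0 < a u - e u ^ 2 := by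
  have hQ : Q ((E₄ : ℍ → ℂ) - E2 * E2) (ofR (r4 - r2 * r2)) := by
    rw [map_sub, map_mul]; exact QE4.sub (QE2.mul QE2)
  have h1 := ax_hasSum hQ u hu
  have h2 : ax ((E₄ : ℍ → ℂ) - E2 * E2) u = a u - e u ^ 2 := by
    rw [ax_sub, ax_mul QE2 _ u hu]; change _ = ax (E₄ : ℍ → ℂ) u - ax E2 u ^ 2; ring
  rw [h2] at h1
  have h3 : ∀ n, PowerSeries.coeff n (r4 - r2 * r2) = 288 * n * (ArithmeticFunction.sigma 1 n : ℝ) := by
    intro n
    have h4 : (r4 - r2 * r2 : PowerSeries ℝ) = -((12 : ℕ) : PowerSeries ℝ) * th r2 := by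
      have := tr2
      push_cast
      linear_combination this
    rw [h4, neg_mul, map_neg, coeff_num_mul, coeff_th]
    by_cases hn : n = 0
    · subst hn; simp
    · rw [coeff_r2 n hn]; push_cast; ring
  have h5 := sum_le_hasSum {1} (fun i _ => mul_nonneg (by rw [h3]; positivity) (pow_nonneg (qq_pos u).le i)) h1
  have h6 : (0 : ℝ) < ∑ i ∈ {1}, PowerSeries.coeff i (r4 - r2 * r2) * qq u ^ i := by
    rw [Finset.sum_singleton, h3]
    have := qq_pos u
    simp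
    positivity
  exact lt_of_lt_of_le h6 h5

/-- `V ≥ 0` -/
theorem V_nonneg (u : ℝ) (hu : 0 < u) : 0 ≤ 5 * a u ^ 2 - 7 * e u ^ 2 * a u + 2 * e u * b u := by
  have hQ : Q (((5 : ℝ) : ℂ) • ((E₄ : ℍ → ℂ) * E₄) - ((7 : ℝ) : ℂ) • (E2 * (E2 * (E₄ : ℍ → ℂ))) + ((2 : ℝ) : ℂ) • (E2 * (E₆ : ℍ → ℂ))) (ofR rV) := by
    have h1 := (((QE4.mul QE4).smul ((5 : ℝ) : ℂ)).sub ((QE2.mul (QE2.mul QE4)).smul ((7 : ℝ) : ℂ))).add
      ((QE2.mul QE6).smul ((2 : ℝ) : ℂ))
    have h2 : ofR rV = PowerSeries.C ((5 : ℝ) : ℂ) * (ofR r4 * ofR r4) - PowerSeries.C ((7 : ℝ) : ℂ) * (ofR r2 * (ofR r2 * ofR r4)) +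
      PowerSeries.C ((2 : ℝ) : ℂ) * (ofR r2 * ofR r6) := by
      unfold rV
      simp only [map_add, map_sub, map_mul, map_pow, map_ofNat, Complex.ofReal_ofNat]
      ring
    rw [h2]; exact h1
  have h1 := ax_hasSum hQ u hu
  have h2 : ax (((5 : ℝ) : ℂ) • ((E₄ : ℍ → ℂ) * E₄) - ((7 : ℝ) : ℂ) • (E2 * (E2 * (E₄ : ℍ → ℂ))) + ((2 : ℝ) : ℂ) • (E2 * (E₆ : ℍ → ℂ))) u =
      5 * a u ^ 2 - 7 * e u ^ 2 * a u + 2 * e u * b u := by
    rw [ax_add, ax_sub, ax_smul, ax_smul, ax_smul, ax_mul QE4 _ u hu, ax_mul QE2 _ u hu, ax_mul QE2 _ u hu, ax_mul QE2 _ u hu]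
    change _ = 5 * ax (E₄ : ℍ → ℂ) u ^ 2 - 7 * ax E2 u ^ 2 * ax (E₄ : ℍ → ℂ) u + 2 * ax E2 u * ax (E₆ : ℍ → ℂ) u
    ring
  rw [h2] at h1
  refine h1.nonneg (fun n => mul_nonneg ?_ (pow_nonneg (qq_pos u).le n))
  rw [coeff_rV]
  rcases Nat.lt_or_ge n 2 with hn | hn
  · interval_cases n
    · simp
    · simp
  · have h3 := sigma_ineq n hn
    have h4 : (8 : ℝ) * n * (ArithmeticFunction.sigma 3 n : ℝ) ≤ 7 * (ArithmeticFunction.sigma 5 n : ℝ) := by exact_mod_cast h3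
    have h5 : (0 : ℝ) ≤ (ArithmeticFunction.sigma 5 n : ℝ) := by positivity
    have h6 : (0 : ℝ) ≤ (ArithmeticFunction.sigma 5 n : ℝ) - n * (ArithmeticFunction.sigma 3 n : ℝ) := by nlinarith
    positivity

/-- lower bound for `G` -/
theorem G_ge (u : ℝ) (hu : 0 < u) : -432 * qq u + 75168 * qq u ^ 2 + 1342656 * qq u ^ 3 ≤
    a u ^ 2 - 2 * e u ^ 2 * a u + e u * b u := by
  have hQ : Q (((E₄ : ℍ → ℂ) * E₄) - ((2 : ℝ) : ℂ) • (E2 * (E2 * (E₄ : ℍ → ℂ))) + (E2 * (E₆ : ℍ → ℂ))) (ofR rG) := by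
    have h1 := ((QE4.mul QE4).sub ((QE2.mul (QE2.mul QE4)).smul ((2 : ℝ) : ℂ))).add (QE2.mul QE6)
    have h2 : ofR rG = (ofR r4 * ofR r4) - PowerSeries.C ((2 : ℝ) : ℂ) * (ofR r2 * (ofR r2 * ofR r4)) + (ofR r2 * ofR r6) := by
      unfold rG
      simp only [map_add, map_sub, map_mul, map_pow, map_ofNat, Complex.ofReal_ofNat]
      ring
    rw [h2]; exact h1
  have h1 := ax_hasSum hQ u hu
  have h2 : ax (((E₄ : ℍ → ℂ) * E₄) - ((2 : ℝ) : ℂ) • (E2 * (E2 * (E₄ : ℍ → ℂ))) + (E2 * (E₆ : ℍ → ℂ))) u =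
      a u ^ 2 - 2 * e u ^ 2 * a u + e u * b u := by
    rw [ax_add, ax_sub, ax_smul, ax_mul QE4 _ u hu, ax_mul QE2 _ u hu, ax_mul QE2 _ u hu, ax_mul QE2 _ u hu]
    change _ = ax (E₄ : ℍ → ℂ) u ^ 2 - 2 * ax E2 u ^ 2 * ax (E₄ : ℍ → ℂ) u + ax E2 u * ax (E₆ : ℍ → ℂ) u
    ring
  rw [h2] at h1
  have h3 := sum_le_hasSum (Finset.range 4) (fun n hn => mul_nonneg ?_ (pow_nonneg (qq_pos u).le n)) h1
  · refine le_trans (le_of_eq ?_) h3
    simp only [Finset.sum_range_succ, Finset.sum_range_zero, coeff_rG]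
    have s1 : ArithmeticFunction.sigma 5 1 = 1 := by decide
    have s2 : ArithmeticFunction.sigma 5 2 = 33 := by decide
    have s3 : ArithmeticFunction.sigma 5 3 = 244 := by decide
    have t1 : ArithmeticFunction.sigma 3 1 = 1 := by decide
    have t2 : ArithmeticFunction.sigma 3 2 = 9 := by decide
    have t3 : ArithmeticFunction.sigma 3 3 = 28 := by decide
    rw [s1, s2, s3, t1, t2, t3]
    unfold qq
    push_cast
    ring
  · rw [coeff_rG]
    have hn4 : 4 ≤ n := by simpa using hn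
    have h3 := sigma_ineq n (by omega)
    have h4 : (8 : ℝ) * n * (ArithmeticFunction.sigma 3 n : ℝ) ≤ 7 * (ArithmeticFunction.sigma 5 n : ℝ) := by exact_mod_cast h3
    have h6 : (0 : ℝ) ≤ 7 * (ArithmeticFunction.sigma 5 n : ℝ) - 8 * n * (ArithmeticFunction.sigma 3 n : ℝ) := by linarith
    positivity

/-- product bound -/
theorem prod_ge (x : ℕ → ℝ) (h0 : ∀ i, 0 ≤ x i) (h1 : ∀ i, x i ≤ 1) (s : Finset ℕ) :
    1 - ∑ i ∈ s, x i ≤ ∏ i ∈ s, (1 - x i) ∧ ∏ i ∈ s, (1 - x i) ≤ 1 := by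
  induction s using Finset.induction_on with
  | empty => simp
  | insert j s hj ih =>
    rw [Finset.sum_insert hj, Finset.prod_insert hj]
    have h2 := h0 j
    have h3 := h1 j
    constructor
    · nlinarith [ih.1, ih.2]
    · have h4 : 0 ≤ ∏ i ∈ s, (1 - x i) := Finset.prod_nonneg (fun i _ => by linarith [h1 i])
      nlinarith [ih.2]

theorem dl_prod (u : ℝ) (hu : 0 < u) : ∃ p : ℝ, dl u = qq u * p ^ 24 ∧ 1 - qq u / (1 - qq u) ≤ p := by
  have hq0 := qq_pos u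
  have hq1 := qq_lt_one u hu
  have hqp : Periodic.qParam 1 ((ipt u hu : ℍ) : ℂ) = (qq u : ℂ) := by
    rw [qp, ipt_coe, qq, Complex.ofReal_exp]
    congr 1
    push_cast
    linear_combination (2 * (Real.pi : ℂ) * u) * I_mul_I
  have h1 : discriminant (ipt u hu) = Periodic.qParam 1 ((ipt u hu : ℍ) : ℂ) * ∏' n, (1 - (Periodic.qParam 1 ((ipt u hu : ℍ) : ℂ)) ^ (n + 1)) ^ 24 :=
    discriminant_eq_q_prod (ipt u hu)
  rw [hqp] at h1
  have hmul := multipliable_one_sub_pow (q := (qq u : ℂ)) (by simpa [abs_of_pos hq0] using hq1)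
  have h2 : ∏' n : ℕ, (1 - (qq u : ℂ) ^ (n + 1)) ^ 24 = (∏' n : ℕ, (1 - (qq u : ℂ) ^ (n + 1))) ^ 24 := hmul.tprod_pow 24
  rw [h2] at h1
  set P : ℂ := ∏' n : ℕ, (1 - (qq u : ℂ) ^ (n + 1)) with hP
  have h3 : Tendsto (fun s : Finset ℕ => ∏ n ∈ s, (1 - (qq u : ℂ) ^ (n + 1))) atTop (𝓝 P) := hmul.hasProd
  have h4 : ∀ s : Finset ℕ, ∏ n ∈ s, (1 - (qq u : ℂ) ^ (n + 1)) = ((∏ n ∈ s, (1 - qq u ^ (n + 1)) : ℝ) : ℂ) := by
    intro s; push_cast; rfl
  simp only [h4] at h3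
  have him : P.im = 0 := by
    have h5 := (Complex.continuous_im.tendsto P).comp h3
    have h6 : Tendsto (fun _ : Finset ℕ => (0 : ℝ)) atTop (𝓝 P.im) := by
      refine h5.congr (fun s => ?_)
      simp only [Function.comp_apply, Complex.ofReal_im]
    exact (tendsto_nhds_unique h6 tendsto_const_nhds)
  have hre := (Complex.continuous_re.tendsto P).comp h3
  refine ⟨P.re, ?_, ?_⟩
  · have h7 : P = (P.re : ℂ) := by
      apply Complex.ext
      · simp
      · simp [him]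
    have h8 := dl_eq u hu
    rw [h1, h7] at h8
    exact_mod_cast h8
  · refine ge_of_tendsto' hre (fun s => ?_)
    simp only [Function.comp_apply, Complex.ofReal_re]
    have h9 := (prod_ge (fun n => qq u ^ (n + 1)) (fun i => by positivity) (fun i => pow_le_one₀ hq0.le hq1.le) s).1
    refine le_trans ?_ h9
    have h10 : HasSum (fun n : ℕ => qq u * qq u ^ n) (qq u * (1 - qq u)⁻¹) :=
      (hasSum_geometric_of_lt_one hq0.le hq1).mul_left _
    have h11 := sum_le_hasSum s (fun i _ => by positivity) h10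
    have h12 : ∑ i ∈ s, qq u ^ (i + 1) = ∑ i ∈ s, qq u * qq u ^ i := by
      apply Finset.sum_congr rfl; intro i _; ring
    rw [h12, div_eq_mul_inv]
    linarith

theorem dl_pos (u : ℝ) (hu : 0 < u) : 0 < dl u := by
  obtain ⟨p, hp, _⟩ := dl_prod u hu
  have h1 : dl u ≠ 0 := by
    intro h0
    have h2 := dl_eq u hu
    rw [h0, Complex.ofReal_zero] at h2
    exact discriminant_ne_zero _ h2.symm
  have h3 : 0 ≤ dl u := by rw [hp]; have := qq_pos u; positivity
  exact lt_of_le_of_ne h3 h1.symm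

theorem dl_ge (u : ℝ) (hu : 0 < u) (hq : qq u ≤ 1 / 2) : qq u * (1 - 24 * (qq u / (1 - qq u))) ≤ dl u := by
  obtain ⟨p, hp, hp1⟩ := dl_prod u hu
  have hq0 := qq_pos u
  rw [hp]
  apply mul_le_mul_of_nonneg_left _ hq0.le
  have hx : qq u / (1 - qq u) ≤ 1 := by
    rw [div_le_one (by linarith)]; linarith
  have h1 := one_add_mul_le_pow (a := -(qq u / (1 - qq u))) (by linarith) 24
  have h2 : (1 + -(qq u / (1 - qq u))) ^ 24 ≤ p ^ 24 := by
    apply pow_le_pow_left₀ (by linarith)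
    linarith
  refine le_trans (le_of_eq ?_) (h1.trans h2)
  push_cast
  ring

/-- `K > 0` -/
theorem K_pos (u : ℝ) (hu : 0 < u) :
    0 < 19 * a u ^ 3 - 30 * e u ^ 2 * a u ^ 2 + 15 * e u * a u * b u - 4 * b u ^ 2 := by
  have hK : 19 * a u ^ 3 - 30 * e u ^ 2 * a u ^ 2 + 15 * e u * a u * b u - 4 * b u ^ 2 =
      15 * a u * (a u ^ 2 - 2 * e u ^ 2 * a u + e u * b u) + 6912 * dl u := by
    rw [dl]; ring
  rw [hK]
  have ha := a_pos u hu
  have hd := dl_pos u hu
  set G := a u ^ 2 - 2 * e u ^ 2 * a u + e u * b u with hG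
  rcases le_or_gt 0 G with h | h
  · have : 0 ≤ 15 * a u * G := by positivity
    linarith
  · have h1 := G_ge u hu
    rw [← hG] at h1
    set q := qq u with hq
    have hq0 : 0 < q := qq_pos u
    have hg : -432 + 75168 * q + 1342656 * q ^ 2 < 0 := by
      by_contra hcon
      push Not at hcon
      have : 0 ≤ q * (-432 + 75168 * q + 1342656 * q ^ 2) := mul_nonneg hq0.le hcon
      nlinarith
    have hq1 : q < 1 / 100 := by
      by_contra hcon
      push Not at hcon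
      nlinarith [sq_nonneg q]
    have h2 := a_le u hu (by rw [← hq]; linarith)
    have h3 := dl_ge u hu (by rw [← hq]; linarith)
    rw [← hq] at h2 h3
    have h9 : 0 < 1 - 9 * q := by linarith
    have h10 : 0 < 1 - q := by linarith
    set g := -432 + 75168 * q + 1342656 * q ^ 2 with hgdef
    have h4 : a u * G ≥ (1 + 240 * q / (1 - 9 * q)) * (q * g) := by
      have e1 : q * g ≤ G := by rw [hgdef]; nlinarith
      have e2 : q * g < 0 := mul_neg_of_pos_of_neg hq0 hg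
      calc (1 + 240 * q / (1 - 9 * q)) * (q * g) ≤ a u * (q * g) := by nlinarith
        _ ≤ a u * G := mul_le_mul_of_nonneg_left e1 ha.le
    have h5 : 0 < 15 * (1 + 240 * q / (1 - 9 * q)) * g + 6912 * (1 - 24 * (q / (1 - q))) := by
      have e3 : 15 * (1 + 240 * q / (1 - 9 * q)) * g + 6912 * (1 - 24 * (q / (1 - q))) =
        (15 * (1 + 231 * q) * (1 - q) * g + 6912 * (1 - 9 * q) * (1 - 25 * q)) / ((1 - 9 * q) * (1 - q)) := by
        clear_value g
        have h9' : 1 - 9 * q ≠ 0 := h9.ne'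
        have h10' : 1 - q ≠ 0 := h10.ne'
        rw [eq_div_iff (mul_ne_zero h9' h10')]
        have f1 : 240 * q / (1 - 9 * q) * (1 - 9 * q) = 240 * q := div_mul_cancel₀ _ h9'
        have f2 : q / (1 - q) * (1 - q) = q := div_mul_cancel₀ _ h10'
        linear_combination (15 * g * (1 - q)) * f1 - 6912 * 24 * (1 - 9 * q) * f2
      rw [e3]
      apply div_pos _ (mul_pos h9 h10)
      rw [hgdef]
      have e4 : 15 * (1 + 231 * q) * (1 - q) * (-432 + 75168 * q + 1342656 * q ^ 2) + 6912 * (1 - 9 * q) * (1 - 25 * q) =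
        (432 - 597888 * q + 282521520 * q ^ 2) + q ^ 3 * (4371706080 - 4652303040 * q) := by ring
      rw [e4]
      have e5 : 0 < 432 - 597888 * q + 282521520 * q ^ 2 := by nlinarith [sq_nonneg (q - 1 / 945)]
      have e6 : 0 ≤ q ^ 3 * (4371706080 - 4652303040 * q) := by
        apply mul_nonneg (by positivity); linarith
      linarith
    have h6 : 0 < q * (15 * (1 + 240 * q / (1 - 9 * q)) * g + 6912 * (1 - 24 * (q / (1 - q)))) := mul_pos hq0 h5
    nlinarith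

end Pool.Agent.V11275.QM
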