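import Pool.Agent.V11275.QM3

set_option autoImplicit false

open Filter Topology

namespace Pool.Agent.V11275.QM

/-! ### real analysis of the Kaneko-Zagier equation on the imaginary axis -/

theorem nonneg_of_lim {f f' : ℝ → ℝ} (hd : ∀ u, 0 < u → HasDerivAt f (f' u) u)
    (h0 : ∀ u, 0 < u → 0 ≤ f' u) (hl : Tendsto f (𝓝[>] 0) (𝓝 0)) (u : ℝ) (hu : 0 < u) : 0 ≤ f u := by
  have hmono : MonotoneOn f (Set.Ioi 0) := by
    apply monotoneOn_of_deriv_nonneg (convex_Ioi 0)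
    · exact fun x hx => (hd x hx).continuousAt.continuousWithinAt
    · intro x hx
      rw [interior_Ioi] at hx
      exact (hd x hx).differentiableAt.differentiableWithinAt
    · intro x hx
      rw [interior_Ioi] at hx
      rw [(hd x hx).deriv]
      exact h0 x hx
  apply le_of_tendsto hl
  filter_upwards [Ioo_mem_nhdsGT hu] with v hv
  exact hmono hv.1 hu hv.2.le

theorem mono_of {f f' : ℝ → ℝ} (hd : ∀ u, 0 < u → HasDerivAt f (f' u) u)
    (h0 : ∀ u, 0 < u → 0 ≤ f' u) : MonotoneOn f (Set.Ioi 0) := by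
  apply monotoneOn_of_deriv_nonneg (convex_Ioi 0)
  · exact fun x hx => (hd x hx).continuousAt.continuousWithinAt
  · intro x hx
    rw [interior_Ioi] at hx
    exact (hd x hx).differentiableAt.differentiableWithinAt
  · intro x hx
    rw [interior_Ioi] at hx
    rw [(hd x hx).deriv]
    exact h0 x hx

theorem div_dl_deriv {f : ℝ → ℝ} {f' : ℝ} (n : ℕ) (u : ℝ) (hu : 0 < u) (hf : HasDerivAt f f' u) :
    HasDerivAt (fun u => f u / dl u ^ n) ((f' + 2 * Real.pi * n * e u * f u) / dl u ^ n) u := by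
  have hd := (dl_pos u hu).ne'
  refine (hf.div ((dl_deriv u hu).pow n) (pow_ne_zero n hd)).congr_deriv ?_
  rcases n with _ | m
  · simp
  · simp only [Pi.pow_apply]
    rw [div_eq_div_iff (pow_ne_zero _ (pow_ne_zero _ hd)) (pow_ne_zero _ hd)]
    simp only [Nat.add_sub_cancel]
    push_cast
    ring

/-- the system satisfied by the extremal form of weight `6 n` -/
structure Sys (n : ℕ) (y z : ℝ → ℝ) : Prop where
  dy : ∀ u, 0 < u → HasDerivAt y (-(2 * Real.pi) * z u) u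
  dz : ∀ u, 0 < u → HasDerivAt z (-(2 * Real.pi) * (n * e u * z u +
    (6 * n : ℝ) * (6 * n - 1) / 144 * (a u - e u ^ 2) * y u)) u
  ly : Tendsto (fun u => y u / dl u ^ n) atTop (𝓝 1)
  lz : Tendsto (fun u => z u / dl u ^ n) atTop (𝓝 n)

variable {n : ℕ} {y z : ℝ → ℝ}

theorem kap_nonneg (hn : 1 ≤ n) : (0 : ℝ) ≤ (6 * n : ℝ) * (6 * n - 1) / 144 := by
  have : (1 : ℝ) ≤ n := by exact_mod_cast hn
  apply div_nonneg _ (by norm_num)
  apply mul_nonneg (by positivity)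
  linarith

theorem Sys.pos (h : Sys n y z) (hn : 1 ≤ n) (u : ℝ) (hu : 0 < u) : 0 < y u := by
  by_contra hcon
  push Not at hcon
  have hcont : ContinuousOn y (Set.Ioi 0) := fun x hx => (h.dy x hx).continuousAt.continuousWithinAt
  have hev : ∀ᶠ v in atTop, 0 < y v := by
    filter_upwards [h.ly.eventually (lt_mem_nhds (show (0:ℝ) < 1 by norm_num)), eventually_gt_atTop (0:ℝ)] with v h1 h2
    have h3 := pow_pos (dl_pos v h2) n
    have := mul_pos h1 h3
    rwa [div_mul_cancel₀ _ h3.ne'] at this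
  obtain ⟨B, hB⟩ := eventually_atTop.mp hev
  have huB : u < B := by
    by_contra h1
    push Not at h1
    exact absurd (hB u h1) (not_lt.mpr hcon)
  have hS : IsCompact (Set.Icc u B ∩ y ⁻¹' Set.Iic 0) := by
    apply IsCompact.of_isClosed_subset isCompact_Icc _ Set.inter_subset_left
    apply ContinuousOn.preimage_isClosed_of_isClosed _ isClosed_Icc isClosed_Iic
    exact hcont.mono (fun x hx => lt_of_lt_of_le hu hx.1)
  obtain ⟨s, hs, hsm⟩ := hS.exists_isGreatest ⟨u, ⟨le_rfl, huB.le⟩, hcon⟩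
  have hs0 : 0 < s := lt_of_lt_of_le hu hs.1.1
  have hpos : ∀ v, s < v → 0 < y v := by
    intro v hv
    rcases le_or_gt B v with h1 | h1
    · exact hB v h1
    · by_contra h2
      push Not at h2
      have := hsm ⟨⟨hs.1.1.trans hv.le, h1.le⟩, h2⟩
      linarith
  have hk := kap_nonneg hn
  have hanti : AntitoneOn (fun u => z u / dl u ^ n) (Set.Ici s) := by
    apply antitoneOn_of_deriv_nonpos (convex_Ici s)
    · intro x hx
      have hx0 : 0 < x := lt_of_lt_of_le hs0 hx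
      exact (div_dl_deriv n x hx0 (h.dz x hx0)).continuousAt.continuousWithinAt
    · intro x hx
      rw [interior_Ici] at hx
      have hx0 : 0 < x := lt_trans hs0 hx
      exact (div_dl_deriv n x hx0 (h.dz x hx0)).differentiableAt.differentiableWithinAt
    · intro x hx
      rw [interior_Ici] at hx
      have hx0 : 0 < x := lt_trans hs0 hx
      rw [(div_dl_deriv n x hx0 (h.dz x hx0)).deriv]
      apply div_nonpos_of_nonpos_of_nonneg _ (pow_pos (dl_pos x hx0) n).le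
      have h1 := amee_pos x hx0
      have h2 := hpos x hx
      have h3 : 0 ≤ (6 * n : ℝ) * (6 * n - 1) / 144 * (a x - e x ^ 2) * y x :=
        mul_nonneg (mul_nonneg hk h1.le) h2.le
      have hpi := Real.pi_pos
      nlinarith
  have hz : ∀ v, s ≤ v → 0 ≤ z v := by
    intro v hv
    have hv0 : 0 < v := lt_of_lt_of_le hs0 hv
    have h1 : (n : ℝ) ≤ z v / dl v ^ n := by
      apply le_of_tendsto h.lz
      filter_upwards [eventually_ge_atTop v] with x hx
      exact hanti hv (hv.trans hx) hx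
    have h2 : 0 ≤ z v / dl v ^ n := (Nat.cast_nonneg n).trans h1
    have h3 := pow_pos (dl_pos v hv0) n
    have := mul_nonneg h2 h3.le
    rwa [div_mul_cancel₀ _ h3.ne'] at this
  have hanti2 : AntitoneOn y (Set.Ici s) := by
    apply antitoneOn_of_deriv_nonpos (convex_Ici s)
    · exact hcont.mono (fun x hx => lt_of_lt_of_le hs0 hx)
    · intro x hx
      rw [interior_Ici] at hx
      exact (h.dy x (lt_trans hs0 hx)).differentiableAt.differentiableWithinAt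
    · intro x hx
      rw [interior_Ici] at hx
      have hx' : s < x := hx
      rw [(h.dy x (lt_trans hs0 hx)).deriv]
      have := hz x hx'.le
      have hpi := Real.pi_pos
      nlinarith
  have h1 := hanti2 (show s ∈ Set.Ici s by simp) (show s + 1 ∈ Set.Ici s by simp) (by linarith)
  have h2 := hpos (s + 1) (by linarith)
  have h3 : y s ≤ 0 := hs.2
  linarith

/-- `Y(u) = u^{1-6n} y(1/u)` -/
noncomputable def Yf (n : ℕ) (y : ℝ → ℝ) (u : ℝ) : ℝ := u * u⁻¹ ^ (6 * n) * y u⁻¹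

/-- the derivative of `Y` -/
noncomputable def Zf (n : ℕ) (y z : ℝ → ℝ) (u : ℝ) : ℝ :=
  -(6 * n - 1) * u⁻¹ ^ (6 * n) * y u⁻¹ + 2 * Real.pi * u⁻¹ ^ (6 * n + 1) * z u⁻¹

theorem hasDerivAt_inv_pow (k : ℕ) (u : ℝ) (hu : u ≠ 0) :
    HasDerivAt (fun u : ℝ => u⁻¹ ^ k) (-k * u⁻¹ ^ (k + 1)) u := by
  refine ((hasDerivAt_inv hu).pow k).congr_deriv ?_
  rcases k with _ | m
  · simp
  · simp only [Nat.add_sub_cancel]
    push_cast
    rw [← inv_pow, pow_succ u⁻¹ (m + 1), pow_succ u⁻¹ m]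
    ring

theorem comp_inv_deriv {f : ℝ → ℝ} {f' : ℝ} (u : ℝ) (hu : 0 < u) (hf : HasDerivAt f f' u⁻¹) :
    HasDerivAt (fun u => f u⁻¹) (-(u⁻¹ ^ 2 * f')) u := by
  have h1 := hf.comp u (hasDerivAt_inv hu.ne')
  refine h1.congr_deriv ?_
  rw [inv_pow]; ring

theorem Sys.dY (h : Sys n y z) (u : ℝ) (hu : 0 < u) : HasDerivAt (Yf n y) (Zf n y z u) u := by
  have h1 := ((hasDerivAt_id u).mul (hasDerivAt_inv_pow (6 * n) u hu.ne')).mul
    (comp_inv_deriv u hu (h.dy u⁻¹ (by positivity)))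
  refine h1.congr_deriv ?_
  rw [Zf]
  simp only [id, Pi.mul_apply]
  have hu' := hu.ne'
  push_cast
  rw [pow_succ]
  generalize u⁻¹ ^ (6 * n) = P
  field_simp
  ring

theorem Sys.dZ (h : Sys n y z) (u : ℝ) (hu : 0 < u) : HasDerivAt (Zf n y z)
    (-(2 * Real.pi * n) * e u * Zf n y z u +
      4 * Real.pi ^ 2 * ((6 * n : ℝ) * (6 * n - 1) / 144) * (a u - e u ^ 2) * Yf n y u) u := by
  have h1 := (((hasDerivAt_inv_pow (6 * n) u hu.ne').const_mul (-(6 * n - 1 : ℝ))).mul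
    (comp_inv_deriv u hu (h.dy u⁻¹ (by positivity)))).add
    (((hasDerivAt_inv_pow (6 * n + 1) u hu.ne').const_mul (2 * Real.pi)).mul
    (comp_inv_deriv u hu (h.dz u⁻¹ (by positivity))))
  refine h1.congr_deriv ?_
  have e1 := e_inv u hu
  have e2 := a_inv u hu
  rw [one_div] at e1 e2
  rw [Zf, Yf, e1, e2]
  have hu' := hu.ne'
  have hpi := Real.pi_ne_zero
  push_cast
  simp only [pow_succ u⁻¹ (6 * n + 1), pow_succ u⁻¹ (6 * n)]
  generalize u⁻¹ ^ (6 * n) = P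
  generalize y u⁻¹ = y1
  generalize z u⁻¹ = z1
  generalize (n : ℝ) = N
  field_simp
  ring

theorem tendsto_comp_inv {f : ℝ → ℝ} {l : ℝ} (h : Tendsto f atTop (𝓝 l)) :
    Tendsto (fun u => f u⁻¹) (𝓝[>] (0:ℝ)) (𝓝 l) := h.comp tendsto_inv_nhdsGT_zero

theorem dl_inv' (u : ℝ) (hu : 0 < u) : dl u = u⁻¹ ^ 12 * dl u⁻¹ := by
  have h1 := dl_inv u⁻¹ (by positivity)
  rwa [one_div, inv_inv] at h1

theorem tendsto_id_pow (k : ℕ) (hk : k ≠ 0) : Tendsto (fun u : ℝ => u ^ k) (𝓝[>] (0:ℝ)) (𝓝 0) := by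
  have h1 : Tendsto (fun u : ℝ => u ^ k) (𝓝 (0:ℝ)) (𝓝 ((0:ℝ) ^ k)) := (continuous_pow k).tendsto 0
  rw [zero_pow hk] at h1
  exact h1.mono_left nhdsWithin_le_nhds

theorem Sys.lY (h : Sys n y z) : Tendsto (fun u => Yf n y u / dl u ^ n) (𝓝[>] (0:ℝ)) (𝓝 0) := by
  have h1 := (tendsto_id_pow (6 * n + 1) (by omega)).mul (tendsto_comp_inv h.ly)
  rw [zero_mul] at h1
  refine h1.congr' ?_
  filter_upwards [self_mem_nhdsWithin] with u hu
  have hu0 : (0:ℝ) < u := hu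
  have hd := (dl_pos u⁻¹ (by positivity)).ne'
  rw [Yf, dl_inv' u hu0, mul_pow, ← pow_mul]
  have h2 : u⁻¹ ^ (12 * n) = u⁻¹ ^ (6 * n) * u⁻¹ ^ (6 * n) := by rw [← pow_add]; congr 1; ring
  have h3 : u ^ (6 * n + 1) = u ^ (6 * n) * u := pow_succ _ _
  have h4 : u ^ (6 * n) * u⁻¹ ^ (6 * n) = 1 := by rw [← mul_pow, mul_inv_cancel₀ hu0.ne', one_pow]
  rw [h2, h3]
  have h5 : dl u⁻¹ ^ n ≠ 0 := pow_ne_zero _ hd
  have h6 : u⁻¹ ^ (6 * n) ≠ 0 := by positivity
  generalize y u⁻¹ = y1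
  generalize dl u⁻¹ ^ n = d1 at h5 ⊢
  generalize u⁻¹ ^ (6 * n) = P at h4 h6 ⊢
  field_simp
  linear_combination y1 * h4

theorem Sys.lZ (h : Sys n y z) (hn : 1 ≤ n) : Tendsto (fun u => Zf n y z u / dl u ^ n) (𝓝[>] (0:ℝ)) (𝓝 0) := by
  have h1 := (((tendsto_id_pow (6 * n) (by omega)).mul (tendsto_comp_inv h.ly)).const_mul (-(6 * n - 1 : ℝ))).add
    (((tendsto_id_pow (6 * n - 1) (by omega)).mul (tendsto_comp_inv h.lz)).const_mul (2 * Real.pi))
  rw [zero_mul, zero_mul, mul_zero, mul_zero, add_zero] at h1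
  refine h1.congr' ?_
  filter_upwards [self_mem_nhdsWithin] with u hu
  have hu0 : (0:ℝ) < u := hu
  have hd := (dl_pos u⁻¹ (by positivity)).ne'
  obtain ⟨m, hm⟩ : ∃ m, 6 * n = m + 1 := ⟨6 * n - 1, by omega⟩
  have hm' : 6 * n - 1 = m := by omega
  rw [Zf, dl_inv' u hu0, mul_pow, ← pow_mul]
  have h2 : u⁻¹ ^ (12 * n) = u⁻¹ ^ (6 * n) * u⁻¹ ^ (6 * n) := by rw [← pow_add]; congr 1; ring
  rw [h2, hm', pow_succ u⁻¹ (6 * n), hm, pow_succ u⁻¹ m, pow_succ u m]
  have h4 : u ^ m * u⁻¹ ^ m = 1 := by rw [← mul_pow, mul_inv_cancel₀ hu0.ne', one_pow]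
  have h5 : dl u⁻¹ ^ n ≠ 0 := pow_ne_zero _ hd
  have h6 : u⁻¹ ^ m ≠ 0 := by positivity
  have h7 : u⁻¹ ^ m = (u ^ m)⁻¹ := inv_pow _ _
  rw [h7]
  have h8 : u ^ m ≠ 0 := by positivity
  field_simp

theorem Sys.Ypos (h : Sys n y z) (hn : 1 ≤ n) (u : ℝ) (hu : 0 < u) : 0 < Yf n y u := by
  rw [Yf]
  have := h.pos hn u⁻¹ (by positivity)
  positivity

theorem Sys.Znonneg (h : Sys n y z) (hn : 1 ≤ n) (u : ℝ) (hu : 0 < u) : 0 ≤ Zf n y z u := by
  have h1 := nonneg_of_lim (f := fun u => Zf n y z u / dl u ^ n)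
    (f' := fun u => 4 * Real.pi ^ 2 * ((6 * n : ℝ) * (6 * n - 1) / 144) * (a u - e u ^ 2) * Yf n y u / dl u ^ n)
    (fun u hu => (div_dl_deriv n u hu (h.dZ u hu)).congr_deriv (by ring))
    (fun u hu => by
      have h1 := kap_nonneg hn
      have h2 := amee_pos u hu
      have h3 := h.Ypos hn u hu
      have h4 := pow_pos (dl_pos u hu) n
      apply div_nonneg _ h4.le
      exact mul_nonneg (mul_nonneg (mul_nonneg (by positivity) h1) h2.le) h3.le) (h.lZ hn) u hu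
  have h3 := pow_pos (dl_pos u hu) n
  have := mul_nonneg h1 h3.le
  rwa [div_mul_cancel₀ _ h3.ne'] at this

/-- weight `6n` -/
theorem Sys.mono0 (h : Sys n y z) (hn : 1 ≤ n) : MonotoneOn (Yf n y) (Set.Ioi 0) :=
  mono_of (fun u hu => h.dY u hu) (fun u hu => h.Znonneg hn u hu)

end Pool.Agent.V11275.QM
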