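import Pool.Agent.V11275.QM4

set_option autoImplicit false

open UpperHalfPlane hiding I
open Complex Filter Topology Derivative EisensteinSeries ModularForm MatrixGroups Function
open scoped Manifold MatrixGroups ModularForm

namespace Pool.Agent.V11275.QM

open Pool.Agent.V11275 Pool.Agent.W97.MT

variable {n : ℕ} {y z : ℝ → ℝ}

/-! ### limits along the imaginary axis -/

theorem tendsto_axis : Tendsto (fun u : ℝ => ofComplex (u * I)) atTop atImInfty := by
  rw [atImInfty, tendsto_comap_iff]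
  refine tendsto_id.congr' ?_
  filter_upwards [eventually_gt_atTop (0:ℝ)] with u hu
  rw [Function.comp_apply, ofComplex_ipt u hu, ← UpperHalfPlane.coe_im, ipt_coe]
  simp

theorem tendsto_ax {F : ℍ → ℂ} {c : ℂ} (h : Tendsto F atImInfty (𝓝 c)) : Tendsto (ax F) atTop (𝓝 c.re) :=
  (Complex.continuous_re.tendsto c).comp (h.comp tendsto_axis)

theorem tendsto_e : Tendsto e atTop (𝓝 1) := tendsto_ax Pool.Agent.Y949.J.tendsto_E2

theorem e_mono : StrictMonoOn e (Set.Ioi 0) := by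
  apply strictMonoOn_of_deriv_pos (convex_Ioi 0)
  · exact fun x hx => (e_deriv x hx).continuousAt.continuousWithinAt
  · intro x hx
    rw [interior_Ioi] at hx
    rw [(e_deriv x hx).deriv]
    have := amee_pos x hx
    have := Real.pi_pos
    positivity

theorem exists_e_nonpos (u : ℝ) (hu : 0 < u) : ∃ v, 0 < v ∧ v < u ∧ e v ≤ 0 := by
  have h1 := tendsto_e.eventually (lt_mem_nhds (show (1/2:ℝ) < 1 by norm_num))
  obtain ⟨t, ht1, ht2, ht3⟩ := (h1.and ((eventually_gt_atTop (12 / Real.pi)).and (eventually_gt_atTop (1 / u)))).exists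
  have hpi := Real.pi_pos
  have ht0 : 0 < t := lt_trans (by positivity) ht2
  refine ⟨1 / t, by positivity, ?_, ?_⟩
  · rw [div_lt_iff₀ hu] at ht3
    rw [div_lt_iff₀ ht0]; linarith
  · rw [e_inv t ht0]
    rw [div_lt_iff₀ hpi] at ht2
    have h2 : 6 * t / Real.pi ≤ t ^ 2 * (1 / 2) := by
      rw [div_le_iff₀ hpi]; nlinarith
    have h3 : t ^ 2 * (1 / 2) ≤ t ^ 2 * e t := mul_le_mul_of_nonneg_left ht1.le (by positivity)
    linarith

/-! ### weight `6n + 4` -/

theorem abs_e_le (u : ℝ) (hu : 0 < u) : |e u| ≤ a u := by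
  have h1 := amee_pos u hu
  have h2 := a_ge_one u hu
  apply abs_le_of_sq_le_sq _ (by linarith) |> id
  nlinarith

theorem abs_b_le (u : ℝ) (hu : 0 < u) : |b u| ≤ a u ^ 2 := by
  have h1 := dl_pos u hu
  have h2 := a_ge_one u hu
  apply abs_le_of_sq_le_sq _ (by positivity) |> id
  rw [dl] at h1
  have h3 : b u ^ 2 < a u ^ 3 := by linarith
  nlinarith [pow_pos (a_pos u hu) 3]

/-- derivative of `a Y` -/
noncomputable def NA (n : ℕ) (y z : ℝ → ℝ) (u : ℝ) : ℝ :=
  a u * Zf n y z u + (-(2 * Real.pi / 3) * (e u * a u - b u)) * Yf n y u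

theorem Sys.dA (h : Sys n y z) (u : ℝ) (hu : 0 < u) :
    HasDerivAt (fun u => a u * Yf n y u) (NA n y z u) u := by
  refine ((a_deriv u hu).mul (h.dY u hu)).congr_deriv ?_
  rw [NA]; ring

/-- `-T` -/
noncomputable def mT (w : ℝ) (u : ℝ) : ℝ :=
  (w ^ 2 - w + 20) * a u ^ 3 - (w + 3) * (w + 4) * e u ^ 2 * a u ^ 2 + 8 * (w + 3) * (e u * a u * b u) - 32 * b u ^ 2

theorem mT_nonneg (hn : 2 ≤ n) (u : ℝ) (hu : 0 < u) : 0 ≤ mT (6 * n) u := by
  have h1 : mT (6 * n) u = 8 * (19 * a u ^ 3 - 30 * e u ^ 2 * a u ^ 2 + 15 * e u * a u * b u - 4 * b u ^ 2) +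
    36 * ((n - 2 : ℝ) * (n - 3)) * (a u ^ 2 * (a u - e u ^ 2)) +
    6 * (n - 2 : ℝ) * (a u * (4 * (5 * a u ^ 2 - 7 * e u ^ 2 * a u + 2 * e u * b u) + 9 * (a u * (a u - e u ^ 2)))) := by
    rw [mT]; ring
  rw [h1]
  have hK := K_pos u hu
  have hV := V_nonneg u hu
  have ha := a_pos u hu
  have hm := amee_pos u hu
  have hn2 : (0:ℝ) ≤ (n - 2 : ℝ) := by
    have : (2:ℝ) ≤ n := by exact_mod_cast hn
    linarith
  have hn3 : (0:ℝ) ≤ (n - 2 : ℝ) * (n - 3) := by
    rcases Nat.lt_or_ge n 3 with h | h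
    · have : n = 2 := by omega
      subst this
      norm_num
    · have : (3:ℝ) ≤ n := by exact_mod_cast h
      exact mul_nonneg hn2 (by linarith)
  have t1 : 0 ≤ 36 * ((n - 2 : ℝ) * (n - 3)) * (a u ^ 2 * (a u - e u ^ 2)) :=
    mul_nonneg (mul_nonneg (by norm_num) hn3) (mul_nonneg (by positivity) hm.le)
  have t2 : 0 ≤ 6 * (n - 2 : ℝ) * (a u * (4 * (5 * a u ^ 2 - 7 * e u ^ 2 * a u + 2 * e u * b u) + 9 * (a u * (a u - e u ^ 2)))) := by
    apply mul_nonneg (mul_nonneg (by norm_num) hn2)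
    apply mul_nonneg ha.le
    have := mul_nonneg ha.le hm.le
    linarith
  linarith

theorem Sys.dNA (h : Sys n y z) (u : ℝ) (hu : 0 < u) :
    HasDerivAt (fun u => NA n y z u / a u ^ 2 / dl u ^ n)
      ((Real.pi ^ 2 / 36 * mT (6 * n) u * Yf n y u) / a u ^ 3 / dl u ^ n) u := by
  have ha := (a_pos u hu).ne'
  have d1 := ((a_deriv u hu).mul (h.dZ u hu)).add
    (((((e_deriv u hu).mul (a_deriv u hu)).sub (b_deriv u hu)).const_mul (-(2 * Real.pi / 3))).mul (h.dY u hu))
  have d2 := d1.div ((a_deriv u hu).pow 2) (pow_ne_zero 2 ha)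
  have d3 := div_dl_deriv n u hu d2
  refine d3.congr_deriv ?_
  congr 1
  simp only [Pi.mul_apply, Pi.sub_apply, Pi.add_apply, Pi.pow_apply, Pi.div_apply, mT, Nat.cast_ofNat]
  generalize Yf n y u = Y
  generalize Zf n y z u = Z
  generalize (n : ℝ) = N
  field_simp
  ring

theorem Sys.NAnonneg (h : Sys n y z) (hn : 2 ≤ n) (u : ℝ) (hu : 0 < u) : 0 ≤ NA n y z u := by
  have hn1 : 1 ≤ n := by omega
  have h1 := nonneg_of_lim (f := fun u => NA n y z u / a u ^ 2 / dl u ^ n)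
    (f' := fun u => (Real.pi ^ 2 / 36 * mT (6 * n) u * Yf n y u) / a u ^ 3 / dl u ^ n)
    (fun u hu => h.dNA u hu)
    (fun u hu => by
      have h1 := mT_nonneg hn u hu
      have h3 := h.Ypos hn1 u hu
      have h4 := pow_pos (dl_pos u hu) n
      have h5 := pow_pos (a_pos u hu) 3
      have h6 : 0 ≤ Real.pi ^ 2 / 36 * mT (6 * n) u * Yf n y u :=
        mul_nonneg (mul_nonneg (by positivity) h1) h3.le
      exact div_nonneg (div_nonneg h6 h5.le) h4.le) ?_ u hu
  · have h3 := pow_pos (dl_pos u hu) n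
    have h4 := pow_pos (a_pos u hu) 2
    have h5 := mul_nonneg h1 h3.le
    rw [div_mul_cancel₀ _ h3.ne'] at h5
    have h6 := mul_nonneg h5 h4.le
    rwa [div_mul_cancel₀ _ h4.ne'] at h6
  · -- the limit at `0`
    have hb : Tendsto (fun u => |Zf n y z u / dl u ^ n| + 2 * Real.pi * |Yf n y u / dl u ^ n|) (𝓝[>] (0:ℝ)) (𝓝 0) := by
      have := (h.lZ hn1).abs.add (h.lY.abs.const_mul (2 * Real.pi))
      simpa using this
    refine squeeze_zero_norm' ?_ hb
    filter_upwards [self_mem_nhdsWithin] with u hu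
    have hu0 : (0:ℝ) < u := hu
    have ha1 := a_ge_one u hu0
    have ha0 := a_pos u hu0
    have hd := pow_pos (dl_pos u hu0) n
    have he := abs_e_le u hu0
    have hb' := abs_b_le u hu0
    have hpi := Real.pi_pos
    have e1 : NA n y z u / a u ^ 2 / dl u ^ n = (1 / a u) * (Zf n y z u / dl u ^ n) +
      (-(2 * Real.pi / 3) * (e u * a u - b u) / a u ^ 2) * (Yf n y u / dl u ^ n) := by
      rw [NA]; field_simp
    rw [e1, Real.norm_eq_abs]
    refine (abs_add_le _ _).trans (add_le_add ?_ ?_)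
    · rw [abs_mul]
      apply mul_le_of_le_one_left (abs_nonneg _)
      rw [abs_of_pos (by positivity), div_le_one ha0]
      exact ha1
    · rw [abs_mul]
      apply mul_le_mul_of_nonneg_right _ (abs_nonneg _)
      rw [abs_div, abs_of_pos (by positivity : 0 < a u ^ 2), div_le_iff₀ (by positivity), abs_mul, abs_neg,
        abs_of_pos (by positivity : 0 < 2 * Real.pi / 3)]
      have h7 : |e u * a u - b u| ≤ 2 * a u ^ 2 := by
        refine (abs_sub _ _).trans ?_
        rw [abs_mul, abs_of_pos ha0]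
        nlinarith
      have h8 : 2 * Real.pi / 3 * |e u * a u - b u| ≤ 2 * Real.pi / 3 * (2 * a u ^ 2) :=
        mul_le_mul_of_nonneg_left h7 (by positivity)
      have h9 : 0 ≤ Real.pi * a u ^ 2 := by positivity
      nlinarith

theorem Sys.mono4 (h : Sys n y z) (hn : 2 ≤ n) : MonotoneOn (fun u => a u * Yf n y u) (Set.Ioi 0) :=
  mono_of (fun u hu => h.dA u hu) (fun u hu => h.NAnonneg hn u hu)

/-! ### weight `6n + 2` -/

/-- `(6n-1) e' Y - e Z` -/
noncomputable def NB (n : ℕ) (y z : ℝ → ℝ) (u : ℝ) : ℝ :=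
  (6 * n - 1) * (Real.pi / 6 * (a u - e u ^ 2)) * Yf n y u - e u * Zf n y z u

/-- the extremal form of weight `6n+2` -/
noncomputable def PB (n : ℕ) (y z : ℝ → ℝ) (u : ℝ) : ℝ :=
  12 / (6 * n + 1) * (Zf n y z u / (2 * Real.pi) + (6 * n - 1) / 12 * e u * Yf n y u)

theorem Sys.dB (h : Sys n y z) (u : ℝ) (hu : 0 < u) : HasDerivAt (PB n y z) (NB n y z u) u := by
  have h1 := (((h.dZ u hu).div_const (2 * Real.pi)).add
    (((e_deriv u hu).const_mul ((6 * n - 1) / 12 : ℝ)).mul (h.dY u hu))).const_mul (12 / (6 * n + 1) : ℝ)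
  refine h1.congr_deriv ?_
  rw [NB]
  have hn : (6 * n + 1 : ℝ) ≠ 0 := by positivity
  have hpi := Real.pi_ne_zero
  generalize Yf n y u = Y
  generalize Zf n y z u = Z
  field_simp
  ring

theorem Sys.dNB (h : Sys n y z) (hn : 1 ≤ n) (u : ℝ) (hu : 0 < u) :
    HasDerivAt (fun u => e u ^ (6 * n - 2) * NB n y z u / dl u ^ n)
      (e u ^ (6 * n - 3) * ((6 * n - 1) * (Real.pi ^ 2 / 36) *
        ((6 * n - 12) * (a u * (a u - e u ^ 2)) + 2 * (5 * a u ^ 2 - 7 * e u ^ 2 * a u + 2 * e u * b u)) * Yf n y u) / dl u ^ n) u := by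
  obtain ⟨m, hm⟩ : ∃ m, 6 * n = m + 3 := ⟨6 * n - 3, by omega⟩
  have hm2 : 6 * n - 2 = m + 1 := by omega
  have hm3 : 6 * n - 3 = m := by omega
  have hmR : (6 * n : ℝ) = m + 3 := by exact_mod_cast hm
  have d0 := (((((a_deriv u hu).sub ((e_deriv u hu).pow 2)).const_mul (Real.pi / 6)).const_mul (6 * n - 1 : ℝ)).mul (h.dY u hu)).sub
    ((e_deriv u hu).mul (h.dZ u hu))
  have d1 := ((e_deriv u hu).pow (6 * n - 2)).mul d0
  have d3 := div_dl_deriv n u hu d1
  refine d3.congr_deriv ?_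
  congr 1
  simp only [Pi.mul_apply, Pi.sub_apply, Pi.add_apply, Pi.pow_apply, Pi.div_apply, Nat.cast_ofNat, hm2, hm3,
    Nat.add_sub_cancel]
  have hn6 : (n : ℝ) = (m + 3) / 6 := by linarith
  rw [hn6]
  push_cast
  rw [pow_succ]
  generalize Yf n y u = Y
  generalize Zf n y z u = Z
  ring

theorem Sys.NBnonneg (h : Sys n y z) (hn : 2 ≤ n) (u : ℝ) (hu : 0 < u) : 0 ≤ NB n y z u := by
  have hn1 : 1 ≤ n := by omega
  have hnR : (2:ℝ) ≤ n := by exact_mod_cast hn
  have hpi := Real.pi_pos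
  have hfirst : ∀ v, 0 < v → 0 ≤ (6 * n - 1) * (Real.pi / 6 * (a v - e v ^ 2)) * Yf n y v := by
    intro v hv
    have h1 := amee_pos v hv
    have h2 := h.Ypos hn1 v hv
    have h3 : (0:ℝ) ≤ 6 * n - 1 := by linarith
    positivity
  rcases le_or_gt (e u) 0 with he | he
  · have h1 := hfirst u hu
    have h2 := h.Znonneg hn1 u hu
    rw [NB]
    have h3 : e u * Zf n y z u ≤ 0 := mul_nonpos_of_nonpos_of_nonneg he h2
    linarith
  · obtain ⟨v, hv0, hvu, hve⟩ := exists_e_nonpos u hu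
    have hcont : ContinuousOn e (Set.Icc v u) := fun x hx =>
      (e_deriv x (lt_of_lt_of_le hv0 hx.1)).continuousAt.continuousWithinAt
    obtain ⟨u0, hu0, heu0⟩ := intermediate_value_Icc hvu.le hcont ⟨hve, he.le⟩
    have hu00 : 0 < u0 := lt_of_lt_of_le hv0 hu0.1
    have hmono : MonotoneOn (fun u => e u ^ (6 * n - 2) * NB n y z u / dl u ^ n) (Set.Icc u0 u) := by
      apply monotoneOn_of_deriv_nonneg (convex_Icc _ _)
      · exact fun x hx => (h.dNB hn1 x (lt_of_lt_of_le hu00 hx.1)).continuousAt.continuousWithinAt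
      · intro x hx
        rw [interior_Icc] at hx
        exact (h.dNB hn1 x (lt_trans hu00 hx.1)).differentiableAt.differentiableWithinAt
      · intro x hx
        rw [interior_Icc] at hx
        have hx0 : 0 < x := lt_trans hu00 hx.1
        rw [(h.dNB hn1 x hx0).deriv]
        have hex : 0 < e x := by
          rw [← heu0]
          exact e_mono hu00 hx0 hx.1
        have h1 := amee_pos x hx0
        have h2 := h.Ypos hn1 x hx0
        have h3 := V_nonneg x hx0
        have h4 := pow_pos (dl_pos x hx0) n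
        have h5 := a_pos x hx0
        have h6 : (0:ℝ) ≤ 6 * n - 12 := by linarith
        have h7 : 0 ≤ (6 * n - 12) * (a x * (a x - e x ^ 2)) + 2 * (5 * a x ^ 2 - 7 * e x ^ 2 * a x + 2 * e x * b x) := by
          have := mul_nonneg h6 (mul_pos h5 h1).le
          linarith
        have h8 : (0:ℝ) ≤ (6 * n - 1) * (Real.pi ^ 2 / 36) := mul_nonneg (by linarith) (by positivity)
        exact div_nonneg (mul_nonneg (pow_pos hex _).le (mul_nonneg (mul_nonneg h8 h7) h2.le)) h4.le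
    have h1 := hmono (Set.left_mem_Icc.mpr hu0.2) (Set.right_mem_Icc.mpr hu0.2) hu0.2
    simp only [heu0] at h1
    rw [zero_pow (by omega), zero_mul, zero_div] at h1
    have h3 := pow_pos (dl_pos u hu) n
    have h4 := pow_pos he (6 * n - 2)
    have h5 := mul_nonneg h1 h3.le
    rw [div_mul_cancel₀ _ h3.ne'] at h5
    exact nonneg_of_mul_nonneg_right h5 h4

theorem Sys.mono2 (h : Sys n y z) (hn : 2 ≤ n) : MonotoneOn (PB n y z) (Set.Ioi 0) :=
  mono_of (fun u hu => h.dB u hu) (fun u hu => h.NBnonneg hn u hu)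

end Pool.Agent.V11275.QM
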