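import Pool.Agent.V11275.QM5
import Pool.Agent.Results.MP_e05153_nt.NoZero

set_option autoImplicit false

open UpperHalfPlane hiding I
open Complex Filter Topology Derivative EisensteinSeries ModularForm MatrixGroups Function
open scoped Manifold MatrixGroups ModularForm

namespace Pool.Agent.V11275.QM

open Pool.Agent.V11275 Pool.Agent.W97.MT
open Pool.Agent.Results.MP_e05153_nt.NoZero (rD rD_eq rD_zero u_zero r4_zero r6_zero)

variable {F G : ℍ → ℂ} {φ ψ : PowerSeries ℂ}

theorem ax_lead {N : ℕ} (hQ : Q F φ) (hN : ∀ i < N, PowerSeries.coeff i φ = 0) :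
    Tendsto (fun u => ax F u * Real.exp (2 * Real.pi * u) ^ N) atTop (𝓝 (PowerSeries.coeff N φ).re) := by
  have h := tendsto_ax (Jac.tendsto_shift hQ.hasSum hN)
  refine h.congr' ?_
  filter_upwards [eventually_gt_atTop (0:ℝ)] with u hu
  rw [ax_eq _ u hu, ax_eq _ u hu]
  have h1 : cexp (-(2 * Real.pi * I * (N * (ipt u hu : ℂ)))) = ((Real.exp (2 * Real.pi * u) ^ N : ℝ) : ℂ) := by
    rw [← Real.exp_nat_mul, Complex.ofReal_exp, ipt_coe]
    congr 1
    push_cast
    linear_combination (-2 * (Real.pi : ℂ) * N * u) * I_mul_I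
  rw [h1, Complex.re_mul_ofReal]

theorem dl_lead : Tendsto (fun u => dl u * Real.exp (2 * Real.pi * u)) atTop (𝓝 1) := by
  have hQ : Q (((1728⁻¹ : ℝ) : ℂ) • ((E₄ : ℍ → ℂ) * (E₄ * E₄) - (E₆ : ℍ → ℂ) * E₆))
      (PowerSeries.C ((1728⁻¹ : ℝ) : ℂ) * (ofR r4 * (ofR r4 * ofR r4) - ofR r6 * ofR r6)) :=
    ((QE4.mul (QE4.mul QE4)).sub (QE6.mul QE6)).smul _
  have hs : PowerSeries.C ((1728⁻¹ : ℝ) : ℂ) * (ofR r4 * (ofR r4 * ofR r4) - ofR r6 * ofR r6) = ofR rD := by
    unfold rD
    rw [map_mul, map_sub, map_pow, map_pow, ofR_C]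
    ring
  rw [hs] at hQ
  have h0 : ∀ i < 1, PowerSeries.coeff i (ofR rD) = 0 := by
    intro i hi
    have : i = 0 := by omega
    subst this
    rw [coeff_ofR, rD_zero]; simp
  have h1 := ax_lead hQ h0
  have h2 : PowerSeries.coeff 1 (ofR rD) = 1 := by
    have h3 := u_zero
    rw [Pool.Agent.Results.MP_e05153_nt.NoZero.u, PowerSeries.coeff_mk, zero_add] at h3
    rw [coeff_ofR, h3]; simp
  rw [h2] at h1
  simp only [pow_one, Complex.one_re] at h1
  refine h1.congr' ?_
  filter_upwards [eventually_gt_atTop (0:ℝ)] with u hu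
  congr 1
  rw [ax_smul, ax_sub, ax_mul QE4 _ u hu, ax_mul QE4 _ u hu, ax_mul QE6 _ u hu, dl, a, b]
  ring

theorem div_dl_lead {n : ℕ} (hQ : Q F φ) (hN : ∀ i < n, PowerSeries.coeff i φ = 0) :
    Tendsto (fun u => ax F u / dl u ^ n) atTop (𝓝 (PowerSeries.coeff n φ).re) := by
  have h1 := (ax_lead hQ hN).div (dl_lead.pow n) (by simp)
  rw [one_pow, div_one] at h1
  refine h1.congr (fun u => ?_)
  rw [Pi.div_apply, mul_pow, mul_div_mul_right _ _ (by positivity)]

/-- the data of an extremal form of weight `6n` -/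
structure Ext (n : ℕ) (X : ℍ → ℂ) (φ : PowerSeries ℂ) : Prop where
  q1 : IsQ1 (6 * n) X
  q : Q X φ
  z : ∀ i < n, PowerSeries.coeff i φ = 0
  o : PowerSeries.coeff n φ = 1

theorem Ext.sys {n : ℕ} {X : ℍ → ℂ} (h : Ext n X φ) : Sys n (ax X) (ax (D X)) where
  dy := fun u hu => ax_deriv h.q.mdiff u hu
  dz := by
    intro u hu
    refine (ax_deriv h.q.D.mdiff u hu).congr_deriv ?_
    have h1 : D (D X) = ((n : ℝ) : ℂ) • (E2 * D X) -
        (((6 * n : ℝ) * (6 * n - 1) / 144 : ℝ) : ℂ) • (E2 * (E2 * X) - (E₄ : ℍ → ℂ) * X) := by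
      funext τ
      rw [kz (k := 6 * n) rfl h.q1 h.q h.z τ]
      simp only [Pi.sub_apply, Pi.mul_apply, Pi.smul_apply, smul_eq_mul]
      push_cast
      ring
    rw [h1, ax_sub, ax_smul, ax_smul, ax_sub, ax_mul QE2 _ u hu, ax_mul QE2 _ u hu, ax_mul QE2 _ u hu,
      ax_mul QE4 _ u hu, e, a]
    ring
  ly := by
    have := div_dl_lead h.q h.z
    rwa [h.o, Complex.one_re] at this
  lz := by
    have := div_dl_lead (n := n) h.q.D (fun i hi => by rw [coeff_th, h.z i hi, mul_zero])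
    rw [coeff_th, h.o, mul_one, Complex.natCast_re] at this
    exact this

theorem IsQ1.unique {k : ℤ} {m : ℕ} (hF : IsQ1 k F) (hG : IsQ1 k G) (hφ : Q F φ) (hψ : Q G ψ)
    (hm : k < 6 * m) (hm1 : 1 ≤ m) (h : ∀ i < m, PowerSeries.coeff i φ = PowerSeries.coeff i ψ) : F = G := by
  have h1 := (hF.sub hG).eq_zero (hφ.sub hψ) m hm hm1 (fun i hi => by rw [map_sub, h i hi, sub_self])
  have h2 := hφ.sub hψ
  rw [h1] at h2
  exact sub_eq_zero.mp h2.zero_of

/-! ### real coefficients -/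

theorem real_add {a b : PowerSeries ℂ} (ha : ∃ r, a = ofR r) (hb : ∃ r, b = ofR r) : ∃ r, a + b = ofR r := by
  obtain ⟨r, rfl⟩ := ha
  obtain ⟨s, rfl⟩ := hb
  exact ⟨r + s, by rw [map_add]⟩

theorem Ext.real {n : ℕ} {X : ℍ → ℂ} (hn : 1 ≤ n) (h : Ext n X φ) : ∃ r : PowerSeries ℝ, φ = ofR r := by
  have hode : th (th φ) = PowerSeries.C ((n : ℝ) : ℂ) * (ofR r2 * th φ) -
      PowerSeries.C (((6 * n : ℝ) * (6 * n - 1) / 144 : ℝ) : ℂ) * ((ofR r2 * ofR r2 - ofR r4) * φ) := by
    have h1 : D (D X) = ((n : ℝ) : ℂ) • (E2 * D X) -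
        (((6 * n : ℝ) * (6 * n - 1) / 144 : ℝ) : ℂ) • ((E2 * E2 - (E₄ : ℍ → ℂ)) * X) := by
      funext τ
      rw [kz (k := 6 * n) rfl h.q1 h.q h.z τ]
      simp only [Pi.sub_apply, Pi.mul_apply, Pi.smul_apply, smul_eq_mul]
      push_cast
      ring
    have h2 := h.q.D.D
    rw [h1] at h2
    exact h2.unique (((QE2.mul h.q.D).smul _).sub ((((QE2.mul QE2).sub QE4).mul h.q).smul _))
  have hode' : th (th φ) = PowerSeries.C ((n : ℝ) : ℂ) * (ofR r2 * th φ) -
      PowerSeries.C (((6 * n : ℝ) * (6 * n - 1) / 144 : ℝ) : ℂ) * (ofR (r2 * r2 - r4) * φ) := by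
    rw [map_sub ofR, map_mul ofR]; exact hode
  have hs0 : PowerSeries.coeff 0 (r2 * r2 - r4) = 0 := by
    rw [map_sub, PowerSeries.coeff_mul]
    simp [r2, r4]
  obtain ⟨s, hs⟩ : ∃ s : PowerSeries ℝ, s = r2 * r2 - r4 := ⟨_, rfl⟩
  rw [← hs] at hode' hs0
  have key : ∀ m, (PowerSeries.coeff m φ).im = 0 := by
    intro m
    induction m using Nat.strong_induction_on with
    | _ m ih =>
      rcases lt_trichotomy m n with hlt | heq | hgt
      · rw [h.z m hlt]; simp
      · rw [heq, h.o]; simp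
      · have h1 := congrArg (fun ψ => (PowerSeries.coeff m ψ).im) hode'
        simp only [map_sub, PowerSeries.coeff_C_mul, Complex.sub_im, Complex.im_ofReal_mul] at h1
        rw [PowerSeries.coeff_mul, PowerSeries.coeff_mul, Complex.im_sum, Complex.im_sum] at h1
        have h2 : ∀ (s : PowerSeries ℝ) (i : ℕ) (c : ℂ), (PowerSeries.coeff i (ofR s) * c).im = PowerSeries.coeff i s * c.im := by
          intro s i c
          rw [coeff_ofR, Complex.im_ofReal_mul]
        simp only [h2, coeff_th] at h1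
        have h3 : ∀ j : ℕ, ((j : ℂ) * PowerSeries.coeff j φ).im = j * (PowerSeries.coeff j φ).im := by
          intro j
          have : ((j : ℂ)) = (((j : ℝ)) : ℂ) := by push_cast; rfl
          rw [this, Complex.im_ofReal_mul]
        have h3' : ∀ (j : ℕ) (c : ℂ), ((j : ℂ) * c).im = j * c.im := by
          intro j c
          have : ((j : ℂ)) = (((j : ℝ)) : ℂ) := by push_cast; rfl
          rw [this, Complex.im_ofReal_mul]
        simp only [h3'] at h1
        have h4 : ∑ p ∈ Finset.HasAntidiagonal.antidiagonal m, PowerSeries.coeff p.1 r2 * (p.2 * (PowerSeries.coeff p.2 φ).im) =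
            m * (PowerSeries.coeff m φ).im := by
          rw [Finset.sum_eq_single (0, m)]
          · simp [r2]
          · rintro ⟨i, j⟩ hij hne
            rw [Finset.HasAntidiagonal.mem_antidiagonal] at hij
            simp only at hij
            have : j < m := by
              rcases Nat.eq_zero_or_pos i with h0 | h0
              · exfalso; apply hne; subst h0; simp only [zero_add] at hij; rw [hij]
              · omega
            simp only [ih j this, mul_zero]
          · intro hcon; exfalso; apply hcon; simp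
        have h5 : ∑ p ∈ Finset.HasAntidiagonal.antidiagonal m, PowerSeries.coeff p.1 s * (PowerSeries.coeff p.2 φ).im = 0 := by
          apply Finset.sum_eq_zero
          rintro ⟨i, j⟩ hij
          rw [Finset.HasAntidiagonal.mem_antidiagonal] at hij
          simp only at hij
          rcases Nat.eq_zero_or_pos i with h0 | h0
          · subst h0; simp only [hs0, zero_mul]
          · simp only [ih j (by omega), mul_zero]
        rw [h4, h5] at h1
        have h6 : (m : ℝ) * (m - n) * (PowerSeries.coeff m φ).im = 0 := by linear_combination h1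
        have h7 : (m : ℝ) ≠ 0 := by
          have : m ≠ 0 := by omega
          exact_mod_cast this
        have h8 : ((m : ℝ) - n) ≠ 0 := by
          rw [sub_ne_zero]; exact_mod_cast hgt.ne'
        rcases mul_eq_zero.mp h6 with h9 | h9
        · exact absurd h9 (mul_ne_zero h7 h8)
        · exact h9
  refine ⟨PowerSeries.mk fun m => (PowerSeries.coeff m φ).re, ?_⟩
  ext m
  rw [coeff_ofR, PowerSeries.coeff_mk]
  apply Complex.ext
  · simp
  · simp [key m]

/-! ### existence -/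

theorem finrank_MF (k : ℕ) (hk : Even k) : Module.finrank ℂ (ModularForm 𝒮ℒ (k : ℤ)) =
    if k ≡ 2 [MOD 12] then k / 12 else k / 12 + 1 := by
  apply Module.finrank_eq_of_rank_eq
  rw [dimension_level_one k hk]

theorem zero_of_add_E2 {k : ℤ} (f : ModularForm 𝒮ℒ k) (g : ModularForm 𝒮ℒ (k - 2))
    (h : ∀ τ, f τ + E2 τ * g τ = 0) : f = 0 ∧ g = 0 := by
  have hg : g = 0 := by
    ext τ
    have h1 := h (ModularGroup.S • τ)
    rw [slashS, slashS, E2_transf] at h1
    have hS0 : ((ModularGroup.S 1 0 : ℤ) : ℂ) = 1 := by simp [ModularGroup.S]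
    have hS1 : ((ModularGroup.S 1 1 : ℤ) : ℂ) = 0 := by simp [ModularGroup.S]
    rw [hS0, hS1, one_mul, add_zero] at h1
    have hτ : (τ : ℂ) ≠ 0 := UpperHalfPlane.ne_zero τ
    have h2 : (τ : ℂ) ^ (k - 2) = (τ : ℂ) ^ k / (τ : ℂ) ^ 2 := by
      rw [zpow_sub₀ hτ]; norm_cast
    rw [h2] at h1
    have h3 := h τ
    have hpi : (2 * Real.pi * I : ℂ) ≠ 0 := Complex.two_pi_I_ne_zero
    have hz : (τ : ℂ) ^ k ≠ 0 := zpow_ne_zero _ hτ
    have h4 : (τ : ℂ) ^ k * (f τ + E2 τ * g τ) + (τ : ℂ) ^ k * (12 / (τ * (2 * Real.pi * I)) * g τ) = 0 := by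
      rw [← h1]
      field_simp
      ring
    rw [h3, mul_zero, zero_add] at h4
    have h5 : (12 / (τ * (2 * Real.pi * I)) : ℂ) ≠ 0 := div_ne_zero (by norm_num) (mul_ne_zero hτ hpi)
    rcases mul_eq_zero.mp h4 with h6 | h6
    · exact absurd h6 hz
    · rcases mul_eq_zero.mp h6 with h7 | h7
      · exact absurd h7 h5
      · simpa using h7
  refine ⟨?_, hg⟩
  ext τ
  have := h τ
  rw [hg] at this
  simpa using this

end Pool.Agent.V11275.QM
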