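import Pool.Agent.V11275.QM6

set_option autoImplicit false

open UpperHalfPlane hiding I
open Complex Filter Topology Derivative EisensteinSeries ModularForm MatrixGroups Function
open scoped Manifold MatrixGroups ModularForm

namespace Pool.Agent.V11275.QM

open Pool.Agent.V11275 Pool.Agent.W97.MT

variable {φ ψ : PowerSeries ℂ}

/-- `dim M_w + dim M_{w-2}` -/
noncomputable def dimQ (w : ℕ) : ℕ :=
  Module.finrank ℂ (ModularForm 𝒮ℒ (w : ℤ)) + Module.finrank ℂ (ModularForm 𝒮ℒ ((w : ℤ) - 2))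

theorem finrank_MF' (k : ℕ) (hk : Even k) : Module.finrank ℂ (ModularForm 𝒮ℒ (k : ℤ)) =
    if k % 12 = 2 then k / 12 else k / 12 + 1 := by
  rw [finrank_MF k hk]
  by_cases h : k % 12 = 2
  · have h' : k ≡ 2 [MOD 12] := h
    rw [if_pos h, if_pos h']
  · have h' : ¬ k ≡ 2 [MOD 12] := h
    rw [if_neg h, if_neg h']

theorem dimQ_eq (w : ℕ) (hw : Even w) (h2 : 2 ≤ w) : dimQ w = w / 6 + 1 := by
  have h : ((w : ℤ) - 2) = ((w - 2 : ℕ) : ℤ) := by omega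
  have hw2 : Even (w - 2) := by
    obtain ⟨m, rfl⟩ := hw
    exact ⟨m - 1, by omega⟩
  obtain ⟨m, hm⟩ := hw
  rw [dimQ, h, finrank_MF' w ⟨m, hm⟩, finrank_MF' (w - 2) hw2]
  split_ifs <;> omega

/-- first coefficients of `f + E₂ g` -/
noncomputable def coefQ (w d : ℕ) :
    (ModularForm 𝒮ℒ (w : ℤ) × ModularForm 𝒮ℒ ((w : ℤ) - 2)) →ₗ[ℂ] (Fin d → ℂ) where
  toFun p := fun i => (qExpansion 1 p.1 + c2 * qExpansion 1 p.2).coeff i
  map_add' p p' := by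
    funext i
    have h1 := ModularForm.qExpansion_add one_pos one_mem_strictPeriods_SL p.1 p'.1
    have h2 := ModularForm.qExpansion_add one_pos one_mem_strictPeriods_SL p.2 p'.2
    simp only [Pi.add_apply]
    rw [← map_add]
    congr 1
    have h3 : qExpansion 1 ((p + p').1) = qExpansion 1 (p.1 : ℍ → ℂ) + qExpansion 1 (p'.1 : ℍ → ℂ) := h1
    have h4 : qExpansion 1 ((p + p').2) = qExpansion 1 (p.2 : ℍ → ℂ) + qExpansion 1 (p'.2 : ℍ → ℂ) := h2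
    rw [h3, h4]
    ring
  map_smul' c p := by
    funext i
    have h1 := ModularForm.qExpansion_smul one_pos one_mem_strictPeriods_SL c p.1
    have h2 := ModularForm.qExpansion_smul one_pos one_mem_strictPeriods_SL c p.2
    simp only [Pi.smul_apply, RingHom.id_apply]
    rw [← map_smul]
    congr 1
    have h3 : qExpansion 1 ((c • p).1) = c • qExpansion 1 (p.1 : ℍ → ℂ) := h1
    have h4 : qExpansion 1 ((c • p).2) = c • qExpansion 1 (p.2 : ℍ → ℂ) := h2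
    rw [h3, h4, smul_add, mul_smul_comm]

theorem Q_of_pair {k l : ℤ} (f : ModularForm 𝒮ℒ k) (g : ModularForm 𝒮ℒ l) :
    Q (f + E2 * g : ℍ → ℂ) (qExpansion 1 f + c2 * qExpansion 1 g) := (Q.coe f).add (Q.E2'.mul (Q.coe g))

theorem isQ1_pair {k : ℤ} (f : ModularForm 𝒮ℒ k) (g : ModularForm 𝒮ℒ (k - 2)) :
    IsQ1 k (f + E2 * g : ℍ → ℂ) := ⟨f, g, IsMF.coe f, IsMF.coe g, rfl⟩

theorem coefQ_injective (w : ℕ) (hw : Even w) (h2 : 2 ≤ w) : Function.Injective (coefQ w (dimQ w)) := by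
  rw [← LinearMap.ker_eq_bot, LinearMap.ker_eq_bot']
  rintro ⟨f, g⟩ hf
  have hQ := Q_of_pair f g
  have h1 := (isQ1_pair f g).eq_zero hQ (w / 6 + 1) (by omega) (by omega) (fun i hi =>
    congrFun hf ⟨i, by rw [dimQ_eq w hw h2]; exact hi⟩)
  rw [h1] at hQ
  have h3 := hQ.zero_of
  obtain ⟨h4, h5⟩ := zero_of_add_E2 f g (fun τ => congrFun h3 τ)
  rw [h4, h5]; rfl

theorem exists_pair (w : ℕ) (hw : Even w) (h2 : 2 ≤ w) :
    ∃ (f : ModularForm 𝒮ℒ (w : ℤ)) (g : ModularForm 𝒮ℒ ((w : ℤ) - 2)),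
      (∀ i < w / 6, (qExpansion 1 f + c2 * qExpansion 1 g).coeff i = 0) ∧
      (qExpansion 1 f + c2 * qExpansion 1 g).coeff (w / 6) = 1 := by
  have hsurj := (LinearMap.injective_iff_surjective_of_finrank_eq_finrank (f := coefQ w (dimQ w)) (by
    rw [Module.finrank_prod, Module.finrank_fin_fun, dimQ])).mp (coefQ_injective w hw h2)
  obtain ⟨⟨f, g⟩, hf⟩ := hsurj (fun i => if (i : ℕ) = w / 6 then 1 else 0)
  have hd := dimQ_eq w hw h2
  refine ⟨f, g, fun i hi => ?_, ?_⟩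
  · have := congrFun hf ⟨i, by omega⟩
    simp only [if_neg hi.ne] at this
    exact this
  · have := congrFun hf ⟨w / 6, by omega⟩
    simp only [if_true] at this
    exact this

theorem exists_ext (n : ℕ) (hn : 1 ≤ n) : ∃ X φ, Ext n X φ := by
  obtain ⟨f, g, h1, h2⟩ := exists_pair (6 * n) ⟨3 * n, by ring⟩ (by omega)
  have h6 : 6 * n / 6 = n := by omega
  rw [h6] at h1 h2
  refine ⟨_, _, ?_, Q_of_pair f g, h1, h2⟩
  have := isQ1_pair f g
  push_cast at this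
  exact this

/-! ### weights `6n + 2` and `6n + 4` -/

variable {n : ℕ} {X : ℍ → ℂ}

/-- weight `6n + 2` -/
noncomputable def X2 (n : ℕ) (X : ℍ → ℂ) : ℍ → ℂ :=
  ((12 / (6 * n + 1) : ℝ) : ℂ) • (D X - ((((6 * n - 1) / 12 : ℝ)) : ℂ) • (E2 * X))

/-- its series -/
noncomputable def s2 (n : ℕ) (φ : PowerSeries ℂ) : PowerSeries ℂ :=
  PowerSeries.C ((12 / (6 * n + 1) : ℝ) : ℂ) * (th φ - PowerSeries.C (((6 * n - 1) / 12 : ℝ) : ℂ) * (ofR r2 * φ))

theorem Ext.q2 (h : Ext n X φ) : Q (X2 n X) (s2 n φ) := (h.q.D.sub ((QE2.mul h.q).smul _)).smul _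

theorem Ext.isQ2 (h : Ext n X φ) : IsQ1 (6 * n + 2) (X2 n X) := by
  have h1 := (h.q1.ser (m := 6 * n + 2) rfl).smul ((12 / (6 * n + 1) : ℝ) : ℂ)
  have h2 : X2 n X = ((12 / (6 * n + 1) : ℝ) : ℂ) • (D X - ((((6 * n : ℤ) : ℂ) - 1) / 12) • (E2 * X)) := by
    rw [X2]; push_cast; rfl
  rw [h2]
  exact h1

theorem r2_lead (φ : PowerSeries ℂ) (n : ℕ) (h : ∀ i < n, PowerSeries.coeff i φ = 0) :
    (∀ i < n, PowerSeries.coeff i (ofR r2 * φ) = 0) ∧ PowerSeries.coeff n (ofR r2 * φ) = PowerSeries.coeff n φ := by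
  have h1 := coeff_lead (ofR r2) φ 0 n (by simp) h
  rw [zero_add] at h1
  refine ⟨h1.1, ?_⟩
  rw [h1.2, coeff_ofR]
  simp [r2]

theorem r4_lead (φ : PowerSeries ℂ) (n : ℕ) (h : ∀ i < n, PowerSeries.coeff i φ = 0) :
    (∀ i < n, PowerSeries.coeff i (ofR r4 * φ) = 0) ∧ PowerSeries.coeff n (ofR r4 * φ) = PowerSeries.coeff n φ := by
  have h1 := coeff_lead (ofR r4) φ 0 n (by simp) h
  rw [zero_add] at h1
  refine ⟨h1.1, ?_⟩
  rw [h1.2, coeff_ofR]
  simp [r4]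

theorem Ext.lead2 (h : Ext n X φ) : (∀ i < n, PowerSeries.coeff i (s2 n φ) = 0) ∧ PowerSeries.coeff n (s2 n φ) = 1 := by
  have h1 := r2_lead φ n h.z
  have hn : (6 * (n : ℂ) + 1) ≠ 0 := by
    have : ((6 * n + 1 : ℕ) : ℂ) ≠ 0 := by exact_mod_cast Nat.succ_ne_zero (6 * n)
    push_cast at this; exact this
  constructor
  · intro i hi
    rw [s2, PowerSeries.coeff_C_mul, map_sub, PowerSeries.coeff_C_mul, h1.1 i hi, coeff_th, h.z i hi]
    ring
  · rw [s2, PowerSeries.coeff_C_mul, map_sub, PowerSeries.coeff_C_mul, h1.2, coeff_th, h.o]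
    push_cast
    field_simp
    ring

theorem Ext.q4 (h : Ext n X φ) : Q ((E₄ : ℍ → ℂ) * X) (ofR r4 * φ) := QE4.mul h.q

theorem Ext.isQ4 (h : Ext n X φ) : IsQ1 (6 * n + 4) ((E₄ : ℍ → ℂ) * X) := h.q1.mulE4 rfl

/-! ### the three families -/

theorem ax_X2 (n : ℕ) (X : ℍ → ℂ) (u : ℝ) (hu : 0 < u) :
    ax (X2 n X) u = 12 / (6 * n + 1) * (ax (D X) u - (6 * n - 1) / 12 * (e u * ax X u)) := by
  rw [X2, ax_smul, ax_sub, ax_smul, ax_mul QE2 _ u hu, e]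

theorem phi0 (n : ℕ) (hn : 1 ≤ n) (y : ℝ → ℝ) (t : ℝ) (ht : 0 < t) : t ^ (6 * n - 1) * y t = Yf n y t⁻¹ := by
  obtain ⟨m, hm⟩ : ∃ m, 6 * n = m + 1 := ⟨6 * n - 1, by omega⟩
  rw [Yf, inv_inv, hm, Nat.add_sub_cancel, pow_succ]
  field_simp

theorem phi4 (n : ℕ) (y : ℝ → ℝ) (t : ℝ) (ht : 0 < t) :
    t ^ (6 * n + 3) * (a t * y t) = a t⁻¹ * Yf n y t⁻¹ := by
  have h1 := a_inv t ht
  rw [one_div] at h1
  rw [Yf, inv_inv, h1, pow_add]
  field_simp

theorem phi2 (n : ℕ) (y z : ℝ → ℝ) (t : ℝ) (ht : 0 < t) :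
    t ^ (6 * n + 1) * (12 / (6 * n + 1) * (z t - (6 * n - 1) / 12 * (e t * y t))) = PB n y z t⁻¹ := by
  have h1 := e_inv t ht
  rw [one_div] at h1
  have hpi := Real.pi_ne_zero
  rw [PB, Zf, Yf, inv_inv, h1, pow_succ]
  have hn : (6 * (n : ℝ) + 1) ≠ 0 := by positivity
  generalize t ^ (6 * n) = P
  field_simp
  ring

theorem anti_of_mono {f g : ℝ → ℝ} (hf : MonotoneOn f (Set.Ioi 0)) (h : ∀ t, 0 < t → g t = f t⁻¹)
    (s t : ℝ) (hs : 0 < s) (hst : s < t) : g t ≤ g s := by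
  have ht : 0 < t := lt_trans hs hst
  rw [h t ht, h s hs]
  refine hf (show (0:ℝ) < t⁻¹ by positivity) (show (0:ℝ) < s⁻¹ by positivity) ?_
  exact inv_anti₀ hs hst.le

/-- main theorem, for forms given by their data -/
theorem main (w : ℕ) (hw : Even w) (h6 : 6 ≤ w) (h8 : w ≠ 8) (h10 : w ≠ 10) (X : ℍ → ℂ) (φ : PowerSeries ℂ)
    (hX : IsQ1 w X) (hQ : Q X φ) (hz : ∀ i < w / 6, PowerSeries.coeff i φ = 0)
    (ho : PowerSeries.coeff (w / 6) φ = 1) :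
    (∃ r, φ = ofR r) ∧ ∀ s t : ℝ, 0 < s → s < t → t ^ (w - 1) * ax X t ≤ s ^ (w - 1) * ax X s := by
  obtain ⟨m, hm⟩ := hw
  obtain ⟨n, hn⟩ : ∃ n, n = w / 6 := ⟨_, rfl⟩
  have hn1 : 1 ≤ n := by omega
  rw [← hn] at hz ho
  have hcase : w = 6 * n ∨ w = 6 * n + 2 ∨ w = 6 * n + 4 := by omega
  rcases hcase with h | h | h
  · subst h
    have hE : Ext n X φ := ⟨by push_cast at hX; exact hX, hQ, hz, ho⟩
    refine ⟨hE.real hn1, ?_⟩
    exact anti_of_mono (hE.sys.mono0 hn1) (fun t ht => phi0 n hn1 _ t ht)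
  · have hn2 : 2 ≤ n := by omega
    subst h
    obtain ⟨X0, φ0, hE⟩ := exists_ext n hn1
    have hl := hE.lead2
    have heq : X = X2 n X0 := by
      refine IsQ1.unique (m := n + 1) (by push_cast at hX; exact hX) hE.isQ2 hQ hE.q2 (by push_cast; omega) (by omega) ?_
      intro i hi
      rcases Nat.lt_succ_iff_lt_or_eq.mp hi with h1 | h1
      · rw [hz i h1, hl.1 i h1]
      · subst h1; rw [ho, hl.2]
    constructor
    · obtain ⟨r, hr⟩ := hE.real hn1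
      have h1 : φ = s2 n φ0 := by
        rw [heq] at hQ; exact hQ.unique hE.q2
      refine ⟨PowerSeries.C (12 / (6 * n + 1) : ℝ) * (th r - PowerSeries.C ((6 * n - 1) / 12 : ℝ) * (r2 * r)), ?_⟩
      rw [h1, s2, hr, map_mul, ofR_C, map_sub, map_mul ofR (PowerSeries.C _), ofR_C, map_mul, ofR_th]
    · rw [heq]
      refine anti_of_mono (g := fun t => t ^ (6 * n + 2 - 1) * ax (X2 n X0) t) (hE.sys.mono2 hn2) (fun t ht => ?_)
      rw [ax_X2 n X0 t ht]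
      exact phi2 n _ _ t ht
  · have hn2 : 2 ≤ n := by omega
    subst h
    obtain ⟨X0, φ0, hE⟩ := exists_ext n hn1
    have hl := r4_lead φ0 n hE.z
    have heq : X = (E₄ : ℍ → ℂ) * X0 := by
      refine IsQ1.unique (m := n + 1) (by push_cast at hX; exact hX) hE.isQ4 hQ hE.q4 (by push_cast; omega) (by omega) ?_
      intro i hi
      rcases Nat.lt_succ_iff_lt_or_eq.mp hi with h1 | h1
      · rw [hz i h1, hl.1 i h1]
      · subst h1; rw [ho, hl.2, hE.o]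
    constructor
    · obtain ⟨r, hr⟩ := hE.real hn1
      have h1 : φ = ofR r4 * φ0 := by
        rw [heq] at hQ; exact hQ.unique hE.q4
      exact ⟨r4 * r, by rw [h1, hr, map_mul]⟩
    · rw [heq]
      refine anti_of_mono (g := fun t => t ^ (6 * n + 4 - 1) * ax ((E₄ : ℍ → ℂ) * X0) t) (hE.sys.mono4 hn2) (fun t ht => ?_)
      rw [ax_mul QE4 _ t ht]
      exact phi4 n _ t ht

end Pool.Agent.V11275.QM
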