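import Pool.Agent.W97.MT.Rep
import Pool.Agent.Y949.J.Ram2

/-!
Power series identities between the `q`-expansions of `E₂`, `E₄`, `E₆`, `Δ`.
-/

set_option autoImplicit false

open UpperHalfPlane hiding I
open Real Complex Filter Topology Derivative EisensteinSeries ModularForm MatrixGroups Function
open scoped Manifold MatrixGroups ModularForm

namespace Pool.Agent.V11275

open Pool.Agent.W97.MT

/-- a point of the upper half plane with given `q` -/
lemma exists_tau {q : ℂ} (h0 : q ≠ 0) (h1 : ‖q‖ < 1) : ∃ τ : ℍ, Periodic.qParam 1 (τ : ℂ) = q :=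
  ⟨⟨_, Periodic.im_invQParam_pos_of_norm_lt_one one_pos h1 h0⟩,
    Periodic.qParam_right_inv one_ne_zero h0⟩

lemma repC_zero {h : ℂ → ℂ} {φ : PowerSeries ℂ} (hf : RepC h φ) : h 0 = PowerSeries.coeff 0 φ := by
  have h1 := hf 0 (by simp)
  have h2 : HasSum (fun n : ℕ => PowerSeries.coeff n φ * (0 : ℂ) ^ n) (PowerSeries.coeff 0 φ) := by
    have := hasSum_single (f := fun n : ℕ => PowerSeries.coeff n φ * (0 : ℂ) ^ n) 0 (by
      intro n hn; simp [hn])
    simpa using this
  exact h1.unique h2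

/-- two disc functions that agree off the origin have the same series -/
lemma repC_unique' {h k : ℂ → ℂ} {φ ψ : PowerSeries ℂ} (hf : RepC h φ) (hg : RepC k ψ)
    (hhk : ∀ q : ℂ, q ≠ 0 → ‖q‖ < 1 → h q = k q) : φ = ψ := by
  have h1 := hf.analyticAt_zero.continuousAt
  have h2 := hg.analyticAt_zero.continuousAt
  have h3 : h =ᶠ[𝓝[≠] 0] k := by
    have : Metric.ball (0 : ℂ) 1 ∈ 𝓝[≠] (0 : ℂ) := mem_nhdsWithin_of_mem_nhds (Metric.ball_mem_nhds _ one_pos)
    filter_upwards [this, self_mem_nhdsWithin] with q hq hq0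
    exact hhk q hq0 (by simpa using hq)
  have h4 : h 0 = k 0 := ((h1.eventuallyEq_nhds_iff_eventuallyEq_nhdsNE h2).mp h3).eq_of_nhds
  refine hf.unique (hg.congr ?_)
  intro q hq
  by_cases h0 : q = 0
  · rw [h0, h4]
  · exact hhk q h0 hq

/-- the disc function of a modular form of level one -/
lemma repC_modularForm {k : ℤ} (f : ModularForm 𝒮ℒ k) :
    RepC (cuspFunction 1 f) (qExpansion 1 f) := by
  intro q hq
  have h1 := UpperHalfPlane.hasSum_qExpansion_of_norm_lt (f := f) one_pos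
    (SlashInvariantFormClass.periodic_comp_ofComplex f one_mem_strictPeriods_SL)
    (ModularFormClass.holo f) (ModularFormClass.bdd_at_infty f) hq
  simpa [smul_eq_mul] using h1

lemma cusp_eq {k : ℤ} (f : ModularForm 𝒮ℒ k) (τ : ℍ) :
    cuspFunction 1 f (Periodic.qParam 1 τ) = f τ :=
  SlashInvariantFormClass.eq_cuspFunction f τ one_mem_strictPeriods_SL one_ne_zero

/-- coefficients of `E₂` -/
noncomputable def c2 : PowerSeries ℂ :=
  PowerSeries.mk fun m : ℕ => if m = 0 then (1 : ℂ) else -24 * (ArithmeticFunction.sigma 1 m : ℂ)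

/-- the disc function of `E₂` -/
noncomputable def g2 (q : ℂ) : ℂ := ∑' m : ℕ, PowerSeries.coeff m c2 * q ^ m

lemma qp (τ : ℍ) : Periodic.qParam 1 (τ : ℂ) = cexp (2 * π * I * τ) := by
  simp [Periodic.qParam]

lemma g2_rep : RepC g2 c2 := by
  intro q hq
  refine Summable.hasSum ?_
  by_cases h0 : q = 0
  · subst h0
    refine summable_of_ne_finset_zero (s := {0}) ?_
    intro m hm
    have : m ≠ 0 := by simpa using hm
    simp [this]
  · obtain ⟨τ, hτ⟩ := exists_tau h0 hq
    have := (hasSum_qExpansion_E2 (z := τ)).summable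
    refine this.congr ?_
    intro m
    rw [← qp, hτ, c2, PowerSeries.coeff_mk, smul_eq_mul]

lemma g2_eq (τ : ℍ) : g2 (Periodic.qParam 1 τ) = E2 τ := by
  have h1 := hasSum_qExpansion_E2 (z := τ)
  have h2 := g2_rep (Periodic.qParam 1 τ) (Periodic.norm_qParam_lt_one one_pos τ.im_pos)
  refine h2.unique ?_
  convert! h1 using 2 with m
  rw [c2, PowerSeries.coeff_mk, smul_eq_mul, qp]

/-- the normalized derivative in terms of the disc function -/
lemma D_eq {k : ℤ} (f : ModularForm 𝒮ℒ k) (τ : ℍ) :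
    D (fun w => f w) τ = Periodic.qParam 1 τ * deriv (cuspFunction 1 f) (Periodic.qParam 1 τ) := by
  have hq1 : ‖Periodic.qParam 1 (τ : ℂ)‖ < 1 := Periodic.norm_qParam_lt_one one_pos τ.im_pos
  have hd : DifferentiableAt ℂ (cuspFunction 1 f) (Periodic.qParam 1 τ) :=
    ModularFormClass.differentiableAt_cuspFunction f one_pos one_mem_strictPeriods_SL hq1
  have hq : HasDerivAt (fun w : ℂ => Periodic.qParam 1 w)
      (2 * π * I * Periodic.qParam 1 τ) (τ : ℂ) := by
    have h1 : HasDerivAt (fun w : ℂ => cexp (2 * π * I * w / (1 : ℝ)))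
        (cexp (2 * π * I * (τ : ℂ) / (1 : ℝ)) * (2 * π * I * 1 / (1 : ℝ))) (τ : ℂ) := by
      apply HasDerivAt.cexp
      exact (((hasDerivAt_id (τ : ℂ)).const_mul (2 * π * I)).div_const _)
    have h2 : (2 * π * I * Periodic.qParam 1 τ : ℂ) =
        cexp (2 * π * I * (τ : ℂ) / (1 : ℝ)) * (2 * π * I * 1 / (1 : ℝ)) := by
      rw [Periodic.qParam]; push_cast; ring
    rw [h2]
    exact h1
  have h3 : ((fun w : ℍ => f w) ∘ ofComplex) =ᶠ[𝓝 (τ : ℂ)]
      fun w => cuspFunction 1 f (Periodic.qParam 1 w) := by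
    filter_upwards [isOpen_upperHalfPlaneSet.mem_nhds τ.im_pos] with w hw
    have hw' : 0 < w.im := hw
    have := cusp_eq f ⟨w, hw'⟩
    simp only [Function.comp_apply, ofComplex_apply_of_im_pos hw']
    exact this.symm
  unfold normalizedDerivOfComplex
  rw [h3.deriv_eq]
  have h4 := (hd.hasDerivAt.comp (τ : ℂ) hq).deriv
  have h5 : (fun w => cuspFunction 1 f (Periodic.qParam 1 w)) =
    (cuspFunction 1 f) ∘ (fun w : ℂ => Periodic.qParam 1 w) := rfl
  rw [h5, h4]
  have hpi : (π : ℂ) ≠ 0 := by exact_mod_cast Real.pi_ne_zero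
  field_simp

/-- abbreviation: the formal operator `q d/dq` -/
noncomputable def th {R : Type*} [CommSemiring R] (φ : PowerSeries R) : PowerSeries R :=
  PowerSeries.X * PowerSeries.derivative R φ

lemma coeff_th {R : Type*} [CommSemiring R] (φ : PowerSeries R) (n : ℕ) :
    PowerSeries.coeff n (th φ) = n * PowerSeries.coeff n φ := by
  unfold th
  rcases n with _ | n
  · simp
  · rw [PowerSeries.coeff_succ_X_mul, PowerSeries.coeff_derivative]
    push_cast; ring

theorem ram4_series : th (qExpansion 1 E₄) =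
    PowerSeries.C (3⁻¹ : ℂ) * (c2 * qExpansion 1 E₄ - qExpansion 1 E₆) := by
  refine repC_unique' (repC_modularForm E₄).theta
    ((RepC.C (3⁻¹ : ℂ)).mul ((g2_rep.mul (repC_modularForm E₄)).sub (repC_modularForm E₆))) ?_
  intro q h0 h1
  obtain ⟨τ, rfl⟩ := exists_tau h0 h1
  rw [← D_eq E₄ τ, Pool.Agent.Y949.J.ram4, g2_eq, cusp_eq, cusp_eq]

theorem ram6_series : th (qExpansion 1 E₆) =
    PowerSeries.C (2⁻¹ : ℂ) * (c2 * qExpansion 1 E₆ - (qExpansion 1 E₄) ^ 2) := by
  refine repC_unique' (repC_modularForm E₆).theta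
    ((RepC.C (2⁻¹ : ℂ)).mul ((g2_rep.mul (repC_modularForm E₆)).sub ((repC_modularForm E₄).pow 2))) ?_
  intro q h0 h1
  obtain ⟨τ, rfl⟩ := exists_tau h0 h1
  rw [← D_eq E₆ τ, Pool.Agent.Y949.J.ram6, g2_eq, cusp_eq, cusp_eq]

/-! ### real series -/

/-- `E₂` -/
noncomputable def r2 : PowerSeries ℝ :=
  PowerSeries.mk fun m : ℕ => if m = 0 then (1 : ℝ) else -24 * (ArithmeticFunction.sigma 1 m : ℝ)

/-- `E₄` -/
noncomputable def r4 : PowerSeries ℝ :=
  PowerSeries.mk fun m : ℕ => if m = 0 then (1 : ℝ) else 240 * (ArithmeticFunction.sigma 3 m : ℝ)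

/-- `E₆` -/
noncomputable def r6 : PowerSeries ℝ :=
  PowerSeries.mk fun m : ℕ => if m = 0 then (1 : ℝ) else -504 * (ArithmeticFunction.sigma 5 m : ℝ)

/-- the coefficient map -/
noncomputable def ofR : PowerSeries ℝ →+* PowerSeries ℂ := PowerSeries.map (Complex.ofRealHom)

lemma coeff_ofR (φ : PowerSeries ℝ) (n : ℕ) :
    PowerSeries.coeff n (ofR φ) = ((PowerSeries.coeff n φ : ℝ) : ℂ) := by
  unfold ofR
  rw [PowerSeries.coeff_map]; rfl

lemma ofR_injective : Function.Injective ofR := PowerSeries.map_injective _ Complex.ofReal_injective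

lemma ofR_r2 : ofR r2 = c2 := by
  ext n
  rw [coeff_ofR, r2, c2, PowerSeries.coeff_mk, PowerSeries.coeff_mk]
  split_ifs <;> push_cast <;> rfl

lemma bern4 : bernoulli 4 = -1 / 30 := by decide +kernel

lemma bern6 : bernoulli 6 = 1 / 42 := by decide +kernel

lemma ofR_r4 : ofR r4 = qExpansion 1 E₄ := by
  ext n
  rw [coeff_ofR, r4, PowerSeries.coeff_mk, EisensteinSeries.E_qExpansion_coeff _ ⟨2, rfl⟩, bern4]
  split_ifs
  · simp
  · push_cast; norm_num

lemma ofR_r6 : ofR r6 = qExpansion 1 E₆ := by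
  ext n
  rw [coeff_ofR, r6, PowerSeries.coeff_mk, EisensteinSeries.E_qExpansion_coeff _ ⟨3, rfl⟩, bern6]
  split_ifs
  · simp
  · push_cast; norm_num

lemma ofR_th (φ : PowerSeries ℝ) : ofR (th φ) = th (ofR φ) := by
  ext n
  rw [coeff_ofR, coeff_th, coeff_th, coeff_ofR]
  push_cast; rfl

lemma ofR_C (a : ℝ) : ofR (PowerSeries.C a) = PowerSeries.C (a : ℂ) := by
  unfold ofR
  rw [PowerSeries.map_C]; rfl

theorem th_r4 : th r4 = PowerSeries.C (3⁻¹ : ℝ) * (r2 * r4 - r6) := by
  apply ofR_injective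
  rw [ofR_th, map_mul, map_sub, map_mul, ofR_r2, ofR_r4, ofR_r6, ofR_C, ram4_series]
  push_cast; rfl

theorem th_r6 : th r6 = PowerSeries.C (2⁻¹ : ℝ) * (r2 * r6 - r4 ^ 2) := by
  apply ofR_injective
  rw [ofR_th, map_mul, map_sub, map_mul, map_pow, ofR_r2, ofR_r4, ofR_r6, ofR_C, ram6_series]
  push_cast; rfl

end Pool.Agent.V11275
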