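import Pool.Agent.Helper717.Hull2

/-!
Strictly convex polygons in the plane, quadrants and quadrisections: basic facts.
-/

set_option autoImplicit false

namespace Pool.V11275.Quad

open MeasureTheory Set Pool.Agent.Helper717.Hull1 Pool.Agent.Helper717.Hull2
open scoped ENNReal

/-- Dot product in the plane. -/
def dot (a x : E2) : ℝ := a 0 * x 0 + a 1 * x 1

/-- Rotation by a right angle. -/
noncomputable def rot (u : E2) : E2 := !₂[-u 1, u 0]

/-- The line through `P` with direction `u`. -/
def line (P u : E2) : Set E2 := {x | ∃ s : ℝ, x = P + s • u}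

/-- The closed quadrant with apex `P` spanned by `u` and `rot u`. -/
def quad (P u : E2) : Set E2 := {x | ∃ a b : ℝ, 0 ≤ a ∧ 0 ≤ b ∧ x = P + a • u + b • rot u}

/-- Quadrisections of `R` by two perpendicular lines. -/
def IsQuadrisection (R : Set E2) (q : Set (Set E2)) : Prop :=
  ∃ P u : E2, P ∈ interior R ∧ u ≠ 0 ∧ q = {line P u, line P (rot u)} ∧
    ∀ k : ℕ, volume (R ∩ quad P (rot^[k] u)) = volume R / 4

/-- Convex polygons with exactly `m` vertices. -/
def IsGon (m : ℕ) (R : Set E2) : Prop :=
  (∃ V : Set E2, V.Finite ∧ R = convexHull ℝ V) ∧ (R.extremePoints ℝ).ncard = m ∧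
    (interior R).Nonempty

@[simp] lemma rot_zero (u : E2) : rot u 0 = -u 1 := rfl
@[simp] lemma rot_one (u : E2) : rot u 1 = u 0 := rfl

lemma ext2 {x y : E2} (h0 : x 0 = y 0) (h1 : x 1 = y 1) : x = y := by
  ext i; fin_cases i <;> assumption

lemma rot_rot (u : E2) : rot (rot u) = -u := by
  apply ext2 <;> simp

lemma rot_ne {u : E2} (h : u ≠ 0) : rot u ≠ 0 := by
  intro h1
  apply h
  have e0 := congrFun (congrArg (fun x : E2 => (x : Fin 2 → ℝ)) h1) 0
  have e1 := congrFun (congrArg (fun x : E2 => (x : Fin 2 → ℝ)) h1) 1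
  simp at e0 e1
  apply ext2 <;> simp [e0, e1]

lemma dot_self_pos {u : E2} (h : u ≠ 0) : 0 < dot u u := by
  unfold dot
  by_contra h1
  apply h
  have a0 : u 0 = 0 := by nlinarith [mul_self_nonneg (u 0), mul_self_nonneg (u 1)]
  have a1 : u 1 = 0 := by nlinarith [mul_self_nonneg (u 0), mul_self_nonneg (u 1)]
  apply ext2 <;> simp [a0, a1]

lemma quad_iff (P u x : E2) (hu : u ≠ 0) :
    x ∈ quad P u ↔ 0 ≤ dot u (x - P) ∧ 0 ≤ dot (rot u) (x - P) := by
  have h := dot_self_pos hu
  constructor
  · rintro ⟨a, b, ha, hb, rfl⟩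
    have e1 : dot u (P + a • u + b • rot u - P) = a * dot u u := by
      simp [dot]; ring
    have e2 : dot (rot u) (P + a • u + b • rot u - P) = b * dot u u := by
      simp [dot]; ring
    rw [e1, e2]
    exact ⟨by positivity, by positivity⟩
  · rintro ⟨h1, h2⟩
    refine ⟨dot u (x - P) / dot u u, dot (rot u) (x - P) / dot u u, div_nonneg h1 h.le,
      div_nonneg h2 h.le, ?_⟩
    have k0 : x 0 * dot u u = P 0 * dot u u + dot u (x - P) * u 0 +
        dot (rot u) (x - P) * (-u 1) := by simp [dot]; ring
    have k1 : x 1 * dot u u = P 1 * dot u u + dot u (x - P) * u 1 +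
        dot (rot u) (x - P) * u 0 := by simp [dot]; ring
    have hD := h.ne'
    apply ext2
    · simp only [PiLp.add_apply, PiLp.smul_apply, smul_eq_mul, rot_zero]
      generalize dot u u = D at *
      field_simp
      linarith
    · simp only [PiLp.add_apply, PiLp.smul_apply, smul_eq_mul, rot_one]
      generalize dot u u = D at *
      field_simp
      linarith

lemma rot_iter_four (u : E2) (k : ℕ) : rot^[k + 4] u = rot^[k] u := by
  rw [add_comm, Function.iterate_add_apply]
  simp only [Function.iterate_succ, Function.iterate_zero, Function.comp_apply, id_eq]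
  rw [rot_rot, rot_rot, neg_neg]

/-- The four quadrants. -/
lemma four_cases (Q : E2 → Prop) (u : E2) (h0 : Q u) (h1 : Q (rot u)) (h2 : Q (-u))
    (h3 : Q (-rot u)) (k : ℕ) : Q (rot^[k] u) := by
  induction k using Nat.strong_induction_on with
  | _ k ih =>
    rcases Nat.lt_or_ge k 4 with h | h
    · interval_cases k
      · exact h0
      · exact h1
      · show Q (rot (rot u)); rw [rot_rot]; exact h2
      · show Q (rot (rot (rot u))); rw [rot_rot]; exact h3
    · obtain ⟨j, rfl⟩ := Nat.exists_eq_add_of_le h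
      rw [add_comm, rot_iter_four]
      exact ih j (by omega)

lemma null_level (a : E2) (ha : a ≠ 0) (c : ℝ) : volume {x : E2 | dot a x = c} = 0 := by
  have h := dot_self_pos ha
  set p : E2 := (c / dot a a) • a with hp
  have hpp : dot a p = c := by
    have : dot a p = (c / dot a a) * dot a a := by simp [hp, dot]; ring
    rw [this]; field_simp
  have hne : p ≠ p + rot a := by
    intro e
    have : rot a = 0 := by simpa using e.symm
    exact rot_ne ha this
  refine measure_mono_null ?_ (line_null p (p + rot a) hne)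
  intro q hq
  simp only [mem_ofPred_eq] at hq ⊢
  have : orient p (p + rot a) q = -(dot a q - dot a p) := by
    simp [orient, dot]; ring
  rw [this, hq, hpp]; ring

lemma continuous_dot (a : E2) : Continuous (fun x : E2 => dot a x) := by
  unfold dot; fun_prop

lemma continuous_orient (a b : E2) : Continuous (fun x : E2 => orient a b x) := by
  unfold orient; fun_prop

/-- Volume is additive over the four quadrants. -/
lemma vol_quads (R : Set E2) (P u : E2) (hu : u ≠ 0) :
    volume R = volume (R ∩ quad P u) + volume (R ∩ quad P (rot u)) +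
      volume (R ∩ quad P (-u)) + volume (R ∩ quad P (-rot u)) := by
  have hu' := rot_ne hu
  set f : E2 → ℝ := fun x => dot u (x - P) with hf
  set g : E2 → ℝ := fun x => dot (rot u) (x - P) with hg
  have hfc : Continuous f := by simp only [hf, dot]; fun_prop
  have hgc : Continuous g := by simp only [hg, dot]; fun_prop
  have mf : MeasurableSet {x | 0 ≤ f x} := (isClosed_le continuous_const hfc).measurableSet
  have mg : MeasurableSet {x | 0 ≤ g x} := (isClosed_le continuous_const hgc).measurableSet
  have q0 : quad P u = {x | 0 ≤ f x} ∩ {x | 0 ≤ g x} := by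
    ext x; rw [quad_iff _ _ _ hu]; rfl
  have q1 : quad P (rot u) = {x | f x ≤ 0} ∩ {x | 0 ≤ g x} := by
    ext x; rw [quad_iff _ _ _ hu', rot_rot]
    simp only [mem_inter_iff, mem_ofPred_eq, hf, hg, dot, PiLp.neg_apply]
    constructor
    · rintro ⟨h1, h2⟩; exact ⟨by linarith, by linarith⟩
    · rintro ⟨h1, h2⟩; exact ⟨by linarith, by linarith⟩
  have hrn : rot (-u) = -rot u := by apply ext2 <;> simp
  have q2 : quad P (-u) = {x | f x ≤ 0} ∩ {x | g x ≤ 0} := by
    ext x; rw [quad_iff _ _ _ (neg_ne_zero.2 hu), hrn]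
    simp only [mem_inter_iff, mem_ofPred_eq, hf, hg, dot, PiLp.neg_apply]
    constructor
    · rintro ⟨h1, h2⟩; exact ⟨by linarith, by linarith⟩
    · rintro ⟨h1, h2⟩; exact ⟨by linarith, by linarith⟩
  have hrr : rot (-rot u) = u := by apply ext2 <;> simp
  have q3 : quad P (-rot u) = {x | 0 ≤ f x} ∩ {x | g x ≤ 0} := by
    ext x; rw [quad_iff _ _ _ (neg_ne_zero.2 hu'), hrr]
    simp only [mem_inter_iff, mem_ofPred_eq, hf, hg, dot, PiLp.neg_apply]
    constructor
    · rintro ⟨h1, h2⟩; exact ⟨by linarith, by linarith⟩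
    · rintro ⟨h1, h2⟩; exact ⟨by linarith, by linarith⟩
  have nf : volume {x | f x = 0} = 0 := by
    have : {x | f x = 0} = {x | dot u x = dot u P} := by
      ext x; simp only [mem_ofPred_eq, hf, dot, PiLp.sub_apply]
      constructor <;> intro h <;> linarith
    rw [this]; exact null_level u hu _
  have ng : volume {x | g x = 0} = 0 := by
    have : {x | g x = 0} = {x | dot (rot u) x = dot (rot u) P} := by
      ext x; simp only [mem_ofPred_eq, hg, dot, PiLp.sub_apply]
      constructor <;> intro h <;> linarith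
    rw [this]; exact null_level _ hu' _
  have key : ∀ (T : Set E2) (φ : E2 → ℝ), MeasurableSet {x | 0 ≤ φ x} →
      volume {x | φ x = 0} = 0 →
      volume T = volume (T ∩ {x | 0 ≤ φ x}) + volume (T ∩ {x | φ x ≤ 0}) := by
    intro T φ hφ hn
    rw [← measure_inter_add_sdiff T hφ]
    congr 1
    apply le_antisymm
    · apply measure_mono
      rintro x ⟨h1, h2⟩
      simp only [mem_ofPred_eq, not_le] at h2
      exact ⟨h1, h2.le⟩
    · have hsub : T ∩ {x | φ x ≤ 0} ⊆ (T \ {x | 0 ≤ φ x}) ∪ {x | φ x = 0} := by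
        rintro x ⟨h1, h2⟩
        simp only [mem_ofPred_eq] at h2
        rcases h2.lt_or_eq with h | h
        · left; exact ⟨h1, by simp only [mem_ofPred_eq, not_le]; exact h⟩
        · right; exact h
      calc volume (T ∩ {x | φ x ≤ 0}) ≤ volume ((T \ {x | 0 ≤ φ x}) ∪ {x | φ x = 0}) :=
            measure_mono hsub
        _ ≤ volume (T \ {x | 0 ≤ φ x}) + volume {x | φ x = 0} := measure_union_le _ _
        _ = volume (T \ {x | 0 ≤ φ x}) := by rw [hn, add_zero]
  rw [key R f mf nf, key (R ∩ {x | 0 ≤ f x}) g mg ng, key (R ∩ {x | f x ≤ 0}) g mg ng, q0, q1, q2,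
    q3]
  simp only [inter_assoc]
  ring

/-- Strictly convex closed polygonal chains. -/
structure SCP (m : ℕ) (v : ℕ → E2) : Prop where
  three : 3 ≤ m
  closed : v m = v 0
  pos : ∀ i < m, ∀ k < m, k ≠ i → k ≠ i + 1 → ¬ (i + 1 = m ∧ k = 0) →
    0 < orient (v i) (v (i + 1)) (v k)

/-- The polygon. -/
def poly (m : ℕ) (v : ℕ → E2) : Set E2 := convexHull ℝ (v '' {k | k < m})

lemma poly_finite (m : ℕ) (v : ℕ → E2) : (v '' {k | k < m}).Finite :=
  (Set.finite_lt_nat m).image v

lemma poly_compact (m : ℕ) (v : ℕ → E2) : IsCompact (poly m v) :=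
  (poly_finite m v).isCompact_convexHull (𝕜 := ℝ)

lemma poly_meas (m : ℕ) (v : ℕ → E2) : MeasurableSet (poly m v) :=
  (poly_compact m v).isClosed.measurableSet

lemma poly_vertex {m : ℕ} {v : ℕ → E2} {k : ℕ} (hk : k < m) : v k ∈ poly m v :=
  subset_convexHull _ _ ⟨k, hk, rfl⟩

variable {m : ℕ} {v : ℕ → E2}

lemma SCP.edge_vertex (h : SCP m v) (i : ℕ) (hi : i < m) (k : ℕ) (hk : k < m) :
    0 ≤ orient (v i) (v (i + 1)) (v k) := by
  by_cases h1 : k = i
  · subst h1; rw [or_self3]
  · by_cases h2 : k = i + 1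
    · subst h2; rw [or_self2]
    · by_cases h3 : i + 1 = m ∧ k = 0
      · obtain ⟨h4, h5⟩ := h3
        subst h5
        rw [h4, h.closed, or_self2]
      · exact (h.pos i hi k hk h1 h2 h3).le

lemma SCP.edge_nonneg (h : SCP m v) (i : ℕ) (hi : i < m) {x : E2} (hx : x ∈ poly m v) :
    0 ≤ orient (v i) (v (i + 1)) x := by
  have : poly m v ⊆ {q : E2 | 0 ≤ orient (v i) (v (i + 1)) q} := by
    apply convexHull_min _ (half_convex _ _)
    rintro _ ⟨k, hk, rfl⟩
    exact h.edge_vertex i hi k hk
  exact this hx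

/-- Every point on the right side of all edges lies in one of the fan triangles. -/
lemma SCP.fan (h : SCP m v) {x : E2} (hx : ∀ i < m, 0 ≤ orient (v i) (v (i + 1)) x) :
    ∃ j, 1 ≤ j ∧ j + 1 < m ∧ x ∈ convexHull ℝ ({v 0, v j, v (j + 1)} : Set E2) := by
  have hm := h.three
  have h1 : 0 ≤ orient (v 0) (v 1) x := hx 0 (by omega)
  have hlast : orient (v 0) (v (m - 1)) x ≤ 0 := by
    have h2 := hx (m - 1) (by omega)
    have e : m - 1 + 1 = m := by omega
    rw [e, h.closed, or_swap] at h2
    linarith
  have key : ∀ n, 1 ≤ n → n < m → orient (v 0) (v n) x ≤ 0 →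
      ∃ j, 1 ≤ j ∧ j + 1 < m ∧ 0 ≤ orient (v 0) (v j) x ∧ orient (v 0) (v (j + 1)) x ≤ 0 := by
    intro n hn
    induction n, hn using Nat.le_induction with
    | base =>
      intro _ h3
      have h4 : orient (v 0) (v 1) x = 0 := le_antisymm h3 h1
      -- then either n = 1 itself works with j = 1 when the next is nonpositive
      by_cases h5 : orient (v 0) (v 2) x ≤ 0
      · exact ⟨1, le_refl _, by omega, h4.ge, h5⟩
      · push Not at h5
        exfalso
        -- x on the line v 0 v 1, edge v 1 v 2 and edge (m-1) force a contradiction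
        have h6 := hx 1 (by omega)
        have h7 := hx (m - 1) (by omega)
        have e : m - 1 + 1 = m := by omega
        rw [e, h.closed] at h7
        -- x = v 0 + s (v 1 - v 0); s > 0 would give orient v0 v2 x < 0
        have hT : 0 < orient (v 0) (v 1) (v 2) := h.pos 0 (by omega) 2 (by omega) (by omega)
          (by omega) (by omega)
        have hT' : 0 < orient (v (m - 1)) (v 0) (v 1) := by
          have := h.pos (m - 1) (by omega) 1 (by omega) (by omega) (by omega) (by omega)
          rwa [e, h.closed] at this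
        have hb := bary (v 0) (v 1) (v 2) x hT.ne'
        set s := orient (v 2) (v 0) x / orient (v 0) (v 1) (v 2) with hs
        have hs0 : s < 0 := by
          rw [hs, or_swap]
          apply div_neg_of_neg_of_pos _ hT
          linarith
        have hsum := or_sum (v 0) (v 1) (v 2) x
        have hr : orient (v 1) (v 2) x / orient (v 0) (v 1) (v 2) = 1 - s := by
          rw [hs]; field_simp; linarith
        rw [h4, zero_div, zero_smul, add_zero, hr] at hb
        have : orient (v (m - 1)) (v 0) x = s * orient (v (m - 1)) (v 0) (v 1) := by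
          rw [hb, or_affine _ _ _ _ _ _ (by ring), or_self2]; ring
        rw [this] at h7
        nlinarith
    | succ n hn ih =>
      intro h2 h3
      by_cases h4 : orient (v 0) (v n) x ≤ 0
      · exact ih (by omega) h4
      · push Not at h4
        exact ⟨n, hn, h2, h4.le, h3⟩
  obtain ⟨j, hj1, hj2, hj3, hj4⟩ := key (m - 1) (by omega) (by omega) hlast
  refine ⟨j, hj1, hj2, ?_⟩
  have hT : 0 < orient (v 0) (v j) (v (j + 1)) := by
    have := h.pos j (by omega) 0 (by omega) (by omega) (by omega) (by omega)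
    rwa [← or_cyc]
  rw [tri_iff _ _ _ _ hT]
  refine ⟨hj3, hx j (by omega), ?_⟩
  rw [or_swap]; linarith

lemma SCP.tri_subset (_h : SCP m v) {j : ℕ} (hj : j + 1 < m) :
    convexHull ℝ ({v 0, v j, v (j + 1)} : Set E2) ⊆ poly m v := by
  apply convexHull_mono
  rintro x hx
  simp only [mem_insert_iff, mem_singleton_iff] at hx
  rcases hx with rfl | rfl | rfl
  · exact ⟨0, by simp only [mem_ofPred_eq]; omega, rfl⟩
  · exact ⟨j, by simp only [mem_ofPred_eq]; omega, rfl⟩
  · exact ⟨j + 1, by simp only [mem_ofPred_eq]; omega, rfl⟩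

lemma SCP.mem_iff (h : SCP m v) (x : E2) :
    x ∈ poly m v ↔ ∀ i < m, 0 ≤ orient (v i) (v (i + 1)) x := by
  constructor
  · intro hx i hi
    exact h.edge_nonneg i hi hx
  · intro hx
    obtain ⟨j, _, hj2, hj3⟩ := h.fan hx
    exact h.tri_subset hj2 hj3

lemma SCP.interior_of (h : SCP m v) {x : E2} (hx : ∀ i < m, 0 < orient (v i) (v (i + 1)) x) :
    x ∈ interior (poly m v) := by
  rw [mem_interior]
  refine ⟨⋂ i ∈ {k | k < m}, {y | 0 < orient (v i) (v (i + 1)) y}, ?_, ?_, ?_⟩
  · intro y hy
    rw [h.mem_iff]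
    intro i hi
    simp only [mem_iInter, mem_ofPred_eq] at hy
    exact (hy i hi).le
  · exact (Set.finite_lt_nat m).isOpen_biInter
      (fun i _ => isOpen_lt continuous_const (continuous_orient _ _))
  · simp only [mem_iInter, mem_ofPred_eq]
    exact hx

lemma SCP.inj (h : SCP m v) : InjOn v {k | k < m} := by
  have hm := h.three
  have key : ∀ i k, i < k → k < m → v i ≠ v k := by
    intro i k hik hk e
    by_cases h1 : k = i + 1
    · subst h1
      -- pick a third vertex
      have : ∃ l, l < m ∧ l ≠ i ∧ l ≠ i + 1 ∧ ¬ (i + 1 = m ∧ l = 0) := by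
        rcases Nat.eq_zero_or_pos i with h0 | h0
        · exact ⟨2, by omega, by omega, by omega, by omega⟩
        · exact ⟨0, by omega, by omega, by omega, by omega⟩
      obtain ⟨l, hl, hl1, hl2, hl3⟩ := this
      have := h.pos i (by omega) l hl hl1 hl2 hl3
      rw [← e, or_self1] at this
      exact lt_irrefl _ this
    · have := h.pos i (by omega) k hk (by omega) h1 (by omega)
      rw [← e, or_self3] at this
      exact lt_irrefl _ this
  intro i hi k hk e
  rcases lt_trichotomy i k with h1 | h1 | h1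
  · exact absurd e (key i k h1 hk)
  · exact h1
  · exact absurd e.symm (key k i h1 hi)

lemma openSeg_zero {L : E2 → ℝ} (hL : ∀ (p q : E2) (s t : ℝ), s + t = 1 →
    L (s • p + t • q) = s * L p + t * L q) {p q x : E2} (hp : 0 ≤ L p) (hq : 0 ≤ L q)
    (hx : L x = 0) (h : x ∈ openSegment ℝ p q) : L p = 0 ∧ L q = 0 := by
  obtain ⟨s, t, hs, ht, hst, rfl⟩ := h
  rw [hL p q s t hst] at hx
  constructor
  · nlinarith [mul_nonneg hs.le hp, mul_nonneg ht.le hq]
  · nlinarith [mul_nonneg hs.le hp, mul_nonneg ht.le hq]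

lemma SCP.vertex_extreme (h : SCP m v) {k : ℕ} (hk : k < m) :
    v k ∈ (poly m v).extremePoints ℝ := by
  have hm := h.three
  obtain ⟨a, ha1, ha2⟩ : ∃ a : E2, (∀ x ∈ poly m v, 0 ≤ orient a (v k) x) ∧
      0 < orient a (v k) (v (k + 1)) := by
    rcases Nat.eq_zero_or_pos k with h0 | h0
    · subst h0
      refine ⟨v (m - 1), ?_, ?_⟩
      · intro x hx
        have := h.edge_nonneg (m - 1) (by omega) hx
        have e : m - 1 + 1 = m := by omega
        rwa [e, h.closed] at this
      · have := h.pos (m - 1) (by omega) 1 (by omega) (by omega) (by omega) (by omega)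
        have e : m - 1 + 1 = m := by omega
        rwa [e, h.closed] at this
    · refine ⟨v (k - 1), ?_, ?_⟩
      · intro x hx
        have := h.edge_nonneg (k - 1) (by omega) hx
        have e : k - 1 + 1 = k := by omega
        rwa [e] at this
      · have e : k - 1 + 1 = k := by omega
        rcases Nat.lt_or_ge (k + 1) m with h1 | h1
        · have := h.pos (k - 1) (by omega) (k + 1) h1 (by omega) (by omega) (by omega)
          rwa [e] at this
        · have e2 : k + 1 = m := by omega
          have := h.pos (k - 1) (by omega) 0 (by omega) (by omega) (by omega) (by omega)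
          rw [e] at this
          rwa [e2, h.closed]
  rw [mem_extremePoints]
  refine ⟨poly_vertex hk, ?_⟩
  intro p hp q hq hpq
  have h1 := openSeg_zero (L := fun x => orient a (v k) x) (fun p q s t hst =>
    or_affine _ _ p q s t hst) (ha1 p hp) (ha1 q hq) (or_self2 _ _) hpq
  have h2 := openSeg_zero (L := fun x => orient (v k) (v (k + 1)) x) (fun p q s t hst =>
    or_affine _ _ p q s t hst) (h.edge_nonneg k hk hp) (h.edge_nonneg k hk hq) (or_self3 _ _) hpq
  have key : ∀ x, orient a (v k) x = 0 → orient (v k) (v (k + 1)) x = 0 → x = v k := by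
    intro x e1 e2
    have hb := bary a (v k) (v (k + 1)) x ha2.ne'
    have hsum := or_sum a (v k) (v (k + 1)) x
    rw [e1, e2, zero_add, zero_add] at hsum
    rw [e1, e2, hsum, div_self ha2.ne', zero_div, zero_smul, zero_smul, one_smul, zero_add,
      add_zero] at hb
    exact hb
  exact ⟨key p h1.1 h2.1, key q h1.2 h2.2⟩

lemma SCP.extreme (h : SCP m v) : (poly m v).extremePoints ℝ = v '' {k | k < m} := by
  apply Subset.antisymm
  · exact extremePoints_convexHull_subset
  · rintro _ ⟨k, hk, rfl⟩
    exact h.vertex_extreme hk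

lemma SCP.isGon (h : SCP m v) (hi : (interior (poly m v)).Nonempty) : IsGon m (poly m v) := by
  refine ⟨⟨_, poly_finite m v, rfl⟩, ?_, hi⟩
  rw [h.extreme, h.inj.ncard_image]
  have : {k : ℕ | k < m} = ((Finset.range m : Finset ℕ) : Set ℕ) := by
    ext k; simp
  rw [this, ncard_coe_finset, Finset.card_range]

/-- Distinct slopes in `(-1,1)` give distinct pairs of perpendicular lines. -/
lemma slope_inj {P P' : E2} {t t' : ℝ} (ht : |t| < 1) (ht' : |t'| < 1)
    (h : ({line P !₂[1, t], line P (rot !₂[1, t])} : Set (Set E2)) =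
      {line P' !₂[1, t'], line P' (rot !₂[1, t'])}) : t = t' := by
  have hmem : line P !₂[1, t] ∈ ({line P' !₂[1, t'], line P' (rot !₂[1, t'])} : Set (Set E2)) := by
    rw [← h]; exact mem_insert _ _
  have gen : ∀ w : E2, line P !₂[1, t] = line P' w → w 1 = t * w 0 := by
    intro w hw
    have a1 : P ∈ line P' w := by rw [← hw]; exact ⟨0, by simp⟩
    have a2 : P + (1 : ℝ) • !₂[1, t] ∈ line P' w := by rw [← hw]; exact ⟨1, rfl⟩
    obtain ⟨s1, e1⟩ := a1
    obtain ⟨s2, e2⟩ := a2
    have e3 : (!₂[1, t] : E2) = (s2 - s1) • w := by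
      rw [e1] at e2
      have : (1 : ℝ) • (!₂[1, t] : E2) = (s2 - s1) • w := by
        rw [sub_smul]
        have := congrArg (fun z => z - (P' + s1 • w)) e2
        simp only [add_sub_cancel_left] at this
        rw [this]; abel
      rwa [one_smul] at this
    have f0 := congrFun (congrArg (fun x : E2 => (x : Fin 2 → ℝ)) e3) 0
    have f1 := congrFun (congrArg (fun x : E2 => (x : Fin 2 → ℝ)) e3) 1
    simp at f0 f1
    linear_combination (w 1) * f0 - (w 0) * f1
  rw [mem_insert_iff, mem_singleton_iff] at hmem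
  rcases hmem with h1 | h1
  · have := gen _ h1
    simp at this
    exact this.symm
  · have := gen _ h1
    simp at this
    -- 1 = t * (-t')
    exfalso
    have h3 : |t * t'| < 1 := by
      rw [abs_mul]
      nlinarith [abs_nonneg t, abs_nonneg t']
    have h4 : t * t' = -1 := by linarith
    rw [h4] at h3
    norm_num at h3

end Pool.V11275.Quad
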