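import Pool.Agent.V11275.Quad1

/-!
Squares with cut corners: convex polygons with an odd number `≥ 9` of vertices and infinitely
many quadrisections.
-/

set_option autoImplicit false

namespace Pool.V11275.Quad

open MeasureTheory Set Pool.Agent.Helper717.Hull1 Pool.Agent.Helper717.Hull2
open scoped ENNReal

/-- Points of a parabola cutting the corner `(1,1)`. -/
noncomputable def ch (e c : ℝ) : E2 := !₂[1 - e * c ^ 2, 1 - e * (1 - c) ^ 2]

@[simp] lemma ch_zero (e c : ℝ) : ch e c 0 = 1 - e * c ^ 2 := rfl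
@[simp] lemma ch_one (e c : ℝ) : ch e c 1 = 1 - e * (1 - c) ^ 2 := rfl

lemma orient_ch (e a b : ℝ) (x : E2) : orient (ch e a) (ch e b) x =
    e * (b - a) * ((a + b) * (1 - x 1) + (2 - a - b) * (1 - x 0) - e * (a + b - 2 * a * b)) := by
  simp only [orient, ch_zero, ch_one]; ring

/-- The vertices. -/
noncomputable def vf (N : ℕ) (e p : ℝ) (i : ℕ) : E2 :=
  if i ≤ N then ch e (i / N)
  else if i = N + 1 then !₂[-1 + p, 1]
  else if i = N + 2 then !₂[-1, 1 - p]
  else if i = N + 3 then !₂[-1, -1 + p]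
  else if i = N + 4 then !₂[-1 + p, -1]
  else if i = N + 5 then !₂[1 - p, -1]
  else if i = N + 6 then !₂[1, -1 + p]
  else ch e 0

variable {N : ℕ} {e p : ℝ}

lemma vf_le {i : ℕ} (h : i ≤ N) : vf N e p i = ch e (i / N) := by simp [vf, h]
lemma vf1 : vf N e p (N + 1) = !₂[-1 + p, 1] := by simp [vf]
lemma vf2 : vf N e p (N + 2) = !₂[-1, 1 - p] := by simp [vf]
lemma vf3 : vf N e p (N + 3) = !₂[-1, -1 + p] := by simp [vf]
lemma vf4 : vf N e p (N + 4) = !₂[-1 + p, -1] := by simp [vf]
lemma vf5 : vf N e p (N + 5) = !₂[1 - p, -1] := by simp [vf]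
lemma vf6 : vf N e p (N + 6) = !₂[1, -1 + p] := by simp [vf]
lemma vf7 : vf N e p (N + 7) = ch e 0 := by simp [vf]

/-- The seven kinds of edges. -/
lemma oN (hN : 0 < N) (x : E2) : orient (vf N e p N) (vf N e p (N + 1)) x =
    (2 - p - e) * (1 - x 1) := by
  have : ((N : ℝ) / N) = 1 := by
    have : (N : ℝ) ≠ 0 := by positivity
    field_simp
  rw [vf_le le_rfl, vf1, this]; simp [orient]; ring
lemma o1 (x : E2) : orient (vf N e p (N + 1)) (vf N e p (N + 1 + 1)) x =
    p * ((1 - x 1) + (1 + x 0) - p) := by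
  rw [vf1, show N + 1 + 1 = N + 2 from rfl, vf2]; simp [orient]; ring
lemma o2 (x : E2) : orient (vf N e p (N + 2)) (vf N e p (N + 2 + 1)) x =
    (2 - 2 * p) * (1 + x 0) := by
  rw [vf2, show N + 2 + 1 = N + 3 from rfl, vf3]; simp [orient]; ring
lemma o3 (x : E2) : orient (vf N e p (N + 3)) (vf N e p (N + 3 + 1)) x =
    p * ((1 + x 0) + (1 + x 1) - p) := by
  rw [vf3, show N + 3 + 1 = N + 4 from rfl, vf4]; simp [orient]; ring
lemma o4 (x : E2) : orient (vf N e p (N + 4)) (vf N e p (N + 4 + 1)) x =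
    (2 - 2 * p) * (1 + x 1) := by
  rw [vf4, show N + 4 + 1 = N + 5 from rfl, vf5]; simp [orient]; ring
lemma o5 (x : E2) : orient (vf N e p (N + 5)) (vf N e p (N + 5 + 1)) x =
    p * ((1 + x 1) + (1 - x 0) - p) := by
  rw [vf5, show N + 5 + 1 = N + 6 from rfl, vf6]; simp [orient]; ring
lemma o6 (x : E2) : orient (vf N e p (N + 6)) (vf N e p (N + 6 + 1)) x =
    (2 - p - e) * (1 - x 0) := by
  rw [vf6, show N + 6 + 1 = N + 7 from rfl, vf7]; simp [orient]; ring
lemma oc {i : ℕ} (hi : i < N) (x : E2) : orient (vf N e p i) (vf N e p (i + 1)) x =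
    e * (((i + 1 : ℕ) : ℝ) / N - i / N) * (((i : ℝ) / N + ((i + 1 : ℕ) : ℝ) / N) * (1 - x 1) +
      (2 - (i : ℝ) / N - ((i + 1 : ℕ) : ℝ) / N) * (1 - x 0) -
      e * ((i : ℝ) / N + ((i + 1 : ℕ) : ℝ) / N - 2 * ((i : ℝ) / N) * (((i + 1 : ℕ) : ℝ) / N))) := by
  rw [vf_le hi.le, vf_le hi, orient_ch]

/-- Bounds for the parameters of a chain edge. -/
lemma params (hN : 2 ≤ N) {i : ℕ} (hi : i < N) :
    0 ≤ (i : ℝ) / N ∧ ((i + 1 : ℕ) : ℝ) / N ≤ 1 ∧ ((i + 1 : ℕ) : ℝ) / N - i / N = 1 / N := by
  have hN' : (0 : ℝ) < N := by positivity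
  have h1 : (i : ℝ) + 1 ≤ N := by exact_mod_cast hi
  refine ⟨by positivity, ?_, ?_⟩
  · rw [div_le_one hN']; push_cast; exact h1
  · push_cast; field_simp; ring

lemma scp_vf (hN : 2 ≤ N) (he : e = 1 / (2 * N)) (hp0 : 0 < p) (hp1 : p < 1) :
    SCP (N + 7) (vf N e p) := by
  have hN' : (2 : ℝ) ≤ N := by exact_mod_cast hN
  have hN0 : (0 : ℝ) < N := by linarith
  have he0 : 0 < e := by rw [he]; positivity
  have he1 : e ≤ 1 / 4 := by
    rw [he, div_le_div_iff₀ (by positivity) (by norm_num)]; linarith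
  have h2e : 1 / (N : ℝ) = 2 * e := by rw [he]; field_simp
  refine ⟨by omega, ?_, ?_⟩
  · rw [vf7, vf_le (Nat.zero_le _)]; simp
  · intro i hi k hk h1 h2 h3
    have hk' : k ≤ N ∨ k = N + 1 ∨ k = N + 2 ∨ k = N + 3 ∨ k = N + 4 ∨ k = N + 5 ∨ k = N + 6 := by
      omega
    have hi' : i < N ∨ i = N ∨ i = N + 1 ∨ i = N + 2 ∨ i = N + 3 ∨ i = N + 4 ∨ i = N + 5 ∨
      i = N + 6 := by omega
    have hchain : k ≤ N → 0 ≤ (k : ℝ) / N ∧ (k : ℝ) / N ≤ 1 := by
      intro h
      refine ⟨by positivity, ?_⟩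
      rw [div_le_one hN0]; exact_mod_cast h
    rcases hi' with hi' | rfl | rfl | rfl | rfl | rfl | rfl | rfl
    · obtain ⟨ha, hb, hab⟩ := params hN hi'
      rw [oc hi', hab]
      apply mul_pos (by positivity)
      rw [h2e] at hab
      rcases hk' with hk' | rfl | rfl | rfl | rfl | rfl | rfl
      · rw [vf_le hk', ch_zero, ch_one]
        have hpos : 0 < ((k : ℝ) / N - i / N) * ((k : ℝ) / N - ((i + 1 : ℕ) : ℝ) / N) := by
          have : ((k : ℝ) / N - i / N) * ((k : ℝ) / N - ((i + 1 : ℕ) : ℝ) / N) =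
              ((k : ℝ) - i) * (k - (i + 1)) / N ^ 2 := by push_cast; field_simp
          rw [this]
          apply div_pos _ (by positivity)
          rcases Nat.lt_or_gt_of_ne h1 with h | h
          · have : (k : ℝ) < i := by exact_mod_cast h
            nlinarith
          · have : (i : ℝ) + 1 < k := by
              have : i + 1 < k := by omega
              exact_mod_cast this
            nlinarith
        set a := (i : ℝ) / N
        set b := ((i + 1 : ℕ) : ℝ) / N
        set c := (k : ℝ) / N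
        have : (a + b) * (1 - (1 - e * (1 - c) ^ 2)) + (2 - a - b) * (1 - (1 - e * c ^ 2)) -
            e * (a + b - 2 * a * b) = 2 * e * ((c - a) * (c - b)) := by ring
        rw [this]; positivity
      all_goals
        set a := (i : ℝ) / N
        set b := ((i + 1 : ℕ) : ℝ) / N
        have hab0 : 0 ≤ a * b := mul_nonneg ha (by linarith)
        have hA : 2 * e ≤ a + b := by linarith
        have hB : 2 * e ≤ 2 - a - b := by linarith
      · rw [vf1]; simp
        nlinarith [mul_nonneg he0.le hab0, mul_nonneg (by linarith : (0:ℝ) ≤ 2 - a - b - 2 * e) (by linarith : (0:ℝ) ≤ 1 - p), mul_pos he0 (by linarith : 0 < 1 - p)]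
      · rw [vf2]; simp
        nlinarith [mul_nonneg he0.le hab0, mul_nonneg (by linarith : (0:ℝ) ≤ 2 - a - b - 2 * e) (by linarith : (0:ℝ) ≤ 1 - p), mul_pos he0 (by linarith : 0 < 1 - p), mul_nonneg (by linarith : (0:ℝ) ≤ a + b) hp0.le]
      · rw [vf3]; simp
        nlinarith [mul_nonneg he0.le hab0, mul_nonneg (by linarith : (0:ℝ) ≤ 2 - a - b - 2 * e) (by linarith : (0:ℝ) ≤ 1 - p), mul_pos he0 (by linarith : 0 < 1 - p), mul_nonneg (by linarith : (0:ℝ) ≤ a + b) (by linarith : (0:ℝ) ≤ 1 - p)]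
      · rw [vf4]; simp
        nlinarith [mul_nonneg he0.le hab0, mul_nonneg (by linarith : (0:ℝ) ≤ 2 - a - b - 2 * e) (by linarith : (0:ℝ) ≤ 1 - p), mul_pos he0 (by linarith : 0 < 1 - p), mul_nonneg (by linarith : (0:ℝ) ≤ a + b) (by linarith : (0:ℝ) ≤ 1 - p)]
      · rw [vf5]; simp
        nlinarith [mul_nonneg he0.le hab0, mul_pos (by linarith : (0:ℝ) < a + b) (by linarith : (0:ℝ) < 2 - e), mul_nonneg (by linarith : (0:ℝ) ≤ 2 - a - b) hp0.le]
      · rw [vf6]; simp
        nlinarith [mul_nonneg he0.le hab0, mul_pos (by linarith : (0:ℝ) < a + b) (by linarith : (0:ℝ) < 2 - p - e)]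
    · rw [oN (by omega)]
      apply mul_pos (by linarith)
      rcases hk' with hk' | rfl | rfl | rfl | rfl | rfl | rfl
      · rw [vf_le hk', ch_one]
        have : (k : ℝ) / i < 1 := by
          rw [div_lt_one hN0]
          have : k < i := by omega
          exact_mod_cast this
        have : 0 < 1 - (k : ℝ) / i := by linarith
        have : 0 < e * (1 - (k : ℝ) / i) ^ 2 := by positivity
        linarith
      · omega
      · rw [vf2]; simp <;> linarith
      · rw [vf3]; simp <;> linarith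
      · rw [vf4]; simp <;> norm_num
      · rw [vf5]; simp <;> norm_num
      · rw [vf6]; simp <;> linarith
    · rw [o1]
      apply mul_pos hp0
      rcases hk' with hk' | rfl | rfl | rfl | rfl | rfl | rfl
      · obtain ⟨c0, c1⟩ := hchain hk'
        rw [vf_le hk', ch_zero, ch_one]
        nlinarith [mul_nonneg he0.le (sq_nonneg (1 - (k : ℝ) / N)), mul_nonneg c0 (by linarith : 0 ≤ 1 - (k : ℝ) / N), mul_nonneg he0.le (mul_nonneg c0 (by linarith : 0 ≤ 1 - (k : ℝ) / N))]
      · omega
      · omega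
      · rw [vf3]; simp <;> linarith
      · rw [vf4]; simp <;> linarith
      · rw [vf5]; simp <;> linarith
      · rw [vf6]; simp <;> linarith
    · rw [o2]
      apply mul_pos (by linarith)
      rcases hk' with hk' | rfl | rfl | rfl | rfl | rfl | rfl
      · obtain ⟨c0, c1⟩ := hchain hk'
        rw [vf_le hk', ch_zero]
        nlinarith [mul_nonneg c0 (by linarith : 0 ≤ 1 - (k : ℝ) / N)]
      · rw [vf1]; simp <;> linarith
      · omega
      · omega
      · rw [vf4]; simp <;> linarith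
      · rw [vf5]; simp <;> linarith
      · rw [vf6]; simp <;> norm_num
    · rw [o3]
      apply mul_pos hp0
      rcases hk' with hk' | rfl | rfl | rfl | rfl | rfl | rfl
      · obtain ⟨c0, c1⟩ := hchain hk'
        rw [vf_le hk', ch_zero, ch_one]
        nlinarith [mul_nonneg c0 (by linarith : 0 ≤ 1 - (k : ℝ) / N), mul_nonneg he0.le (mul_nonneg c0 (by linarith : 0 ≤ 1 - (k : ℝ) / N))]
      · rw [vf1]; simp <;> linarith
      · rw [vf2]; simp <;> linarith
      · omega
      · omega
      · rw [vf5]; simp <;> linarith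
      · rw [vf6]; simp <;> linarith
    · rw [o4]
      apply mul_pos (by linarith)
      rcases hk' with hk' | rfl | rfl | rfl | rfl | rfl | rfl
      · obtain ⟨c0, c1⟩ := hchain hk'
        rw [vf_le hk', ch_one]
        nlinarith [mul_nonneg c0 (by linarith : 0 ≤ 1 - (k : ℝ) / N)]
      · rw [vf1]; simp <;> norm_num
      · rw [vf2]; simp <;> linarith
      · rw [vf3]; simp <;> linarith
      · omega
      · omega
      · rw [vf6]; simp <;> linarith
    · rw [o5]
      apply mul_pos hp0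
      rcases hk' with hk' | rfl | rfl | rfl | rfl | rfl | rfl
      · obtain ⟨c0, c1⟩ := hchain hk'
        rw [vf_le hk', ch_zero, ch_one]
        nlinarith [mul_nonneg he0.le (sq_nonneg ((k : ℝ) / N)), mul_nonneg c0 (by linarith : 0 ≤ 1 - (k : ℝ) / N), mul_nonneg he0.le (mul_nonneg c0 (by linarith : 0 ≤ 1 - (k : ℝ) / N))]
      · rw [vf1]; simp <;> linarith
      · rw [vf2]; simp <;> linarith
      · rw [vf3]; simp <;> linarith
      · rw [vf4]; simp <;> linarith
      · omega
      · omega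
    · rw [o6]
      apply mul_pos (by linarith)
      rcases hk' with hk' | rfl | rfl | rfl | rfl | rfl | rfl
      · rw [vf_le hk', ch_zero]
        have hk0 : 0 < k := by omega
        have : 0 < (k : ℝ) / N := by positivity
        have : 0 < e * ((k : ℝ) / N) ^ 2 := by positivity
        linarith
      · rw [vf1]; simp <;> linarith
      · rw [vf2]; simp <;> norm_num
      · rw [vf3]; simp <;> norm_num
      · rw [vf4]; simp <;> linarith
      · rw [vf5]; simp <;> linarith
      · omega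

end Pool.V11275.Quad
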