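import Pool.Agent.V11275.Quad2

/-!
Squares with cut corners: volumes of the four quadrants.
-/

set_option autoImplicit false

namespace Pool.V11275.Quad

open MeasureTheory Set Pool.Agent.Helper717.Hull1 Pool.Agent.Helper717.Hull2
open scoped ENNReal

/-- Rotation by a right angle as a linear isometry. -/
noncomputable def rotL : E2 ≃ₗᵢ[ℝ] E2 where
  toFun := rot
  invFun := fun u => !₂[u 1, -u 0]
  map_add' := by intro x y; apply ext2 <;> simp; ring
  map_smul' := by intro r x; apply ext2 <;> simp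
  left_inv := by intro x; apply ext2 <;> simp
  right_inv := by intro x; apply ext2 <;> simp
  norm_map' := by
    intro x
    show ‖rot x‖ = ‖x‖
    rw [EuclideanSpace.norm_eq, EuclideanSpace.norm_eq]
    congr 1
    rw [Fin.sum_univ_two, Fin.sum_univ_two]
    simp; ring

lemma vol_rot (T : Set E2) (hT : MeasurableSet T) : volume (rot ⁻¹' T) = volume T :=
  rotL.measurePreserving.measure_preimage hT.nullMeasurableSet

lemma quad_meas (P u : E2) (hu : u ≠ 0) : MeasurableSet (quad P u) := by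
  have : quad P u = {x | 0 ≤ dot u (x - P)} ∩ {x | 0 ≤ dot (rot u) (x - P)} := by
    ext x; rw [quad_iff _ _ _ hu]; rfl
  rw [this]
  apply MeasurableSet.inter
  · exact (isClosed_le continuous_const ((continuous_dot u).comp (by fun_prop))).measurableSet
  · exact (isClosed_le continuous_const ((continuous_dot _).comp (by fun_prop))).measurableSet

lemma tri_strict (a b c : E2) (h : 0 < orient a b c) :
    volume {x | 0 ≤ orient a b x ∧ 0 < orient b c x ∧ 0 ≤ orient c a x} =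
      ENNReal.ofReal (orient a b c / 2) := by
  rw [← tri_vol_pos a b c h]
  have hbc : b ≠ c := by
    rintro rfl
    rw [or_self2] at h
    exact lt_irrefl _ h
  apply le_antisymm
  · apply measure_mono
    rintro x ⟨h1, h2, h3⟩
    rw [tri_iff a b c x h]
    exact ⟨h1, h2.le, h3⟩
  · calc volume (convexHull ℝ ({a, b, c} : Set E2)) ≤
        volume ({x | 0 ≤ orient a b x ∧ 0 < orient b c x ∧ 0 ≤ orient c a x} ∪
          {x | orient b c x = 0}) := by
          apply measure_mono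
          intro x hx
          rw [tri_iff a b c x h] at hx
          rcases hx.2.1.lt_or_eq with h4 | h4
          · left; exact ⟨hx.1, h4, hx.2.2⟩
          · right; exact h4.symm
      _ ≤ _ := by
          refine (measure_union_le _ _).trans ?_
          rw [line_null b c hbc, add_zero]

/-- The square. -/
def Sq : Set E2 := {x | -1 ≤ x 0 ∧ x 0 ≤ 1 ∧ -1 ≤ x 1 ∧ x 1 ≤ 1}

lemma Sq_meas : MeasurableSet Sq := by
  have : Sq = {x : E2 | -1 ≤ x 0} ∩ {x | x 0 ≤ 1} ∩ {x | -1 ≤ x 1} ∩ {x | x 1 ≤ 1} := by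
    ext x; simp only [Sq, mem_ofPred_eq, mem_inter_iff]; tauto
  rw [this]
  have c0 : Continuous (fun x : E2 => x 0) := by fun_prop
  have c1 : Continuous (fun x : E2 => x 1) := by fun_prop
  exact (((isClosed_le continuous_const c0).measurableSet.inter
    (isClosed_le c0 continuous_const).measurableSet).inter
    (isClosed_le continuous_const c1).measurableSet).inter
    (isClosed_le c1 continuous_const).measurableSet

lemma Sq_rot (u : E2) (hu : u ≠ 0) : volume (Sq ∩ quad 0 (rot u)) = volume (Sq ∩ quad 0 u) := by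
  rw [← vol_rot _ (Sq_meas.inter (quad_meas _ _ (rot_ne hu)))]
  congr 1
  ext x
  rw [mem_preimage, mem_inter_iff, mem_inter_iff, quad_iff _ _ _ hu, quad_iff _ _ _ (rot_ne hu)]
  have e1 : dot (rot u) (rot x - 0) = dot u (x - 0) := by simp [dot]; ring
  have e2 : dot (rot (rot u)) (rot x - 0) = dot (rot u) (x - 0) := by simp [dot]; ring
  rw [e1, e2]
  simp only [Sq, mem_ofPred_eq, rot_zero, rot_one]
  constructor
  · rintro ⟨⟨h1, h2, h3, h4⟩, h5⟩
    exact ⟨⟨h3, h4, by linarith, by linarith⟩, h5⟩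
  · rintro ⟨⟨h1, h2, h3, h4⟩, h5⟩
    exact ⟨⟨by linarith, by linarith, h1, h2⟩, h5⟩

variable {N : ℕ} {e p : ℝ}

lemma orient_mk (a0 a1 b0 b1 : ℝ) (x : E2) : orient !₂[a0, a1] !₂[b0, b1] x =
    (b0 - a0) * (x 1 - a1) - (b1 - a1) * (x 0 - a0) := rfl

/-- Being cut off by the chain. -/
def Ch (N : ℕ) (e : ℝ) (x : E2) : Prop :=
  ∃ i < N, orient (ch e ((i : ℝ) / N)) (ch e (((i + 1 : ℕ) : ℝ) / N)) x < 0

/-- The four cut regions. -/
def K0 (N : ℕ) (e : ℝ) : Set E2 := {x | x ∈ Sq ∧ Ch N e x}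
def K1 (p : ℝ) : Set E2 := {x | x ∈ Sq ∧ (1 - x 1) + (1 + x 0) < p}
def K2 (p : ℝ) : Set E2 := {x | x ∈ Sq ∧ (1 + x 0) + (1 + x 1) < p}
def K3 (p : ℝ) : Set E2 := {x | x ∈ Sq ∧ (1 + x 1) + (1 - x 0) < p}

lemma Ch_bound (hN : 2 ≤ N) (he : e = 1 / (2 * N)) {x : E2} (hx : x ∈ Sq) (h : Ch N e x) :
    (1 - x 0) + (1 - x 1) < e := by
  obtain ⟨i, hi, h⟩ := h
  have hN' : (2 : ℝ) ≤ N := by exact_mod_cast hN
  have he0 : 0 < e := by rw [he]; positivity
  obtain ⟨ha, hb, hab⟩ := params hN hi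
  obtain ⟨x1, x2, x3, x4⟩ := hx
  rw [orient_ch, hab] at h
  have hneg : ((i : ℝ) / N + ((i + 1 : ℕ) : ℝ) / N) * (1 - x 1) +
      (2 - (i : ℝ) / N - ((i + 1 : ℕ) : ℝ) / N) * (1 - x 0) -
      e * ((i : ℝ) / N + ((i + 1 : ℕ) : ℝ) / N - 2 * ((i : ℝ) / N) * (((i + 1 : ℕ) : ℝ) / N)) < 0 := by
    by_contra hc
    push Not at hc
    have : 0 ≤ e * (1 / (N : ℝ)) := by positivity
    have := mul_nonneg this hc
    linarith
  have hab' : 0 < ((i + 1 : ℕ) : ℝ) / N - (i : ℝ) / N := by rw [hab]; positivity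
  set a := (i : ℝ) / N
  set b := ((i + 1 : ℕ) : ℝ) / N
  have hab0 : 0 ≤ a * b := mul_nonneg ha (by linarith)
  have hab1 : 0 ≤ (1 - a) * (1 - b) := mul_nonneg (by linarith) (by linarith)
  by_contra hc
  push Not at hc
  rcases le_total (a + b) 1 with h1 | h1
  · -- a + b ≤ 2 - a - b
    nlinarith [mul_nonneg (by linarith : 0 ≤ a + b) (by linarith : 0 ≤ (1 - x 0) + (1 - x 1) - e),
      mul_nonneg (by linarith : 0 ≤ 1 - a - b) (by linarith : 0 ≤ 1 - x 0),
      mul_nonneg he0.le hab0]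
  · nlinarith [mul_nonneg (by linarith : 0 ≤ 2 - a - b) (by linarith : 0 ≤ (1 - x 0) + (1 - x 1) - e),
      mul_nonneg (by linarith : 0 ≤ a + b - 1) (by linarith : 0 ≤ 1 - x 1),
      mul_nonneg he0.le hab1]

lemma vol_K1 (hp0 : 0 < p) (hp1 : p < 1) : volume (K1 p) = ENNReal.ofReal (p ^ 2 / 2) := by
  have h : orient (!₂[-1, 1] : E2) !₂[-1, 1 - p] !₂[-1 + p, 1] = p ^ 2 := by
    simp [orient]; ring
  rw [← h, ← tri_strict _ _ _ (by rw [h]; positivity)]
  congr 1
  ext x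
  have e1 : orient (!₂[-1, 1] : E2) !₂[-1, 1 - p] x = p * (1 + x 0) := by rw [orient_mk]; ring
  have e2 : orient (!₂[-1, 1 - p] : E2) !₂[-1 + p, 1] x = p * (p - ((1 - x 1) + (1 + x 0))) := by
    rw [orient_mk]; ring
  have e3 : orient (!₂[-1 + p, 1] : E2) !₂[-1, 1] x = p * (1 - x 1) := by rw [orient_mk]; ring
  simp only [K1, Sq, mem_ofPred_eq]
  rw [e1, e2, e3, mul_nonneg_iff_of_pos_left hp0, mul_pos_iff_of_pos_left hp0,
    mul_nonneg_iff_of_pos_left hp0]
  constructor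
  · rintro ⟨⟨h1, h2, h3, h4⟩, h5⟩
    exact ⟨by linarith, by linarith, by linarith⟩
  · rintro ⟨h1, h2, h3⟩
    exact ⟨⟨by linarith, by linarith, by linarith, by linarith⟩, by linarith⟩

lemma vol_K2 (hp0 : 0 < p) (hp1 : p < 1) : volume (K2 p) = ENNReal.ofReal (p ^ 2 / 2) := by
  have h : orient (!₂[-1, -1] : E2) !₂[-1 + p, -1] !₂[-1, -1 + p] = p ^ 2 := by
    simp [orient]; ring
  rw [← h, ← tri_strict _ _ _ (by rw [h]; positivity)]
  congr 1
  ext x
  have e1 : orient (!₂[-1, -1] : E2) !₂[-1 + p, -1] x = p * (1 + x 1) := by rw [orient_mk]; ring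
  have e2 : orient (!₂[-1 + p, -1] : E2) !₂[-1, -1 + p] x = p * (p - ((1 + x 0) + (1 + x 1))) := by
    rw [orient_mk]; ring
  have e3 : orient (!₂[-1, -1 + p] : E2) !₂[-1, -1] x = p * (1 + x 0) := by rw [orient_mk]; ring
  simp only [K2, Sq, mem_ofPred_eq]
  rw [e1, e2, e3, mul_nonneg_iff_of_pos_left hp0, mul_pos_iff_of_pos_left hp0,
    mul_nonneg_iff_of_pos_left hp0]
  constructor
  · rintro ⟨⟨h1, h2, h3, h4⟩, h5⟩
    exact ⟨by linarith, by linarith, by linarith⟩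
  · rintro ⟨h1, h2, h3⟩
    exact ⟨⟨by linarith, by linarith, by linarith, by linarith⟩, by linarith⟩

lemma vol_K3 (hp0 : 0 < p) (hp1 : p < 1) : volume (K3 p) = ENNReal.ofReal (p ^ 2 / 2) := by
  have h : orient (!₂[1, -1] : E2) !₂[1, -1 + p] !₂[1 - p, -1] = p ^ 2 := by
    simp [orient]; ring
  rw [← h, ← tri_strict _ _ _ (by rw [h]; positivity)]
  congr 1
  ext x
  have e1 : orient (!₂[1, -1] : E2) !₂[1, -1 + p] x = p * (1 - x 0) := by rw [orient_mk]; ring
  have e2 : orient (!₂[1, -1 + p] : E2) !₂[1 - p, -1] x = p * (p - ((1 + x 1) + (1 - x 0))) := by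
    rw [orient_mk]; ring
  have e3 : orient (!₂[1 - p, -1] : E2) !₂[1, -1] x = p * (1 + x 1) := by rw [orient_mk]; ring
  simp only [K3, Sq, mem_ofPred_eq]
  rw [e1, e2, e3, mul_nonneg_iff_of_pos_left hp0, mul_pos_iff_of_pos_left hp0,
    mul_nonneg_iff_of_pos_left hp0]
  constructor
  · rintro ⟨⟨h1, h2, h3, h4⟩, h5⟩
    exact ⟨by linarith, by linarith, by linarith⟩
  · rintro ⟨h1, h2, h3⟩
    exact ⟨⟨by linarith, by linarith, by linarith, by linarith⟩, by linarith⟩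

lemma vol_K0_le (hN : 2 ≤ N) (he : e = 1 / (2 * N)) :
    volume (K0 N e) ≤ ENNReal.ofReal (e ^ 2 / 2) := by
  have he0 : 0 < e := by rw [he]; positivity
  have h : orient (!₂[1, 1] : E2) !₂[1 - e, 1] !₂[1, 1 - e] = e ^ 2 := by
    simp [orient]; ring
  rw [← h, ← tri_strict _ _ _ (by rw [h]; positivity)]
  apply measure_mono
  rintro x ⟨hx, hc⟩
  have hb := Ch_bound hN he hx hc
  obtain ⟨h1, h2, h3, h4⟩ := hx
  have e1 : orient (!₂[1, 1] : E2) !₂[1 - e, 1] x = e * (1 - x 1) := by rw [orient_mk]; ring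
  have e2 : orient (!₂[1 - e, 1] : E2) !₂[1, 1 - e] x = e * (e - ((1 - x 0) + (1 - x 1))) := by
    rw [orient_mk]; ring
  have e3 : orient (!₂[1, 1 - e] : E2) !₂[1, 1] x = e * (1 - x 0) := by rw [orient_mk]; ring
  simp only [mem_ofPred_eq]
  rw [e1, e2, e3]
  exact ⟨mul_nonneg he0.le (by linarith), mul_pos he0 (by linarith),
    mul_nonneg he0.le (by linarith)⟩

lemma vol_K0_pos (hN : 2 ≤ N) (he : e = 1 / (2 * N)) : 0 < volume (K0 N e) := by
  have hN' : (2 : ℝ) ≤ N := by exact_mod_cast hN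
  have he0 : 0 < e := by rw [he]; positivity
  have he1 : e ≤ 1 / 4 := by
    rw [he, div_le_div_iff₀ (by positivity) (by norm_num)]; linarith
  have h2e : 1 / (N : ℝ) = 2 * e := by rw [he]; field_simp
  have c0 : Continuous (fun x : E2 => x 0) := by fun_prop
  have c1 : Continuous (fun x : E2 => x 1) := by fun_prop
  set O : Set E2 := {x | -1 < x 0} ∩ {x | x 0 < 1} ∩ {x | -1 < x 1} ∩ {x | x 1 < 1} ∩
    {x | orient (ch e ((0 : ℕ) / N)) (ch e (((0 + 1 : ℕ) : ℝ) / N)) x < 0} with hO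
  have hopen : IsOpen O := by
    refine ((((isOpen_lt continuous_const c0).inter (isOpen_lt c0 continuous_const)).inter
      (isOpen_lt continuous_const c1)).inter (isOpen_lt c1 continuous_const)).inter
      (isOpen_lt (continuous_orient _ _) continuous_const)
  have hne : O.Nonempty := by
    refine ⟨!₂[1 - e ^ 2 / 4, 1 - e ^ 2 / 4], ?_⟩
    simp only [hO, mem_inter_iff, mem_ofPred_eq]
    rw [orient_ch]
    simp only [Nat.cast_zero, zero_div, zero_add, Nat.cast_one, h2e]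
    simp only [Matrix.cons_val_zero, Matrix.cons_val_one, Matrix.cons_val_fin_one]
    have : 0 < e ^ 2 := by positivity
    refine ⟨⟨⟨⟨?_, ?_⟩, ?_⟩, ?_⟩, ?_⟩
    · nlinarith
    · linarith
    · nlinarith
    · linarith
    · have : e * (2 * e - 0) * (2 * e * (1 - (1 - e ^ 2 / 4)) + (2 - 0 - 2 * e) *
        (1 - (1 - e ^ 2 / 4)) - e * (2 * e - 2 * 0 * (2 * e))) = - (3 * e ^ 4) := by ring
      rw [this]
      have : 0 < e ^ 4 := by positivity
      linarith
  have hsub : O ⊆ K0 N e := by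
    rintro x ⟨⟨⟨⟨h1, h2⟩, h3⟩, h4⟩, h5⟩
    exact ⟨⟨le_of_lt h1, le_of_lt h2, le_of_lt h3, le_of_lt h4⟩, 0, by omega, h5⟩
  exact lt_of_lt_of_le (hopen.measure_pos volume hne) (measure_mono hsub)

/-- Points of the square outside the polygon. -/
lemma bad_iff (hN : 2 ≤ N) (he : e = 1 / (2 * N)) (hp0 : 0 < p) (hp1 : p < 1) {x : E2}
    (hx : x ∈ Sq) : x ∉ poly (N + 7) (vf N e p) ↔ Ch N e x ∨ (1 - x 1) + (1 + x 0) < p ∨
      (1 + x 0) + (1 + x 1) < p ∨ (1 + x 1) + (1 - x 0) < p := by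
  have hN' : (2 : ℝ) ≤ N := by exact_mod_cast hN
  have he0 : 0 < e := by rw [he]; positivity
  have he1 : e ≤ 1 / 4 := by
    rw [he, div_le_div_iff₀ (by positivity) (by norm_num)]; linarith
  obtain ⟨x1, x2, x3, x4⟩ := hx
  rw [(scp_vf hN he hp0 hp1).mem_iff]
  push Not
  constructor
  · rintro ⟨i, hi, h⟩
    have hi' : i < N ∨ i = N ∨ i = N + 1 ∨ i = N + 2 ∨ i = N + 3 ∨ i = N + 4 ∨ i = N + 5 ∨
      i = N + 6 := by omega
    rcases hi' with hi' | hi' | hi' | hi' | hi' | hi' | hi' | hi'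
    · left
      refine ⟨i, hi', ?_⟩
      rwa [vf_le hi'.le, vf_le hi'] at h
    · rw [hi', oN (by omega)] at h
      nlinarith
    · rw [hi', o1] at h
      right; left
      by_contra hc
      push Not at hc
      nlinarith
    · rw [hi', o2] at h
      nlinarith
    · rw [hi', o3] at h
      right; right; left
      by_contra hc
      push Not at hc
      nlinarith
    · rw [hi', o4] at h
      nlinarith
    · rw [hi', o5] at h
      right; right; right
      by_contra hc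
      push Not at hc
      nlinarith
    · rw [hi', o6] at h
      nlinarith
  · rintro (⟨i, hi, h⟩ | h | h | h)
    · exact ⟨i, by omega, by rwa [vf_le hi.le, vf_le hi]⟩
    · exact ⟨N + 1, by omega, by rw [o1]; nlinarith⟩
    · exact ⟨N + 3, by omega, by rw [o3]; nlinarith⟩
    · exact ⟨N + 5, by omega, by rw [o5]; nlinarith⟩

lemma poly_sub_Sq (hN : 2 ≤ N) (he : e = 1 / (2 * N)) (hp0 : 0 < p) (hp1 : p < 1) :
    poly (N + 7) (vf N e p) ⊆ Sq := by
  have hN' : (2 : ℝ) ≤ N := by exact_mod_cast hN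
  have he0 : 0 < e := by rw [he]; positivity
  have he1 : e ≤ 1 / 4 := by
    rw [he, div_le_div_iff₀ (by positivity) (by norm_num)]; linarith
  intro x hx
  have h := ((scp_vf hN he hp0 hp1).mem_iff x).1 hx
  have h0 := h N (by omega)
  have h2 := h (N + 2) (by omega)
  have h4 := h (N + 4) (by omega)
  have h6 := h (N + 6) (by omega)
  rw [oN (by omega)] at h0
  rw [o2] at h2
  rw [o4] at h4
  rw [o6] at h6
  refine ⟨?_, ?_, ?_, ?_⟩
  · by_contra hc; push Not at hc; nlinarith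
  · by_contra hc; push Not at hc; nlinarith
  · by_contra hc; push Not at hc; nlinarith
  · by_contra hc; push Not at hc; nlinarith

/-- Volumes of the four pieces, for slopes less than `1/2`. -/
lemma vol_piece (hN : 2 ≤ N) (he : e = 1 / (2 * N)) (hp0 : 0 < p) (hpe : p ≤ e)
    (hp : volume (K0 N e) = ENNReal.ofReal (p ^ 2 / 2)) {t : ℝ} (ht : |t| < 1 / 2) (w : E2)
    (hw : w = !₂[1, t] ∨ w = rot !₂[1, t] ∨ w = -!₂[1, t] ∨ w = -rot !₂[1, t]) :
    volume ((Sq \ poly (N + 7) (vf N e p)) ∩ quad 0 w) = ENNReal.ofReal (p ^ 2 / 2) := by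
  have hN' : (2 : ℝ) ≤ N := by exact_mod_cast hN
  have he0 : 0 < e := by rw [he]; positivity
  have he1 : e ≤ 1 / 4 := by
    rw [he, div_le_div_iff₀ (by positivity) (by norm_num)]; linarith
  have hu : (!₂[1, t] : E2) ≠ 0 := by
    intro h
    have := congrFun (congrArg (fun x : E2 => (x : Fin 2 → ℝ)) h) 0
    simp at this
  have hu' := rot_ne hu
  obtain ⟨t1, t2⟩ := abs_lt.1 ht
  have bd : ∀ y : ℝ, -1 ≤ y → y ≤ 1 → -(1 / 2) < t * y ∧ t * y < 1 / 2 := by
    intro y h1 h2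
    have : |t * y| < 1 / 2 := by
      rw [abs_mul]
      have : |y| ≤ 1 := abs_le.2 ⟨h1, h2⟩
      nlinarith [abs_nonneg t, abs_nonneg y]
    exact abs_lt.1 this
  have d1 : ∀ x : E2, dot (!₂[1, t] : E2) (x - 0) = x 0 + t * x 1 := by
    intro x; simp [dot]
  have d2 : ∀ x : E2, dot (rot !₂[1, t] : E2) (x - 0) = x 1 - t * x 0 := by
    intro x; simp [dot]; ring
  have d3 : ∀ x : E2, dot (-!₂[1, t] : E2) (x - 0) = -(x 0 + t * x 1) := by
    intro x; simp [dot]; ring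
  have d4 : ∀ x : E2, dot (-rot !₂[1, t] : E2) (x - 0) = -(x 1 - t * x 0) := by
    intro x; simp [dot]; ring
  have q0 : ∀ x, x ∈ quad 0 (!₂[1, t] : E2) ↔ 0 ≤ x 0 + t * x 1 ∧ 0 ≤ x 1 - t * x 0 := by
    intro x; rw [quad_iff _ _ _ hu, d1, d2]
  have q1 : ∀ x, x ∈ quad 0 (rot !₂[1, t] : E2) ↔ 0 ≤ x 1 - t * x 0 ∧ x 0 + t * x 1 ≤ 0 := by
    intro x; rw [quad_iff _ _ _ hu', rot_rot, d2, d3]
    constructor
    · rintro ⟨h1, h2⟩; exact ⟨by linarith, by linarith⟩
    · rintro ⟨h1, h2⟩; exact ⟨by linarith, by linarith⟩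
  have hrn : rot (-(!₂[1, t] : E2)) = -rot !₂[1, t] := by apply ext2 <;> simp
  have q2 : ∀ x, x ∈ quad 0 (-!₂[1, t] : E2) ↔ x 0 + t * x 1 ≤ 0 ∧ x 1 - t * x 0 ≤ 0 := by
    intro x; rw [quad_iff _ _ _ (neg_ne_zero.2 hu), hrn, d3, d4]
    constructor
    · rintro ⟨h1, h2⟩; exact ⟨by linarith, by linarith⟩
    · rintro ⟨h1, h2⟩; exact ⟨by linarith, by linarith⟩
  have hrr : rot (-rot (!₂[1, t] : E2)) = !₂[1, t] := by apply ext2 <;> simp
  have q3 : ∀ x, x ∈ quad 0 (-rot !₂[1, t] : E2) ↔ x 1 - t * x 0 ≤ 0 ∧ 0 ≤ x 0 + t * x 1 := by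
    intro x; rw [quad_iff _ _ _ (neg_ne_zero.2 hu'), hrr, d4, d1]
    constructor
    · rintro ⟨h1, h2⟩; exact ⟨by linarith, by linarith⟩
    · rintro ⟨h1, h2⟩; exact ⟨by linarith, by linarith⟩
  have hloc : ∀ x ∈ Sq, Ch N e x → 3 / 4 < x 0 ∧ 3 / 4 < x 1 := by
    intro x hx hc
    have := Ch_bound hN he hx hc
    obtain ⟨x1, x2, x3, x4⟩ := hx
    exact ⟨by linarith, by linarith⟩
  rcases hw with rfl | rfl | rfl | rfl
  · rw [← hp]; congr 1
    ext x
    rw [mem_inter_iff, q0, mem_sdiff]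
    constructor
    · rintro ⟨⟨hx, hb⟩, h1, h2⟩
      have hx' := hx
      obtain ⟨x1, x2, x3, x4⟩ := hx
      have b0 := bd _ x1 x2
      have b1 := bd _ x3 x4
      rw [bad_iff hN he hp0 (by linarith) hx'] at hb
      rcases hb with hb | hb | hb | hb
      · exact ⟨hx', hb⟩
      · exfalso; linarith [b0.1, b0.2, b1.1, b1.2]
      · exfalso; linarith [b0.1, b0.2, b1.1, b1.2]
      · exfalso; linarith [b0.1, b0.2, b1.1, b1.2]
    · rintro ⟨hx, hc⟩
      have hl := hloc x hx hc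
      have hx' := hx
      obtain ⟨x1, x2, x3, x4⟩ := hx
      have b0 := bd _ x1 x2
      have b1 := bd _ x3 x4
      refine ⟨⟨hx', (bad_iff hN he hp0 (by linarith) hx').2 (Or.inl hc)⟩, ?_, ?_⟩ <;>
        linarith [b0.1, b0.2, b1.1, b1.2, hl.1, hl.2]
  · rw [← vol_K1 hp0 (by linarith)]; congr 1
    ext x
    rw [mem_inter_iff, q1, mem_sdiff]
    constructor
    · rintro ⟨⟨hx, hb⟩, h1, h2⟩
      have hx' := hx
      obtain ⟨x1, x2, x3, x4⟩ := hx
      have b0 := bd _ x1 x2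
      have b1 := bd _ x3 x4
      rw [bad_iff hN he hp0 (by linarith) hx'] at hb
      rcases hb with hb | hb | hb | hb
      · have hl := hloc x hx' hb
        exfalso; linarith [b0.1, b0.2, b1.1, b1.2, hl.1, hl.2]
      · exact ⟨hx', hb⟩
      · exfalso; linarith [b0.1, b0.2, b1.1, b1.2]
      · exfalso; linarith [b0.1, b0.2, b1.1, b1.2]
    · rintro ⟨hx, hc⟩
      have hx' := hx
      obtain ⟨x1, x2, x3, x4⟩ := hx
      have b0 := bd _ x1 x2
      have b1 := bd _ x3 x4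
      refine ⟨⟨hx', (bad_iff hN he hp0 (by linarith) hx').2 (Or.inr (Or.inl hc))⟩, ?_, ?_⟩ <;>
        linarith [b0.1, b0.2, b1.1, b1.2]
  · rw [← vol_K2 hp0 (by linarith)]; congr 1
    ext x
    rw [mem_inter_iff, q2, mem_sdiff]
    constructor
    · rintro ⟨⟨hx, hb⟩, h1, h2⟩
      have hx' := hx
      obtain ⟨x1, x2, x3, x4⟩ := hx
      have b0 := bd _ x1 x2
      have b1 := bd _ x3 x4
      rw [bad_iff hN he hp0 (by linarith) hx'] at hb
      rcases hb with hb | hb | hb | hb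
      · have hl := hloc x hx' hb
        exfalso; linarith [b0.1, b0.2, b1.1, b1.2, hl.1, hl.2]
      · exfalso; linarith [b0.1, b0.2, b1.1, b1.2]
      · exact ⟨hx', hb⟩
      · exfalso; linarith [b0.1, b0.2, b1.1, b1.2]
    · rintro ⟨hx, hc⟩
      have hx' := hx
      obtain ⟨x1, x2, x3, x4⟩ := hx
      have b0 := bd _ x1 x2
      have b1 := bd _ x3 x4
      refine ⟨⟨hx', (bad_iff hN he hp0 (by linarith) hx').2 (Or.inr (Or.inr (Or.inl hc)))⟩, ?_, ?_⟩ <;>
        linarith [b0.1, b0.2, b1.1, b1.2]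
  · rw [← vol_K3 hp0 (by linarith)]; congr 1
    ext x
    rw [mem_inter_iff, q3, mem_sdiff]
    constructor
    · rintro ⟨⟨hx, hb⟩, h1, h2⟩
      have hx' := hx
      obtain ⟨x1, x2, x3, x4⟩ := hx
      have b0 := bd _ x1 x2
      have b1 := bd _ x3 x4
      rw [bad_iff hN he hp0 (by linarith) hx'] at hb
      rcases hb with hb | hb | hb | hb
      · have hl := hloc x hx' hb
        exfalso; linarith [b0.1, b0.2, b1.1, b1.2, hl.1, hl.2]
      · exfalso; linarith [b0.1, b0.2, b1.1, b1.2]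
      · exfalso; linarith [b0.1, b0.2, b1.1, b1.2]
      · exact ⟨hx', hb⟩
    · rintro ⟨hx, hc⟩
      have hx' := hx
      obtain ⟨x1, x2, x3, x4⟩ := hx
      have b0 := bd _ x1 x2
      have b1 := bd _ x3 x4
      refine ⟨⟨hx', (bad_iff hN he hp0 (by linarith) hx').2 (Or.inr (Or.inr (Or.inr hc)))⟩, ?_, ?_⟩ <;>
        linarith [b0.1, b0.2, b1.1, b1.2]

lemma zero_interior (hN : 2 ≤ N) (he : e = 1 / (2 * N)) (hp0 : 0 < p) (hp1 : p < 1) :
    (0 : E2) ∈ interior (poly (N + 7) (vf N e p)) := by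
  have hN' : (2 : ℝ) ≤ N := by exact_mod_cast hN
  have he0 : 0 < e := by rw [he]; positivity
  have he1 : e ≤ 1 / 4 := by
    rw [he, div_le_div_iff₀ (by positivity) (by norm_num)]; linarith
  apply (scp_vf hN he hp0 hp1).interior_of
  intro i hi
  have hi' : i < N ∨ i = N ∨ i = N + 1 ∨ i = N + 2 ∨ i = N + 3 ∨ i = N + 4 ∨ i = N + 5 ∨
      i = N + 6 := by omega
  have z0 : (0 : E2) 0 = 0 := rfl
  have z1 : (0 : E2) 1 = 0 := rfl
  rcases hi' with hi' | hi' | hi' | hi' | hi' | hi' | hi' | hi'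
  · obtain ⟨ha, hb, hab⟩ := params hN hi'
    rw [oc hi', hab, z0, z1]
    apply mul_pos (by positivity)
    have hab' : 0 < ((i + 1 : ℕ) : ℝ) / N - (i : ℝ) / N := by rw [hab]; positivity
    set a := (i : ℝ) / N
    set b := ((i + 1 : ℕ) : ℝ) / N
    have hab0 : 0 ≤ a * b := mul_nonneg ha (by linarith)
    nlinarith [mul_nonneg he0.le hab0]
  · rw [hi', oN (by omega), z1]; nlinarith
  · rw [hi', o1, z0, z1]; nlinarith
  · rw [hi', o2, z0]; nlinarith
  · rw [hi', o3, z0, z1]; nlinarith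
  · rw [hi', o4, z1]; nlinarith
  · rw [hi', o5, z0, z1]; nlinarith
  · rw [hi', o6, z0]; nlinarith

/-- Convex polygons with `N + 7` vertices and infinitely many quadrisections. -/
theorem infinite_case (hN : 2 ≤ N) :
    ∃ R : Set E2, IsGon (N + 7) R ∧ {q | IsQuadrisection R q}.Infinite := by
  have hN' : (2 : ℝ) ≤ N := by exact_mod_cast hN
  obtain ⟨e, he⟩ : ∃ e : ℝ, e = 1 / (2 * N) := ⟨_, rfl⟩
  have he0 : 0 < e := by rw [he]; positivity
  have he1 : e ≤ 1 / 4 := by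
    rw [he, div_le_div_iff₀ (by positivity) (by norm_num)]; linarith
  have hle := vol_K0_le hN he
  have hpos := vol_K0_pos hN he
  have hfin : volume (K0 N e) ≠ ⊤ := ne_top_of_le_ne_top ENNReal.ofReal_ne_top hle
  obtain ⟨A, hA⟩ : ∃ A : ℝ, A = (volume (K0 N e)).toReal := ⟨_, rfl⟩
  have hA0 : 0 < A := by rw [hA]; exact ENNReal.toReal_pos hpos.ne' hfin
  have hA1 : A ≤ e ^ 2 / 2 := by
    rw [hA]; exact ENNReal.toReal_le_of_le_ofReal (by positivity) hle
  obtain ⟨p, hp⟩ : ∃ p : ℝ, p = Real.sqrt (2 * A) := ⟨_, rfl⟩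
  have hp0 : 0 < p := by rw [hp]; exact Real.sqrt_pos.2 (by linarith)
  have hp2 : p ^ 2 = 2 * A := by rw [hp]; exact Real.sq_sqrt (by linarith)
  have hpe : p ≤ e := by
    by_contra hc
    push Not at hc
    nlinarith
  have hvol : volume (K0 N e) = ENNReal.ofReal (p ^ 2 / 2) := by
    rw [hp2, show 2 * A / 2 = A by ring, hA, ENNReal.ofReal_toReal hfin]
  have hscp := scp_vf hN he hp0 (by linarith : p < 1)
  have h0 := zero_interior hN he hp0 (by linarith : p < 1)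
  have hsub := poly_sub_Sq hN he hp0 (by linarith : p < 1)
  refine ⟨poly (N + 7) (vf N e p), hscp.isGon ⟨0, h0⟩, ?_⟩
  set R := poly (N + 7) (vf N e p) with hR
  have hRm : MeasurableSet R := poly_meas _ _
  have main : ∀ t : ℝ, |t| < 1 / 2 →
      IsQuadrisection R {line 0 !₂[1, t], line 0 (rot !₂[1, t])} := by
    intro t ht
    have hu : (!₂[1, t] : E2) ≠ 0 := by
      intro h
      have := congrFun (congrArg (fun x : E2 => (x : Fin 2 → ℝ)) h) 0
      simp at this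
    have hu' := rot_ne hu
    refine ⟨0, !₂[1, t], h0, hu, rfl, ?_⟩
    set u : E2 := !₂[1, t] with hu_def
    have hS1 : volume (Sq ∩ quad 0 (rot u)) = volume (Sq ∩ quad 0 u) := Sq_rot u hu
    have hS2 : volume (Sq ∩ quad 0 (-u)) = volume (Sq ∩ quad 0 u) := by
      rw [← hS1, ← rot_rot u]; exact Sq_rot _ hu'
    have hS3 : volume (Sq ∩ quad 0 (-rot u)) = volume (Sq ∩ quad 0 u) := by
      rw [← hS2, ← rot_rot (rot u)]
      rw [rot_rot u]
      exact Sq_rot _ (neg_ne_zero.2 hu)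
    have piece : ∀ w : E2, (w = u ∨ w = rot u ∨ w = -u ∨ w = -rot u) →
        volume (R ∩ quad 0 w) + ENNReal.ofReal (p ^ 2 / 2) = volume (Sq ∩ quad 0 u) := by
      intro w hw
      have h1 : volume (Sq ∩ quad 0 w) = volume (Sq ∩ quad 0 u) := by
        rcases hw with rfl | rfl | rfl | rfl
        · rfl
        · exact hS1
        · exact hS2
        · exact hS3
      rw [← h1, ← measure_inter_add_sdiff (Sq ∩ quad 0 w) hRm]
      congr 1
      · congr 1
        ext x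
        constructor
        · rintro ⟨h1, h2⟩; exact ⟨⟨hsub h1, h2⟩, h1⟩
        · rintro ⟨⟨h1, h2⟩, h3⟩; exact ⟨h3, h2⟩
      · rw [← vol_piece hN he hp0 hpe hvol ht w hw]
        congr 1
        ext x
        constructor
        · rintro ⟨⟨h1, h2⟩, h3⟩; exact ⟨⟨h1, h3⟩, h2⟩
        · rintro ⟨⟨h1, h2⟩, h3⟩; exact ⟨⟨h1, h3⟩, h2⟩
    have eqc : ∀ w : E2, (w = u ∨ w = rot u ∨ w = -u ∨ w = -rot u) →
        volume (R ∩ quad 0 w) = volume (R ∩ quad 0 u) := by
      intro w hw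
      have h1 := piece w hw
      rw [← piece u (Or.inl rfl)] at h1
      exact (ENNReal.add_left_inj ENNReal.ofReal_ne_top).1 h1
    have hsum := vol_quads R 0 u hu
    rw [eqc (rot u) (by simp), eqc (-u) (by simp), eqc (-rot u) (by simp)] at hsum
    have hq : volume (R ∩ quad 0 u) = volume R / 4 := by
      rw [ENNReal.eq_div_iff (by norm_num) (by norm_num), hsum]; ring
    intro k
    refine four_cases (fun w => volume (R ∩ quad 0 w) = volume R / 4) u hq ?_ ?_ ?_ k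
    · show volume (R ∩ quad 0 (rot u)) = _; rw [eqc _ (by simp)]; exact hq
    · show volume (R ∩ quad 0 (-u)) = _; rw [eqc _ (by simp)]; exact hq
    · show volume (R ∩ quad 0 (-rot u)) = _; rw [eqc _ (by simp)]; exact hq
  have hinf : (Ioo (-(1 / 2) : ℝ) (1 / 2)).Infinite := Ioo_infinite (by norm_num)
  have hinj : InjOn (fun t : ℝ => ({line 0 !₂[1, t], line 0 (rot !₂[1, t])} : Set (Set E2)))
      (Ioo (-(1 / 2) : ℝ) (1 / 2)) := by
    intro t ht t' ht' h
    exact slope_inj (by rw [abs_lt]; constructor <;> linarith [ht.1, ht.2])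
      (by rw [abs_lt]; constructor <;> linarith [ht'.1, ht'.2]) h
  refine (hinf.image hinj).mono ?_
  rintro _ ⟨t, ht, rfl⟩
  exact main t (abs_lt.2 ht)

end Pool.V11275.Quad
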