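import Pool.Agent.V11275.Quad3

/-!
Area bisectors of a convex body: existence, uniqueness, continuity; the intermediate value
argument for quadrisections.
-/

set_option autoImplicit false

namespace Pool.V11275.Quad

open MeasureTheory Set Filter Topology Pool.Agent.Helper717.Hull1 Pool.Agent.Helper717.Hull2
open scoped ENNReal

lemma continuous_dot_left (x : E2) : Continuous (fun a : E2 => dot a x) := by
  unfold dot; fun_prop

lemma ae_level (a : E2) (ha : a ≠ 0) (c : ℝ) : ∀ᵐ x ∂(volume : Measure E2), dot a x ≠ c := by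
  rw [ae_iff]
  simpa using null_level a ha c

section cont

variable (μ : Measure E2) [IsFiniteMeasure μ] (hμ : μ ≪ volume)

/-- Continuity of the measure of the intersection of two half planes. -/
lemma cont_quad (hμ : μ ≪ volume) {a b : ℝ → E2} {c d : ℝ → ℝ} {t0 : ℝ} (ha : ContinuousAt a t0)
    (hb : ContinuousAt b t0) (hc : ContinuousAt c t0) (hd : ContinuousAt d t0)
    (ha0 : a t0 ≠ 0) (hb0 : b t0 ≠ 0) :
    ContinuousAt (fun t => μ.real {x | c t ≤ dot (a t) x ∧ d t ≤ dot (b t) x}) t0 := by
  have hmeas : ∀ t, MeasurableSet {x : E2 | c t ≤ dot (a t) x ∧ d t ≤ dot (b t) x} := by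
    intro t
    exact ((isClosed_le continuous_const (continuous_dot _)).inter
      (isClosed_le continuous_const (continuous_dot _))).measurableSet
  have heq : (fun t => μ.real {x | c t ≤ dot (a t) x ∧ d t ≤ dot (b t) x}) =
      fun t => ∫ x, ({x | c t ≤ dot (a t) x ∧ d t ≤ dot (b t) x} : Set E2).indicator
        (1 : E2 → ℝ) x ∂μ := by
    funext t
    rw [integral_indicator_one (hmeas t)]
  rw [heq]
  apply continuousAt_of_dominated (bound := fun _ => (1 : ℝ))
  · exact Eventually.of_forall fun t =>
      (measurable_one.indicator (hmeas t)).aestronglyMeasurable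
  · refine Eventually.of_forall fun t => Eventually.of_forall fun x => ?_
    by_cases h : x ∈ {x : E2 | c t ≤ dot (a t) x ∧ d t ≤ dot (b t) x}
    · rw [indicator_of_mem h]; simp
    · rw [indicator_of_notMem h]; simp
  · exact integrable_const _
  · have h1 : ∀ᵐ x ∂μ, dot (a t0) x ≠ c t0 := hμ.ae_le (ae_level (a t0) ha0 (c t0))
    have h2 : ∀ᵐ x ∂μ, dot (b t0) x ≠ d t0 := hμ.ae_le (ae_level (b t0) hb0 (d t0))
    filter_upwards [h1, h2] with x hx1 hx2
    have ca : ContinuousAt (fun t => dot (a t) x - c t) t0 :=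
      ((continuous_dot_left x).continuousAt.comp ha).sub hc
    have cb : ContinuousAt (fun t => dot (b t) x - d t) t0 :=
      ((continuous_dot_left x).continuousAt.comp hb).sub hd
    have key : ∀ (φ : ℝ → ℝ), ContinuousAt φ t0 → φ t0 ≠ 0 →
        ∀ᶠ t in 𝓝 t0, (0 ≤ φ t ↔ 0 ≤ φ t0) := by
      intro φ hφ h0
      rcases lt_or_gt_of_ne h0 with h | h
      · filter_upwards [hφ.eventually_lt continuousAt_const h] with t ht
        constructor
        · intro h'; linarith
        · intro h'; linarith
      · filter_upwards [continuousAt_const.eventually_lt hφ h] with t ht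
        constructor
        · intro _; exact h.le
        · intro _; exact ht.le
    have e1 := key _ ca (sub_ne_zero.2 hx1)
    have e2 := key _ cb (sub_ne_zero.2 hx2)
    have e3 : ∀ᶠ t in 𝓝 t0, ({x | c t ≤ dot (a t) x ∧ d t ≤ dot (b t) x} : Set E2).indicator
        (1 : E2 → ℝ) x = ({x | c t0 ≤ dot (a t0) x ∧ d t0 ≤ dot (b t0) x} : Set E2).indicator
        (1 : E2 → ℝ) x := by
      filter_upwards [e1, e2] with t h1 h2
      have : (x ∈ {x : E2 | c t ≤ dot (a t) x ∧ d t ≤ dot (b t) x}) ↔
          (x ∈ {x : E2 | c t0 ≤ dot (a t0) x ∧ d t0 ≤ dot (b t0) x}) := by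
        simp only [mem_ofPred_eq]
        simp only [sub_nonneg] at h1 h2
        rw [h1, h2]
      by_cases h : x ∈ {x : E2 | c t ≤ dot (a t) x ∧ d t ≤ dot (b t) x}
      · rw [indicator_of_mem h, indicator_of_mem (this.1 h)]
      · rw [indicator_of_notMem h, indicator_of_notMem (fun h' => h (this.2 h'))]
    exact (continuousAt_const (y := ({x | c t0 ≤ dot (a t0) x ∧ d t0 ≤ dot (b t0) x} :
      Set E2).indicator (1 : E2 → ℝ) x)).congr (by
        filter_upwards [e3] with t ht
        exact ht.symm)

end cont

/-- A convex body. -/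
structure Body (R : Set E2) : Prop where
  conv : Convex ℝ R
  comp : IsCompact R
  int : (interior R).Nonempty

variable {R : Set E2}

/-- Lebesgue measure on `R`. -/
noncomputable def mu (R : Set E2) : Measure E2 := volume.restrict R

lemma mu_ac (R : Set E2) : mu R ≪ volume := Measure.restrict_le_self.absolutelyContinuous

lemma Body.fin (h : Body R) : IsFiniteMeasure (mu R) := by
  constructor
  unfold mu
  rw [Measure.restrict_apply MeasurableSet.univ, univ_inter]
  exact h.comp.measure_lt_top

/-- Total area. -/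
noncomputable def M (R : Set E2) : ℝ := (mu R).real univ

/-- Area on one side of a line. -/
noncomputable def H (R : Set E2) (a : E2) (c : ℝ) : ℝ := (mu R).real {x | c ≤ dot a x}

lemma mu_pos_int (h : Body R) {S : Set E2} (hS : 0 < (mu R) S) (hm : MeasurableSet S) :
    ∃ x ∈ interior R, x ∈ S := by
  by_contra hc
  push Not at hc
  have hsub : S ∩ R ⊆ frontier R := by
    rintro x ⟨h1, h2⟩
    rw [frontier, h.comp.isClosed.closure_eq]
    exact ⟨h2, fun h3 => hc x h3 h1⟩
  have : (mu R) S = 0 := by
    unfold mu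
    rw [Measure.restrict_apply hm]
    exact measure_mono_null hsub (h.conv.addHaar_frontier volume)
  rw [this] at hS
  exact lt_irrefl _ hS

lemma mu_open_pos (_h : Body R) {O : Set E2} (hO : IsOpen O) (hne : (O ∩ interior R).Nonempty) :
    0 < (mu R) O := by
  unfold mu
  rw [Measure.restrict_apply hO.measurableSet]
  have h1 : 0 < volume (O ∩ interior R) := (hO.inter isOpen_interior).measure_pos volume hne
  exact lt_of_lt_of_le h1 (measure_mono (inter_subset_inter_right _ interior_subset))

lemma M_pos (h : Body R) : 0 < M R := by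
  have := h.fin
  unfold M
  rw [Measure.real, ENNReal.toReal_pos_iff]
  refine ⟨mu_open_pos h isOpen_univ ?_, measure_lt_top _ _⟩
  rw [univ_inter]; exact h.int

lemma half_meas (a : E2) (c : ℝ) : MeasurableSet {x : E2 | c ≤ dot a x} :=
  (isClosed_le continuous_const (continuous_dot a)).measurableSet

lemma half_meas' (a : E2) (c : ℝ) : MeasurableSet {x : E2 | dot a x ≤ c} :=
  (isClosed_le (continuous_dot a) continuous_const).measurableSet

lemma mr_mono (h : Body R) {S T : Set E2} (hST : S ⊆ T) : (mu R).real S ≤ (mu R).real T := by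
  have := h.fin
  exact measureReal_mono hST

lemma H_anti (h : Body R) (a : E2) {c c' : ℝ} (hcc : c ≤ c') : H R a c' ≤ H R a c := by
  apply mr_mono h
  intro x hx
  exact hcc.trans hx

/-- Splitting along a level set. -/
lemma split (h : Body R) (T : Set E2) (b : E2) (hb : b ≠ 0) (d : ℝ) :
    (mu R).real T = (mu R).real (T ∩ {x | d ≤ dot b x}) + (mu R).real (T ∩ {x | dot b x ≤ d}) := by
  have := h.fin
  rw [← measureReal_inter_add_sdiff (s := T) (half_meas b d)]
  congr 1
  apply measureReal_congr
  have hn : ∀ᵐ x ∂(mu R), dot b x ≠ d := (mu_ac R).ae_le (ae_level b hb d)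
  filter_upwards [hn] with x hx
  apply propext
  constructor
  · rintro ⟨h1, h2⟩
    have h3 : ¬ (d ≤ dot b x) := h2
    exact ⟨h1, le_of_lt (not_le.1 h3)⟩
  · rintro ⟨h1, h2⟩
    exact ⟨h1, not_le.2 (lt_of_le_of_ne h2 hx)⟩

lemma H_strict (h : Body R) (a : E2) {c c' : ℝ} (hcc : c < c')
    (h1 : 0 < H R a c') (h2 : H R a c < M R) : H R a c' < H R a c := by
  have := h.fin
  have hdec : H R a c = H R a c' + (mu R).real {x | c ≤ dot a x ∧ dot a x < c'} := by
    unfold H
    have hdis : Disjoint {x : E2 | c' ≤ dot a x} {x | c ≤ dot a x ∧ dot a x < c'} := by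
      rw [Set.disjoint_left]
      rintro x hx ⟨_, hx2⟩
      exact absurd hx (not_le.2 hx2)
    have hms : MeasurableSet {x : E2 | c ≤ dot a x ∧ dot a x < c'} :=
      (half_meas a c).inter (isOpen_lt (continuous_dot a) continuous_const).measurableSet
    rw [← measureReal_union hdis hms]
    congr 1
    ext x
    simp only [mem_ofPred_eq, mem_union]
    constructor
    · intro hx
      rcases le_or_gt c' (dot a x) with h3 | h3
      · left; exact h3
      · right; exact ⟨hx, h3⟩
    · rintro (hx | ⟨hx, _⟩)
      · linarith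
      · exact hx
  rw [hdec]
  have hpos : 0 < (mu R).real {x | c ≤ dot a x ∧ dot a x < c'} := by
    obtain ⟨y, hy, hy1⟩ := mu_pos_int h (S := {x | c' ≤ dot a x}) (by
      have := h1; unfold H Measure.real at this
      exact (ENNReal.toReal_pos_iff.1 this).1) (half_meas a c')
    obtain ⟨x, hx, hx1⟩ := mu_pos_int h (S := {x | c ≤ dot a x}ᶜ) (by
      have h3 : (mu R).real {x | c ≤ dot a x}ᶜ = M R - H R a c := by
        rw [measureReal_compl (half_meas a c)]; rfl
      have h4 : 0 < (mu R).real {x | c ≤ dot a x}ᶜ := by rw [h3]; linarith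
      unfold Measure.real at h4
      exact (ENNReal.toReal_pos_iff.1 h4).1) (half_meas a c).compl
    simp only [mem_compl_iff, mem_ofPred_eq, not_le] at hx1 hy1
    have hden : 0 < dot a y - dot a x := by linarith
    set s := ((c + c') / 2 - dot a x) / (dot a y - dot a x) with hs
    have hs0 : 0 ≤ s := div_nonneg (by linarith) hden.le
    have hs1 : s ≤ 1 := by rw [hs, div_le_one hden]; linarith
    have hz : (1 - s) • x + s • y ∈ interior R :=
      h.conv.interior hx hy (by linarith) hs0 (by ring)
    have hdz : dot a ((1 - s) • x + s • y) = (c + c') / 2 := by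
      have e : dot a ((1 - s) • x + s • y) = dot a x + s * (dot a y - dot a x) := by
        simp [dot]; ring
      rw [e, hs]; field_simp; ring
    have hO : IsOpen {x : E2 | c < dot a x ∧ dot a x < c'} :=
      (isOpen_lt continuous_const (continuous_dot a)).inter
        (isOpen_lt (continuous_dot a) continuous_const)
    have h5 := mu_open_pos h hO ⟨_, ⟨by rw [hdz]; linarith, by rw [hdz]; linarith⟩, hz⟩
    have h6 : (mu R) {x : E2 | c < dot a x ∧ dot a x < c'} ≤
        (mu R) {x | c ≤ dot a x ∧ dot a x < c'} := by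
      apply measure_mono
      rintro x ⟨h7, h8⟩
      exact ⟨le_of_lt h7, h8⟩
    unfold Measure.real
    rw [ENNReal.toReal_pos_iff]
    exact ⟨lt_of_lt_of_le h5 h6, measure_lt_top _ _⟩
  linarith

lemma H_exists (h : Body R) (a : E2) (ha : a ≠ 0) : ∃ c, H R a c = M R / 2 := by
  have := h.fin
  have hcont : Continuous (fun c => H R a c) := by
    rw [continuous_iff_continuousAt]
    intro c0
    have := cont_quad (mu R) (mu_ac R) (a := fun _ => a) (b := fun _ => a) (c := fun c => c)
      (d := fun c => c) (t0 := c0) continuousAt_const continuousAt_const continuousAt_id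
      continuousAt_id ha ha
    simpa [H] using this
  obtain ⟨B, hB⟩ := (h.comp.image (continuous_dot a)).isBounded.subset_closedBall 0
  have hB' : ∀ x ∈ R, |dot a x| ≤ B := by
    intro x hx
    have := hB ⟨x, hx, rfl⟩
    simpa [Real.dist_eq] using this
  have hM := M_pos h
  have h1 : H R a (-B) = M R := by
    unfold H M
    apply measureReal_congr
    have : ∀ᵐ x ∂(mu R), x ∈ R := by
      unfold mu
      exact ae_restrict_mem h.comp.isClosed.measurableSet
    filter_upwards [this] with x hx
    apply propext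
    constructor
    · intro _; trivial
    · intro _; exact (abs_le.1 (hB' x hx)).1
  have h2 : H R a (B + 1) = 0 := by
    unfold H
    have : (mu R) {x | B + 1 ≤ dot a x} = 0 := by
      have : ∀ᵐ x ∂(mu R), x ∈ R := by
        unfold mu
        exact ae_restrict_mem h.comp.isClosed.measurableSet
      have h3 : ∀ᵐ x ∂(mu R), x ∉ {x : E2 | B + 1 ≤ dot a x} := by
        filter_upwards [this] with x hx
        simp only [mem_ofPred_eq, not_le]
        linarith [(abs_le.1 (hB' x hx)).2]
      simpa [ae_iff] using h3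
    simp [Measure.real, this]
  have := mem_range_of_exists_le_of_exists_ge hcont (c := M R / 2) ⟨B + 1, by rw [h2]; linarith⟩
    ⟨-B, by rw [h1]; linarith⟩
  exact this

theorem exists_bis (h : Body R) (a : ℝ → E2) (ha : Continuous a) (h0 : ∀ t, a t ≠ 0) :
    ∃ c : ℝ → ℝ, Continuous c ∧ ∀ t, H R (a t) (c t) = M R / 2 := by
  have := h.fin
  have hM := M_pos h
  choose c hc using fun t => H_exists h (a t) (h0 t)
  refine ⟨c, ?_, hc⟩
  rw [continuous_iff_continuousAt]
  intro t0
  rw [ContinuousAt, Metric.tendsto_nhds]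
  intro ε hε
  have hct : ∀ s : ℝ, ContinuousAt (fun t => H R (a t) s) t0 := by
    intro s
    have := cont_quad (mu R) (mu_ac R) (a := a) (b := a) (c := fun _ => s)
      (d := fun _ => s) (t0 := t0) ha.continuousAt ha.continuousAt continuousAt_const
      continuousAt_const (h0 t0) (h0 t0)
    simpa [H] using this
  have g1 : M R / 2 < H R (a t0) (c t0 - ε) := by
    rw [← hc t0]
    by_cases h3 : H R (a t0) (c t0 - ε) < M R
    · exact H_strict h (a t0) (by linarith) (by rw [hc]; linarith) h3
    · push Not at h3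
      rw [hc]; linarith
  have g2 : H R (a t0) (c t0 + ε) < M R / 2 := by
    rw [← hc t0]
    by_cases h3 : 0 < H R (a t0) (c t0 + ε)
    · exact H_strict h (a t0) (by linarith) h3 (by rw [hc]; linarith)
    · push Not at h3
      rw [hc]; linarith
  filter_upwards [continuousAt_const.eventually_lt (hct (c t0 - ε)) g1,
    (hct (c t0 + ε)).eventually_lt continuousAt_const g2] with t e1 e2
  rw [Real.dist_eq, abs_lt]
  constructor
  · by_contra hcon
    push Not at hcon
    have := H_anti h (a t) (show c t ≤ c t0 - ε by linarith)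
    rw [hc t] at this
    linarith
  · by_contra hcon
    push Not at hcon
    have := H_anti h (a t) (show c t0 + ε ≤ c t by linarith)
    rw [hc t] at this
    linarith

/-- The four pieces. -/
noncomputable def App (R : Set E2) (a b : E2) (c d : ℝ) : ℝ :=
  (mu R).real ({x | c ≤ dot a x} ∩ {x | d ≤ dot b x})
noncomputable def Apm (R : Set E2) (a b : E2) (c d : ℝ) : ℝ :=
  (mu R).real ({x | c ≤ dot a x} ∩ {x | dot b x ≤ d})
noncomputable def Amp (R : Set E2) (a b : E2) (c d : ℝ) : ℝ :=
  (mu R).real ({x | dot a x ≤ c} ∩ {x | d ≤ dot b x})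
noncomputable def Amm (R : Set E2) (a b : E2) (c d : ℝ) : ℝ :=
  (mu R).real ({x | dot a x ≤ c} ∩ {x | dot b x ≤ d})

lemma pieces (h : Body R) {a b : E2} (ha : a ≠ 0) (hb : b ≠ 0) {c d : ℝ}
    (hc : H R a c = M R / 2) (hd : H R b d = M R / 2) :
    Apm R a b c d = M R / 2 - App R a b c d ∧ Amp R a b c d = M R / 2 - App R a b c d ∧
      Amm R a b c d = App R a b c d := by
  have s1 := split h {x | c ≤ dot a x} b hb d
  have s2 := split h {x | dot a x ≤ c} b hb d
  have s3 := split h {x | d ≤ dot b x} a ha c
  have s4 := split h univ a ha c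
  rw [univ_inter, univ_inter] at s4
  rw [inter_comm {x | d ≤ dot b x} {x | c ≤ dot a x}, inter_comm {x | d ≤ dot b x}] at s3
  unfold H at hc hd
  unfold M at *
  unfold App Apm Amp Amm
  refine ⟨by linarith, by linarith, by linarith⟩

/-- Sign of the quadrant area from an approximate cross. -/
lemma sign_pos (h : Body R) {a b : E2} (ha : a ≠ 0) (hb : b ≠ 0) {c d : ℝ}
    (hc : H R a c = M R / 2) (hd : H R b d = M R / 2) {c' d' : ℝ}
    (h1 : M R / 4 < App R a b c' d') (h2 : M R / 4 < Amm R a b c' d')
    (h3 : Apm R a b c' d' < M R / 4) (h4 : Amp R a b c' d' < M R / 4) :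
    M R / 4 < App R a b c d := by
  have := h.fin
  obtain ⟨e1, e2, e3⟩ := pieces h ha hb hc hd
  by_contra hcon
  push Not at hcon
  rcases le_total c c' with hcc | hcc <;> rcases le_total d d' with hdd | hdd
  · have : App R a b c' d' ≤ App R a b c d := by
      apply mr_mono h
      rintro x ⟨h5, h6⟩
      exact ⟨hcc.trans h5, hdd.trans h6⟩
    linarith
  · have : Amp R a b c d ≤ Amp R a b c' d' := by
      apply mr_mono h
      rintro x ⟨h5, h6⟩
      exact ⟨le_trans h5 hcc, hdd.trans h6⟩
    linarith
  · have : Apm R a b c d ≤ Apm R a b c' d' := by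
      apply mr_mono h
      rintro x ⟨h5, h6⟩
      exact ⟨hcc.trans h5, le_trans h6 hdd⟩
    linarith
  · have : Amm R a b c' d' ≤ Amm R a b c d := by
      apply mr_mono h
      rintro x ⟨h5, h6⟩
      exact ⟨le_trans h5 hcc, le_trans h6 hdd⟩
    linarith

lemma sign_neg (h : Body R) {a b : E2} (ha : a ≠ 0) (hb : b ≠ 0) {c d : ℝ}
    (hc : H R a c = M R / 2) (hd : H R b d = M R / 2) {c' d' : ℝ}
    (h1 : App R a b c' d' < M R / 4) (h2 : Amm R a b c' d' < M R / 4)
    (h3 : M R / 4 < Apm R a b c' d') (h4 : M R / 4 < Amp R a b c' d') :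
    App R a b c d < M R / 4 := by
  have := h.fin
  obtain ⟨e1, e2, e3⟩ := pieces h ha hb hc hd
  by_contra hcon
  push Not at hcon
  rcases le_total c c' with hcc | hcc <;> rcases le_total d d' with hdd | hdd
  · have : Amm R a b c d ≤ Amm R a b c' d' := by
      apply mr_mono h
      rintro x ⟨h5, h6⟩
      exact ⟨le_trans h5 hcc, le_trans h6 hdd⟩
    linarith
  · have : Apm R a b c' d' ≤ Apm R a b c d := by
      apply mr_mono h
      rintro x ⟨h5, h6⟩
      exact ⟨hcc.trans h5, le_trans h6 hdd⟩
    linarith
  · have : Amp R a b c' d' ≤ Amp R a b c d := by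
      apply mr_mono h
      rintro x ⟨h5, h6⟩
      exact ⟨le_trans h5 hcc, hdd.trans h6⟩
    linarith
  · have : App R a b c d ≤ App R a b c' d' := by
      apply mr_mono h
      rintro x ⟨h5, h6⟩
      exact ⟨hcc.trans h5, hdd.trans h6⟩
    linarith

end Pool.V11275.Quad
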