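import Pool.Agent.V11275.Quad5

/-!
Alternating signs of approximate crosses give many quadrisections.
-/

set_option autoImplicit false

namespace Pool.V11275.Quad

open MeasureTheory Set Filter Topology Pool.Agent.Helper717.Hull1 Pool.Agent.Helper717.Hull2
open scoped ENNReal

variable {R : Set E2}

lemma vol_of_real (h : Body R) {S : Set E2} (hS : MeasurableSet S)
    (he : (mu R).real S = M R / 4) : volume (R ∩ S) = volume R / 4 := by
  have := h.fin
  have h1 : volume (R ∩ S) = (mu R) S := by
    unfold mu; rw [Measure.restrict_apply hS, inter_comm]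
  have h2 : volume R = (mu R) univ := by
    unfold mu; rw [Measure.restrict_apply MeasurableSet.univ, univ_inter]
  have k1 : (mu R) S = ENNReal.ofReal ((mu R).real S) :=
    (ENNReal.ofReal_toReal (measure_ne_top _ _)).symm
  have k2 : (mu R) univ = ENNReal.ofReal ((mu R).real univ) :=
    (ENNReal.ofReal_toReal (measure_ne_top _ _)).symm
  rw [h1, h2, k1, k2, he]
  unfold M
  generalize (mu R).real univ = y
  rw [ENNReal.ofReal_div_of_pos (by norm_num)]
  have h4 : ENNReal.ofReal 4 = 4 := by norm_num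
  rw [h4]

lemma quadrisection_of (h : Body R) {u : E2} (hu : u ≠ 0) {c d : ℝ}
    (hc : H R u c = M R / 2) (hd : H R (rot u) d = M R / 2)
    (h0 : App R u (rot u) c d = M R / 4) :
    ∃ P, IsQuadrisection R {line P u, line P (rot u)} := by
  have hu' := rot_ne hu
  have hD := dot_self_pos hu
  have hM := M_pos h
  set P : E2 := (c / dot u u) • u + (d / dot u u) • rot u with hP
  have hPc : dot u P = c := by
    have : dot u P = (c / dot u u) * dot u u := by simp [hP, dot]; ring
    rw [this]; field_simp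
  have hPd : dot (rot u) P = d := by
    have : dot (rot u) P = (d / dot u u) * dot u u := by simp [hP, dot]; ring
    rw [this]; field_simp
  have hsub : ∀ (a x : E2), dot a (x - P) = dot a x - dot a P := by
    intro a x; simp [dot]; ring
  have hneg : ∀ (a x : E2), dot (-a) x = - dot a x := by
    intro a x; simp [dot]; ring
  obtain ⟨e1, e2, e3⟩ := pieces h hu hu' hc hd
  have hrn : rot (-u) = -rot u := by apply ext2 <;> simp
  have hrr : rot (-rot u) = u := by apply ext2 <;> simp
  have q0 : quad P u = {x | c ≤ dot u x} ∩ {x | d ≤ dot (rot u) x} := by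
    ext x
    rw [quad_iff _ _ _ hu, hsub, hsub, hPc, hPd]
    simp only [mem_inter_iff, mem_ofPred_eq, sub_nonneg]
  have q1 : quad P (rot u) = {x | dot u x ≤ c} ∩ {x | d ≤ dot (rot u) x} := by
    ext x
    rw [quad_iff _ _ _ hu', rot_rot, hsub, hsub, hneg, hneg, hPc, hPd]
    simp only [mem_inter_iff, mem_ofPred_eq]
    constructor
    · rintro ⟨h1, h2⟩; exact ⟨by linarith, by linarith⟩
    · rintro ⟨h1, h2⟩; exact ⟨by linarith, by linarith⟩
  have q2 : quad P (-u) = {x | dot u x ≤ c} ∩ {x | dot (rot u) x ≤ d} := by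
    ext x
    rw [quad_iff _ _ _ (neg_ne_zero.2 hu), hrn, hsub, hsub, hneg, hneg, hneg, hneg, hPc, hPd]
    simp only [mem_inter_iff, mem_ofPred_eq]
    constructor
    · rintro ⟨h1, h2⟩; exact ⟨by linarith, by linarith⟩
    · rintro ⟨h1, h2⟩; exact ⟨by linarith, by linarith⟩
  have q3 : quad P (-rot u) = {x | c ≤ dot u x} ∩ {x | dot (rot u) x ≤ d} := by
    ext x
    rw [quad_iff _ _ _ (neg_ne_zero.2 hu'), hrr, hsub, hsub, hneg, hneg, hPc, hPd]
    simp only [mem_inter_iff, mem_ofPred_eq]
    constructor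
    · rintro ⟨h1, h2⟩; exact ⟨by linarith, by linarith⟩
    · rintro ⟨h1, h2⟩; exact ⟨by linarith, by linarith⟩
  have m0 : (mu R).real (quad P u) = M R / 4 := by rw [q0]; exact h0
  have m1 : (mu R).real (quad P (rot u)) = M R / 4 := by
    rw [q1]; change Amp R u (rot u) c d = _; linarith
  have m2 : (mu R).real (quad P (-u)) = M R / 4 := by
    rw [q2]; change Amm R u (rot u) c d = _; linarith
  have m3 : (mu R).real (quad P (-rot u)) = M R / 4 := by
    rw [q3]; change Apm R u (rot u) c d = _; linarith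
  have ms0 := quad_meas P u hu
  have ms1 := quad_meas P _ hu'
  have ms2 := quad_meas P _ (neg_ne_zero.2 hu)
  have ms3 := quad_meas P _ (neg_ne_zero.2 hu')
  refine ⟨P, P, u, ?_, hu, rfl, ?_⟩
  · by_contra hPi
    obtain ⟨f, hf⟩ := geometric_hahn_banach_open_point h.conv.interior isOpen_interior hPi
    have key : ∀ w : E2, MeasurableSet (quad P w) → (mu R).real (quad P w) = M R / 4 →
        0 ≤ f w → 0 ≤ f (rot w) → False := by
      intro w hm hr h1 h2
      obtain ⟨x, hx1, hx2⟩ := mu_pos_int h (S := quad P w) (by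
        have : 0 < (mu R).real (quad P w) := by rw [hr]; linarith
        unfold Measure.real at this
        exact (ENNReal.toReal_pos_iff.1 this).1) hm
      obtain ⟨s, t, hs, ht, rfl⟩ := hx2
      have := hf _ hx1
      rw [map_add, map_add, map_smul, map_smul, smul_eq_mul, smul_eq_mul] at this
      nlinarith [mul_nonneg hs h1, mul_nonneg ht h2]
    rcases le_total 0 (f u) with h1 | h1 <;> rcases le_total 0 (f (rot u)) with h2 | h2
    · exact key u ms0 m0 h1 h2
    · exact key (-rot u) ms3 m3 (by rw [map_neg]; linarith) (by rw [hrr]; exact h1)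
    · exact key (rot u) ms1 m1 h2 (by rw [rot_rot, map_neg]; linarith)
    · exact key (-u) ms2 m2 (by rw [map_neg]; linarith) (by rw [hrn, map_neg]; linarith)
  · intro k
    exact four_cases (fun w => volume (R ∩ quad P w) = volume R / 4) u (vol_of_real h ms0 m0)
      (vol_of_real h ms1 m1) (vol_of_real h ms2 m2) (vol_of_real h ms3 m3) k

/-- Approximate crosses with the two kinds of imbalance. -/
def Plus (R : Set E2) (t : ℝ) : Prop := ∃ c d : ℝ,
  M R / 4 < App R !₂[1, t] (rot !₂[1, t]) c d ∧ M R / 4 < Amm R !₂[1, t] (rot !₂[1, t]) c d ∧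
  Apm R !₂[1, t] (rot !₂[1, t]) c d < M R / 4 ∧ Amp R !₂[1, t] (rot !₂[1, t]) c d < M R / 4

def Minus (R : Set E2) (t : ℝ) : Prop := ∃ c d : ℝ,
  App R !₂[1, t] (rot !₂[1, t]) c d < M R / 4 ∧ Amm R !₂[1, t] (rot !₂[1, t]) c d < M R / 4 ∧
  M R / 4 < Apm R !₂[1, t] (rot !₂[1, t]) c d ∧ M R / 4 < Amp R !₂[1, t] (rot !₂[1, t]) c d

lemma dir_ne (t : ℝ) : (!₂[1, t] : E2) ≠ 0 := by
  intro h
  have := congrFun (congrArg (fun x : E2 => (x : Fin 2 → ℝ)) h) 0
  simp at this

lemma dir_cont : Continuous (fun t : ℝ => (!₂[1, t] : E2)) := by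
  refine (PiLp.continuous_toLp 2 _).comp ?_
  apply continuous_pi
  intro i
  fin_cases i
  · exact continuous_const
  · exact continuous_id

lemma rot_cont : Continuous rot := rotL.continuous

/-- Alternation gives quadrisections. -/
theorem many (h : Body R) (n : ℕ) (τ : ℕ → ℝ) (hτ : ∀ i ≤ n, |τ i| < 1)
    (hmono : ∀ i < n, τ i < τ (i + 1))
    (hs : ∀ i ≤ n, if i % 2 = 0 then Plus R (τ i) else Minus R (τ i)) :
    (n : ℕ∞) ≤ {q | IsQuadrisection R q}.encard := by
  have hf := h.fin
  have hrc : Continuous (fun t : ℝ => rot (!₂[1, t] : E2)) := rot_cont.comp dir_cont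
  obtain ⟨c, hc, hc'⟩ := exists_bis h (fun t => (!₂[1, t] : E2)) dir_cont dir_ne
  obtain ⟨d, hd, hd'⟩ := exists_bis h (fun t => rot (!₂[1, t] : E2)) hrc
    (fun t => rot_ne (dir_ne t))
  set F : ℝ → ℝ := fun t => App R !₂[1, t] (rot !₂[1, t]) (c t) (d t) with hF
  have hFc : Continuous F := by
    rw [continuous_iff_continuousAt]
    intro t0
    exact cont_quad (mu R) (mu_ac R) (a := fun t => (!₂[1, t] : E2))
      (b := fun t => rot (!₂[1, t] : E2)) (c := c) (d := d) (t0 := t0) dir_cont.continuousAt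
      hrc.continuousAt hc.continuousAt hd.continuousAt (dir_ne t0) (rot_ne (dir_ne t0))
  have hsign : ∀ i ≤ n, if i % 2 = 0 then M R / 4 < F (τ i) else F (τ i) < M R / 4 := by
    intro i hi
    have := hs i hi
    split_ifs at this ⊢ with h1
    · obtain ⟨c', d', h2, h3, h4, h5⟩ := this
      exact sign_pos h (dir_ne _) (rot_ne (dir_ne _)) (hc' _) (hd' _) h2 h3 h4 h5
    · obtain ⟨c', d', h2, h3, h4, h5⟩ := this
      exact sign_neg h (dir_ne _) (rot_ne (dir_ne _)) (hc' _) (hd' _) h2 h3 h4 h5
  have hz : ∀ i, i < n → ∃ z ∈ Ioo (τ i) (τ (i + 1)), F z = M R / 4 := by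
    intro i hi
    have h1 := hsign i hi.le
    have h2 := hsign (i + 1) hi
    rcases Nat.mod_two_eq_zero_or_one i with h3 | h3
    · have h4 : (i + 1) % 2 ≠ 0 := by omega
      rw [if_pos h3] at h1
      rw [if_neg h4] at h2
      obtain ⟨z, hz, hz'⟩ := intermediate_value_Ioo' (hmono i hi).le hFc.continuousOn ⟨h2, h1⟩
      exact ⟨z, hz, hz'⟩
    · have h4 : (i + 1) % 2 = 0 := by omega
      rw [if_neg (by omega)] at h1
      rw [if_pos h4] at h2
      obtain ⟨z, hz, hz'⟩ := intermediate_value_Ioo (hmono i hi).le hFc.continuousOn ⟨h1, h2⟩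
      exact ⟨z, hz, hz'⟩
  choose! z hz1 hz2 using hz
  have hmono' : ∀ i j, i ≤ j → j ≤ n → τ i ≤ τ j := by
    intro i j hij
    induction j, hij using Nat.le_induction with
    | base => intro _; exact le_rfl
    | succ j hj ih =>
      intro hjn
      exact (ih (by omega)).trans (hmono j (by omega)).le
  have hzlt : ∀ i j, i < j → j < n → z i < z j := by
    intro i j hij hj
    have h1 := (hz1 i (by omega)).2
    have h2 := (hz1 j hj).1
    have h3 := hmono' (i + 1) j hij hj.le
    linarith
  have hzabs : ∀ i, i < n → |z i| < 1 := by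
    intro i hi
    have h1 := hz1 i hi
    have h2 := abs_lt.1 (hτ i hi.le)
    have h3 := abs_lt.1 (hτ (i + 1) hi)
    rw [abs_lt]
    exact ⟨by linarith [h1.1], by linarith [h1.2]⟩
  have hq : ∀ i, i < n → ∃ P, IsQuadrisection R {line P !₂[1, z i], line P (rot !₂[1, z i])} := by
    intro i hi
    exact quadrisection_of h (dir_ne _) (hc' _) (hd' _) (hz2 i hi)
  choose! P hP using hq
  have hinj : Function.Injective (fun i : Fin n =>
      ({line (P i) !₂[1, z i], line (P i) (rot !₂[1, z i])} : Set (Set E2))) := by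
    intro i j hij
    have := slope_inj (hzabs i i.2) (hzabs j j.2) hij
    rcases lt_trichotomy (i : ℕ) (j : ℕ) with h1 | h1 | h1
    · exact absurd this (hzlt i j h1 j.2).ne
    · exact Fin.ext h1
    · exact absurd this (hzlt j i h1 i.2).ne'
  have hcard := hinj.encard_range
  rw [ENat.card_eq_coe_fintype_card, Fintype.card_fin] at hcard
  refine hcard.trans (encard_le_encard ?_)
  rintro _ ⟨i, rfl⟩
  exact hP i i.2

end Pool.V11275.Quad
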