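import Pool.Agent.V11275.Quad6

/-!
Integer certificates for many quadrisections.
-/

set_option autoImplicit false

namespace Pool.V11275.Quad

open MeasureTheory Set Filter Topology Pool.Agent.Helper717.Hull1 Pool.Agent.Helper717.Hull2
open scoped ENNReal

abbrev Z2 := ℤ × ℤ

noncomputable def toE (p : Z2) : E2 := !₂[(p.1 : ℝ), (p.2 : ℝ)]

def oZ (a b c : Z2) : ℤ := (b.1 - a.1) * (c.2 - a.2) - (b.2 - a.2) * (c.1 - a.1)

lemma orient_toE (a b c : Z2) : orient (toE a) (toE b) (toE c) = ((oZ a b c : ℤ) : ℝ) := by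
  simp [orient, toE, oZ]

def vz (L : List Z2) (i : ℕ) : Z2 := L.getD (i % L.length) (0, 0)

def chkS (L : List Z2) : Prop :=
  3 ≤ L.length ∧ ∀ i < L.length, ∀ k < L.length, k = i ∨ k = i + 1 ∨
    (i + 1 = L.length ∧ k = 0) ∨ 0 < oZ (vz L i) (vz L (i + 1)) (vz L k)

instance (L : List Z2) : Decidable (chkS L) := by unfold chkS; infer_instance

noncomputable def vE (L : List Z2) (i : ℕ) : E2 := toE (vz L i)

lemma scp_of_chk {L : List Z2} (h : chkS L) : SCP L.length (vE L) := by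
  refine ⟨h.1, ?_, ?_⟩
  · unfold vE vz; simp
  · intro i hi k hk h1 h2 h3
    unfold vE
    rw [orient_toE]
    rcases h.2 i hi k hk with h4 | h4 | h4 | h4
    · exact absurd h4 h1
    · exact absurd h4 h2
    · exact absurd h4 h3
    · exact_mod_cast h4

def area2 (L : List Z2) : ℤ :=
  ∑ j ∈ Finset.range (L.length - 2), oZ (vz L 0) (vz L (j + 1)) (vz L (j + 2))

/-- The polygon of a list. -/
def pol (L : List Z2) : Set E2 := poly L.length (vE L)

lemma vol_pol_le {L : List Z2} (h : chkS L) :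
    volume (pol L) ≤ ENNReal.ofReal ((area2 L : ℝ) / 2) := by
  have hs := scp_of_chk h
  have hpos : ∀ j ∈ Finset.range (L.length - 2),
      0 < orient (vE L 0) (vE L (j + 1)) (vE L (j + 2)) := by
    intro j hj
    rw [Finset.mem_range] at hj
    have := hs.pos (j + 1) (by omega) 0 (by omega) (by omega) (by omega) (by omega)
    rwa [← or_cyc]
  have hsub : pol L ⊆ ⋃ j ∈ Finset.range (L.length - 2),
      convexHull ℝ ({vE L 0, vE L (j + 1), vE L (j + 2)} : Set E2) := by
    intro x hx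
    obtain ⟨j, hj1, hj2, hj3⟩ := hs.fan ((hs.mem_iff x).1 hx)
    obtain ⟨i, rfl⟩ : ∃ i, j = i + 1 := ⟨j - 1, by omega⟩
    simp only [mem_iUnion, Finset.mem_range]
    exact ⟨i, by omega, hj3⟩
  calc volume (pol L) ≤ volume (⋃ j ∈ Finset.range (L.length - 2),
      convexHull ℝ ({vE L 0, vE L (j + 1), vE L (j + 2)} : Set E2)) := measure_mono hsub
    _ ≤ ∑ j ∈ Finset.range (L.length - 2),
        volume (convexHull ℝ ({vE L 0, vE L (j + 1), vE L (j + 2)} : Set E2)) :=
      measure_biUnion_finset_le _ _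
    _ = ∑ j ∈ Finset.range (L.length - 2),
        ENNReal.ofReal (orient (vE L 0) (vE L (j + 1)) (vE L (j + 2)) / 2) := by
      apply Finset.sum_congr rfl
      intro j hj
      exact tri_vol_pos _ _ _ (hpos j hj)
    _ = ENNReal.ofReal (∑ j ∈ Finset.range (L.length - 2),
        orient (vE L 0) (vE L (j + 1)) (vE L (j + 2)) / 2) := by
      rw [ENNReal.ofReal_sum_of_nonneg]
      intro j hj
      have := hpos j hj
      linarith
    _ = ENNReal.ofReal ((area2 L : ℝ) / 2) := by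
      congr 1
      unfold area2
      push_cast
      rw [Finset.sum_div]
      apply Finset.sum_congr rfl
      intro j _
      unfold vE
      rw [orient_toE]

def fanS (w0 : Z2) : List Z2 → ℤ
  | a :: b :: t => oZ w0 a b + fanS w0 (b :: t)
  | _ => 0

def hull (w0 : Z2) (l : List Z2) : Set E2 :=
  convexHull ℝ (insert (toE w0) {x | ∃ w ∈ l, x = toE w})

lemma fanS_nonneg (w0 : Z2) : ∀ l : List Z2, l.Pairwise (fun a b => 0 < oZ w0 a b) →
    0 ≤ fanS w0 l
  | [], _ => le_refl _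
  | [_], _ => le_refl _
  | a :: b :: t, h => by
    have h1 := (List.pairwise_cons.1 h).1 b (by simp)
    have h2 := fanS_nonneg w0 (b :: t) (List.pairwise_cons.1 h).2
    simp only [fanS]
    omega

lemma fan_lower (w0 : Z2) : ∀ l : List Z2, l.Pairwise (fun a b => 0 < oZ w0 a b) →
    ENNReal.ofReal ((fanS w0 l : ℝ) / 2) ≤ volume (hull w0 l)
  | [], _ => by simp [fanS]
  | [_], _ => by simp [fanS]
  | a :: b :: t, h => by
    have hp := List.pairwise_cons.1 h
    have h1 := hp.1 b (by simp)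
    have ih := fan_lower w0 (b :: t) hp.2
    have hn := fanS_nonneg w0 (b :: t) hp.2
    have hor : 0 < orient (toE w0) (toE a) (toE b) := by rw [orient_toE]; exact_mod_cast h1
    have hne : toE w0 ≠ toE b := by
      intro e
      rw [e, or_self3] at hor
      exact lt_irrefl _ hor
    have hp2 := List.pairwise_cons.1 hp.2
    have hsub : convexHull ℝ ({toE w0, toE a, toE b} : Set E2) ∪ hull w0 (b :: t) ⊆
        hull w0 (a :: b :: t) := by
      apply union_subset
      · apply convexHull_mono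
        intro x hx
        simp only [mem_insert_iff, mem_singleton_iff] at hx
        rcases hx with rfl | rfl | rfl
        · exact mem_insert _ _
        · right; exact ⟨a, by simp, rfl⟩
        · right; exact ⟨b, by simp, rfl⟩
      · apply convexHull_mono
        apply insert_subset_insert
        rintro x ⟨w, hw, rfl⟩
        exact ⟨w, List.mem_cons_of_mem _ hw, rfl⟩
    have s1 : convexHull ℝ ({toE w0, toE a, toE b} : Set E2) ⊆
        {x | orient (toE w0) (toE b) x ≤ 0} := by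
      apply convexHull_min _ (half_convex' _ _)
      intro x hx
      simp only [mem_insert_iff, mem_singleton_iff] at hx
      rcases hx with rfl | rfl | rfl
      · simp [or_self3]
      · simp only [mem_ofPred_eq]; rw [or_swap']; linarith
      · simp [or_self2]
    have s2 : hull w0 (b :: t) ⊆ {x | 0 ≤ orient (toE w0) (toE b) x} := by
      apply convexHull_min _ (half_convex _ _)
      rintro x (rfl | ⟨w, hw, rfl⟩)
      · simp [or_self3]
      · rcases List.mem_cons.1 hw with rfl | hw'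
        · simp [or_self2]
        · simp only [mem_ofPred_eq]
          rw [orient_toE]
          exact_mod_cast (hp2.1 w hw').le
    have hdis : AEDisjoint volume (convexHull ℝ ({toE w0, toE a, toE b} : Set E2))
        (hull w0 (b :: t)) := by
      refine measure_mono_null ?_ (line_null (toE w0) (toE b) hne)
      rintro x ⟨hx1, hx2⟩
      exact le_antisymm (s1 hx1) (s2 hx2)
    calc ENNReal.ofReal ((fanS w0 (a :: b :: t) : ℝ) / 2) =
        ENNReal.ofReal (orient (toE w0) (toE a) (toE b) / 2) +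
          ENNReal.ofReal ((fanS w0 (b :: t) : ℝ) / 2) := by
          rw [← ENNReal.ofReal_add (by linarith) (by
            have : (0 : ℝ) ≤ fanS w0 (b :: t) := by exact_mod_cast hn
            linarith), orient_toE]
          congr 1
          simp only [fanS]
          push_cast
          ring
      _ ≤ volume (convexHull ℝ ({toE w0, toE a, toE b} : Set E2)) + volume (hull w0 (b :: t)) := by
          rw [tri_vol_pos _ _ _ hor]
          exact add_le_add le_rfl ih
      _ = volume (convexHull ℝ ({toE w0, toE a, toE b} : Set E2) ∪ hull w0 (b :: t)) :=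
          (measure_union₀' (tri_meas _ _ _).nullMeasurableSet hdis).symm
      _ ≤ volume (hull w0 (a :: b :: t)) := measure_mono hsub

lemma body_of_chk {L : List Z2} (h : chkS L) {c : Z2}
    (hc : ∀ i < L.length, 0 < oZ (vz L i) (vz L (i + 1)) c) : Body (pol L) := by
  refine ⟨convex_convexHull _ _, poly_compact _ _, toE c, ?_⟩
  apply (scp_of_chk h).interior_of
  intro i hi
  unfold vE
  rw [orient_toE]
  exact_mod_cast hc i hi

/-- Data of one approximate cross. -/
structure Dat where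
  p : ℤ
  q : ℤ
  P : Z2
  l1 : List Z2
  l2 : List Z2
  l3 : List Z2
  l4 : List Z2

namespace Dat

def f (D : Dat) (w : Z2) : ℤ := D.q * (w.1 - D.P.1) + D.p * (w.2 - D.P.2)
def g (D : Dat) (w : Z2) : ℤ := D.q * (w.2 - D.P.2) - D.p * (w.1 - D.P.1)

def inR (L : List Z2) (w : Z2) : Prop :=
  ∀ i < L.length, 0 ≤ oZ (vz L i) (vz L (i + 1)) w

instance (L : List Z2) (w : Z2) : Decidable (inR L w) := by unfold inR; infer_instance

def good (L : List Z2) (D : Dat) : Prop :=
  0 < D.q ∧ |D.p| < D.q ∧ inR L D.P ∧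
  (∀ w ∈ D.l1, inR L w ∧ 0 ≤ D.f w ∧ 0 ≤ D.g w) ∧
  (∀ w ∈ D.l2, inR L w ∧ D.f w ≤ 0 ∧ 0 ≤ D.g w) ∧
  (∀ w ∈ D.l3, inR L w ∧ D.f w ≤ 0 ∧ D.g w ≤ 0) ∧
  (∀ w ∈ D.l4, inR L w ∧ 0 ≤ D.f w ∧ D.g w ≤ 0) ∧
  D.l1.Pairwise (fun a b => 0 < oZ D.P a b) ∧ D.l2.Pairwise (fun a b => 0 < oZ D.P a b) ∧
  D.l3.Pairwise (fun a b => 0 < oZ D.P a b) ∧ D.l4.Pairwise (fun a b => 0 < oZ D.P a b)

instance (L : List Z2) (D : Dat) : Decidable (good L D) := by unfold good; infer_instance

def plus (L : List Z2) (D : Dat) : Prop :=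
  area2 L < 4 * fanS D.P D.l1 ∧ area2 L < 4 * fanS D.P D.l3 ∧
  3 * area2 L < 4 * (fanS D.P D.l1 + fanS D.P D.l3 + fanS D.P D.l4) ∧
  3 * area2 L < 4 * (fanS D.P D.l1 + fanS D.P D.l3 + fanS D.P D.l2)

instance (L : List Z2) (D : Dat) : Decidable (plus L D) := by unfold plus; infer_instance

def minus (L : List Z2) (D : Dat) : Prop :=
  area2 L < 4 * fanS D.P D.l2 ∧ area2 L < 4 * fanS D.P D.l4 ∧
  3 * area2 L < 4 * (fanS D.P D.l2 + fanS D.P D.l4 + fanS D.P D.l3) ∧
  3 * area2 L < 4 * (fanS D.P D.l2 + fanS D.P D.l4 + fanS D.P D.l1)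

instance (L : List Z2) (D : Dat) : Decidable (minus L D) := by unfold minus; infer_instance

end Dat

lemma piece_lower {L : List Z2} (h : Body (pol L)) (hS : chkS L) {P : Z2} {l : List Z2}
    (hp : l.Pairwise (fun a b => 0 < oZ P a b)) {S : Set E2} (hSm : MeasurableSet S)
    (hSc : Convex ℝ S) (hP : Dat.inR L P) (hPS : toE P ∈ S)
    (hl : ∀ w ∈ l, Dat.inR L w ∧ toE w ∈ S) :
    (fanS P l : ℝ) / 2 ≤ (mu (pol L)).real S := by
  have := h.fin
  have hin : ∀ w, Dat.inR L w → toE w ∈ pol L := by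
    intro w hw
    rw [pol, (scp_of_chk hS).mem_iff]
    intro i hi
    unfold vE
    rw [orient_toE]
    exact_mod_cast hw i hi
  have hsub : hull P l ⊆ S ∩ pol L := by
    apply convexHull_min _ (hSc.inter h.conv)
    rintro x (rfl | ⟨w, hw, rfl⟩)
    · exact ⟨hPS, hin _ hP⟩
    · exact ⟨(hl w hw).2, hin _ (hl w hw).1⟩
  have h1 : ENNReal.ofReal ((fanS P l : ℝ) / 2) ≤ (mu (pol L)) S := by
    unfold mu
    rw [Measure.restrict_apply hSm]
    exact (fan_lower P l hp).trans (measure_mono hsub)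
  have hn := fanS_nonneg P l hp
  exact (ENNReal.ofReal_le_iff_le_toReal (measure_ne_top _ _)).1 h1

lemma conv_ge (a : E2) (c : ℝ) : Convex ℝ {x : E2 | c ≤ dot a x} := by
  intro x hx y hy s t hs ht hst
  simp only [mem_ofPred_eq] at *
  have : dot a (s • x + t • y) = s * dot a x + t * dot a y := by simp [dot]; ring
  rw [this]
  have e : c = s * c + t * c := by rw [← add_mul, hst, one_mul]
  linarith [mul_le_mul_of_nonneg_left hx hs, mul_le_mul_of_nonneg_left hy ht]

lemma conv_le (a : E2) (c : ℝ) : Convex ℝ {x : E2 | dot a x ≤ c} := by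
  intro x hx y hy s t hs ht hst
  simp only [mem_ofPred_eq] at *
  have : dot a (s • x + t • y) = s * dot a x + t * dot a y := by simp [dot]; ring
  rw [this]
  have e : c = s * c + t * c := by rw [← add_mul, hst, one_mul]
  linarith [mul_le_mul_of_nonneg_left hx hs, mul_le_mul_of_nonneg_left hy ht]

lemma cert_aux {L : List Z2} (h : Body (pol L)) (hS : chkS L) (D : Dat) (hD : D.good L) :
    ∃ c d : ℝ, (fanS D.P D.l1 : ℝ) / 2 ≤ App (pol L) !₂[1, (D.p : ℝ) / D.q]
        (rot !₂[1, (D.p : ℝ) / D.q]) c d ∧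
      (fanS D.P D.l2 : ℝ) / 2 ≤ Amp (pol L) !₂[1, (D.p : ℝ) / D.q]
        (rot !₂[1, (D.p : ℝ) / D.q]) c d ∧
      (fanS D.P D.l3 : ℝ) / 2 ≤ Amm (pol L) !₂[1, (D.p : ℝ) / D.q]
        (rot !₂[1, (D.p : ℝ) / D.q]) c d ∧
      (fanS D.P D.l4 : ℝ) / 2 ≤ Apm (pol L) !₂[1, (D.p : ℝ) / D.q]
        (rot !₂[1, (D.p : ℝ) / D.q]) c d ∧
      App (pol L) !₂[1, (D.p : ℝ) / D.q] (rot !₂[1, (D.p : ℝ) / D.q]) c d +
      Amp (pol L) !₂[1, (D.p : ℝ) / D.q] (rot !₂[1, (D.p : ℝ) / D.q]) c d +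
      Amm (pol L) !₂[1, (D.p : ℝ) / D.q] (rot !₂[1, (D.p : ℝ) / D.q]) c d +
      Apm (pol L) !₂[1, (D.p : ℝ) / D.q] (rot !₂[1, (D.p : ℝ) / D.q]) c d = M (pol L) ∧
      M (pol L) ≤ (area2 L : ℝ) / 2 := by
  obtain ⟨hq, _, hP, h1, h2, h3, h4, p1, p2, p3, p4⟩ := hD
  have hf := h.fin
  have hq' : (0 : ℝ) < D.q := by exact_mod_cast hq
  set u : E2 := !₂[1, (D.p : ℝ) / D.q] with hu
  have hdf : ∀ w : Z2, dot u (toE w) = dot u (toE D.P) + (D.f w : ℝ) / D.q := by
    intro w
    simp [hu, dot, toE, Dat.f]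
    field_simp
    ring
  have hdg : ∀ w : Z2, dot (rot u) (toE w) = dot (rot u) (toE D.P) + (D.g w : ℝ) / D.q := by
    intro w
    simp [hu, dot, toE, Dat.g]
    field_simp
    ring
  refine ⟨dot u (toE D.P), dot (rot u) (toE D.P), ?_, ?_, ?_, ?_, ?_, ?_⟩
  · apply piece_lower h hS p1 ((half_meas _ _).inter (half_meas _ _))
      ((conv_ge _ _).inter (conv_ge _ _)) hP ⟨(le_refl _ : dot u (toE D.P) ≤ dot u (toE D.P)),
        (le_refl _ : dot (rot u) (toE D.P) ≤ dot (rot u) (toE D.P))⟩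
    intro w hw
    obtain ⟨e1, e2, e3⟩ := h1 w hw
    have f1 : (0 : ℝ) ≤ (D.f w : ℝ) / D.q := div_nonneg (by exact_mod_cast e2) hq'.le
    have f2 : (0 : ℝ) ≤ (D.g w : ℝ) / D.q := div_nonneg (by exact_mod_cast e3) hq'.le
    refine ⟨e1, ?_, ?_⟩
    · simp only [mem_ofPred_eq]; rw [hdf w]; linarith
    · simp only [mem_ofPred_eq]; rw [hdg w]; linarith
  · apply piece_lower h hS p2 ((half_meas' _ _).inter (half_meas _ _))
      ((conv_le _ _).inter (conv_ge _ _)) hP ⟨(le_refl _ : dot u (toE D.P) ≤ dot u (toE D.P)),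
        (le_refl _ : dot (rot u) (toE D.P) ≤ dot (rot u) (toE D.P))⟩
    intro w hw
    obtain ⟨e1, e2, e3⟩ := h2 w hw
    have f1 : (D.f w : ℝ) / D.q ≤ 0 := div_nonpos_of_nonpos_of_nonneg (by exact_mod_cast e2) hq'.le
    have f2 : (0 : ℝ) ≤ (D.g w : ℝ) / D.q := div_nonneg (by exact_mod_cast e3) hq'.le
    refine ⟨e1, ?_, ?_⟩
    · simp only [mem_ofPred_eq]; rw [hdf w]; linarith
    · simp only [mem_ofPred_eq]; rw [hdg w]; linarith
  · apply piece_lower h hS p3 ((half_meas' _ _).inter (half_meas' _ _))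
      ((conv_le _ _).inter (conv_le _ _)) hP ⟨(le_refl _ : dot u (toE D.P) ≤ dot u (toE D.P)),
        (le_refl _ : dot (rot u) (toE D.P) ≤ dot (rot u) (toE D.P))⟩
    intro w hw
    obtain ⟨e1, e2, e3⟩ := h3 w hw
    have f1 : (D.f w : ℝ) / D.q ≤ 0 := div_nonpos_of_nonpos_of_nonneg (by exact_mod_cast e2) hq'.le
    have f2 : (D.g w : ℝ) / D.q ≤ 0 := div_nonpos_of_nonpos_of_nonneg (by exact_mod_cast e3) hq'.le
    refine ⟨e1, ?_, ?_⟩
    · simp only [mem_ofPred_eq]; rw [hdf w]; linarith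
    · simp only [mem_ofPred_eq]; rw [hdg w]; linarith
  · apply piece_lower h hS p4 ((half_meas _ _).inter (half_meas' _ _))
      ((conv_ge _ _).inter (conv_le _ _)) hP ⟨(le_refl _ : dot u (toE D.P) ≤ dot u (toE D.P)),
        (le_refl _ : dot (rot u) (toE D.P) ≤ dot (rot u) (toE D.P))⟩
    intro w hw
    obtain ⟨e1, e2, e3⟩ := h4 w hw
    have f1 : (0 : ℝ) ≤ (D.f w : ℝ) / D.q := div_nonneg (by exact_mod_cast e2) hq'.le
    have f2 : (D.g w : ℝ) / D.q ≤ 0 := div_nonpos_of_nonpos_of_nonneg (by exact_mod_cast e3) hq'.le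
    refine ⟨e1, ?_, ?_⟩
    · simp only [mem_ofPred_eq]; rw [hdf w]; linarith
    · simp only [mem_ofPred_eq]; rw [hdg w]; linarith
  · have hu0 : u ≠ 0 := dir_ne _
    have hru := rot_ne hu0
    have s1 := split h {x | dot u (toE D.P) ≤ dot u x} (rot u) hru (dot (rot u) (toE D.P))
    have s2 := split h {x | dot u x ≤ dot u (toE D.P)} (rot u) hru (dot (rot u) (toE D.P))
    have s4 := split h univ u hu0 (dot u (toE D.P))
    rw [univ_inter, univ_inter] at s4
    unfold M App Apm Amp Amm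
    linarith
  · have hv := vol_pol_le hS
    have h5 : (mu (pol L)) univ = volume (pol L) := by
      unfold mu; rw [Measure.restrict_apply MeasurableSet.univ, univ_inter]
    unfold M Measure.real
    rw [h5]
    have hpos : 0 ≤ (area2 L : ℝ) / 2 := by
      by_contra hc
      push Not at hc
      rw [ENNReal.ofReal_of_nonpos hc.le] at hv
      have hM := M_pos h
      unfold M Measure.real at hM
      rw [h5, nonpos_iff_eq_zero.1 hv] at hM
      simp at hM
    exact ENNReal.toReal_le_of_le_ofReal hpos hv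

lemma cert_plus {L : List Z2} (h : Body (pol L)) (hS : chkS L) (D : Dat) (hD : D.good L)
    (hp : D.plus L) : Plus (pol L) ((D.p : ℝ) / D.q) := by
  obtain ⟨c, d, h1, h2, h3, h4, h5, h6⟩ := cert_aux h hS D hD
  obtain ⟨g1, g2, g3, g4⟩ := hp
  have g1' : (area2 L : ℝ) < 4 * fanS D.P D.l1 := by exact_mod_cast g1
  have g2' : (area2 L : ℝ) < 4 * fanS D.P D.l3 := by exact_mod_cast g2
  have g3' : 3 * (area2 L : ℝ) < 4 * (fanS D.P D.l1 + fanS D.P D.l3 + fanS D.P D.l4) := by
    exact_mod_cast g3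
  have g4' : 3 * (area2 L : ℝ) < 4 * (fanS D.P D.l1 + fanS D.P D.l3 + fanS D.P D.l2) := by
    exact_mod_cast g4
  exact ⟨c, d, by linarith, by linarith, by linarith, by linarith⟩

lemma cert_minus {L : List Z2} (h : Body (pol L)) (hS : chkS L) (D : Dat) (hD : D.good L)
    (hp : D.minus L) : Minus (pol L) ((D.p : ℝ) / D.q) := by
  obtain ⟨c, d, h1, h2, h3, h4, h5, h6⟩ := cert_aux h hS D hD
  obtain ⟨g1, g2, g3, g4⟩ := hp
  have g1' : (area2 L : ℝ) < 4 * fanS D.P D.l2 := by exact_mod_cast g1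
  have g2' : (area2 L : ℝ) < 4 * fanS D.P D.l4 := by exact_mod_cast g2
  have g3' : 3 * (area2 L : ℝ) < 4 * (fanS D.P D.l2 + fanS D.P D.l4 + fanS D.P D.l3) := by
    exact_mod_cast g3
  have g4' : 3 * (area2 L : ℝ) < 4 * (fanS D.P D.l2 + fanS D.P D.l4 + fanS D.P D.l1) := by
    exact_mod_cast g4
  exact ⟨c, d, by linarith, by linarith, by linarith, by linarith⟩

/-- The full check. -/
def Cert (L : List Z2) (c : Z2) (n : ℕ) (ds : ℕ → Dat) : Prop :=
  chkS L ∧ (∀ i < L.length, 0 < oZ (vz L i) (vz L (i + 1)) c) ∧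
  (∀ i < n + 1, (ds i).good L ∧ if i % 2 = 0 then (ds i).plus L else (ds i).minus L) ∧
  (∀ i < n, (ds i).p * (ds (i + 1)).q < (ds (i + 1)).p * (ds i).q)

instance (L : List Z2) (c : Z2) (n : ℕ) (ds : ℕ → Dat) : Decidable (Cert L c n ds) := by
  unfold Cert; infer_instance

theorem cert_sound {L : List Z2} {c : Z2} {n : ℕ} {ds : ℕ → Dat} (h : Cert L c n ds) :
    IsGon L.length (pol L) ∧ (n : ℕ∞) ≤ {q | IsQuadrisection (pol L) q}.encard := by
  obtain ⟨hS, hc, hd, hm⟩ := h
  have hB := body_of_chk hS hc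
  refine ⟨(scp_of_chk hS).isGon hB.int, ?_⟩
  apply many hB n (fun i => ((ds i).p : ℝ) / (ds i).q)
  · intro i hi
    obtain ⟨⟨hq, hpq, _⟩, _⟩ := hd i (by omega)
    have hq' : (0 : ℝ) < (ds i).q := by exact_mod_cast hq
    rw [abs_div, abs_of_pos hq', div_lt_one hq']
    exact_mod_cast hpq
  · intro i hi
    obtain ⟨⟨hq, _⟩, _⟩ := hd i (by omega)
    obtain ⟨⟨hq2, _⟩, _⟩ := hd (i + 1) (by omega)
    have hq' : (0 : ℝ) < (ds i).q := by exact_mod_cast hq
    have hq2' : (0 : ℝ) < (ds (i + 1)).q := by exact_mod_cast hq2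
    show ((ds i).p : ℝ) / (ds i).q < ((ds (i + 1)).p : ℝ) / (ds (i + 1)).q
    rw [div_lt_div_iff₀ hq' hq2']
    exact_mod_cast hm i hi
  · intro i hi
    obtain ⟨hg, hs⟩ := hd i (by omega)
    split_ifs at hs ⊢ with h1
    · exact cert_plus hB hS _ hg hs
    · exact cert_minus hB hS _ hg hs

end Pool.V11275.Quad
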